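import Mathlib

open scoped Manifold ContDiff Topology
open Set Filter

noncomputable section

namespace Pool.Agent.MP_602746_gt

section LocalDiffeo

variable {V : Type*} [NormedAddCommGroup V] [NormedSpace ℝ V] [FiniteDimensional ℝ V]
  {V' : Type*} [NormedAddCommGroup V'] [NormedSpace ℝ V'] [FiniteDimensional ℝ V']

/-- Inverse function theorem: a map between finite-dimensional spaces that is smooth near `x` and
has bijective derivative at `x` is a local diffeomorphism at `x`. -/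
theorem isLocalDiffeomorphAt_of_bijective {f : V → V'} {x : V}
    (hf : ∀ᶠ y in 𝓝 x, ContDiffAt ℝ ∞ f y) (hb : Function.Bijective (fderiv ℝ f x)) :
    IsLocalDiffeomorphAt 𝓘(ℝ, V) 𝓘(ℝ, V') ∞ f x := by
  have : CompleteSpace V := FiniteDimensional.complete ℝ V
  have : CompleteSpace V' := FiniteDimensional.complete ℝ V'
  have hx : ContDiffAt ℝ ∞ f x := hf.self_of_nhds
  let f' : V ≃L[ℝ] V' := ContinuousLinearEquiv.ofBijective (fderiv ℝ f x)
    (LinearMap.ker_eq_bot.2 hb.1) (LinearMap.range_eq_top.2 hb.2)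
  have hf' : HasFDerivAt f (f' : V →L[ℝ] V') x := by
    have : (f' : V →L[ℝ] V') = fderiv ℝ f x := by
      ext v; simp [f']
    rw [this]
    exact (hx.differentiableAt (by simp)).hasFDerivAt
  let g := ContDiffAt.toOpenPartialHomeomorph f hx hf' (by simp)
  have hgx : x ∈ g.source := ContDiffAt.mem_toOpenPartialHomeomorph_source hx hf' (by simp)
  have hgf : ∀ y, g y = f y := fun y => by
    rw [ContDiffAt.toOpenPartialHomeomorph_coe]
  -- derivative invertible near x
  have hinv : ∀ᶠ y in 𝓝 x, fderiv ℝ f y ∈ range ((↑) : (V ≃L[ℝ] V') → V →L[ℝ] V') := by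
    have hc : ContinuousAt (fderiv ℝ f) x :=
      (hx.fderiv_right (m := 0) (by simp)).continuousAt
    have : range ((↑) : (V ≃L[ℝ] V') → V →L[ℝ] V') ∈ 𝓝 (fderiv ℝ f x) := by
      have h1 : (f' : V →L[ℝ] V') = fderiv ℝ f x := by
        ext v; simp [f']
      rw [← h1]
      exact ContinuousLinearEquiv.nhds f'
    exact hc this
  obtain ⟨O, hO, hOo, hxO⟩ := eventually_nhds_iff.1 (hf.and hinv)
  let k := g.restrOpen O hOo
  refine ⟨⟨k.toPartialEquiv, k.open_source, k.open_target, ?_, ?_⟩, ?_, ?_⟩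
  · intro y hy
    have hy' : y ∈ g.source ∩ O := by simpa [k] using hy
    apply ContMDiffAt.contMDiffWithinAt
    rw [contMDiffAt_iff_contDiffAt]
    refine (hO y hy'.2).1.congr_of_eventuallyEq ?_
    filter_upwards with z
    exact hgf z
  · intro y hy
    apply ContMDiffAt.contMDiffWithinAt
    rw [contMDiffAt_iff_contDiffAt]
    have hy1 : k.symm y ∈ k.source := k.map_target hy
    have hy' : k.symm y ∈ g.source ∩ O := by simpa [k] using hy1
    obtain ⟨e, he⟩ := (hO _ hy'.2).2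
    have hkf : (k : V → V') = f := by
      funext z; exact hgf z
    refine k.contDiffAt_symm hy (f₀' := e) ?_ ?_
    · rw [he, hkf]
      exact ((hO _ hy'.2).1.differentiableAt (by simp)).hasFDerivAt
    · rw [hkf]
      exact (hO _ hy'.2).1
  · show x ∈ k.source
    have : x ∈ g.source ∩ O := ⟨hgx, hxO⟩
    simpa [k] using this
  · intro y _
    exact (hgf y).symm

/-- A map with a smooth local inverse is a local diffeomorphism. -/
theorem isLocalDiffeomorphAt_of_inverse {f : V → V'} {g : V' → V} {x : V}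
    (hf : ∀ᶠ y in 𝓝 x, ContDiffAt ℝ ∞ f y) (hg : ContDiffAt ℝ ∞ g (f x))
    (hgf : ∀ᶠ y in 𝓝 x, g (f y) = y) (hfg : ∀ᶠ z in 𝓝 (f x), f (g z) = z) :
    IsLocalDiffeomorphAt 𝓘(ℝ, V) 𝓘(ℝ, V') ∞ f x := by
  refine isLocalDiffeomorphAt_of_bijective hf ?_
  have hx : ContDiffAt ℝ ∞ f x := hf.self_of_nhds
  have hgx : g (f x) = x := hgf.self_of_nhds
  have h1 : HasFDerivAt f (fderiv ℝ f x) x := (hx.differentiableAt (by simp)).hasFDerivAt
  have h2 : HasFDerivAt g (fderiv ℝ g (f x)) (f x) := (hg.differentiableAt (by simp)).hasFDerivAt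
  have h3 : HasFDerivAt (fun y => g (f y)) ((fderiv ℝ g (f x)).comp (fderiv ℝ f x)) x :=
    h2.comp x h1
  have h4 : HasFDerivAt (fun y => g (f y)) (ContinuousLinearMap.id ℝ V) x :=
    (hasFDerivAt_id x).congr_of_eventuallyEq hgf
  have h5 := h3.unique h4
  have h6 : HasFDerivAt (fun z => f (g z)) ((fderiv ℝ f x).comp (fderiv ℝ g (f x))) (f x) := by
    have h1' : HasFDerivAt f (fderiv ℝ f x) (g (f x)) := by rw [hgx]; exact h1
    exact h1'.comp (f x) h2
  have h7 : HasFDerivAt (fun z => f (g z)) (ContinuousLinearMap.id ℝ V') (f x) :=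
    (hasFDerivAt_id (f x)).congr_of_eventuallyEq hfg
  have h8 := h6.unique h7
  constructor
  · intro a b hab
    have ha := DFunLike.congr_fun h5 a
    have hb := DFunLike.congr_fun h5 b
    simp only [ContinuousLinearMap.comp_apply, ContinuousLinearMap.id_apply] at ha hb
    rw [← ha, ← hb, hab]
  · intro c
    refine ⟨fderiv ℝ g (f x) c, ?_⟩
    have hc := DFunLike.congr_fun h8 c
    simpa using hc

omit [FiniteDimensional ℝ V] [FiniteDimensional ℝ V'] in
theorem IsLocalDiffeomorphAt.smooth_near' {f : V → V'} {x : V}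
    (h : IsLocalDiffeomorphAt 𝓘(ℝ, V) 𝓘(ℝ, V') ∞ f x) : ∀ᶠ y in 𝓝 x, ContDiffAt ℝ ∞ f y := by
  obtain ⟨Φ, hx, he⟩ := h
  filter_upwards [Φ.open_source.mem_nhds hx] with y hy
  rw [← contMDiffAt_iff_contDiffAt]
  have h1 : ContMDiffAt 𝓘(ℝ, V) 𝓘(ℝ, V') ∞ Φ y :=
    (Φ.contMDiffOn_toFun y hy).contMDiffAt (Φ.open_source.mem_nhds hy)
  refine h1.congr_of_eventuallyEq ?_
  filter_upwards [Φ.open_source.mem_nhds hy] with z hz
  exact he hz

theorem IsLocalDiffeomorphAt.bijective_fderiv' {f : V → V'} {x : V}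
    (h : IsLocalDiffeomorphAt 𝓘(ℝ, V) 𝓘(ℝ, V') ∞ f x) : Function.Bijective (fderiv ℝ f x) := by
  have hx : ContDiffAt ℝ ∞ f x := (IsLocalDiffeomorphAt.smooth_near' h).self_of_nhds
  have hg : ContDiffAt ℝ ∞ h.localInverse (f x) := by
    rw [← contMDiffAt_iff_contDiffAt]
    exact h.localInverse_contMDiffAt
  have hgf : ∀ᶠ y in 𝓝 x, h.localInverse (f y) = y := h.localInverse_eventuallyEq_left
  have hfg : ∀ᶠ z in 𝓝 (f x), f (h.localInverse z) = z := h.localInverse_eventuallyEq_right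
  have hgx : h.localInverse (f x) = x := hgf.self_of_nhds
  have h1 : HasFDerivAt f (fderiv ℝ f x) x := (hx.differentiableAt (by simp)).hasFDerivAt
  have h2 : HasFDerivAt h.localInverse (fderiv ℝ h.localInverse (f x)) (f x) :=
    (hg.differentiableAt (by simp)).hasFDerivAt
  have h3 : HasFDerivAt (fun y => h.localInverse (f y))
      ((fderiv ℝ h.localInverse (f x)).comp (fderiv ℝ f x)) x := h2.comp x h1
  have h4 : HasFDerivAt (fun y => h.localInverse (f y)) (ContinuousLinearMap.id ℝ V) x :=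
    (hasFDerivAt_id x).congr_of_eventuallyEq hgf
  have h5 := h3.unique h4
  have h6 : HasFDerivAt (fun z => f (h.localInverse z))
      ((fderiv ℝ f x).comp (fderiv ℝ h.localInverse (f x))) (f x) := by
    have h1' : HasFDerivAt f (fderiv ℝ f x) (h.localInverse (f x)) := by rw [hgx]; exact h1
    exact h1'.comp (f x) h2
  have h7 : HasFDerivAt (fun z => f (h.localInverse z)) (ContinuousLinearMap.id ℝ V') (f x) :=
    (hasFDerivAt_id (f x)).congr_of_eventuallyEq hfg
  have h8 := h6.unique h7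
  constructor
  · intro a b hab
    have ha := DFunLike.congr_fun h5 a
    have hb := DFunLike.congr_fun h5 b
    simp only [ContinuousLinearMap.comp_apply, ContinuousLinearMap.id_apply] at ha hb
    rw [← ha, ← hb, hab]
  · intro c
    refine ⟨fderiv ℝ h.localInverse (f x) c, ?_⟩
    have hc := DFunLike.congr_fun h8 c
    simpa using hc

/-- The product of a local diffeomorphism with an identity map. -/
theorem IsLocalDiffeomorphAt.prod_id' {W : Type*} [NormedAddCommGroup W] [NormedSpace ℝ W]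
    [FiniteDimensional ℝ W] {f : V → V'} {x : V}
    (h : IsLocalDiffeomorphAt 𝓘(ℝ, V) 𝓘(ℝ, V') ∞ f x) (w : W) :
    IsLocalDiffeomorphAt 𝓘(ℝ, V × W) 𝓘(ℝ, V' × W) ∞ (fun z : V × W => (f z.1, z.2)) (x, w) := by
  have h1 := IsLocalDiffeomorphAt.smooth_near' h
  have h2 := IsLocalDiffeomorphAt.bijective_fderiv' h
  refine isLocalDiffeomorphAt_of_bijective ?_ ?_
  · have hc : ContinuousAt (fun z : V × W => z.1) (x, w) := continuousAt_fst
    filter_upwards [hc.eventually h1] with z hz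
    have h3 : ContDiffAt ℝ ∞ (fun z : V × W => f z.1) z :=
      ContDiffAt.comp z (g := f) (f := fun z : V × W => z.1) hz contDiffAt_fst
    exact h3.prodMk contDiffAt_snd
  · have h3 : HasFDerivAt f (fderiv ℝ f x) x :=
      (h1.self_of_nhds.differentiableAt (by simp)).hasFDerivAt
    have h4 : HasFDerivAt (fun z : V × W => (f z.1, z.2))
        (((fderiv ℝ f x).comp (ContinuousLinearMap.fst ℝ V W)).prod
          (ContinuousLinearMap.snd ℝ V W)) (x, w) := by
      refine HasFDerivAt.prodMk ?_ hasFDerivAt_snd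
      exact HasFDerivAt.comp (x, w) (g := f) (f := fun z : V × W => z.1) h3 hasFDerivAt_fst
    rw [h4.fderiv]
    constructor
    · rintro ⟨a, b⟩ ⟨c, d⟩ hab
      simp only [ContinuousLinearMap.prod_apply, ContinuousLinearMap.comp_apply,
        ContinuousLinearMap.coe_fst', ContinuousLinearMap.coe_snd', Prod.mk.injEq] at hab
      rw [h2.1 hab.1, hab.2]
    · rintro ⟨c, d⟩
      obtain ⟨a, ha⟩ := h2.2 c
      exact ⟨(a, d), by simp [ha]⟩

end LocalDiffeo

section SameLeaves

variable {N : Type*} [TopologicalSpace N]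
  {V : Type*} [NormedAddCommGroup V] [NormedSpace ℝ V]

/-- Two `V`-valued map germs at `n` have the same level sets near `n`, i.e. they differ by
(post-composition with) a local diffeomorphism of `V`. -/
def SameLeaves (n : N) (F F' : N → V) : Prop :=
  ∃ η : V → V, IsLocalDiffeomorphAt 𝓘(ℝ, V) 𝓘(ℝ, V) ∞ η (F n) ∧ ∀ᶠ n' in 𝓝 n, F' n' = η (F n')

theorem isLocalDiffeomorphAt_id (x : V) :
    IsLocalDiffeomorphAt 𝓘(ℝ, V) 𝓘(ℝ, V) ∞ (fun v : V => v) x :=
  (Diffeomorph.refl 𝓘(ℝ, V) V ∞).isLocalDiffeomorph x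

theorem SameLeaves.refl (n : N) (F : N → V) : SameLeaves n F F :=
  ⟨fun v => v, isLocalDiffeomorphAt_id _, Eventually.of_forall fun _ => rfl⟩

theorem SameLeaves.of_eventuallyEq {n : N} {F F' : N → V} (h : ∀ᶠ n' in 𝓝 n, F' n' = F n') :
    SameLeaves n F F' :=
  ⟨fun v => v, isLocalDiffeomorphAt_id _, h⟩

theorem SameLeaves.trans {n : N} {F F' F'' : N → V} (h : SameLeaves n F F')
    (h' : SameLeaves n F' F'') : SameLeaves n F F'' := by
  obtain ⟨η, hη, he⟩ := h
  obtain ⟨η', hη', he'⟩ := h'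
  have h3 : IsLocalDiffeomorphAt 𝓘(ℝ, V) 𝓘(ℝ, V) ∞ η' (η (F n)) := by
    rw [← he.self_of_nhds]; exact hη'
  refine ⟨η' ∘ η, IsLocalDiffeomorphAt.comp 𝓘(ℝ, V) _ hη h3, ?_⟩
  · filter_upwards [he, he'] with n' h1 h2
    rw [h2, h1]; rfl

theorem SameLeaves.symm {n : N} {F F' : N → V} (hF : ContinuousAt F n) (h : SameLeaves n F F') :
    SameLeaves n F' F := by
  obtain ⟨η, hη, he⟩ := h
  refine ⟨hη.localInverse, ?_, ?_⟩
  · rw [he.self_of_nhds]
    exact hη.localInverse_isLocalDiffeomorphAt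
  · have h1 : ∀ᶠ v in 𝓝 (F n), hη.localInverse (η v) = v := hη.localInverse_eventuallyEq_left
    filter_upwards [he, hF.eventually h1] with n' h2 h3
    rw [h2, h3]

/-- Pulling back along a map continuous at the point. -/
theorem SameLeaves.comp {N' : Type*} [TopologicalSpace N'] {n' : N'} {g : N' → N}
    {F F' : N → V} (hg : ContinuousAt g n') (h : SameLeaves (g n') F F') :
    SameLeaves n' (fun x => F (g x)) (fun x => F' (g x)) := by
  obtain ⟨η, hη, he⟩ := h
  exact ⟨η, hη, hg.eventually he⟩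

theorem SameLeaves.congr {n : N} {F F' G G' : N → V} (h : SameLeaves n F F')
    (hF : ∀ᶠ n' in 𝓝 n, G n' = F n') (hF' : ∀ᶠ n' in 𝓝 n, G' n' = F' n') :
    SameLeaves n G G' := by
  obtain ⟨η, hη, he⟩ := h
  refine ⟨η, ?_, ?_⟩
  · rw [hF.self_of_nhds]; exact hη
  · filter_upwards [hF, hF', he] with n' h1 h2 h3
    rw [h2, h3, h1]

theorem SameLeaves.prod {W : Type*} [NormedAddCommGroup W] [NormedSpace ℝ W]
    [FiniteDimensional ℝ W] [FiniteDimensional ℝ V] {n : N} {F F' : N → V} (h : SameLeaves n F F')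
    (k : N → W) : SameLeaves n (fun x => (F x, k x)) (fun x => (F' x, k x)) := by
  obtain ⟨η, hη, he⟩ := h
  refine ⟨fun z => (η z.1, z.2), IsLocalDiffeomorphAt.prod_id' hη (k n), ?_⟩
  filter_upwards [he] with x hx
  simp [hx]

end SameLeaves

end Pool.Agent.MP_602746_gt
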