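import Mathlib
import Pool.Agent.MP_602746_gt.Basic

open scoped Manifold ContDiff Topology
open Set Filter

noncomputable section

namespace Pool.Agent.MP_602746_gt

variable {EG : Type*} [NormedAddCommGroup EG] [NormedSpace ℝ EG] {HG : Type*} [TopologicalSpace HG]
  {IG : ModelWithCorners ℝ EG HG} {G : Type*} [TopologicalSpace G] [ChartedSpace HG G] [Group G]
  {V : Type*} [NormedAddCommGroup V] [NormedSpace ℝ V]

variable (IG) in
/-- `a : G × V → V` is, near `(1, p)`, a smooth local action of the Lie group `G` on `V`. -/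
structure IsLocalAction (a : G × V → V) (p : V) : Prop where
  smooth : ∀ᶠ z in 𝓝 ((1 : G), p), ContMDiffAt (IG.prod 𝓘(ℝ, V)) 𝓘(ℝ, V) ∞ a z
  one : ∀ᶠ v in 𝓝 p, a (1, v) = v
  mul : ∀ᶠ z in 𝓝 (((1 : G), (1 : G)), p),
    a (z.1.1 * z.1.2, z.2) = a (z.1.1, a (z.1.2, z.2))

namespace IsLocalAction

variable {a : G × V → V} {p : V}

theorem apply_one (ha : IsLocalAction IG a p) : a (1, p) = p := ha.one.self_of_nhds

theorem continuousAt (ha : IsLocalAction IG a p) : ContinuousAt a (1, p) :=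
  ha.smooth.self_of_nhds.continuousAt

variable [LieGroup IG ∞ G]

include IG in
theorem continuous_inv' : Continuous (fun g : G => g⁻¹) := by
  have := topologicalGroup_of_lieGroup IG ∞ (G := G)
  exact continuous_inv

theorem left_inv (ha : IsLocalAction IG a p) :
    ∀ᶠ z in 𝓝 ((1 : G), p), a (z.1⁻¹, a (z.1, z.2)) = z.2 := by
  have := topologicalGroup_of_lieGroup IG ∞ (G := G)
  have hc : Tendsto (fun z : G × V => ((z.1⁻¹, z.1), z.2)) (𝓝 ((1 : G), p))
      (𝓝 (((1 : G), (1 : G)), p)) := by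
    have : ContinuousAt (fun z : G × V => ((z.1⁻¹, z.1), z.2)) ((1 : G), p) := by fun_prop
    have h := this.tendsto
    simpa using h
  have hc2 : Tendsto (fun z : G × V => z.2) (𝓝 ((1 : G), p)) (𝓝 p) :=
    (continuous_snd.tendsto _)
  filter_upwards [hc.eventually ha.mul, hc2.eventually ha.one] with z h1 h2
  simp only [inv_mul_cancel] at h1
  rw [← h1, h2]

theorem right_inv (ha : IsLocalAction IG a p) :
    ∀ᶠ z in 𝓝 ((1 : G), p), a (z.1, a (z.1⁻¹, z.2)) = z.2 := by
  have := topologicalGroup_of_lieGroup IG ∞ (G := G)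
  have hc : Tendsto (fun z : G × V => (z.1⁻¹, z.2)) (𝓝 ((1 : G), p)) (𝓝 ((1 : G), p)) := by
    have : ContinuousAt (fun z : G × V => (z.1⁻¹, z.2)) ((1 : G), p) := by fun_prop
    have h := this.tendsto
    simpa using h
  filter_upwards [hc.eventually ha.left_inv] with z h1
  simpa using h1

variable [FiniteDimensional ℝ V]

theorem localDiffeo (ha : IsLocalAction IG a p) :
    ∀ᶠ z in 𝓝 ((1 : G), p), IsLocalDiffeomorphAt 𝓘(ℝ, V) 𝓘(ℝ, V) ∞ (fun v => a (z.1, v)) z.2 := by
  have := topologicalGroup_of_lieGroup IG ∞ (G := G)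
  -- `z ↦ (z.1, a z)` and `z ↦ (z.1⁻¹, a z)` tend to `(1, p)`
  have hc1 : Tendsto (fun z : G × V => (z.1, a z)) (𝓝 ((1 : G), p)) (𝓝 ((1 : G), p)) := by
    have h : ContinuousAt (fun z : G × V => (z.1, a z)) ((1 : G), p) :=
      continuousAt_fst.prodMk ha.continuousAt
    have h' := h.tendsto
    simpa [ha.apply_one] using h'
  have hc2 : Tendsto (fun z : G × V => (z.1⁻¹, a z)) (𝓝 ((1 : G), p)) (𝓝 ((1 : G), p)) := by
    have h : ContinuousAt (fun z : G × V => (z.1⁻¹, a z)) ((1 : G), p) :=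
      (continuousAt_fst.inv).prodMk ha.continuousAt
    have h' := h.tendsto
    simpa [ha.apply_one] using h'
  -- slices
  have slice : ∀ (z : G × V) (P : G × V → Prop), (∀ᶠ z' in 𝓝 z, P z') →
      ∀ᶠ v in 𝓝 z.2, P (z.1, v) := by
    intro z P hP
    have h : ContinuousAt (fun v : V => (z.1, v)) z.2 := by fun_prop
    exact h.eventually hP
  have smoothslice : ∀ z : G × V, ContMDiffAt (IG.prod 𝓘(ℝ, V)) 𝓘(ℝ, V) ∞ a z →
      ContDiffAt ℝ ∞ (fun v => a (z.1, v)) z.2 := by
    intro z hz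
    rw [← contMDiffAt_iff_contDiffAt]
    have h1 : ContMDiffAt 𝓘(ℝ, V) (IG.prod 𝓘(ℝ, V)) ∞ (fun v : V => (z.1, v)) z.2 :=
      contMDiffAt_const.prodMk contMDiffAt_id
    exact ContMDiffAt.comp z.2 (g := a) (f := fun v : V => (z.1, v)) hz h1
  filter_upwards [ha.smooth.eventually_nhds, ha.left_inv.eventually_nhds,
    hc1.eventually ha.right_inv.eventually_nhds, hc2.eventually ha.smooth] with z h1 h2 h3 h4
  refine isLocalDiffeomorphAt_of_inverse (g := fun w => a (z.1⁻¹, w)) ?_ ?_ ?_ ?_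
  · filter_upwards [slice z _ h1] with v hv
    exact smoothslice _ hv
  · exact smoothslice (z.1⁻¹, a z) h4
  · exact slice z _ h2
  · exact slice (z.1, a z) _ h3

end IsLocalAction

end Pool.Agent.MP_602746_gt
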