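import Mathlib

open scoped ContDiff Topology
open Set Filter

noncomputable section

namespace Pool.Agent.MP_602746_gt

section

variable {W : Type*} [NormedAddCommGroup W] [NormedSpace ℝ W]
  {E : Type*} [NormedAddCommGroup E] [NormedSpace ℝ E]

/-- A closed germ of `1`-form is the differential of a smooth function germ. -/
theorem exists_primitive [CompleteSpace E] (β : W → W →L[ℝ] E)
    (hβ : ∀ᶠ w in 𝓝 (0 : W), ContDiffAt ℝ ∞ β w)
    (hsym : ∀ᶠ w in 𝓝 (0 : W), ∀ u v, fderiv ℝ β w u v = fderiv ℝ β w v u) :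
    ∃ χ : W → E, χ 0 = 0 ∧ (∀ᶠ w in 𝓝 (0 : W), ContDiffAt ℝ ∞ χ w) ∧
      ∀ᶠ w in 𝓝 (0 : W), HasFDerivAt χ (β w) w := by
  obtain ⟨r, hr, hball⟩ := Metric.eventually_nhds_iff_ball.1 (hβ.and hsym)
  have hs : Convex ℝ (Metric.ball (0 : W) r) := convex_ball 0 r
  obtain ⟨f, hf⟩ := hs.exists_forall_hasFDerivAt_of_fderiv_symmetric Metric.isOpen_ball
    (fun w hw => ((hball w hw).1.differentiableAt (by simp)).differentiableWithinAt)
    (fun w hw => (hball w hw).2)
  have h0 : (0 : W) ∈ Metric.ball (0 : W) r := Metric.mem_ball_self hr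
  have hd : ∀ w ∈ Metric.ball (0 : W) r, HasFDerivAt (fun w => f w - f 0) (β w) w :=
    fun w hw => (hf w hw).sub_const (f 0)
  have hsm : ContDiffOn ℝ ∞ (fun w => f w - f 0) (Metric.ball (0 : W) r) := by
    rw [contDiffOn_infty_iff_fderiv_of_isOpen Metric.isOpen_ball]
    refine ⟨fun w hw => (hd w hw).differentiableAt.differentiableWithinAt, ?_⟩
    have h1 : ContDiffOn ℝ ∞ β (Metric.ball (0 : W) r) :=
      fun w hw => (hball w hw).1.contDiffWithinAt
    exact h1.congr fun w hw => (hd w hw).fderiv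
  refine ⟨fun w => f w - f 0, sub_self _, ?_, ?_⟩
  · filter_upwards [Metric.ball_mem_nhds (0 : W) hr] with w hw
    exact hsm.contDiffAt (Metric.isOpen_ball.mem_nhds hw)
  · filter_upwards [Metric.ball_mem_nhds (0 : W) hr] with w hw
    exact hd w hw

/-- `f` is smooth near `x`. -/
def SmN {V V' : Type*} [NormedAddCommGroup V] [NormedSpace ℝ V] [NormedAddCommGroup V']
    [NormedSpace ℝ V'] (f : V → V') (x : V) : Prop := ∀ᶠ y in 𝓝 x, ContDiffAt ℝ ∞ f y

variable [FiniteDimensional ℝ W]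

/-- The existence of a local homomorphism with a given differential. -/
theorem exists_localHom (M : W × W → W) (Λ : W × W → ℝ) (lam : W →L[ℝ] ℝ)
    (hM : SmN M 0) (hΛ : SmN Λ 0)
    (hM0 : ∀ᶠ w in 𝓝 (0 : W), M (w, 0) = w) (h0M : ∀ᶠ w in 𝓝 (0 : W), M (0, w) = w)
    (hΛ0 : ∀ᶠ w in 𝓝 (0 : W), Λ (0, w) = lam w)
    (hΛM : ∀ᶠ p in 𝓝 (0 : W × W), Λ (p.1, M p) = lam p.2)
    (hinv : ∀ᶠ p in 𝓝 (0 : W × (W × W)),
      Λ (M (p.1, p.2.1), M (p.1, p.2.2)) = Λ (p.2.1, p.2.2))
    (hbr : ∀ v v' : W, ∃ u : W, lam u = 0 ∧ ∀ᶠ w in 𝓝 (0 : W),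
      fderiv ℝ (fun w => fderiv ℝ M (w, 0) (0, v')) w (fderiv ℝ M (w, 0) (0, v)) -
        fderiv ℝ (fun w => fderiv ℝ M (w, 0) (0, v)) w (fderiv ℝ M (w, 0) (0, v')) =
        fderiv ℝ M (w, 0) (0, u)) :
    ∃ χ : W → ℝ, χ 0 = 0 ∧ SmN χ 0 ∧ HasFDerivAt χ lam 0 ∧
      ∀ᶠ p in 𝓝 (0 : W × W), χ (M p) = χ p.1 + χ p.2 := by
  have : CompleteSpace W := FiniteDimensional.complete ℝ W
  set inr : W →L[ℝ] W × W := ContinuousLinearMap.inr ℝ W W with hinr
  -- the left invariant form
  let β : W → W →L[ℝ] ℝ := fun w => (fderiv ℝ Λ (w, w)).comp inr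
  let Y : W → W →L[ℝ] W := fun w => (fderiv ℝ M (w, 0)).comp inr
  have hYv : ∀ w v, Y w v = fderiv ℝ M (w, 0) (0, v) := fun w v => by
    simp [Y, hinr]
  -- continuity of some maps
  have cdiag : Tendsto (fun w : W => (w, w)) (𝓝 0) (𝓝 (0 : W × W)) := by
    have : ContinuousAt (fun w : W => (w, w)) 0 := by fun_prop
    exact this.tendsto
  have cl : Tendsto (fun w : W => (w, (0 : W))) (𝓝 0) (𝓝 (0 : W × W)) := by
    have : ContinuousAt (fun w : W => (w, (0 : W))) 0 := by fun_prop
    exact this.tendsto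
  have hM00 : M 0 = 0 := hM0.self_of_nhds
  have hMc : Tendsto M (𝓝 0) (𝓝 0) := by
    have := hM.self_of_nhds.continuousAt.tendsto
    rwa [hM00] at this
  have hβs : SmN β 0 := by
    have h1 := cdiag.eventually hΛ
    filter_upwards [h1] with w hw
    have h2 : ContDiffAt ℝ ∞ (fderiv ℝ Λ) (w, w) := hw.fderiv_right (m := ∞) (by simp)
    have h3 : ContDiffAt ℝ ∞ (fun w : W => fderiv ℝ Λ (w, w)) w :=
      ContDiffAt.comp w (g := fderiv ℝ Λ) (f := fun w : W => (w, w)) h2
        (contDiffAt_id.prodMk contDiffAt_id)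
    exact h3.clm_comp contDiffAt_const
  have hYs : SmN Y 0 := by
    have h1 := cl.eventually hM
    filter_upwards [h1] with w hw
    have h2 : ContDiffAt ℝ ∞ (fderiv ℝ M) (w, 0) := hw.fderiv_right (m := ∞) (by simp)
    have h3 : ContDiffAt ℝ ∞ (fun w : W => fderiv ℝ M (w, 0)) w :=
      ContDiffAt.comp w (g := fderiv ℝ M) (f := fun w : W => (w, (0 : W))) h2
        (contDiffAt_id.prodMk contDiffAt_const)
    exact h3.clm_comp contDiffAt_const
  -- `β 0 = lam`
  have hβ0 : β 0 = lam := by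
    have h1 : HasFDerivAt (fun w : W => Λ (0, w)) (β 0) 0 := by
      have h2 : HasFDerivAt Λ (fderiv ℝ Λ (0, 0)) ((0 : W), (0 : W)) :=
        (hΛ.self_of_nhds.differentiableAt (by simp)).hasFDerivAt
      exact HasFDerivAt.comp (0 : W) (g := Λ) (f := fun w : W => ((0 : W), w)) h2
        (hasFDerivAt_prodMk_right (0 : W) (0 : W))
    have h2 : HasFDerivAt (fun w : W => Λ (0, w)) lam 0 :=
      lam.hasFDerivAt.congr_of_eventuallyEq hΛ0
    exact h1.unique h2
  -- `Y 0 = id`
  have hY0 : Y 0 = ContinuousLinearMap.id ℝ W := by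
    have h1 : HasFDerivAt (fun w : W => M (0, w)) (Y 0) 0 := by
      have h2 : HasFDerivAt M (fderiv ℝ M (0, 0)) ((0 : W), (0 : W)) :=
        (hM.self_of_nhds.differentiableAt (by simp)).hasFDerivAt
      exact HasFDerivAt.comp (0 : W) (g := M) (f := fun w : W => ((0 : W), w)) h2
        (hasFDerivAt_prodMk_right (0 : W) (0 : W))
    have h2 : HasFDerivAt (fun w : W => M (0, w)) (ContinuousLinearMap.id ℝ W) 0 :=
      (hasFDerivAt_id (0 : W)).congr_of_eventuallyEq h0M
    exact h1.unique h2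
  -- `Y w` is surjective
  have hYsurj : ∀ᶠ w in 𝓝 (0 : W), Function.Surjective (Y w) := by
    have hc : ContinuousAt Y 0 := hYs.self_of_nhds.continuousAt
    have h1 : range ((↑) : (W ≃L[ℝ] W) → W →L[ℝ] W) ∈ 𝓝 (Y 0) := by
      rw [hY0]
      exact ContinuousLinearEquiv.nhds (ContinuousLinearEquiv.refl ℝ W)
    filter_upwards [hc.eventually h1] with w hw
    obtain ⟨e, he⟩ := hw
    rw [← he]
    exact e.surjective
  -- `β w (Y w v) = lam v`
  have hβY : ∀ᶠ w in 𝓝 (0 : W), ∀ v, β w (Y w v) = lam v := by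
    filter_upwards [cdiag.eventually hΛ, cl.eventually hM, hM0,
      cl.eventually hΛM.eventually_nhds] with w h1 h2 h3 h4 v
    have e1 : HasFDerivAt (fun s : W => M (w, s)) (Y w) 0 := by
      have e2 : HasFDerivAt M (fderiv ℝ M (w, 0)) (w, (0 : W)) :=
        (h2.differentiableAt (by simp)).hasFDerivAt
      exact HasFDerivAt.comp (0 : W) (g := M) (f := fun s : W => (w, s)) e2
        (hasFDerivAt_prodMk_right w (0 : W))
    have e3 : HasFDerivAt (fun s : W => (w, M (w, s))) (inr.comp (Y w)) 0 := by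
      have e4 : HasFDerivAt (fun s : W => (w, s)) inr (M (w, 0)) :=
        hasFDerivAt_prodMk_right w (M (w, 0))
      exact HasFDerivAt.comp (0 : W) (g := fun s : W => (w, s)) (f := fun s : W => M (w, s)) e4 e1
    have e5 : HasFDerivAt Λ (fderiv ℝ Λ (w, w)) (w, M (w, 0)) := by
      rw [h3]; exact (h1.differentiableAt (by simp)).hasFDerivAt
    have e6 : HasFDerivAt (fun s : W => Λ (w, M (w, s)))
        ((fderiv ℝ Λ (w, w)).comp (inr.comp (Y w))) 0 :=
      HasFDerivAt.comp (0 : W) (g := Λ) (f := fun s : W => (w, M (w, s))) e5 e3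
    have e7 : HasFDerivAt (fun s : W => Λ (w, M (w, s))) lam 0 := by
      refine lam.hasFDerivAt.congr_of_eventuallyEq ?_
      have hc : ContinuousAt (fun s : W => (w, s)) 0 := by fun_prop
      exact hc.eventually h4
    have e8 := e6.unique e7
    have := DFunLike.congr_fun e8 v
    exact this
  -- closedness
  have hclosed : ∀ᶠ w in 𝓝 (0 : W), ∀ v v', fderiv ℝ β w (Y w v) (Y w v') =
      fderiv ℝ β w (Y w v') (Y w v) := by
    -- reduce to finitely many vectors
    let b := Module.finBasis ℝ W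
    have hpair : ∀ v v' : W, ∀ᶠ w in 𝓝 (0 : W), fderiv ℝ β w (Y w v) (Y w v') =
      fderiv ℝ β w (Y w v') (Y w v) := by
      intro v v'
      obtain ⟨u, hu, hbru⟩ := hbr v v'
      filter_upwards [hbru, hβs, hYs, hβY.eventually_nhds, hβY] with w h1 h2 h3 h4 h5
      have hbd : HasFDerivAt β (fderiv ℝ β w) w := (h2.differentiableAt (by simp)).hasFDerivAt
      have hYd : HasFDerivAt Y (fderiv ℝ Y w) w := (h3.differentiableAt (by simp)).hasFDerivAt
      have key : ∀ x y : W, fderiv ℝ β w y (Y w x) + β w (fderiv ℝ (fun w => Y w x) w y) = 0 := by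
        intro x y
        have e1 : HasFDerivAt (fun w => Y w x) ((ContinuousLinearMap.apply ℝ W x).comp
            (fderiv ℝ Y w)) w := (ContinuousLinearMap.apply ℝ W x).hasFDerivAt.comp w hYd
        have e2 : HasFDerivAt (fun w => β w (Y w x))
            ((β w).comp ((ContinuousLinearMap.apply ℝ W x).comp (fderiv ℝ Y w)) +
              (fderiv ℝ β w).flip (Y w x)) w := hbd.clm_apply e1
        have e3 : HasFDerivAt (fun w => β w (Y w x)) (0 : W →L[ℝ] ℝ) w := by
          refine (hasFDerivAt_const (lam x) w).congr_of_eventuallyEq ?_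
          filter_upwards [h4] with w' hw'
          exact hw' x
        have e4 := DFunLike.congr_fun (e2.unique e3) y
        rw [e1.fderiv]
        have e5 : β w (fderiv ℝ Y w y x) + fderiv ℝ β w y (Y w x) = 0 := e4
        rw [add_comm]
        exact e5
      have k1 := key v' (Y w v)
      have k2 := key v (Y w v')
      have e5 : β w (fderiv ℝ (fun w => Y w v') w (Y w v)) -
          β w (fderiv ℝ (fun w => Y w v) w (Y w v')) = 0 := by
        rw [← map_sub]
        have e6 : fderiv ℝ (fun w => Y w v') w (Y w v) -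
            fderiv ℝ (fun w => Y w v) w (Y w v') = Y w u := by
          simp only [hYv]
          exact h1
        rw [e6, h5 u, hu]
      linarith
    have hall : ∀ᶠ w in 𝓝 (0 : W), ∀ i j, fderiv ℝ β w (Y w (b i)) (Y w (b j)) =
        fderiv ℝ β w (Y w (b j)) (Y w (b i)) := by
      rw [eventually_all]; intro i
      rw [eventually_all]; intro j
      exact hpair _ _
    filter_upwards [hall] with w hw v v'
    -- bilinearity
    let A : W →ₗ[ℝ] W →ₗ[ℝ] ℝ := LinearMap.mk₂ ℝ (fun v v' => fderiv ℝ β w (Y w v) (Y w v'))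
      (fun _ _ _ => by simp) (fun _ _ _ => by simp) (fun _ _ _ => by simp)
      (fun _ _ _ => by simp)
    have hA : A = A.flip := by
      refine b.ext fun i => b.ext fun j => ?_
      simp only [A, LinearMap.mk₂_apply, LinearMap.flip_apply]
      exact hw i j
    have := LinearMap.congr_fun₂ hA v v'
    simpa [A] using this
  have hsym : ∀ᶠ w in 𝓝 (0 : W), ∀ u v, fderiv ℝ β w u v = fderiv ℝ β w v u := by
    filter_upwards [hclosed, hYsurj] with w h1 h2 u v
    obtain ⟨u', rfl⟩ := h2 u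
    obtain ⟨v', rfl⟩ := h2 v
    exact h1 u' v'
  obtain ⟨χ, hχ0, hχs, hχd⟩ := exists_primitive β hβs hsym
  refine ⟨χ, hχ0, hχs, ?_, ?_⟩
  · have := hχd.self_of_nhds
    rwa [hβ0] at this
  -- the homomorphism property
  -- left invariance of `β`
  have hβinv : ∀ᶠ p in 𝓝 (0 : W × W), ∀ u, β (M p) (fderiv ℝ M p (0, u)) = β p.2 u := by
    have c1 : Tendsto (fun p : W × W => (M p, M p)) (𝓝 0) (𝓝 (0 : W × W)) := by
      have := hMc.prodMk_nhds hMc
      exact this
    have c2 : Tendsto (fun p : W × W => (p.2, p.2)) (𝓝 0) (𝓝 (0 : W × W)) := by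
      have : ContinuousAt (fun p : W × W => (p.2, p.2)) 0 := by fun_prop
      exact this.tendsto
    have c3 : Tendsto (fun p : W × W => (p.1, (p.2, p.2))) (𝓝 0) (𝓝 (0 : W × (W × W))) := by
      have : ContinuousAt (fun p : W × W => (p.1, (p.2, p.2))) 0 := by fun_prop
      exact this.tendsto
    filter_upwards [c1.eventually hΛ, c2.eventually hΛ, c3.eventually hinv.eventually_nhds,
      hM] with p h1 h2 h3 h4 u
    have e1 : HasFDerivAt (fun s : W => M (p.1, s)) ((fderiv ℝ M p).comp inr) p.2 := by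
      have e2 : HasFDerivAt M (fderiv ℝ M p) (p.1, p.2) :=
        (h4.differentiableAt (by simp)).hasFDerivAt
      exact HasFDerivAt.comp p.2 (g := M) (f := fun s : W => (p.1, s)) e2
        (hasFDerivAt_prodMk_right p.1 p.2)
    have e3 : HasFDerivAt (fun s : W => (M p, M (p.1, s))) (inr.comp ((fderiv ℝ M p).comp inr))
        p.2 := by
      have e4 : HasFDerivAt (fun s : W => (M p, s)) inr (M (p.1, p.2)) :=
        hasFDerivAt_prodMk_right (M p) (M (p.1, p.2))
      exact HasFDerivAt.comp p.2 (g := fun s : W => (M p, s)) (f := fun s : W => M (p.1, s)) e4 e1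
    have e5 : HasFDerivAt Λ (fderiv ℝ Λ (M p, M p)) (M p, M (p.1, p.2)) :=
      (h1.differentiableAt (by simp)).hasFDerivAt
    have e6 : HasFDerivAt (fun s : W => Λ (M p, M (p.1, s)))
        ((fderiv ℝ Λ (M p, M p)).comp (inr.comp ((fderiv ℝ M p).comp inr))) p.2 :=
      HasFDerivAt.comp p.2 (g := Λ) (f := fun s : W => (M p, M (p.1, s))) e5 e3
    have e7 : HasFDerivAt (fun s : W => Λ (p.2, s)) (β p.2) p.2 := by
      have e8 : HasFDerivAt Λ (fderiv ℝ Λ (p.2, p.2)) (p.2, p.2) :=
        (h2.differentiableAt (by simp)).hasFDerivAt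
      exact HasFDerivAt.comp p.2 (g := Λ) (f := fun s : W => (p.2, s)) e8
        (hasFDerivAt_prodMk_right p.2 p.2)
    have e9 : HasFDerivAt (fun s : W => Λ (M p, M (p.1, s))) (β p.2) p.2 := by
      refine e7.congr_of_eventuallyEq ?_
      have hc : ContinuousAt (fun s : W => (p.1, (p.2, s))) p.2 := by fun_prop
      filter_upwards [hc.eventually h3] with s hs
      exact hs
    have e10 := DFunLike.congr_fun (e6.unique e9) u
    exact e10
  have hχM : ∀ᶠ p in 𝓝 (0 : W × W), HasFDerivAt χ (β (M p)) (M p) := hMc.eventually hχd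
  have c2 : Tendsto (fun p : W × W => p.2) (𝓝 0) (𝓝 (0 : W)) := by
    have : ContinuousAt (fun p : W × W => p.2) 0 := continuousAt_snd
    exact this.tendsto
  have c1 : Tendsto (fun p : W × W => p.1) (𝓝 0) (𝓝 (0 : W)) := by
    have : ContinuousAt (fun p : W × W => p.1) 0 := continuousAt_fst
    exact this.tendsto
  have hall := (hβinv.and (hχM.and ((c2.eventually hχd).and (hM.and (c1.eventually hM0)))))
  obtain ⟨r, hr, hball⟩ := Metric.eventually_nhds_iff_ball.1 hall
  filter_upwards [Metric.ball_mem_nhds (0 : W × W) hr] with p hp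
  rw [mem_ball_zero_iff, Prod.norm_def, max_lt_iff] at hp
  have hmem : ∀ s : W, s ∈ Metric.ball (0 : W) r → (p.1, s) ∈ Metric.ball (0 : W × W) r := by
    intro s hs
    rw [mem_ball_zero_iff] at hs ⊢
    rw [Prod.norm_def, max_lt_iff]
    exact ⟨hp.1, hs⟩
  have hd : ∀ s ∈ Metric.ball (0 : W) r,
      HasFDerivAt (fun s => χ (M (p.1, s)) - χ s) (0 : W →L[ℝ] ℝ) s := by
    intro s hs
    obtain ⟨h1, h2, h3, h4, -⟩ := hball _ (hmem s hs)
    have e1 : HasFDerivAt (fun s : W => M (p.1, s)) ((fderiv ℝ M (p.1, s)).comp inr) s := by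
      have e2 : HasFDerivAt M (fderiv ℝ M (p.1, s)) (p.1, s) :=
        (h4.differentiableAt (by simp)).hasFDerivAt
      exact HasFDerivAt.comp s (g := M) (f := fun s : W => (p.1, s)) e2
        (hasFDerivAt_prodMk_right p.1 s)
    have e3 : HasFDerivAt (fun s : W => χ (M (p.1, s)))
        ((β (M (p.1, s))).comp ((fderiv ℝ M (p.1, s)).comp inr)) s :=
      HasFDerivAt.comp s (g := χ) (f := fun s : W => M (p.1, s)) h2 e1
    refine (e3.sub h3).congr_fderiv ?_
    ext u
    have := h1 u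
    simp only [ContinuousLinearMap.sub_apply, ContinuousLinearMap.comp_apply,
      ContinuousLinearMap.zero_apply, hinr, ContinuousLinearMap.inr_apply]
    rw [this, sub_self]
  have h0 : (0 : W) ∈ Metric.ball (0 : W) r := Metric.mem_ball_self hr
  have hp2 : p.2 ∈ Metric.ball (0 : W) r := by rw [mem_ball_zero_iff]; exact hp.2
  have hconst := (convex_ball (0 : W) r).is_const_of_fderivWithin_eq_zero (𝕜 := ℝ)
    (f := fun s => χ (M (p.1, s)) - χ s)
    (fun s hs => (hd s hs).differentiableAt.differentiableWithinAt)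
    (fun s hs => by
      rw [fderivWithin_of_isOpen Metric.isOpen_ball hs]
      exact (hd s hs).fderiv) hp2 h0
  have h5 := (hball _ (hmem 0 h0)).2.2.2.2
  simp only at hconst h5
  rw [h5, hχ0, sub_zero] at hconst
  have : M p = M (p.1, p.2) := rfl
  rw [this]
  linarith

end

end Pool.Agent.MP_602746_gt
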