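import Mathlib

open scoped ContDiff Topology
open Set Filter

noncomputable section

namespace Pool.Agent.MP_602746_gt

/-- The basic flow in the coordinate `w`: it is the identity for `w ≤ 0`. -/
def flw (c w : ℝ) : ℝ := w / (1 + w * Real.log (1 + Real.exp 1 * c * expNegInvGlue w))

theorem flw_zero (w : ℝ) : flw 0 w = w := by simp [flw]

theorem flw_of_nonpos (c : ℝ) {w : ℝ} (hw : w ≤ 0) : flw c w = w := by
  simp [flw, expNegInvGlue.zero_of_nonpos hw]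

/-- The good domain. -/
def flwGood (c w : ℝ) : Prop :=
  0 < 1 + Real.exp 1 * c * expNegInvGlue w ∧
    0 < 1 + w * Real.log (1 + Real.exp 1 * c * expNegInvGlue w)

theorem continuous_aux : Continuous (fun p : ℝ × ℝ => 1 + Real.exp 1 * p.1 * expNegInvGlue p.2) := by
  have : Continuous expNegInvGlue := (expNegInvGlue.contDiff (n := 0)).continuous
  fun_prop

theorem flwGood_eventually (w : ℝ) : ∀ᶠ p in 𝓝 ((0 : ℝ), w), flwGood p.1 p.2 := by
  have h1 : ContinuousAt (fun p : ℝ × ℝ => 1 + Real.exp 1 * p.1 * expNegInvGlue p.2)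
      ((0 : ℝ), w) := continuous_aux.continuousAt
  have h2 : ContinuousAt (fun p : ℝ × ℝ =>
      1 + p.2 * Real.log (1 + Real.exp 1 * p.1 * expNegInvGlue p.2)) ((0 : ℝ), w) := by
    refine continuousAt_const.add (continuousAt_snd.mul (h1.log ?_))
    simp
  have h3 : ∀ᶠ p in 𝓝 ((0 : ℝ), w), 0 < 1 + Real.exp 1 * p.1 * expNegInvGlue p.2 :=
    h1.eventually (lt_mem_nhds (by simp))
  have h4 : ∀ᶠ p in 𝓝 ((0 : ℝ), w),
      0 < 1 + p.2 * Real.log (1 + Real.exp 1 * p.1 * expNegInvGlue p.2) :=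
    h2.eventually (lt_mem_nhds (by simp))
  filter_upwards [h3, h4] with p h5 h6
  exact ⟨h5, h6⟩

theorem contDiffAt_flw {c w : ℝ} (h : flwGood c w) :
    ContDiffAt ℝ ∞ (fun p : ℝ × ℝ => flw p.1 p.2) (c, w) := by
  have h0 : ContDiff ℝ ∞ expNegInvGlue := expNegInvGlue.contDiff
  have h1 : ContDiffAt ℝ ∞ (fun p : ℝ × ℝ => 1 + Real.exp 1 * p.1 * expNegInvGlue p.2) (c, w) := by
    refine contDiffAt_const.add ((contDiffAt_const.mul contDiffAt_fst).mul ?_)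
    exact h0.contDiffAt.comp (c, w) contDiffAt_snd
  have h2 : ContDiffAt ℝ ∞ (fun p : ℝ × ℝ =>
      1 + p.2 * Real.log (1 + Real.exp 1 * p.1 * expNegInvGlue p.2)) (c, w) :=
    contDiffAt_const.add (contDiffAt_snd.mul (h1.log h.1.ne'))
  exact contDiffAt_snd.div h2 h.2.ne'

theorem flw_pos {c w : ℝ} (h : flwGood c w) (hw : 0 < w) : 0 < flw c w := div_pos hw h.2

theorem inv_flw {c w : ℝ} (h : flwGood c w) (hw : 0 < w) :
    (flw c w)⁻¹ = w⁻¹ + Real.log (1 + Real.exp 1 * c * expNegInvGlue w) := by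
  have hw' := hw.ne'
  have h2 := h.2.ne'
  unfold flw
  rw [inv_div]
  field_simp

theorem expNegInvGlue_of_pos {w : ℝ} (hw : 0 < w) : expNegInvGlue w = Real.exp (-w⁻¹) := by
  simp [expNegInvGlue, hw.not_ge]

theorem exp_inv_flw {c w : ℝ} (h : flwGood c w) (hw : 0 < w) :
    Real.exp ((flw c w)⁻¹) = Real.exp w⁻¹ + Real.exp 1 * c := by
  rw [inv_flw h hw, Real.exp_add, Real.exp_log h.1, expNegInvGlue_of_pos hw, mul_add, mul_one,
    Real.exp_neg]
  have := (Real.exp_pos w⁻¹).ne'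
  field_simp

theorem flw_add {c c' w : ℝ} (h1 : flwGood c' w) (h2 : flwGood c (flw c' w))
    (h3 : flwGood (c + c') w) : flw (c + c') w = flw c (flw c' w) := by
  rcases le_or_gt w 0 with hw | hw
  · rw [flw_of_nonpos _ hw, flw_of_nonpos _ hw, flw_of_nonpos _ hw]
  · have hw' := flw_pos h1 hw
    have e1 := exp_inv_flw h1 hw
    have e2 := exp_inv_flw h2 hw'
    have e3 := exp_inv_flw h3 hw
    have e4 : Real.exp ((flw (c + c') w)⁻¹) = Real.exp ((flw c (flw c' w))⁻¹) := by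
      rw [e2, e1, e3]; ring
    exact inv_injective (Real.exp_injective e4)

/-- The flow in the coordinate `x = 1 - w`. -/
def flx (p : ℝ × ℝ) : ℝ := 1 - flw p.1 (1 - p.2)

/-- The linearising coordinate. -/
def kap (x : ℝ) : ℝ := Real.exp ((1 - x)⁻¹ - 1) - 1

/-- `φ` is, near `(0, x)`, a smooth local flow. -/
structure IsLocalFlow (φ : ℝ × ℝ → ℝ) (x : ℝ) : Prop where
  smooth : ∀ᶠ p in 𝓝 ((0 : ℝ), x), ContDiffAt ℝ ∞ φ p
  zero : ∀ᶠ y in 𝓝 x, φ (0, y) = y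
  add : ∀ᶠ p in 𝓝 (((0 : ℝ), (0 : ℝ)), x), φ (p.1.1 + p.1.2, p.2) = φ (p.1.1, φ (p.1.2, p.2))

theorem isLocalFlow_translation (x : ℝ) : IsLocalFlow (fun p => p.2 + p.1) x where
  smooth := Eventually.of_forall fun p => contDiffAt_snd.add contDiffAt_fst
  zero := Eventually.of_forall fun y => by simp
  add := Eventually.of_forall fun p => by simp; ring

theorem isLocalFlow_flx (x : ℝ) : IsLocalFlow flx x := by
  have hg : ∀ᶠ p in 𝓝 ((0 : ℝ), x), flwGood p.1 (1 - p.2) := by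
    have hc : Tendsto (fun p : ℝ × ℝ => (p.1, 1 - p.2)) (𝓝 ((0 : ℝ), x)) (𝓝 ((0 : ℝ), 1 - x)) := by
      have : ContinuousAt (fun p : ℝ × ℝ => (p.1, 1 - p.2)) ((0 : ℝ), x) := by fun_prop
      exact this.tendsto
    exact hc.eventually (flwGood_eventually (1 - x))
  have hsm : ∀ p : ℝ × ℝ, flwGood p.1 (1 - p.2) → ContDiffAt ℝ ∞ flx p := by
    intro p hp
    have h1 : ContDiffAt ℝ ∞ (fun p : ℝ × ℝ => (p.1, 1 - p.2)) p :=
      contDiffAt_fst.prodMk (contDiffAt_const.sub contDiffAt_snd)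
    have h2 := ContDiffAt.comp p (g := fun q : ℝ × ℝ => flw q.1 q.2)
      (f := fun p : ℝ × ℝ => (p.1, 1 - p.2)) (contDiffAt_flw hp) h1
    exact contDiffAt_const.sub h2
  refine ⟨?_, ?_, ?_⟩
  · filter_upwards [hg] with p hp
    exact hsm p hp
  · exact Eventually.of_forall fun y => by simp [flx, flw_zero]
  · have hflx : ContinuousAt flx ((0 : ℝ), x) := (hsm _ hg.self_of_nhds).continuousAt
    have h0 : flx ((0 : ℝ), x) = x := by simp [flx, flw_zero]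
    have hc1 : Tendsto (fun p : (ℝ × ℝ) × ℝ => (p.1.2, p.2)) (𝓝 (((0 : ℝ), (0 : ℝ)), x))
        (𝓝 ((0 : ℝ), x)) := by
      have : ContinuousAt (fun p : (ℝ × ℝ) × ℝ => (p.1.2, p.2)) (((0 : ℝ), (0 : ℝ)), x) := by
        fun_prop
      exact this.tendsto
    have hc2 : Tendsto (fun p : (ℝ × ℝ) × ℝ => (p.1.1 + p.1.2, p.2)) (𝓝 (((0 : ℝ), (0 : ℝ)), x))
        (𝓝 ((0 : ℝ), x)) := by
      have : ContinuousAt (fun p : (ℝ × ℝ) × ℝ => (p.1.1 + p.1.2, p.2))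
        (((0 : ℝ), (0 : ℝ)), x) := by fun_prop
      simpa using this.tendsto
    have hc3 : Tendsto (fun p : (ℝ × ℝ) × ℝ => (p.1.1, flx (p.1.2, p.2)))
        (𝓝 (((0 : ℝ), (0 : ℝ)), x)) (𝓝 ((0 : ℝ), x)) := by
      have h1 : ContinuousAt (fun p : (ℝ × ℝ) × ℝ => p.1.1) (((0 : ℝ), (0 : ℝ)), x) := by fun_prop
      have h2 : Tendsto (fun p : (ℝ × ℝ) × ℝ => flx (p.1.2, p.2)) (𝓝 (((0 : ℝ), (0 : ℝ)), x))
          (𝓝 x) := by
        have := hflx.tendsto.comp hc1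
        rwa [h0] at this
      have h3 := h1.tendsto.prodMk h2
      rw [← nhds_prod_eq] at h3
      exact h3
    filter_upwards [hc1.eventually hg, hc2.eventually hg, hc3.eventually hg] with p h1 h2 h3
    have e : 1 - flx (p.1.2, p.2) = flw p.1.2 (1 - p.2) := by simp [flx]
    have h3' : flwGood p.1.1 (1 - flx (p.1.2, p.2)) := h3
    rw [e] at h3'
    show 1 - flw (p.1.1 + p.1.2) (1 - p.2) = 1 - flw p.1.1 (1 - flx (p.1.2, p.2))
    rw [e, flw_add h1 h3' h2]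

theorem flx_of_one_le (c : ℝ) {x : ℝ} (hx : 1 ≤ x) : flx (c, x) = x := by
  simp [flx, flw_of_nonpos c (show 1 - x ≤ 0 by linarith)]

theorem kap_zero : kap 0 = 0 := by simp [kap]

theorem contDiffAt_kap {x : ℝ} (hx : x ≠ 1) : ContDiffAt ℝ ∞ kap x := by
  have h1 : ContDiffAt ℝ ∞ (fun x : ℝ => (1 - x)⁻¹ - 1) x :=
    ((contDiffAt_const.sub contDiffAt_id).inv (sub_ne_zero.2 hx.symm)).sub contDiffAt_const
  exact h1.exp.sub contDiffAt_const

theorem hasDerivAt_kap_zero : HasDerivAt kap 1 0 := by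
  have h1 : HasDerivAt (fun x : ℝ => (1 - x)⁻¹ - 1) (-(-1) / (1 - 0) ^ 2) 0 :=
    (((hasDerivAt_id (0 : ℝ)).const_sub 1).inv (by norm_num)).sub_const 1
  have h2 := h1.exp.sub_const 1
  have h3 : Real.exp ((1 - (0 : ℝ))⁻¹ - 1) * (-(-1) / (1 - 0) ^ 2) = 1 := by simp
  rw [h3] at h2
  exact h2

theorem kap_flx : ∀ᶠ p in 𝓝 ((0 : ℝ), (0 : ℝ)), kap (flx p) = kap p.2 + p.1 := by
  have hg : ∀ᶠ p in 𝓝 ((0 : ℝ), (0 : ℝ)), flwGood p.1 (1 - p.2) := by
    have hc : Tendsto (fun p : ℝ × ℝ => (p.1, 1 - p.2)) (𝓝 ((0 : ℝ), (0 : ℝ)))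
        (𝓝 ((0 : ℝ), 1 - 0)) := by
      have : ContinuousAt (fun p : ℝ × ℝ => (p.1, 1 - p.2)) ((0 : ℝ), (0 : ℝ)) := by fun_prop
      exact this.tendsto
    exact hc.eventually (flwGood_eventually (1 - 0))
  have hlt : ∀ᶠ p in 𝓝 ((0 : ℝ), (0 : ℝ)), p.2 < 1 := by
    have hc : ContinuousAt (fun p : ℝ × ℝ => p.2) ((0 : ℝ), (0 : ℝ)) := continuousAt_snd
    exact hc.eventually (gt_mem_nhds (by norm_num))
  filter_upwards [hg, hlt] with p h1 h2
  have h3 : 0 < 1 - p.2 := by linarith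
  have h4 := exp_inv_flw h1 h3
  show Real.exp ((1 - (1 - flw p.1 (1 - p.2)))⁻¹ - 1) - 1 = Real.exp ((1 - p.2)⁻¹ - 1) - 1 + p.1
  rw [sub_sub_cancel, Real.exp_sub, h4, Real.exp_sub]
  have := (Real.exp_pos 1).ne'
  field_simp
  ring

end Pool.Agent.MP_602746_gt
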