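import Mathlib
import Pool.Agent.MP_602746_gt.Basic
import Pool.Agent.MP_602746_gt.Action

open scoped Manifold ContDiff Topology
open Set Filter

noncomputable section

namespace Pool.Agent.MP_602746_gt

universe u

section GammaBar

variable {EB : Type*} [NormedAddCommGroup EB] [NormedSpace ℝ EB] {HB : Type*} [TopologicalSpace HB]
  (IB : ModelWithCorners ℝ EB HB) (B : Type*) [TopologicalSpace B] [ChartedSpace HB B]
  (V : Type*) [NormedAddCommGroup V] [NormedSpace ℝ V]

/-- A Haefliger structure of codimension `dim V` with trivialised normal bundle on the manifold `B`: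
a germ, along the zero section of the trivial bundle `B × V → B`, of a foliation transverse to the
fibres.  It is given by a local first integral `F b : B × V → V` near `(b, 0)` for every `b`, which
is smooth near `(b, 0)`, restricts to a local diffeomorphism of the fibre `{b} × V` at `0`, and such
that `F b` and `F b'` define the same foliation near `(b', 0)` for all `b'` near `b`. -/
structure GammaBar where
  /-- local first integral near `(b, 0)` -/
  F : B → B × V → V
  smooth : ∀ b, ∀ᶠ w in 𝓝 (b, (0 : V)), ContMDiffAt (IB.prod 𝓘(ℝ, V)) 𝓘(ℝ, V) ∞ (F b) w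
  transverse : ∀ b, Function.Bijective (fderiv ℝ (fun v => F b (b, v)) 0)
  coherent : ∀ b, ∀ᶠ b' in 𝓝 b, SameLeaves (b', (0 : V)) (F b) (F b')

variable {IB B V}

/-- Two Haefliger structures are equal: they define the same foliation germ along the zero
section. -/
def GammaBar.Equal (σ τ : GammaBar IB B V) : Prop :=
  ∀ b, SameLeaves (b, (0 : V)) (σ.F b) (τ.F b)

/-- Pull-back of a Haefliger structure along a smooth map. -/
def GammaBar.pullback {EB' : Type*} [NormedAddCommGroup EB'] [NormedSpace ℝ EB'] {HB' : Type*}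
    [TopologicalSpace HB'] {IB' : ModelWithCorners ℝ EB' HB'} {B' : Type*} [TopologicalSpace B']
    [ChartedSpace HB' B'] (σ : GammaBar IB B V) (g : B' → B) (hg : ContMDiff IB' IB ∞ g) :
    GammaBar IB' B' V where
  F b' := fun w => σ.F (g b') (g w.1, w.2)
  smooth b' := by
    have hc : ContinuousAt (fun w : B' × V => (g w.1, w.2)) (b', (0 : V)) :=
      (hg.continuous.comp continuous_fst).continuousAt.prodMk continuousAt_snd
    filter_upwards [hc.eventually (σ.smooth (g b'))] with w hw
    have h1 : ContMDiffAt (IB'.prod 𝓘(ℝ, V)) (IB.prod 𝓘(ℝ, V)) ∞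
        (fun w : B' × V => (g w.1, w.2)) w :=
      ((hg.contMDiffAt).comp w contMDiffAt_fst).prodMk contMDiffAt_snd
    exact ContMDiffAt.comp w (g := σ.F (g b')) (f := fun w : B' × V => (g w.1, w.2)) hw h1
  transverse b' := σ.transverse (g b')
  coherent b' := by
    filter_upwards [hg.continuous.continuousAt.eventually (σ.coherent (g b'))] with b₁ hb₁
    have hc : ContinuousAt (fun w : B' × V => (g w.1, w.2)) (b₁, (0 : V)) :=
      (hg.continuous.comp continuous_fst).continuousAt.prodMk continuousAt_snd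
    exact SameLeaves.comp (g := fun w : B' × V => (g w.1, w.2)) hc hb₁

/-- Two Haefliger structures with trivialised normal bundle on `B` are homotopic if some such
structure on `B × ℝ` restricts to the first one on `B × {0}` and to the second on `B × {1}`.
(By Haefliger's theorem this means that their classifying maps are homotopic.) -/
def GammaBar.Homotopic (σ τ : GammaBar IB B V) : Prop :=
  ∃ ρ : GammaBar (IB.prod 𝓘(ℝ, ℝ)) (B × ℝ) V,
    (ρ.pullback (fun b => (b, (0 : ℝ))) (contMDiff_id.prodMk contMDiff_const)).Equal σ ∧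
    (ρ.pullback (fun b => (b, (1 : ℝ))) (contMDiff_id.prodMk contMDiff_const)).Equal τ

variable (IB B V) in
/-- The trivial Haefliger structure: the horizontal foliation of `B × V`. -/
def GammaBar.trivial : GammaBar IB B V where
  F _ := fun w => w.2
  smooth b := Eventually.of_forall fun _ => contMDiffAt_snd
  transverse b := by
    have : fderiv ℝ (fun v : V => v) 0 = ContinuousLinearMap.id ℝ V := fderiv_fun_id
    simpa [this] using Function.bijective_id
  coherent b := Eventually.of_forall fun _ => SameLeaves.refl _ _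

/-- Stabilisation: the product of a Haefliger structure with the trivial one of codimension
`dim W`. -/
def GammaBar.stab [FiniteDimensional ℝ V] (σ : GammaBar IB B V) (W : Type*) [NormedAddCommGroup W]
    [NormedSpace ℝ W] [FiniteDimensional ℝ W] : GammaBar IB B (V × W) where
  F b := fun w => (σ.F b (w.1, w.2.1), w.2.2)
  smooth b := by
    have hc : ContinuousAt (fun w : B × V × W => (w.1, w.2.1)) (b, (0 : V × W)) := by fun_prop
    filter_upwards [hc.eventually (σ.smooth b)] with w hw
    have h1 : ContMDiffAt (IB.prod 𝓘(ℝ, V × W)) (IB.prod 𝓘(ℝ, V)) ∞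
        (fun w : B × V × W => (w.1, w.2.1)) w :=
      contMDiffAt_fst.prodMk
        ((contDiff_fst (𝕜 := ℝ) (n := ∞) (E := V) (F := W)).contMDiff.contMDiffAt.comp w
          contMDiffAt_snd)
    have h2 : ContMDiffAt (IB.prod 𝓘(ℝ, V × W)) 𝓘(ℝ, V) ∞
        (fun w : B × V × W => σ.F b (w.1, w.2.1)) w :=
      ContMDiffAt.comp w (g := σ.F b) (f := fun w : B × V × W => (w.1, w.2.1)) hw h1
    have h3 : ContMDiffAt (IB.prod 𝓘(ℝ, V × W)) 𝓘(ℝ, W) ∞
        (fun w : B × V × W => w.2.2) w :=
      (contDiff_snd (𝕜 := ℝ) (n := ∞) (E := V) (F := W)).contMDiff.contMDiffAt.comp w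
          contMDiffAt_snd
    exact h2.prodMk_space h3
  transverse b := by
    have h0 : ContDiffAt ℝ ∞ (fun v => σ.F b (b, v)) 0 := by
      rw [← contMDiffAt_iff_contDiffAt]
      have h1 : ContMDiffAt 𝓘(ℝ, V) (IB.prod 𝓘(ℝ, V)) ∞ (fun v : V => (b, v)) 0 :=
        contMDiffAt_const.prodMk contMDiffAt_id
      exact ContMDiffAt.comp (0 : V) (g := σ.F b) (f := fun v : V => (b, v))
        (σ.smooth b).self_of_nhds h1
    have h1 : HasFDerivAt (fun v => σ.F b (b, v)) (fderiv ℝ (fun v => σ.F b (b, v)) 0) 0 :=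
      (h0.differentiableAt (by simp)).hasFDerivAt
    have h2 := σ.transverse b
    have h4 : HasFDerivAt (fun z : V × W => (σ.F b (b, z.1), z.2))
        (((fderiv ℝ (fun v => σ.F b (b, v)) 0).comp (ContinuousLinearMap.fst ℝ V W)).prod
          (ContinuousLinearMap.snd ℝ V W)) 0 := by
      refine HasFDerivAt.prodMk ?_ hasFDerivAt_snd
      exact HasFDerivAt.comp (0 : V × W) (g := fun v => σ.F b (b, v)) (f := fun z : V × W => z.1)
        h1 hasFDerivAt_fst
    rw [h4.fderiv]
    constructor
    · rintro ⟨a, b⟩ ⟨c, d⟩ hab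
      simp only [ContinuousLinearMap.prod_apply, ContinuousLinearMap.comp_apply,
        ContinuousLinearMap.coe_fst', ContinuousLinearMap.coe_snd', Prod.mk.injEq] at hab
      rw [h2.1 hab.1, hab.2]
    · rintro ⟨c, d⟩
      obtain ⟨a, ha⟩ := h2.2 c
      exact ⟨(a, d), by simp [ha]⟩
  coherent b := by
    filter_upwards [σ.coherent b] with b' hb'
    have hc : ContinuousAt (fun w : B × V × W => (w.1, w.2.1)) (b', (0 : V × W)) := by fun_prop
    exact (SameLeaves.comp (g := fun w : B × V × W => (w.1, w.2.1)) hc hb').prod _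

end GammaBar

section Cocycle

variable {EB : Type*} [NormedAddCommGroup EB] [NormedSpace ℝ EB] {HB : Type*} [TopologicalSpace HB]
  (IB : ModelWithCorners ℝ EB HB) (B : Type*) [TopologicalSpace B] [ChartedSpace HB B]
  {EG : Type*} [NormedAddCommGroup EG] [NormedSpace ℝ EG] {HG : Type*} [TopologicalSpace HG]
  (IG : ModelWithCorners ℝ EG HG) (G : Type*) [TopologicalSpace G] [ChartedSpace HG G] [Group G]

/-- Germs of maps `h b : B → G` at `b`, with `h b b = 1`, which differ by left translations. -/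
structure GCocycle where
  h : B → B → G
  smooth : ∀ b, ∀ᶠ b' in 𝓝 b, ContMDiffAt IB IG ∞ (h b) b'
  self : ∀ b, h b b = 1
  coh : ∀ b, ∀ᶠ b₁ in 𝓝 b, ∀ᶠ b' in 𝓝 b₁, h b b' = h b b₁ * h b₁ b'

variable {IB B IG G}
variable {V : Type*} [NormedAddCommGroup V] [NormedSpace ℝ V] [FiniteDimensional ℝ V]

/-- The Haefliger structure defined by a local action. -/
def GammaBar.ofAction [LieGroup IG ∞ G] (c : GCocycle IB B IG G) (a : G × V → V) (s : B → V)
    (hs : ContMDiff IB 𝓘(ℝ, V) ∞ s) (ha : ∀ b, IsLocalAction IG a (s b)) : GammaBar IB B V where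
  F b := fun w => a (c.h b w.1, s w.1 + w.2)
  smooth b := by
    have hhb : ContMDiffAt IB IG ∞ (c.h b) b := (c.smooth b).self_of_nhds
    have hc : Tendsto (fun w : B × V => (c.h b w.1, s w.1 + w.2)) (𝓝 (b, (0 : V)))
        (𝓝 ((1 : G), s b)) := by
      have h1 : ContinuousAt (fun w : B × V => c.h b w.1) (b, (0 : V)) :=
        ContinuousAt.comp (g := c.h b) (f := fun w : B × V => w.1) hhb.continuousAt
          continuousAt_fst
      have h2 : ContinuousAt (fun w : B × V => s w.1 + w.2) (b, (0 : V)) :=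
        (hs.continuous.comp continuous_fst).continuousAt.add continuousAt_snd
      have h3 := (h1.prodMk h2).tendsto
      simpa [c.self b] using h3
    have hf : Tendsto (fun w : B × V => w.1) (𝓝 (b, (0 : V))) (𝓝 b) := continuousAt_fst
    filter_upwards [hc.eventually (ha b).smooth, hf.eventually (c.smooth b)] with w h1 h2
    have h3 : ContMDiffAt (IB.prod 𝓘(ℝ, V)) IG ∞ (fun w : B × V => c.h b w.1) w :=
      ContMDiffAt.comp w (g := c.h b) (f := fun w : B × V => w.1) h2 contMDiffAt_fst
    have h4 : ContMDiffAt (IB.prod 𝓘(ℝ, V)) 𝓘(ℝ, V) ∞ (fun w : B × V => s w.1 + w.2) w :=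
      (hs.contMDiffAt.comp w contMDiffAt_fst).add contMDiffAt_snd
    exact ContMDiffAt.comp w (g := a) (f := fun w : B × V => (c.h b w.1, s w.1 + w.2)) h1
      (h3.prodMk h4)
  transverse b := by
    have h1 : ∀ᶠ v in 𝓝 (0 : V), a (c.h b b, s b + v) = s b + v := by
      have hc : Tendsto (fun v : V => s b + v) (𝓝 0) (𝓝 (s b)) := by
        have : ContinuousAt (fun v : V => s b + v) 0 := by fun_prop
        simpa using this.tendsto
      filter_upwards [hc.eventually (ha b).one] with v hv
      rw [c.self b, hv]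
    have h2 : HasFDerivAt (fun v : V => s b + v) (ContinuousLinearMap.id ℝ V) 0 :=
      (hasFDerivAt_id (0 : V)).const_add (s b)
    have h3 : HasFDerivAt (fun v : V => a (c.h b b, s b + v)) (ContinuousLinearMap.id ℝ V) 0 :=
      h2.congr_of_eventuallyEq h1
    show Function.Bijective (fderiv ℝ (fun v : V => a (c.h b b, s b + v)) 0)
    rw [h3.fderiv]
    exact Function.bijective_id
  coherent b := by
    have := topologicalGroup_of_lieGroup IG ∞ (G := G)
    have hhb : ContMDiffAt IB IG ∞ (c.h b) b := (c.smooth b).self_of_nhds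
    have hloc := (ha b).localDiffeo
    have hc : Tendsto (fun b₁ : B => ((c.h b b₁), s b₁)) (𝓝 b) (𝓝 ((1 : G), s b)) := by
      have h1 : ContinuousAt (fun b₁ : B => ((c.h b b₁), s b₁)) b :=
        hhb.continuousAt.prodMk hs.continuous.continuousAt
      simpa [c.self b] using h1.tendsto
    have hc2 : Tendsto (fun b₁ : B => ((c.h b b₁, (1 : G)), s b₁)) (𝓝 b)
        (𝓝 (((1 : G), (1 : G)), s b)) := by
      have h1 : ContinuousAt (fun b₁ : B => ((c.h b b₁, (1 : G)), s b₁)) b :=
        (hhb.continuousAt.prodMk continuousAt_const).prodMk hs.continuous.continuousAt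
      simpa [c.self b] using h1.tendsto
    filter_upwards [hc.eventually hloc, c.coh b, hc2.eventually (ha b).mul.eventually_nhds]
      with b₁ h1 h2 h3
    -- near `(b₁, 0)`: `F b = a (h b b₁, ·) ∘ F b₁`
    have hhb₁ : ContMDiffAt IB IG ∞ (c.h b₁) b₁ := (c.smooth b₁).self_of_nhds
    have hT : Tendsto (fun w : B × V => (c.h b₁ w.1, s w.1 + w.2)) (𝓝 (b₁, (0 : V)))
        (𝓝 ((1 : G), s b₁)) := by
      have h1 : ContinuousAt (fun w : B × V => c.h b₁ w.1) (b₁, (0 : V)) :=
        ContinuousAt.comp (g := c.h b₁) (f := fun w : B × V => w.1) hhb₁.continuousAt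
          continuousAt_fst
      have h2 : ContinuousAt (fun w : B × V => s w.1 + w.2) (b₁, (0 : V)) :=
        (hs.continuous.comp continuous_fst).continuousAt.add continuousAt_snd
      have h3 := (h1.prodMk h2).tendsto
      simpa [c.self b₁] using h3
    have hT2 : Tendsto (fun w : B × V => ((c.h b b₁, c.h b₁ w.1), s w.1 + w.2))
        (𝓝 (b₁, (0 : V))) (𝓝 ((c.h b b₁, (1 : G)), s b₁)) := by
      have h : Tendsto (fun w : B × V => (c.h b₁ w.1, s w.1 + w.2)) (𝓝 (b₁, (0 : V)))
          (𝓝 (1 : G) ×ˢ 𝓝 (s b₁)) := by rw [← nhds_prod_eq]; exact hT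
      have h4 : Tendsto (fun w : B × V => (c.h b b₁, c.h b₁ w.1)) (𝓝 (b₁, (0 : V)))
          (𝓝 (c.h b b₁) ×ˢ 𝓝 (1 : G)) := tendsto_const_nhds.prodMk h.fst
      rw [← nhds_prod_eq] at h4
      have h5 := h4.prodMk h.snd
      rw [← nhds_prod_eq] at h5
      exact h5
    have hf : Tendsto (fun w : B × V => w.1) (𝓝 (b₁, (0 : V))) (𝓝 b₁) := continuousAt_fst
    have h5 : SameLeaves (b₁, (0 : V)) (fun w : B × V => a (c.h b₁ w.1, s w.1 + w.2))
        (fun w : B × V => a (c.h b w.1, s w.1 + w.2)) := by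
      refine ⟨fun v => a (c.h b b₁, v), ?_, ?_⟩
      · simpa [c.self b₁, (ha b₁).apply_one] using h1
      · filter_upwards [hT2.eventually h3, hf.eventually h2] with w h6 h7
        rw [h7]
        exact h6
    refine h5.symm ?_
    have h6 : ContinuousAt a (1, s b₁) := (ha b₁).continuousAt
    exact ContinuousAt.comp (g := a) (f := fun w : B × V => (c.h b₁ w.1, s w.1 + w.2))
      (by simpa [c.self b₁] using h6) (by
        have := hT
        unfold ContinuousAt
        simpa [c.self b₁] using this)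

end Cocycle

section LieStructure

variable {EM : Type*} [NormedAddCommGroup EM] [NormedSpace ℝ EM] {HM : Type*} [TopologicalSpace HM]
  (IM : ModelWithCorners ℝ EM HM) (M : Type*) [TopologicalSpace M] [ChartedSpace HM M]
  {EG : Type*} [NormedAddCommGroup EG] [NormedSpace ℝ EG] {HG : Type*} [TopologicalSpace HG]
  (IG : ModelWithCorners ℝ EG HG) (G : Type*) [TopologicalSpace G] [ChartedSpace HG G] [Group G]

/-- A Haefliger structure on `M` transversely modelled on the Lie group `G` acting on itself by left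
translations: an open cover `U i` of `M` with smooth maps `f i : U i → G` which, on overlaps, differ
by (locally) constant left translations.  The `G`-Lie foliations are those for which all `f i` are
submersions, see `LieStructure.IsLieFoliation`. -/
structure LieStructure where
  ι : Type u
  U : ι → Set M
  isOpen_U : ∀ i, IsOpen (U i)
  cover : ∀ m, ∃ i, m ∈ U i
  f : ι → M → G
  smooth : ∀ i, ContMDiffOn IM IG ∞ (f i) (U i)
  transition : ∀ i j, ∀ m ∈ U i ∩ U j, ∃ g : G, ∀ᶠ m' in 𝓝 m, f i m' = g * f j m'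

variable {IM M IG G}

/-- The maps `f i` are submersions, i.e. the structure is a `G`-Lie foliation on `M`. -/
def LieStructure.IsLieFoliation (𝓕 : LieStructure IM M IG G) : Prop :=
  ∀ i, ∀ m ∈ 𝓕.U i, Function.Surjective (mfderiv IM IG (𝓕.f i) m)

/-- An index `i` with `m ∈ U i`. -/
def LieStructure.idx (𝓕 : LieStructure IM M IG G) (m : M) : 𝓕.ι := (𝓕.cover m).choose

theorem LieStructure.mem_idx (𝓕 : LieStructure IM M IG G) (m : M) : m ∈ 𝓕.U (𝓕.idx m) :=
  (𝓕.cover m).choose_spec

/-- The germ at `m` of the local map to `G`, normalised to take the value `1` at `m`. -/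
def LieStructure.cocycle [LieGroup IG ∞ G] (𝓕 : LieStructure IM M IG G) :
    GCocycle IM M IG G where
  h m := fun m' => (𝓕.f (𝓕.idx m) m)⁻¹ * 𝓕.f (𝓕.idx m) m'
  smooth m := by
    filter_upwards [(𝓕.isOpen_U (𝓕.idx m)).mem_nhds (𝓕.mem_idx m)] with m' hm'
    have h1 : ContMDiffAt IM IG ∞ (𝓕.f (𝓕.idx m)) m' :=
      (𝓕.smooth _ m' hm').contMDiffAt ((𝓕.isOpen_U (𝓕.idx m)).mem_nhds hm')
    exact contMDiffAt_const.mul h1
  self m := by simp
  coh m := by
    filter_upwards [(𝓕.isOpen_U (𝓕.idx m)).mem_nhds (𝓕.mem_idx m)] with m₁ hm₁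
    obtain ⟨g, hg⟩ := 𝓕.transition (𝓕.idx m) (𝓕.idx m₁) m₁ ⟨hm₁, 𝓕.mem_idx m₁⟩
    filter_upwards [hg] with m' hm'
    rw [hm', hg.self_of_nhds]
    group

variable {EX : Type*} [NormedAddCommGroup EX] [NormedSpace ℝ EX] {HX : Type*} [TopologicalSpace HX]
  {IX : ModelWithCorners ℝ EX HX} {X : Type*} [TopologicalSpace X] [ChartedSpace HX X]
  {V : Type*} [NormedAddCommGroup V] [NormedSpace ℝ V]

/-- If `G` acts smoothly on `X` and `ψ` is a local parametrisation of `X` near `ψ 0`, then
`(g, v) ↦ ψ⁻¹ (g • ψ v)` is a local action of `G` on `V` near `0`. -/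
theorem isLocalAction_chart [LieGroup IG ∞ G] [MulAction G X] [ContMDiffSMul IG IX ∞ G X]
    (ψ : PartialDiffeomorph 𝓘(ℝ, V) IX V X ∞) (h0 : (0 : V) ∈ ψ.source) :
    IsLocalAction IG (fun z : G × V => ψ.symm (z.1 • ψ z.2)) 0 := by
  have hψ : ∀ v ∈ ψ.source, ContMDiffAt 𝓘(ℝ, V) IX ∞ ψ v := fun v hv =>
    (ψ.contMDiffOn_toFun v hv).contMDiffAt (ψ.open_source.mem_nhds hv)
  have hψs : ∀ x ∈ ψ.target, ContMDiffAt IX 𝓘(ℝ, V) ∞ ψ.symm x := fun x hx =>
    (ψ.contMDiffOn_invFun x hx).contMDiffAt (ψ.open_target.mem_nhds hx)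
  have hleft : ∀ v ∈ ψ.source, ψ.symm (ψ v) = v := fun v hv => ψ.left_inv hv
  have hright : ∀ x ∈ ψ.target, ψ (ψ.symm x) = x := fun x hx => ψ.right_inv hx
  have hmaps : ∀ v ∈ ψ.source, ψ v ∈ ψ.target := fun v hv => ψ.map_source hv
  have hsrc : ∀ᶠ z in 𝓝 ((1 : G), (0 : V)), z.2 ∈ ψ.source :=
    continuousAt_snd.eventually (ψ.open_source.mem_nhds h0)
  have hsm : ContMDiff (IG.prod IX) IX ∞ (fun p : G × X => p.1 • p.2) := contMDiff_smul
  have hcont : ContinuousAt (fun z : G × V => z.1 • ψ z.2) ((1 : G), (0 : V)) := by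
    have h1 : ContinuousAt (fun z : G × V => (z.1, ψ z.2)) ((1 : G), (0 : V)) :=
      continuousAt_fst.prodMk
        (ContinuousAt.comp (g := ψ) (f := fun z : G × V => z.2) (hψ 0 h0).continuousAt
          continuousAt_snd)
    exact ContinuousAt.comp (g := fun p : G × X => p.1 • p.2)
      (f := fun z : G × V => (z.1, ψ z.2)) hsm.continuous.continuousAt h1
  have htgt : ∀ᶠ z in 𝓝 ((1 : G), (0 : V)), z.1 • ψ z.2 ∈ ψ.target := by
    refine hcont.eventually (ψ.open_target.mem_nhds ?_)
    simpa using hmaps 0 h0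
  refine ⟨?_, ?_, ?_⟩
  · filter_upwards [hsrc, htgt] with z h1 h2
    have h3 : ContMDiffAt (IG.prod 𝓘(ℝ, V)) IX ∞ (fun z : G × V => z.1 • ψ z.2) z :=
      ContMDiffAt.comp z (g := fun p : G × X => p.1 • p.2) (f := fun z : G × V => (z.1, ψ z.2))
        hsm.contMDiffAt (contMDiffAt_fst.prodMk
          (ContMDiffAt.comp z (g := ψ) (f := fun z : G × V => z.2) (hψ _ h1) contMDiffAt_snd))
    exact ContMDiffAt.comp z (g := ψ.symm) (f := fun z : G × V => z.1 • ψ z.2) (hψs _ h2) h3
  · filter_upwards [ψ.open_source.mem_nhds h0] with v hv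
    show ψ.symm ((1 : G) • ψ v) = v
    rw [one_smul]
    exact hleft v hv
  · have := topologicalGroup_of_lieGroup IG ∞ (G := G)
    have hc : Tendsto (fun z : (G × G) × V => (z.1.2, z.2)) (𝓝 (((1 : G), (1 : G)), (0 : V)))
        (𝓝 ((1 : G), (0 : V))) := by
      have : ContinuousAt (fun z : (G × G) × V => (z.1.2, z.2)) (((1 : G), (1 : G)), (0 : V)) := by
        fun_prop
      exact this.tendsto
    filter_upwards [hc.eventually htgt] with z h1
    show ψ.symm ((z.1.1 * z.1.2) • ψ z.2) = ψ.symm (z.1.1 • ψ (ψ.symm (z.1.2 • ψ z.2)))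
    rw [hright _ h1, smul_smul]

/-- The Haefliger structure with trivialised normal bundle defined by a structure transversely
modelled on `G`, a smooth action of `G` on `X` and a local parametrisation `ψ : V → X`: near
`(m, 0)`, its leaves are the level sets of `(m', v) ↦ f i m' • ψ v ∈ X`.  The case `X = G`, with the
action by left translations and `ψ 0 = 1`, is the Haefliger structure of a `G`-Lie foliation, its
normal bundle being trivialised by the left-invariant frame of `G` given by the derivative of `ψ`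
at `0`. -/
def LieStructure.haefliger [LieGroup IG ∞ G] [MulAction G X] [ContMDiffSMul IG IX ∞ G X]
    [FiniteDimensional ℝ V] (𝓕 : LieStructure IM M IG G)
    (ψ : PartialDiffeomorph 𝓘(ℝ, V) IX V X ∞) (h0 : (0 : V) ∈ ψ.source) : GammaBar IM M V where
  F m := fun w => ψ.symm (((𝓕.f (𝓕.idx m) m)⁻¹ * 𝓕.f (𝓕.idx m) w.1) • ψ w.2)
  smooth m := by
    have h := (GammaBar.ofAction 𝓕.cocycle (fun z : G × V => ψ.symm (z.1 • ψ z.2))
      (fun _ => (0 : V)) contMDiff_const (fun _ => isLocalAction_chart ψ h0)).smooth m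
    simpa [GammaBar.ofAction, LieStructure.cocycle] using h
  transverse m := by
    have h := (GammaBar.ofAction 𝓕.cocycle (fun z : G × V => ψ.symm (z.1 • ψ z.2))
      (fun _ => (0 : V)) contMDiff_const (fun _ => isLocalAction_chart ψ h0)).transverse m
    simpa [GammaBar.ofAction, LieStructure.cocycle] using h
  coherent m := by
    have h := (GammaBar.ofAction 𝓕.cocycle (fun z : G × V => ψ.symm (z.1 • ψ z.2))
      (fun _ => (0 : V)) contMDiff_const (fun _ => isLocalAction_chart ψ h0)).coherent m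
    simpa [GammaBar.ofAction, LieStructure.cocycle] using h

end LieStructure

end Pool.Agent.MP_602746_gt
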