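import Mathlib
import Pool.Agent.MP_602746_gt.Defs

open scoped Manifold ContDiff Topology
open Set Filter

noncomputable section

namespace Pool.Agent.MP_602746_gt

section SameLeaves

variable {N : Type*} [TopologicalSpace N]
  {V : Type*} [NormedAddCommGroup V] [NormedSpace ℝ V]
  {V' : Type*} [NormedAddCommGroup V'] [NormedSpace ℝ V']

theorem ldcomp {V₁ V₂ V₃ : Type*} [NormedAddCommGroup V₁] [NormedSpace ℝ V₁]
    [NormedAddCommGroup V₂] [NormedSpace ℝ V₂] [NormedAddCommGroup V₃] [NormedSpace ℝ V₃]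
    {f : V₁ → V₂} {g : V₂ → V₃} {x : V₁}
    (hf : IsLocalDiffeomorphAt 𝓘(ℝ, V₁) 𝓘(ℝ, V₂) ∞ f x)
    (hg : IsLocalDiffeomorphAt 𝓘(ℝ, V₂) 𝓘(ℝ, V₃) ∞ g (f x)) :
    IsLocalDiffeomorphAt 𝓘(ℝ, V₁) 𝓘(ℝ, V₃) ∞ (fun v => g (f v)) x :=
  IsLocalDiffeomorphAt.comp 𝓘(ℝ, V₃) V₃ hf hg

theorem SameLeaves.map {n : N} {F F' : N → V} (L : V ≃L[ℝ] V') (h : SameLeaves n F F') :
    SameLeaves n (fun x => L (F x)) (fun x => L (F' x)) := by
  obtain ⟨η, hη, he⟩ := h
  refine ⟨fun v => L (η (L.symm v)), ?_, ?_⟩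
  · have h1 : IsLocalDiffeomorphAt 𝓘(ℝ, V') 𝓘(ℝ, V) ∞ L.symm (L (F n)) :=
      L.symm.toDiffeomorph.isLocalDiffeomorph _
    have h2 : IsLocalDiffeomorphAt 𝓘(ℝ, V) 𝓘(ℝ, V) ∞ η (L.symm (L (F n))) := by
      rw [L.symm_apply_apply]; exact hη
    have h3 : IsLocalDiffeomorphAt 𝓘(ℝ, V) 𝓘(ℝ, V') ∞ L (η (L.symm (L (F n)))) :=
      L.toDiffeomorph.isLocalDiffeomorph _
    exact ldcomp (ldcomp h1 h2) h3
  · filter_upwards [he] with x hx
    simp [hx]

theorem SameLeaves.of_comp {n : N} {F : N → V} {η : V → V}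
    (hη : IsLocalDiffeomorphAt 𝓘(ℝ, V) 𝓘(ℝ, V) ∞ η (F n)) :
    SameLeaves n F (fun x => η (F x)) :=
  ⟨η, hη, Eventually.of_forall fun _ => rfl⟩

end SameLeaves

namespace GammaBar

variable {EB : Type*} [NormedAddCommGroup EB] [NormedSpace ℝ EB] {HB : Type*} [TopologicalSpace HB]
  {IB : ModelWithCorners ℝ EB HB} {B : Type*} [TopologicalSpace B] [ChartedSpace HB B]
  {V : Type*} [NormedAddCommGroup V] [NormedSpace ℝ V]

theorem continuousAt (σ : GammaBar IB B V) (b : B) : ContinuousAt (σ.F b) (b, (0 : V)) :=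
  (σ.smooth b).self_of_nhds.continuousAt

theorem Equal.refl (σ : GammaBar IB B V) : σ.Equal σ := fun _ => SameLeaves.refl _ _

theorem Equal.symm {σ τ : GammaBar IB B V} (h : σ.Equal τ) : τ.Equal σ :=
  fun b => (h b).symm (σ.continuousAt b)

theorem Equal.trans {σ τ υ : GammaBar IB B V} (h : σ.Equal τ) (h' : τ.Equal υ) : σ.Equal υ :=
  fun b => (h b).trans (h' b)

section Pull

variable {EB' : Type*} [NormedAddCommGroup EB'] [NormedSpace ℝ EB'] {HB' : Type*}
    [TopologicalSpace HB'] {IB' : ModelWithCorners ℝ EB' HB'} {B' : Type*} [TopologicalSpace B']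
    [ChartedSpace HB' B'] {V' : Type*} [NormedAddCommGroup V'] [NormedSpace ℝ V']

theorem tendsto_fibre {g : B' → B} (hg : Continuous g) {R : B' × V' → V}
    (hRs : ∀ b', ∀ᶠ w in 𝓝 (b', (0 : V')), ContMDiffAt (IB'.prod 𝓘(ℝ, V')) 𝓘(ℝ, V) ∞ R w)
    (b' : B') : ContinuousAt (fun w : B' × V' => (g w.1, R w)) (b', (0 : V')) :=
  (hg.comp continuous_fst).continuousAt.prodMk (hRs b').self_of_nhds.continuousAt

/-- Pull-back along a fibrewise local diffeomorphism of trivial bundles over a smooth map. -/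
def pull (σ : GammaBar IB B V) (g : B' → B) (hg : ContMDiff IB' IB ∞ g) (R : B' × V' → V)
    (hR0 : ∀ b', R (b', 0) = 0)
    (hRs : ∀ b', ∀ᶠ w in 𝓝 (b', (0 : V')), ContMDiffAt (IB'.prod 𝓘(ℝ, V')) 𝓘(ℝ, V) ∞ R w)
    (hRd : ∀ b', Function.Bijective (fderiv ℝ (fun v => R (b', v)) 0)) (L : V ≃L[ℝ] V') :
    GammaBar IB' B' V' where
  F b' := fun w => L (σ.F (g b') (g w.1, R w))
  smooth b' := by
    have hc := tendsto_fibre hg.continuous hRs b'
    have hc' : Tendsto (fun w : B' × V' => (g w.1, R w)) (𝓝 (b', (0 : V')))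
        (𝓝 (g b', (0 : V))) := by
      have := hc.tendsto
      simpa [hR0] using this
    filter_upwards [hc'.eventually (σ.smooth (g b')), hRs b'] with w hw hw2
    have h1 : ContMDiffAt (IB'.prod 𝓘(ℝ, V')) (IB.prod 𝓘(ℝ, V)) ∞
        (fun w : B' × V' => (g w.1, R w)) w :=
      ((hg.contMDiffAt).comp w contMDiffAt_fst).prodMk hw2
    have h2 : ContMDiffAt (IB'.prod 𝓘(ℝ, V')) 𝓘(ℝ, V) ∞
        (fun w : B' × V' => σ.F (g b') (g w.1, R w)) w :=
      ContMDiffAt.comp w (g := σ.F (g b')) (f := fun w : B' × V' => (g w.1, R w)) hw h1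
    exact ContMDiffAt.comp w (g := L) (f := fun w : B' × V' => σ.F (g b') (g w.1, R w))
      L.contDiff.contMDiff.contMDiffAt h2
  transverse b' := by
    have hσ : DifferentiableAt ℝ (fun v => σ.F (g b') (g b', v)) 0 := by
      have h0 : ContDiffAt ℝ ∞ (fun v => σ.F (g b') (g b', v)) 0 := by
        rw [← contMDiffAt_iff_contDiffAt]
        have h1 : ContMDiffAt 𝓘(ℝ, V) (IB.prod 𝓘(ℝ, V)) ∞ (fun v : V => (g b', v)) 0 :=
          contMDiffAt_const.prodMk contMDiffAt_id
        exact ContMDiffAt.comp (0 : V) (g := σ.F (g b')) (f := fun v : V => (g b', v))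
          (σ.smooth (g b')).self_of_nhds h1
      exact h0.differentiableAt (by simp)
    have hRf : DifferentiableAt ℝ (fun v => R (b', v)) 0 := by
      have h0 : ContDiffAt ℝ ∞ (fun v => R (b', v)) 0 := by
        rw [← contMDiffAt_iff_contDiffAt]
        have h1 : ContMDiffAt 𝓘(ℝ, V') (IB'.prod 𝓘(ℝ, V')) ∞ (fun v : V' => (b', v)) 0 :=
          contMDiffAt_const.prodMk contMDiffAt_id
        exact ContMDiffAt.comp (0 : V') (g := R) (f := fun v : V' => (b', v))
          (hRs b').self_of_nhds h1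
      exact h0.differentiableAt (by simp)
    have h1 : HasFDerivAt (fun v => σ.F (g b') (g b', v))
        (fderiv ℝ (fun v => σ.F (g b') (g b', v)) 0) (R (b', 0)) := by
      rw [hR0]; exact hσ.hasFDerivAt
    have h2 : HasFDerivAt (fun v => σ.F (g b') (g b', R (b', v)))
        ((fderiv ℝ (fun v => σ.F (g b') (g b', v)) 0).comp (fderiv ℝ (fun v => R (b', v)) 0)) 0 :=
      HasFDerivAt.comp (0 : V') (g := fun v => σ.F (g b') (g b', v)) (f := fun v => R (b', v))
        h1 hRf.hasFDerivAt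
    have h3 : HasFDerivAt (fun v => L (σ.F (g b') (g b', R (b', v))))
        ((L : V →L[ℝ] V').comp ((fderiv ℝ (fun v => σ.F (g b') (g b', v)) 0).comp
          (fderiv ℝ (fun v => R (b', v)) 0))) 0 :=
      L.hasFDerivAt.comp (0 : V') h2
    show Function.Bijective (fderiv ℝ (fun v => L (σ.F (g b') (g b', R (b', v)))) 0)
    rw [h3.fderiv]
    exact L.bijective.comp ((σ.transverse (g b')).comp (hRd b'))
  coherent b' := by
    filter_upwards [hg.continuous.continuousAt.eventually (σ.coherent (g b'))] with b₁ hb₁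
    have hc := tendsto_fibre hg.continuous hRs b₁
    have hb₂ : SameLeaves ((fun w : B' × V' => (g w.1, R w)) (b₁, (0 : V')))
        (σ.F (g b')) (σ.F (g b₁)) := by
      simpa [hR0] using hb₁
    exact (SameLeaves.comp hc hb₂).map L

end Pull

section Lin

variable {V' : Type*} [NormedAddCommGroup V'] [NormedSpace ℝ V']

/-- Linear change of the fibre. -/
def lin (σ : GammaBar IB B V) (A : V' ≃L[ℝ] V) : GammaBar IB B V' :=
  σ.pull (fun b => b) contMDiff_id (fun w : B × V' => A w.2) (fun b' => by simp)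
    (fun b' => Eventually.of_forall fun w =>
      ContMDiffAt.comp w (g := A) (f := fun w : B × V' => w.2)
        A.contDiff.contMDiff.contMDiffAt contMDiffAt_snd)
    (fun b' => by
      have : fderiv ℝ (fun v : V' => A v) 0 = (A : V' →L[ℝ] V) := A.fderiv
      show Function.Bijective (fderiv ℝ (fun v : V' => A v) 0)
      rw [this]; exact A.bijective) A.symm

theorem lin_F (σ : GammaBar IB B V) (A : V' ≃L[ℝ] V) (b : B) (w : B × V') :
    (σ.lin A).F b w = A.symm (σ.F b (w.1, A w.2)) := rfl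

theorem Equal.lin {σ τ : GammaBar IB B V} (h : σ.Equal τ) (A : V' ≃L[ℝ] V) :
    (σ.lin A).Equal (τ.lin A) := by
  intro b
  have hc : ContinuousAt (fun w : B × V' => (w.1, A w.2)) (b, (0 : V')) := by fun_prop
  have h1 : SameLeaves ((fun w : B × V' => (w.1, A w.2)) (b, (0 : V'))) (σ.F b) (τ.F b) := by
    simpa using h b
  exact (SameLeaves.comp hc h1).map A.symm

/-- Non-linear change of the fibre coordinates. -/
def gauge (σ : GammaBar IB B V) (R : V' → V) (hR0 : R 0 = 0)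
    (hRs : ∀ᶠ v in 𝓝 (0 : V'), ContDiffAt ℝ ∞ R v) (A : V' ≃L[ℝ] V)
    (hA : HasFDerivAt R (A : V' →L[ℝ] V) 0) : GammaBar IB B V' :=
  σ.pull (fun b => b) contMDiff_id (fun w : B × V' => R w.2) (fun b' => by simp [hR0])
    (fun b' => by
      have hc : ContinuousAt (fun w : B × V' => w.2) (b', (0 : V')) := continuousAt_snd
      filter_upwards [hc.eventually hRs] with w hw
      exact ContMDiffAt.comp w (g := R) (f := fun w : B × V' => w.2)
        hw.contMDiffAt contMDiffAt_snd)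
    (fun b' => by
      show Function.Bijective (fderiv ℝ (fun v : V' => R v) 0)
      rw [hA.fderiv]; exact A.bijective) A.symm

end Lin

section Homotopic

theorem Homotopic.of_equal {σ τ : GammaBar IB B V} (h : σ.Equal τ) : σ.Homotopic τ := by
  refine ⟨σ.pullback (fun p : B × ℝ => p.1) contMDiff_fst, ?_, ?_⟩
  · intro b
    exact SameLeaves.refl _ _
  · intro b
    exact h b

theorem Homotopic.refl (σ : GammaBar IB B V) : σ.Homotopic σ := .of_equal (.refl σ)

theorem Equal.pullback {EB' : Type*} [NormedAddCommGroup EB'] [NormedSpace ℝ EB'] {HB' : Type*}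
    [TopologicalSpace HB'] {IB' : ModelWithCorners ℝ EB' HB'} {B' : Type*} [TopologicalSpace B']
    [ChartedSpace HB' B'] {σ τ : GammaBar IB B V} (h : σ.Equal τ) (g : B' → B)
    (hg : ContMDiff IB' IB ∞ g) : (σ.pullback g hg).Equal (τ.pullback g hg) := by
  intro b
  have hc : ContinuousAt (fun w : B' × V => (g w.1, w.2)) (b, (0 : V)) :=
    (hg.continuous.comp continuous_fst).continuousAt.prodMk continuousAt_snd
  exact SameLeaves.comp (g := fun w : B' × V => (g w.1, w.2)) hc (h (g b))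

theorem Homotopic.symm {σ τ : GammaBar IB B V} (h : σ.Homotopic τ) : τ.Homotopic σ := by
  obtain ⟨ρ, h0, h1⟩ := h
  have hg : ContMDiff (IB.prod 𝓘(ℝ, ℝ)) (IB.prod 𝓘(ℝ, ℝ)) ∞
      (fun p : B × ℝ => (p.1, 1 - p.2)) := by
    refine contMDiff_fst.prodMk ?_
    exact (contDiff_const.sub contDiff_id : ContDiff ℝ ∞ (fun t : ℝ => 1 - t)).contMDiff.comp
      contMDiff_snd
  refine ⟨ρ.pullback _ hg, ?_, ?_⟩
  · intro b
    have := h1 b
    simpa [GammaBar.pullback] using this
  · intro b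
    have := h0 b
    simpa [GammaBar.pullback] using this

/-- Gluing of two structures which agree near the frontier of a set. -/
def glue (ρ ρ' : GammaBar IB B V) (S O : Set B)
    (hO : IsOpen O) (hfr : frontier S ⊆ O)
    (h : ∀ b ∈ O, SameLeaves (b, (0 : V)) (ρ.F b) (ρ'.F b)) : GammaBar IB B V := by
  classical
  exact
  { F := fun b => if b ∈ S then ρ.F b else ρ'.F b
    smooth := fun b => by
      by_cases hb : b ∈ S
      · simp only [hb, if_true]; exact ρ.smooth b
      · simp only [hb, if_false]; exact ρ'.smooth b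
    transverse := fun b => by
      by_cases hb : b ∈ S
      · simp only [hb, if_true]; exact ρ.transverse b
      · simp only [hb, if_false]; exact ρ'.transverse b
    coherent := fun b => by
      have hs : ∀ b ∈ O, SameLeaves (b, (0 : V)) (ρ'.F b) (ρ.F b) := fun b hb =>
        (h b hb).symm (ρ.continuousAt b)
      by_cases hbO : b ∈ O
      · -- germs of `ρ.F b` and `ρ'.F b` agree near `(b, 0)`
        have hev : ∀ᶠ b' in 𝓝 b, SameLeaves (b', (0 : V)) (ρ.F b) (ρ'.F b) := by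
          filter_upwards [ρ.coherent b, ρ'.coherent b, hO.mem_nhds hbO,
            (ρ'.smooth b).eventually_nhds.curry_nhds] with b' h1 h2 h3 h4
          have h5 : ContinuousAt (ρ'.F b) (b', (0 : V)) :=
            h4.self_of_nhds.self_of_nhds.continuousAt
          exact (h1.trans (h b' h3)).trans (h2.symm h5)
        filter_upwards [ρ.coherent b, ρ'.coherent b, hO.mem_nhds hbO, hev,
            (ρ.smooth b).eventually_nhds.curry_nhds] with b' h1 h2 h3 h4 h5
        have h6 : ContinuousAt (ρ.F b) (b', (0 : V)) :=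
            h5.self_of_nhds.self_of_nhds.continuousAt
        by_cases hb : b ∈ S <;> by_cases hb' : b' ∈ S <;> simp only [hb, hb', if_true, if_false]
        · exact h1
        · exact h1.trans (h b' h3)
        · exact h2.trans (hs b' h3)
        · exact h2
      · have hbf : b ∉ frontier S := fun hb => hbO (hfr hb)
        rw [frontier_eq_closure_inter_closure] at hbf
        by_cases hb : b ∈ S
        · have : b ∉ closure Sᶜ := fun hb' => hbf ⟨subset_closure hb, hb'⟩
          have hS : ∀ᶠ b' in 𝓝 b, b' ∈ S := by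
            have := isClosed_closure.isOpen_compl.mem_nhds this
            filter_upwards [this] with b' hb'
            by_contra hcon
            exact hb' (subset_closure hcon)
          filter_upwards [ρ.coherent b, hS] with b' h1 h2
          simp only [hb, h2, if_true]
          exact h1
        · have : b ∉ closure S := fun hb' => hbf ⟨hb', subset_closure hb⟩
          have hS : ∀ᶠ b' in 𝓝 b, b' ∉ S := by
            have := isClosed_closure.isOpen_compl.mem_nhds this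
            filter_upwards [this] with b' hb'
            exact fun hcon => hb' (subset_closure hcon)
          filter_upwards [ρ'.coherent b, hS] with b' h1 h2
          simp only [hb, h2, if_false]
          exact h1 }

theorem glue_F_mem (ρ ρ' : GammaBar IB B V) {S O : Set B}
    (hO : IsOpen O) (hfr : frontier S ⊆ O)
    (h : ∀ b ∈ O, SameLeaves (b, (0 : V)) (ρ.F b) (ρ'.F b)) {b : B} (hb : b ∈ S) :
    (glue ρ ρ' S O hO hfr h).F b = ρ.F b := by
  simp [glue, hb]

theorem glue_F_notMem (ρ ρ' : GammaBar IB B V) {S O : Set B}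
    (hO : IsOpen O) (hfr : frontier S ⊆ O)
    (h : ∀ b ∈ O, SameLeaves (b, (0 : V)) (ρ.F b) (ρ'.F b)) {b : B} (hb : b ∉ S) :
    (glue ρ ρ' S O hO hfr h).F b = ρ'.F b := by
  simp [glue, hb]

/-- The cylinder map which reparametrises the second variable. -/
theorem contMDiff_reparam {f : ℝ → ℝ} (hf : ContDiff ℝ ∞ f) :
    ContMDiff (IB.prod 𝓘(ℝ, ℝ)) (IB.prod 𝓘(ℝ, ℝ)) ∞ (fun p : B × ℝ => (p.1, f p.2)) :=
  contMDiff_fst.prodMk (hf.contMDiff.comp contMDiff_snd)

/-- If `f` is constant equal to `t₀` near `t`, the reparametrised structure is, near `(b, t)`, the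
pull-back of the slice at `t₀`. -/
theorem reparam_const (ρ : GammaBar (IB.prod 𝓘(ℝ, ℝ)) (B × ℝ) V) {f : ℝ → ℝ}
    (hf : ContDiff ℝ ∞ f) {t t₀ : ℝ} (ht : ∀ᶠ s in 𝓝 t, f s = t₀) (b : B) {σ : GammaBar IB B V}
    (hσ : SameLeaves (b, (0 : V)) (fun w => ρ.F (b, t₀) ((w.1, t₀), w.2)) (σ.F b)) :
    SameLeaves ((b, t), (0 : V)) ((ρ.pullback _ (contMDiff_reparam hf)).F (b, t))
      (fun w => σ.F b (w.1.1, w.2)) := by
  have hc : ContinuousAt (fun w : (B × ℝ) × V => (w.1.1, w.2)) ((b, t), (0 : V)) := by fun_prop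
  have h1 := SameLeaves.comp (g := fun w : (B × ℝ) × V => (w.1.1, w.2)) hc hσ
  refine h1.congr ?_ (Eventually.of_forall fun _ => rfl)
  have hc2 : ContinuousAt (fun w : (B × ℝ) × V => w.1.2) ((b, t), (0 : V)) := by fun_prop
  filter_upwards [hc2.eventually ht] with w hw
  have : f t = t₀ := ht.self_of_nhds
  show ρ.F (b, f t) ((w.1.1, f w.1.2), w.2) = ρ.F (b, t₀) ((w.1.1, t₀), w.2)
  rw [this, hw]

theorem Homotopic.trans {σ τ υ : GammaBar IB B V} (h : σ.Homotopic τ) (h' : τ.Homotopic υ) :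
    σ.Homotopic υ := by
  obtain ⟨ρ, h0, h1⟩ := h
  obtain ⟨ρ', h0', h1'⟩ := h'
  -- `f` vanishes for `t ≤ 0` and is `1` for `t ≥ 1/3`; `g` vanishes for `t ≤ 2/3` and is `1` for
  -- `t ≥ 1`
  let f : ℝ → ℝ := fun t => Real.smoothTransition (3 * t)
  let g : ℝ → ℝ := fun t => Real.smoothTransition (3 * t - 2)
  have hf : ContDiff ℝ ∞ f := Real.smoothTransition.contDiff.comp (contDiff_const.mul contDiff_id)
  have hg : ContDiff ℝ ∞ g :=
    Real.smoothTransition.contDiff.comp ((contDiff_const.mul contDiff_id).sub contDiff_const)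
  have hf1 : ∀ t, 1 / 3 < t → ∀ᶠ s in 𝓝 t, f s = 1 := fun t ht => by
    filter_upwards [lt_mem_nhds ht] with s hs
    exact Real.smoothTransition.one_of_one_le (by linarith)
  have hg0 : ∀ t, t < 2 / 3 → ∀ᶠ s in 𝓝 t, g s = 0 := fun t ht => by
    filter_upwards [gt_mem_nhds ht] with s hs
    exact Real.smoothTransition.zero_of_nonpos (by linarith)
  let O : Set (B × ℝ) := {p | 1 / 3 < p.2 ∧ p.2 < 2 / 3}
  have hO : IsOpen O := (isOpen_lt continuous_const continuous_snd).inter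
    (isOpen_lt continuous_snd continuous_const)
  let S : Set (B × ℝ) := {p | p.2 ≤ 1 / 2}
  have hS : frontier S ⊆ O := by
    intro p hp
    have h2 : p.2 = 1 / 2 := frontier_le_subset_eq continuous_snd continuous_const hp
    constructor <;> rw [h2] <;> norm_num
  have hagree : ∀ p ∈ O, SameLeaves (p, (0 : V)) ((ρ.pullback _ (contMDiff_reparam hf)).F p)
      ((ρ'.pullback _ (contMDiff_reparam hg)).F p) := by
    rintro ⟨b, t⟩ ⟨ht1, ht2⟩
    have e1 := reparam_const ρ hf (hf1 t ht1) b (σ := τ) (h1 b)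
    have e2 := reparam_const ρ' hg (hg0 t ht2) b (σ := τ) (h0' b)
    exact e1.trans (e2.symm (continuousAt _ _))
  refine ⟨glue _ _ S O hO hS hagree, ?_, ?_⟩
  · intro b
    have hb : (b, (0 : ℝ)) ∈ S := by show (0 : ℝ) ≤ 1 / 2; norm_num
    have hf0 : f 0 = 0 := Real.smoothTransition.zero_of_nonpos (by norm_num)
    show SameLeaves (b, (0 : V)) (fun w : B × V => (glue _ _ S O hO hS hagree).F (b, (0 : ℝ))
      ((w.1, (0 : ℝ)), w.2)) (σ.F b)
    rw [glue_F_mem _ _ _ _ _ hb]
    have h2 : SameLeaves (b, (0 : V)) (fun w : B × V => ρ.F (b, (0 : ℝ)) ((w.1, (0 : ℝ)), w.2))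
      (σ.F b) := h0 b
    simpa [GammaBar.pullback, hf0] using h2
  · intro b
    have hb : (b, (1 : ℝ)) ∉ S := by show ¬ ((1 : ℝ) ≤ 1 / 2); norm_num
    have hf0 : g 1 = 1 := Real.smoothTransition.one_of_one_le (by norm_num)
    show SameLeaves (b, (0 : V)) (fun w : B × V => (glue _ _ S O hO hS hagree).F (b, (1 : ℝ))
      ((w.1, (1 : ℝ)), w.2)) (υ.F b)
    rw [glue_F_notMem _ _ _ _ _ hb]
    have h2 : SameLeaves (b, (0 : V)) (fun w : B × V => ρ'.F (b, (1 : ℝ)) ((w.1, (1 : ℝ)), w.2))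
      (υ.F b) := h1' b
    simpa [GammaBar.pullback, hf0] using h2

variable {W : Type*} [NormedAddCommGroup W] [NormedSpace ℝ W]

theorem Homotopic.stab [FiniteDimensional ℝ V] [FiniteDimensional ℝ W] {σ τ : GammaBar IB B V}
    (h : σ.Homotopic τ) : (σ.stab W).Homotopic (τ.stab W) := by
  obtain ⟨ρ, h0, h1⟩ := h
  refine ⟨ρ.stab W, ?_, ?_⟩
  · intro b
    have hc : ContinuousAt (fun w : B × V × W => (w.1, w.2.1)) (b, (0 : V × W)) := by fun_prop
    exact (SameLeaves.comp (g := fun w : B × V × W => (w.1, w.2.1)) hc (h0 b)).prod _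
  · intro b
    have hc : ContinuousAt (fun w : B × V × W => (w.1, w.2.1)) (b, (0 : V × W)) := by fun_prop
    exact (SameLeaves.comp (g := fun w : B × V × W => (w.1, w.2.1)) hc (h1 b)).prod _

variable {V' : Type*} [NormedAddCommGroup V'] [NormedSpace ℝ V']

theorem Homotopic.lin {σ τ : GammaBar IB B V} (h : σ.Homotopic τ) (A : V' ≃L[ℝ] V) :
    (σ.lin A).Homotopic (τ.lin A) := by
  obtain ⟨ρ, h0, h1⟩ := h
  refine ⟨ρ.lin A, ?_, ?_⟩
  · intro b
    have hc : ContinuousAt (fun w : B × V' => (w.1, A w.2)) (b, (0 : V')) := by fun_prop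
    have h3 : SameLeaves (b, (0 : V))
      (fun w : B × V => ρ.F (b, (0 : ℝ)) ((w.1, (0 : ℝ)), w.2)) (σ.F b) := h0 b
    have h2 : SameLeaves ((fun w : B × V' => (w.1, A w.2)) (b, (0 : V')))
      (fun w : B × V => ρ.F (b, (0 : ℝ)) ((w.1, (0 : ℝ)), w.2)) (σ.F b) := by
      simpa using h3
    exact (SameLeaves.comp hc h2).map A.symm
  · intro b
    have hc : ContinuousAt (fun w : B × V' => (w.1, A w.2)) (b, (0 : V')) := by fun_prop
    have h3 : SameLeaves (b, (0 : V))
      (fun w : B × V => ρ.F (b, (1 : ℝ)) ((w.1, (1 : ℝ)), w.2)) (τ.F b) := h1 b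
    have h2 : SameLeaves ((fun w : B × V' => (w.1, A w.2)) (b, (0 : V')))
      (fun w : B × V => ρ.F (b, (1 : ℝ)) ((w.1, (1 : ℝ)), w.2)) (τ.F b) := by
      simpa using h3
    exact (SameLeaves.comp hc h2).map A.symm

/-- A change of fibre coordinates is homotopic to its linear part. -/
theorem gauge_homotopic (σ : GammaBar IB B V) (R : V' → V) (hR0 : R 0 = 0)
    (hRs : ∀ᶠ v in 𝓝 (0 : V'), ContDiffAt ℝ ∞ R v) (A : V' ≃L[ℝ] V)
    (hA : HasFDerivAt R (A : V' →L[ℝ] V) 0) : (σ.gauge R hR0 hRs A hA).Homotopic (σ.lin A) := by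
  let K : (B × ℝ) × V' → V := fun w => R w.2 + w.1.2 • (A w.2 - R w.2)
  have hK0 : ∀ b, K (b, 0) = 0 := fun b => by simp [K, hR0]
  have hKs : ∀ b, ∀ᶠ w in 𝓝 (b, (0 : V')),
      ContMDiffAt ((IB.prod 𝓘(ℝ, ℝ)).prod 𝓘(ℝ, V')) 𝓘(ℝ, V) ∞ K w := by
    intro b
    have hc : ContinuousAt (fun w : (B × ℝ) × V' => w.2) (b, (0 : V')) := continuousAt_snd
    filter_upwards [hc.eventually hRs] with w hw
    have h1 : ContMDiffAt ((IB.prod 𝓘(ℝ, ℝ)).prod 𝓘(ℝ, V')) 𝓘(ℝ, V) ∞
        (fun w : (B × ℝ) × V' => R w.2) w :=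
      ContMDiffAt.comp w (g := R) (f := fun w : (B × ℝ) × V' => w.2)
        hw.contMDiffAt contMDiffAt_snd
    have h2 : ContMDiffAt ((IB.prod 𝓘(ℝ, ℝ)).prod 𝓘(ℝ, V')) 𝓘(ℝ, V) ∞
        (fun w : (B × ℝ) × V' => A w.2) w :=
      ContMDiffAt.comp w (g := A) (f := fun w : (B × ℝ) × V' => w.2)
        A.contDiff.contMDiff.contMDiffAt contMDiffAt_snd
    have h3 : ContMDiffAt ((IB.prod 𝓘(ℝ, ℝ)).prod 𝓘(ℝ, V')) 𝓘(ℝ, ℝ) ∞
        (fun w : (B × ℝ) × V' => w.1.2) w := contMDiffAt_snd.comp w contMDiffAt_fst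
    exact h1.add (h3.smul (h2.sub h1))
  have hKd : ∀ b, Function.Bijective (fderiv ℝ (fun v => K (b, v)) 0) := by
    intro b
    have h1 : HasFDerivAt (fun v => K (b, v))
        ((A : V' →L[ℝ] V) + b.2 • ((A : V' →L[ℝ] V) - (A : V' →L[ℝ] V))) 0 :=
      hA.add ((A.hasFDerivAt.sub hA).const_smul b.2)
    rw [h1.fderiv, sub_self, smul_zero, add_zero]
    exact A.bijective
  refine ⟨σ.pull (fun p : B × ℝ => p.1) contMDiff_fst K hK0 hKs hKd A.symm, ?_, ?_⟩
  · intro b
    refine SameLeaves.of_eventuallyEq (Eventually.of_forall fun w => ?_)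
    simp [GammaBar.pullback, GammaBar.gauge, GammaBar.pull, K]
  · intro b
    refine SameLeaves.of_eventuallyEq (Eventually.of_forall fun w => ?_)
    simp [GammaBar.pullback, GammaBar.lin, GammaBar.pull, K]

end Homotopic

end GammaBar

end Pool.Agent.MP_602746_gt
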