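import Mathlib
import Pool.Agent.MP_602746_gt.Homotopy

open scoped Manifold ContDiff Topology
open Set Filter

noncomputable section

namespace Pool.Agent.MP_602746_gt

section Slide

variable {EB : Type*} [NormedAddCommGroup EB] [NormedSpace ℝ EB] {HB : Type*} [TopologicalSpace HB]
  {IB : ModelWithCorners ℝ EB HB} {B : Type*} [TopologicalSpace B] [ChartedSpace HB B]
  {EG : Type*} [NormedAddCommGroup EG] [NormedSpace ℝ EG] {HG : Type*} [TopologicalSpace HG]
  {IG : ModelWithCorners ℝ EG HG} {G : Type*} [TopologicalSpace G] [ChartedSpace HG G] [Group G]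

/-- Pull-back of a cocycle to the cylinder. -/
def GCocycle.cyl (c : GCocycle IB B IG G) : GCocycle (IB.prod 𝓘(ℝ, ℝ)) (B × ℝ) IG G where
  h p := fun p' => c.h p.1 p'.1
  smooth p := by
    have hc : ContinuousAt (fun p : B × ℝ => p.1) p := continuousAt_fst
    filter_upwards [hc.eventually (c.smooth p.1)] with p' hp'
    exact ContMDiffAt.comp p' (g := c.h p.1) (f := fun p : B × ℝ => p.1) hp' contMDiffAt_fst
  self p := c.self p.1
  coh p := by
    have hc : ContinuousAt (fun p : B × ℝ => p.1) p := continuousAt_fst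
    filter_upwards [hc.eventually (c.coh p.1)] with p₁ hp₁
    have hc₁ : ContinuousAt (fun p : B × ℝ => p.1) p₁ := continuousAt_fst
    exact hc₁.eventually hp₁

variable {V : Type*} [NormedAddCommGroup V] [NormedSpace ℝ V] [FiniteDimensional ℝ V]
  [LieGroup IG ∞ G]

/-- The Haefliger structure defined by a local action near a point. -/
def ofPt (c : GCocycle IB B IG G) (a : G × V → V) (p : V) (ha : IsLocalAction IG a p) :
    GammaBar IB B V :=
  GammaBar.ofAction c a (fun _ => p) contMDiff_const (fun _ => ha)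

theorem ofPt_F (c : GCocycle IB B IG G) (a : G × V → V) (p : V) (ha : IsLocalAction IG a p)
    (b : B) (w : B × V) : (ofPt c a p ha).F b w = a (c.h b w.1, p + w.2) := rfl

theorem slide (c : GCocycle IB B IG G) (a : G × V → V) (γ : ℝ → V) (hγ : ContDiff ℝ ∞ γ)
    (ha : ∀ t, IsLocalAction IG a (γ t)) :
    (ofPt c a (γ 0) (ha 0)).Homotopic (ofPt c a (γ 1) (ha 1)) := by
  refine ⟨GammaBar.ofAction c.cyl a (fun p : B × ℝ => γ p.2)
    (hγ.contMDiff.comp contMDiff_snd) (fun p => ha p.2), ?_, ?_⟩
  · intro b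
    exact SameLeaves.refl _ _
  · intro b
    exact SameLeaves.refl _ _

omit [LieGroup IG ∞ G] in
/-- Near `(b, 0)` the pair `(c b b', v)` is close to `(1, 0)`. -/
theorem tendsto_cocycle {V : Type*} [NormedAddCommGroup V] (c : GCocycle IB B IG G) (b : B) (p : V) :
    Tendsto (fun w : B × V => (c.h b w.1, p + w.2)) (𝓝 (b, (0 : V))) (𝓝 ((1 : G), p)) := by
  have hhb : ContMDiffAt IB IG ∞ (c.h b) b := (c.smooth b).self_of_nhds
  have h1 : ContinuousAt (fun w : B × V => c.h b w.1) (b, (0 : V)) :=
    ContinuousAt.comp (g := c.h b) (f := fun w : B × V => w.1) hhb.continuousAt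
      continuousAt_fst
  have h2 : ContinuousAt (fun w : B × V => p + w.2) (b, (0 : V)) := by fun_prop
  have h3 := (h1.prodMk h2).tendsto
  simpa [c.self b] using h3

/-- Two local actions which agree near `(1, p)` define the same structure. -/
theorem ofPt_congr (c : GCocycle IB B IG G) {a a' : G × V → V} {p : V}
    (ha : IsLocalAction IG a p) (ha' : IsLocalAction IG a' p)
    (h : ∀ᶠ z in 𝓝 ((1 : G), p), a' z = a z) : (ofPt c a p ha).Equal (ofPt c a' p ha') := by
  intro b
  refine SameLeaves.of_eventuallyEq ?_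
  filter_upwards [(tendsto_cocycle c b p).eventually h] with w hw
  exact hw

variable {V' : Type*} [NormedAddCommGroup V'] [NormedSpace ℝ V'] [FiniteDimensional ℝ V']

/-- If a local change of coordinates `K` conjugates two local actions, then the structures they
define differ by the linear part of `K`, up to homotopy. -/
theorem ofPt_conj (c : GCocycle IB B IG G) {a : G × V → V} {a' : G × V' → V'} {p : V} {p' : V'}
    (ha : IsLocalAction IG a p) (ha' : IsLocalAction IG a' p') (K : V' → V) (hKp : K p' = p)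
    (hKs : ∀ᶠ v in 𝓝 p', ContDiffAt ℝ ∞ K v) (A : V' ≃L[ℝ] V)
    (hA : HasFDerivAt K (A : V' →L[ℝ] V) p')
    (hconj : ∀ᶠ z in 𝓝 ((1 : G), p'), K (a' z) = a (z.1, K z.2)) :
    (ofPt c a' p' ha').Homotopic ((ofPt c a p ha).lin A) := by
  -- normalise `K`
  let R : V' → V := fun v => K (p' + v) - p
  have hR0 : R 0 = 0 := by simp [R, hKp]
  have hadd : Tendsto (fun v : V' => p' + v) (𝓝 0) (𝓝 p') := by
    have : ContinuousAt (fun v : V' => p' + v) 0 := by fun_prop
    simpa using this.tendsto
  have hRs : ∀ᶠ v in 𝓝 (0 : V'), ContDiffAt ℝ ∞ R v := by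
    filter_upwards [hadd.eventually hKs] with v hv
    have h1 : ContDiffAt ℝ ∞ (fun v : V' => K (p' + v)) v :=
      ContDiffAt.comp v (g := K) (f := fun v : V' => p' + v) hv
        (contDiffAt_const.add contDiffAt_id)
    exact h1.sub contDiffAt_const
  have hRA : HasFDerivAt R (A : V' →L[ℝ] V) 0 := by
    have h1 : HasFDerivAt K (A : V' →L[ℝ] V) (p' + 0) := by simpa using hA
    have h2 : HasFDerivAt (fun v : V' => K (p' + v))
        ((A : V' →L[ℝ] V).comp (ContinuousLinearMap.id ℝ V')) 0 :=
      HasFDerivAt.comp (0 : V') (g := K) (f := fun v : V' => p' + v) h1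
        ((hasFDerivAt_id (0 : V')).const_add p')
    rw [ContinuousLinearMap.comp_id] at h2
    exact h2.sub_const p
  refine GammaBar.Homotopic.trans (GammaBar.Homotopic.of_equal ?_)
    (GammaBar.gauge_homotopic (ofPt c a p ha) R hR0 hRs A hRA)
  intro b
  -- the local diffeomorphism `v ↦ A⁻¹ (K v)`
  have hKd : IsLocalDiffeomorphAt 𝓘(ℝ, V') 𝓘(ℝ, V) ∞ K p' := by
    refine isLocalDiffeomorphAt_of_bijective hKs ?_
    rw [hA.fderiv]; exact A.bijective
  have hη : IsLocalDiffeomorphAt 𝓘(ℝ, V') 𝓘(ℝ, V') ∞ (fun v => A.symm (K v)) p' :=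
    ldcomp hKd (A.symm.toDiffeomorph.isLocalDiffeomorph _)
  refine ⟨fun v => A.symm (K v), ?_, ?_⟩
  · have : (ofPt c a' p' ha').F b (b, (0 : V')) = p' := by
      rw [ofPt_F, c.self b, add_zero]
      exact ha'.apply_one
    rw [this]; exact hη
  · filter_upwards [(tendsto_cocycle c b p').eventually hconj] with w hw
    show A.symm (a (c.h b w.1, p + R w.2)) = A.symm (K (a' (c.h b w.1, p' + w.2)))
    rw [hw]
    congr 3
    simp [R]

end Slide

end Pool.Agent.MP_602746_gt
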