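import Mathlib
import Pool.Agent.MP_602746_gt.Slide
import Pool.Agent.MP_602746_gt.Flow

open scoped Manifold ContDiff Topology
open Set Filter

noncomputable section

namespace Pool.Agent.MP_602746_gt

variable {EG : Type*} [NormedAddCommGroup EG] [NormedSpace ℝ EG] {HG : Type*} [TopologicalSpace HG]
  {IG : ModelWithCorners ℝ EG HG} {G : Type*} [TopologicalSpace G] [ChartedSpace HG G] [Group G]
  {F : Type*} [NormedAddCommGroup F] [NormedSpace ℝ F]

variable (IG) in
/-- `c : G × F → ℝ` is, near `(1, p)`, a smooth cocycle over the local action `a`. -/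
structure IsActionCocycle (a : G × F → F) (c : G × F → ℝ) (p : F) : Prop where
  smooth : ∀ᶠ z in 𝓝 ((1 : G), p), ContMDiffAt (IG.prod 𝓘(ℝ, F)) 𝓘(ℝ, ℝ) ∞ c z
  mul : ∀ᶠ z in 𝓝 (((1 : G), (1 : G)), p),
    c (z.1.1 * z.1.2, z.2) = c (z.1.2, z.2) + c (z.1.1, a (z.1.2, z.2))

/-- The skew product of a local action and a local flow. -/
def skew (a : G × F → F) (c : G × F → ℝ) (φ : ℝ × ℝ → ℝ) : G × (F × ℝ) → F × ℝ :=
  fun z => (a (z.1, z.2.1), φ (c (z.1, z.2.1), z.2.2))

variable {a : G × F → F} {c : G × F → ℝ} {p : F}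

theorem IsActionCocycle.one (hc : IsActionCocycle IG a c p) (ha : IsLocalAction IG a p) :
    ∀ᶠ f in 𝓝 p, c (1, f) = 0 := by
  have h1 : Tendsto (fun f : F => (((1 : G), (1 : G)), f)) (𝓝 p) (𝓝 (((1 : G), (1 : G)), p)) := by
    have : ContinuousAt (fun f : F => (((1 : G), (1 : G)), f)) p := by fun_prop
    exact this.tendsto
  filter_upwards [h1.eventually hc.mul, ha.one] with f h2 h3
  simp only [mul_one, h3] at h2
  linarith

theorem IsLocalAction.skew (ha : IsLocalAction IG a p) (hc : IsActionCocycle IG a c p)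
    {φ : ℝ × ℝ → ℝ} {x : ℝ} (hφ : IsLocalFlow φ x) :
    IsLocalAction IG (Pool.Agent.MP_602746_gt.skew a c φ) (p, x) := by
  have hc1 : c (1, p) = 0 := (hc.one ha).self_of_nhds
  have hcc : ContinuousAt c ((1 : G), p) := hc.smooth.self_of_nhds.continuousAt
  have hac : ContinuousAt a ((1 : G), p) := ha.continuousAt
  have hpr : ContinuousAt (fun z : G × (F × ℝ) => (z.1, z.2.1)) ((1 : G), (p, x)) := by fun_prop
  have hpr' : Tendsto (fun z : G × (F × ℝ) => (z.1, z.2.1)) (𝓝 ((1 : G), (p, x)))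
      (𝓝 ((1 : G), p)) := hpr.tendsto
  have ht : Tendsto (fun z : G × (F × ℝ) => (c (z.1, z.2.1), z.2.2)) (𝓝 ((1 : G), (p, x)))
      (𝓝 ((0 : ℝ), x)) := by
    have h1 : Tendsto (fun z : G × (F × ℝ) => c (z.1, z.2.1)) (𝓝 ((1 : G), (p, x))) (𝓝 0) := by
      have := hcc.tendsto.comp hpr'
      rwa [hc1] at this
    have h2 : ContinuousAt (fun z : G × (F × ℝ) => z.2.2) ((1 : G), (p, x)) := by fun_prop
    have h3 := h1.prodMk h2.tendsto
    rwa [← nhds_prod_eq] at h3
  refine ⟨?_, ?_, ?_⟩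
  · filter_upwards [hpr'.eventually ha.smooth, hpr'.eventually hc.smooth,
      ht.eventually hφ.smooth] with z h1 h2 h3
    have hp1 : ContMDiffAt (IG.prod 𝓘(ℝ, F × ℝ)) (IG.prod 𝓘(ℝ, F)) ∞
        (fun z : G × (F × ℝ) => (z.1, z.2.1)) z :=
      contMDiffAt_fst.prodMk
        ((contDiff_fst (𝕜 := ℝ) (n := ∞) (E := F) (F := ℝ)).contMDiff.contMDiffAt.comp z
          contMDiffAt_snd)
    have hp2 : ContMDiffAt (IG.prod 𝓘(ℝ, F × ℝ)) 𝓘(ℝ, ℝ) ∞
        (fun z : G × (F × ℝ) => z.2.2) z :=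
      (contDiff_snd (𝕜 := ℝ) (n := ∞) (E := F) (F := ℝ)).contMDiff.contMDiffAt.comp z
          contMDiffAt_snd
    have e1 : ContMDiffAt (IG.prod 𝓘(ℝ, F × ℝ)) 𝓘(ℝ, F) ∞
        (fun z : G × (F × ℝ) => a (z.1, z.2.1)) z :=
      ContMDiffAt.comp z (g := a) (f := fun z : G × (F × ℝ) => (z.1, z.2.1)) h1 hp1
    have e2 : ContMDiffAt (IG.prod 𝓘(ℝ, F × ℝ)) 𝓘(ℝ, ℝ) ∞
        (fun z : G × (F × ℝ) => c (z.1, z.2.1)) z :=
      ContMDiffAt.comp z (g := c) (f := fun z : G × (F × ℝ) => (z.1, z.2.1)) h2 hp1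
    have e3 : ContMDiffAt (IG.prod 𝓘(ℝ, F × ℝ)) 𝓘(ℝ, ℝ) ∞
        (fun z : G × (F × ℝ) => φ (c (z.1, z.2.1), z.2.2)) z :=
      ContMDiffAt.comp z (g := φ) (f := fun z : G × (F × ℝ) => (c (z.1, z.2.1), z.2.2))
        h3.contMDiffAt (e2.prodMk_space hp2)
    exact e1.prodMk_space e3
  · have hc2 : Tendsto (fun v : F × ℝ => v.1) (𝓝 (p, x)) (𝓝 p) := continuousAt_fst
    have hc3 : Tendsto (fun v : F × ℝ => v.2) (𝓝 (p, x)) (𝓝 x) := continuousAt_snd
    filter_upwards [hc2.eventually ha.one, hc2.eventually (hc.one ha),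
      hc3.eventually hφ.zero] with v h1 h2 h3
    simp only [Pool.Agent.MP_602746_gt.skew, h1, h2, h3]
  · have hq : Tendsto (fun z : (G × G) × (F × ℝ) => (z.1, z.2.1))
        (𝓝 (((1 : G), (1 : G)), (p, x))) (𝓝 (((1 : G), (1 : G)), p)) := by
      have : ContinuousAt (fun z : (G × G) × (F × ℝ) => (z.1, z.2.1))
        (((1 : G), (1 : G)), (p, x)) := by fun_prop
      exact this.tendsto
    have hq2 : Tendsto (fun z : (G × G) × (F × ℝ) => (z.1.2, z.2.1))
        (𝓝 (((1 : G), (1 : G)), (p, x))) (𝓝 ((1 : G), p)) := by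
      have : ContinuousAt (fun z : (G × G) × (F × ℝ) => (z.1.2, z.2.1))
        (((1 : G), (1 : G)), (p, x)) := by fun_prop
      exact this.tendsto
    have hq3 : Tendsto (fun z : (G × G) × (F × ℝ) => (z.1.1, a (z.1.2, z.2.1)))
        (𝓝 (((1 : G), (1 : G)), (p, x))) (𝓝 ((1 : G), p)) := by
      have h1 : ContinuousAt (fun z : (G × G) × (F × ℝ) => z.1.1)
        (((1 : G), (1 : G)), (p, x)) := by fun_prop
      have h2 : Tendsto (fun z : (G × G) × (F × ℝ) => a (z.1.2, z.2.1))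
          (𝓝 (((1 : G), (1 : G)), (p, x))) (𝓝 p) := by
        have := hac.tendsto.comp hq2
        rwa [ha.apply_one] at this
      have h3 := h1.tendsto.prodMk h2
      rwa [← nhds_prod_eq] at h3
    have hq4 : Tendsto (fun z : (G × G) × (F × ℝ) =>
        ((c (z.1.1, a (z.1.2, z.2.1)), c (z.1.2, z.2.1)), z.2.2))
        (𝓝 (((1 : G), (1 : G)), (p, x))) (𝓝 (((0 : ℝ), (0 : ℝ)), x)) := by
      have h1 : Tendsto (fun z : (G × G) × (F × ℝ) => c (z.1.1, a (z.1.2, z.2.1)))
          (𝓝 (((1 : G), (1 : G)), (p, x))) (𝓝 0) := by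
        have := hcc.tendsto.comp hq3
        rwa [hc1] at this
      have h2 : Tendsto (fun z : (G × G) × (F × ℝ) => c (z.1.2, z.2.1))
          (𝓝 (((1 : G), (1 : G)), (p, x))) (𝓝 0) := by
        have := hcc.tendsto.comp hq2
        rwa [hc1] at this
      have h3 : ContinuousAt (fun z : (G × G) × (F × ℝ) => z.2.2)
        (((1 : G), (1 : G)), (p, x)) := by fun_prop
      have h4 := h1.prodMk h2
      rw [← nhds_prod_eq] at h4
      have h5 := h4.prodMk h3.tendsto
      rwa [← nhds_prod_eq] at h5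
    filter_upwards [hq.eventually ha.mul, hq.eventually hc.mul, hq4.eventually hφ.add]
      with z h1 h2 h3
    show (a (z.1.1 * z.1.2, z.2.1), φ (c (z.1.1 * z.1.2, z.2.1), z.2.2)) =
      (a (z.1.1, a (z.1.2, z.2.1)),
        φ (c (z.1.1, a (z.1.2, z.2.1)), φ (c (z.1.2, z.2.1), z.2.2)))
    rw [h1, h2, add_comm, h3]

variable {EB : Type*} [NormedAddCommGroup EB] [NormedSpace ℝ EB] {HB : Type*} [TopologicalSpace HB]
  {IB : ModelWithCorners ℝ EB HB} {B : Type*} [TopologicalSpace B] [ChartedSpace HB B]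
  [FiniteDimensional ℝ F] [LieGroup IG ∞ G]

theorem slide' {V : Type*} [NormedAddCommGroup V] [NormedSpace ℝ V] [FiniteDimensional ℝ V]
    (k : GCocycle IB B IG G) (a : G × V → V) (γ : ℝ → V) (hγ : ContDiff ℝ ∞ γ)
    (ha : ∀ t, IsLocalAction IG a (γ t)) {p q : V} (hp : γ 0 = p) (hq : γ 1 = q)
    (hap : IsLocalAction IG a p) (haq : IsLocalAction IG a q) :
    (ofPt k a p hap).Homotopic (ofPt k a q haq) := by
  subst hp hq
  exact slide k a γ hγ ha

/-- One step of the destabilisation. -/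
theorem one_step (k : GCocycle IB B IG G) {a : G × F → F} {c : G × F → ℝ}
    (ha : IsLocalAction IG a 0) (hc : IsActionCocycle IG a c 0)
    (ha' : IsLocalAction IG (skew a c (fun p => p.2 + p.1)) (0 : F × ℝ)) :
    (ofPt k (skew a c (fun p => p.2 + p.1)) 0 ha').Homotopic ((ofPt k a 0 ha).stab ℝ) := by
  have hx : ∀ x : ℝ, IsLocalAction IG (skew a c flx) ((0 : F), x) := fun x =>
    ha.skew hc (isLocalFlow_flx x)
  have hx0 : IsLocalAction IG (skew a c flx) (0 : F × ℝ) := hx 0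
  have hx2 : IsLocalAction IG (skew a c flx) ((0 : F), (2 : ℝ)) := hx 2
  -- the slide
  have h1 : (ofPt k (skew a c flx) 0 hx0).Homotopic (ofPt k (skew a c flx) (0, 2) hx2) := by
    refine slide' k (skew a c flx) (fun t => ((0 : F), 2 * t)) ?_ (fun t => hx (2 * t)) ?_ ?_ _ _
    · exact contDiff_const.prodMk (contDiff_const.mul contDiff_id)
    · simp
    · simp
  -- the linearising coordinate
  have h2 : (ofPt k (skew a c flx) 0 hx0).Homotopic
      ((ofPt k (skew a c (fun p => p.2 + p.1)) 0 ha').lin (ContinuousLinearEquiv.refl ℝ (F × ℝ))) := by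
    refine ofPt_conj k ha' hx0 (fun v : F × ℝ => (v.1, kap v.2)) ?_ ?_
      (ContinuousLinearEquiv.refl ℝ (F × ℝ)) ?_ ?_
    · simp [kap_zero]
    · have hc1 : ∀ᶠ v in 𝓝 (0 : F × ℝ), v.2 < 1 := by
        have hc : ContinuousAt (fun v : F × ℝ => v.2) 0 := continuousAt_snd
        exact hc.eventually (gt_mem_nhds (by simp))
      filter_upwards [hc1] with v hv
      exact contDiffAt_fst.prodMk
        (ContDiffAt.comp v (g := kap) (f := fun v : F × ℝ => v.2) (contDiffAt_kap hv.ne)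
          contDiffAt_snd)
    · have e1 : HasFDerivAt kap (ContinuousLinearMap.toSpanSingleton ℝ (1 : ℝ)) ((0 : F × ℝ).2) :=
        hasDerivAt_kap_zero.hasFDerivAt
      have e2 : HasFDerivAt (fun v : F × ℝ => (v.1, kap v.2))
          ((ContinuousLinearMap.fst ℝ F ℝ).prod
            ((ContinuousLinearMap.toSpanSingleton ℝ (1 : ℝ)).comp
              (ContinuousLinearMap.snd ℝ F ℝ))) 0 := by
        refine HasFDerivAt.prodMk hasFDerivAt_fst ?_
        exact HasFDerivAt.comp (0 : F × ℝ) (g := kap) (f := fun v : F × ℝ => v.2) e1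
          hasFDerivAt_snd
      refine e2.congr_fderiv ?_
      ext v <;> simp
    · have hcc : ContinuousAt c ((1 : G), (0 : F)) := hc.smooth.self_of_nhds.continuousAt
      have hc1 : c (1, 0) = 0 := (hc.one ha).self_of_nhds
      have ht : Tendsto (fun z : G × (F × ℝ) => (c (z.1, z.2.1), z.2.2)) (𝓝 ((1 : G), (0 : F × ℝ)))
          (𝓝 ((0 : ℝ), (0 : ℝ))) := by
        have hpr : ContinuousAt (fun z : G × (F × ℝ) => (z.1, z.2.1)) ((1 : G), (0 : F × ℝ)) := by
          fun_prop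
        have hpr' : Tendsto (fun z : G × (F × ℝ) => (z.1, z.2.1)) (𝓝 ((1 : G), (0 : F × ℝ)))
            (𝓝 ((1 : G), (0 : F))) := hpr.tendsto
        have h1 : Tendsto (fun z : G × (F × ℝ) => c (z.1, z.2.1)) (𝓝 ((1 : G), (0 : F × ℝ)))
            (𝓝 0) := by
          have := hcc.tendsto.comp hpr'
          rwa [hc1] at this
        have h2 : Tendsto (fun z : G × (F × ℝ) => z.2.2) (𝓝 ((1 : G), (0 : F × ℝ))) (𝓝 0) := by
          have : ContinuousAt (fun z : G × (F × ℝ) => z.2.2) ((1 : G), (0 : F × ℝ)) := by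
            fun_prop
          exact this.tendsto
        have h3 := h1.prodMk h2
        rwa [← nhds_prod_eq] at h3
      filter_upwards [ht.eventually kap_flx] with z hz
      simp only [skew]
      rw [hz]
  have h3 : (ofPt k (skew a c (fun p => p.2 + p.1)) 0 ha').Homotopic
      (ofPt k (skew a c flx) 0 hx0) := by
    refine GammaBar.Homotopic.trans (GammaBar.Homotopic.of_equal ?_) h2.symm
    intro b
    exact SameLeaves.refl _ _
  refine (h3.trans h1).trans (GammaBar.Homotopic.of_equal ?_)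
  -- at `x = 2` the flow is trivial
  intro b
  refine ⟨fun v => (v.1, v.2 - 2), ?_, ?_⟩
  · have hη : IsLocalDiffeomorphAt 𝓘(ℝ, F × ℝ) 𝓘(ℝ, F × ℝ) ∞ (fun v : F × ℝ => (v.1, v.2 - 2))
        ((ofPt k (skew a c flx) (0, 2) hx2).F b (b, 0)) := by
      refine isLocalDiffeomorphAt_of_inverse (g := fun v : F × ℝ => (v.1, v.2 + 2)) ?_ ?_ ?_ ?_
      · exact Eventually.of_forall fun v =>
          contDiffAt_fst.prodMk (contDiffAt_snd.sub contDiffAt_const)
      · exact contDiffAt_fst.prodMk (contDiffAt_snd.add contDiffAt_const)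
      · exact Eventually.of_forall fun v => by simp
      · exact Eventually.of_forall fun v => by simp
    exact hη
  · have hlt : ∀ᶠ w in 𝓝 (b, (0 : F × ℝ)), (1 : ℝ) < 2 + w.2.2 := by
      have hc : ContinuousAt (fun w : B × (F × ℝ) => 2 + w.2.2) (b, (0 : F × ℝ)) := by fun_prop
      exact hc.eventually (lt_mem_nhds (by simp))
    filter_upwards [hlt] with w hw
    show (a (k.h b w.1, 0 + w.2.1), w.2.2) =
      (a (k.h b w.1, 0 + w.2.1), flx (c (k.h b w.1, 0 + w.2.1), 2 + w.2.2) - 2)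
    rw [flx_of_one_le _ hw.le]
    simp

end Pool.Agent.MP_602746_gt
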