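import Mathlib
import Pool.Agent.MP_602746_gt.OneStep
import Pool.Agent.MP_602746_gt.LocalHom

open scoped Manifold ContDiff Topology
open Set Filter VectorField

noncomputable section

namespace Pool.Agent.MP_602746_gt

instance leInfty_minSmoothness : ENat.LEInfty (minSmoothness ℝ 3) := ⟨by
  rw [minSmoothness_of_isRCLikeNormedField]
  exact (inferInstance : ENat.LEInfty (3 : ℕ∞ω)).out⟩

section SmNear

variable {E₁ : Type*} [NormedAddCommGroup E₁] [NormedSpace ℝ E₁] {H₁ : Type*} [TopologicalSpace H₁]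
  {I₁ : ModelWithCorners ℝ E₁ H₁} {M₁ : Type*} [TopologicalSpace M₁] [ChartedSpace H₁ M₁]
  {E₂ : Type*} [NormedAddCommGroup E₂] [NormedSpace ℝ E₂] {H₂ : Type*} [TopologicalSpace H₂]
  {I₂ : ModelWithCorners ℝ E₂ H₂} {M₂ : Type*} [TopologicalSpace M₂] [ChartedSpace H₂ M₂]
  {E₃ : Type*} [NormedAddCommGroup E₃] [NormedSpace ℝ E₃] {H₃ : Type*} [TopologicalSpace H₃]
  {I₃ : ModelWithCorners ℝ E₃ H₃} {M₃ : Type*} [TopologicalSpace M₃] [ChartedSpace H₃ M₃]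

variable (I₁ I₂) in
/-- `f` is smooth at all points near `x`. -/
def Sm (f : M₁ → M₂) (x : M₁) : Prop := ∀ᶠ y in 𝓝 x, ContMDiffAt I₁ I₂ ∞ f y

theorem Sm.continuousAt {f : M₁ → M₂} {x : M₁} (hf : Sm I₁ I₂ f x) : ContinuousAt f x :=
  hf.self_of_nhds.continuousAt

theorem Sm.comp {g : M₂ → M₃} {f : M₁ → M₂} {x : M₁} {y : M₂} (hg : Sm I₂ I₃ g y)
    (hf : Sm I₁ I₂ f x) (hy : f x = y) : Sm I₁ I₃ (fun z => g (f z)) x := by
  subst hy
  filter_upwards [hf, hf.continuousAt.eventually hg] with z h1 h2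
  exact ContMDiffAt.comp z (g := g) (f := f) h2 h1

theorem Sm.prodMk {f : M₁ → M₂} {g : M₁ → M₃} {x : M₁} (hf : Sm I₁ I₂ f x)
    (hg : Sm I₁ I₃ g x) : Sm I₁ (I₂.prod I₃) (fun z => (f z, g z)) x := by
  filter_upwards [hf, hg] with z h1 h2
  exact h1.prodMk h2

theorem Sm.of {f : M₁ → M₂} {x : M₁} (hf : ContMDiff I₁ I₂ ∞ f) : Sm I₁ I₂ f x :=
  Eventually.of_forall fun y => hf y

theorem Sm.const {c : M₂} {x : M₁} : Sm I₁ I₂ (fun _ => c) x := Sm.of contMDiff_const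

theorem Sm.congr {f g : M₁ → M₂} {x : M₁} (hf : Sm I₁ I₂ f x) (h : ∀ᶠ y in 𝓝 x, g y = f y) :
    Sm I₁ I₂ g x := by
  filter_upwards [hf, h.eventually_nhds] with z h1 h2
  exact h1.congr_of_eventuallyEq h2

variable {V : Type*} [NormedAddCommGroup V] [NormedSpace ℝ V]
  {V' : Type*} [NormedAddCommGroup V'] [NormedSpace ℝ V']

theorem sm_iff_smN {f : V → V'} {x : V} : Sm 𝓘(ℝ, V) 𝓘(ℝ, V') f x ↔ SmN f x := by
  unfold Sm SmN
  simp only [contMDiffAt_iff_contDiffAt]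

theorem Sm.prodMk_space {f : M₁ → V} {g : M₁ → V'} {x : M₁} (hf : Sm I₁ 𝓘(ℝ, V) f x)
    (hg : Sm I₁ 𝓘(ℝ, V') g x) : Sm I₁ 𝓘(ℝ, V × V') (fun z => (f z, g z)) x := by
  filter_upwards [hf, hg] with z h1 h2
  exact h1.prodMk_space h2

theorem Sm.fst_space {f : M₁ → V × V'} {x : M₁} (hf : Sm I₁ 𝓘(ℝ, V × V') f x) :
    Sm I₁ 𝓘(ℝ, V) (fun z => (f z).1) x :=
  Sm.comp (g := fun p : V × V' => p.1) (Sm.of contDiff_fst.contMDiff) hf rfl

theorem Sm.snd_space {f : M₁ → V × V'} {x : M₁} (hf : Sm I₁ 𝓘(ℝ, V × V') f x) :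
    Sm I₁ 𝓘(ℝ, V') (fun z => (f z).2) x :=
  Sm.comp (g := fun p : V × V' => p.2) (Sm.of contDiff_snd.contMDiff) hf rfl

variable {EG : Type*} [NormedAddCommGroup EG] [NormedSpace ℝ EG] {HG : Type*} [TopologicalSpace HG]
  {IG : ModelWithCorners ℝ EG HG} {G : Type*} [TopologicalSpace G] [ChartedSpace HG G] [Group G]
  [LieGroup IG ∞ G]

theorem Sm.mul {f g : M₁ → G} {x : M₁} (hf : Sm I₁ IG f x) (hg : Sm I₁ IG g x) :
    Sm I₁ IG (fun z => f z * g z) x := by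
  filter_upwards [hf, hg] with z h1 h2
  exact h1.mul h2

theorem Sm.inv {f : M₁ → G} {x : M₁} (hf : Sm I₁ IG f x) :
    Sm I₁ IG (fun z => (f z)⁻¹) x := by
  filter_upwards [hf] with z h1
  exact h1.inv

end SmNear

section LocalChart

variable {EG : Type*} [NormedAddCommGroup EG] [NormedSpace ℝ EG] {HG : Type*} [TopologicalSpace HG]
  {IG : ModelWithCorners ℝ EG HG} {G : Type*} [TopologicalSpace G] [ChartedSpace HG G] [Group G]
  {V : Type*} [NormedAddCommGroup V] [NormedSpace ℝ V]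

variable (IG) in
/-- `Φ` and `Ψ` are mutually inverse smooth local charts of `G` near `1`. -/
structure LocalChart (Φ : V → G) (Ψ : G → V) : Prop where
  zero : Φ 0 = 1
  smooth : Sm 𝓘(ℝ, V) IG Φ 0
  smooth_inv : Sm IG 𝓘(ℝ, V) Ψ (1 : G)
  left_inv : ∀ᶠ v in 𝓝 (0 : V), Ψ (Φ v) = v
  right_inv : ∀ᶠ g in 𝓝 (1 : G), Φ (Ψ g) = g

variable {Φ : V → G} {Ψ : G → V}

theorem LocalChart.one (h : LocalChart IG Φ Ψ) : Ψ 1 = 0 := by
  rw [← h.zero]; exact h.left_inv.self_of_nhds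

theorem LocalChart.tendsto (h : LocalChart IG Φ Ψ) : Tendsto Φ (𝓝 0) (𝓝 1) := by
  have := h.smooth.continuousAt.tendsto
  rwa [h.zero] at this

theorem LocalChart.tendsto_inv (h : LocalChart IG Φ Ψ) : Tendsto Ψ (𝓝 1) (𝓝 0) := by
  have := h.smooth_inv.continuousAt.tendsto
  rwa [h.one] at this

/-- The action on the chart by left translations. -/
def chartAct (Φ : V → G) (Ψ : G → V) : G × V → V := fun z => Ψ (z.1 * Φ z.2)

/-- The local multiplication in the chart. -/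
def chartMul (Φ : V → G) (Ψ : G → V) : V × V → V := fun z => Ψ (Φ z.1 * Φ z.2)

variable [LieGroup IG ∞ G]

theorem LocalChart.tendsto_act (h : LocalChart IG Φ Ψ) :
    Tendsto (fun z : G × V => z.1 * Φ z.2) (𝓝 ((1 : G), (0 : V))) (𝓝 1) := by
  have := topologicalGroup_of_lieGroup IG ∞ (G := G)
  rw [nhds_prod_eq]
  have h1 := (tendsto_fst (f := 𝓝 (1 : G)) (g := 𝓝 (0 : V))).mul (h.tendsto.comp tendsto_snd)
  simpa using h1

theorem LocalChart.isLocalAction (h : LocalChart IG Φ Ψ) :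
    IsLocalAction IG (chartAct Φ Ψ) 0 := by
  have := topologicalGroup_of_lieGroup IG ∞ (G := G)
  refine ⟨?_, ?_, ?_⟩
  · have hf : Sm (IG.prod 𝓘(ℝ, V)) IG (fun z : G × V => z.1) ((1 : G), (0 : V)) :=
      Sm.of contMDiff_fst
    have hs : Sm (IG.prod 𝓘(ℝ, V)) 𝓘(ℝ, V) (fun z : G × V => z.2) ((1 : G), (0 : V)) :=
      Sm.of contMDiff_snd
    have h1 : Sm (IG.prod 𝓘(ℝ, V)) IG (fun z : G × V => z.1 * Φ z.2) ((1 : G), (0 : V)) :=
      hf.mul (h.smooth.comp hs rfl)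
    exact h.smooth_inv.comp h1 (by simp [h.zero])
  · filter_upwards [h.left_inv] with v hv
    show Ψ (1 * Φ v) = v
    rw [one_mul, hv]
  · have hc : Tendsto (fun z : (G × G) × V => (z.1.2, z.2)) (𝓝 (((1 : G), (1 : G)), (0 : V)))
        (𝓝 ((1 : G), (0 : V))) := by
      have : ContinuousAt (fun z : (G × G) × V => (z.1.2, z.2)) (((1 : G), (1 : G)), (0 : V)) := by
        fun_prop
      exact this.tendsto
    filter_upwards [(h.tendsto_act.comp hc).eventually h.right_inv] with z hz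
    show Ψ ((z.1.1 * z.1.2) * Φ z.2) = Ψ (z.1.1 * Φ (Ψ (z.1.2 * Φ z.2)))
    have hz' : Φ (Ψ (z.1.2 * Φ z.2)) = z.1.2 * Φ z.2 := hz
    rw [hz', mul_assoc]

theorem LocalChart.tendsto_mul (h : LocalChart IG Φ Ψ) :
    Tendsto (fun z : V × V => Φ z.1 * Φ z.2) (𝓝 0) (𝓝 1) := by
  have := topologicalGroup_of_lieGroup IG ∞ (G := G)
  have h0 : 𝓝 (0 : V × V) = 𝓝 (0 : V) ×ˢ 𝓝 (0 : V) := nhds_prod_eq
  rw [h0]
  have h1 := (h.tendsto.comp (tendsto_fst (f := 𝓝 (0 : V)) (g := 𝓝 (0 : V)))).mul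
    (h.tendsto.comp (tendsto_snd (f := 𝓝 (0 : V)) (g := 𝓝 (0 : V))))
  simpa using h1

theorem LocalChart.smooth_mul (h : LocalChart IG Φ Ψ) : SmN (chartMul Φ Ψ) 0 := by
  rw [← sm_iff_smN]
  have hf : Sm 𝓘(ℝ, V × V) 𝓘(ℝ, V) (fun z : V × V => z.1) 0 := Sm.of contDiff_fst.contMDiff
  have hs : Sm 𝓘(ℝ, V × V) 𝓘(ℝ, V) (fun z : V × V => z.2) 0 := Sm.of contDiff_snd.contMDiff
  have h1 : Sm 𝓘(ℝ, V × V) IG (fun z : V × V => Φ z.1 * Φ z.2) 0 :=
    (h.smooth.comp hf rfl).mul (h.smooth.comp hs rfl)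
  exact h.smooth_inv.comp h1 (by simp [h.zero])

/-- Left invariant vector fields in the chart. -/
def chartX (Φ : V → G) (Ψ : G → V) (x v : V) : V := fderiv ℝ (chartMul Φ Ψ) (x, 0) (0, v)

variable (IG) in
/-- The differential of the chart at the origin. -/
def chartD (Φ : V → G) : V →L[ℝ] GroupLieAlgebra IG G :=
  (mfderiv 𝓘(ℝ, V) IG Φ 0 : V →L[ℝ] EG)

omit [LieGroup IG ∞ G] in
theorem LocalChart.hasMFDerivAt_zero (h : LocalChart IG Φ Ψ) :
    HasMFDerivAt 𝓘(ℝ, V) IG Φ 0 (chartD (V := V) IG Φ) :=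
  (h.smooth.self_of_nhds.mdifferentiableAt (by simp)).hasMFDerivAt

theorem LocalChart.X_eq (h : LocalChart IG Φ Ψ) : ∀ᶠ x in 𝓝 (0 : V), ∀ v : V,
    (mfderiv 𝓘(ℝ, V) IG Φ x) (chartX (V := V) Φ Ψ x v) =
      mulInvariantVectorField (I := IG) (chartD (V := V) IG Φ v) (Φ x) := by
  have := topologicalGroup_of_lieGroup IG ∞ (G := G)
  have cl : Tendsto (fun x : V => (x, (0 : V))) (𝓝 0) (𝓝 (0 : V × V)) := by
    have : ContinuousAt (fun w : V => (w, (0 : V))) 0 := by fun_prop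
    exact this.tendsto
  filter_upwards [h.smooth, cl.eventually h.smooth_mul, h.left_inv,
    (cl.eventually (h.tendsto_mul.eventually h.right_inv).eventually_nhds)] with x h1 h2 h3 h4 v
  have hΦx : HasMFDerivAt 𝓘(ℝ, V) IG Φ x (mfderiv 𝓘(ℝ, V) IG Φ x) :=
    (h1.mdifferentiableAt (by simp)).hasMFDerivAt
  have hm0 : chartMul Φ Ψ (x, 0) = x := by
    show Ψ (Φ x * Φ 0) = x
    rw [h.zero, mul_one, h3]
  -- the left hand side
  have e1 : HasFDerivAt (fun s : V => chartMul Φ Ψ (x, s))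
      ((fderiv ℝ (chartMul Φ Ψ) (x, 0)).comp (ContinuousLinearMap.inr ℝ V V)) 0 :=
    HasFDerivAt.comp (0 : V) (g := chartMul Φ Ψ) (f := fun s : V => (x, s))
      (h2.differentiableAt (by simp)).hasFDerivAt (hasFDerivAt_prodMk_right x (0 : V))
  let DΦx : V →L[ℝ] EG := mfderiv 𝓘(ℝ, V) IG Φ x
  have e2 : HasMFDerivAt 𝓘(ℝ, V) IG Φ (chartMul Φ Ψ (x, 0)) DΦx := by
    rw [hm0]; exact hΦx
  have e3 : HasMFDerivAt 𝓘(ℝ, V) IG (fun s : V => Φ (chartMul Φ Ψ (x, s))) 0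
      (DΦx.comp ((fderiv ℝ (chartMul Φ Ψ) (x, 0)).comp (ContinuousLinearMap.inr ℝ V V))) :=
    HasMFDerivAt.comp (0 : V) (g := Φ) (f := fun s : V => chartMul Φ Ψ (x, s)) e2 e1.hasMFDerivAt
  -- the right hand side
  let L : EG →L[ℝ] EG := mfderiv IG IG (fun g : G => Φ x * g) (1 : G)
  have e4 : HasMFDerivAt IG IG (fun g : G => Φ x * g) (1 : G) L :=
    ((contMDiff_mul_left (I := IG) (n := ∞) (a := Φ x)).contMDiffAt.mdifferentiableAt
      (by simp)).hasMFDerivAt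
  have e5 : HasMFDerivAt IG IG (fun g : G => Φ x * g) (Φ 0) L := by
    rw [h.zero]; exact e4
  have e6 : HasMFDerivAt 𝓘(ℝ, V) IG (fun s : V => Φ x * Φ s) 0
      (L.comp (chartD (V := V) IG Φ : V →L[ℝ] EG)) :=
    HasMFDerivAt.comp (0 : V) (g := fun g : G => Φ x * g) (f := Φ) e5 h.hasMFDerivAt_zero
  have e7 : HasMFDerivAt 𝓘(ℝ, V) IG (fun s : V => Φ x * Φ s) 0
      (DΦx.comp ((fderiv ℝ (chartMul Φ Ψ) (x, 0)).comp (ContinuousLinearMap.inr ℝ V V))) := by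
    refine e3.congr_of_eventuallyEq ?_
    have hc : ContinuousAt (fun s : V => (x, s)) 0 := by fun_prop
    filter_upwards [hc.eventually h4] with s hs
    exact hs.symm
  have e8 := hasMFDerivAt_unique e7 e6
  have e9 := DFunLike.congr_fun e8 v
  exact e9

omit [LieGroup IG ∞ G] in
/-- The differential of the chart is invertible near the origin. -/
theorem LocalChart.invertible (h : LocalChart IG Φ Ψ) : ∀ᶠ x in 𝓝 (0 : V),
    (mfderiv 𝓘(ℝ, V) IG Φ x).IsInvertible := by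
  filter_upwards [h.smooth, h.tendsto.eventually h.smooth_inv, h.left_inv.eventually_nhds,
    h.tendsto.eventually h.right_inv.eventually_nhds] with x h1 h2 h3 h4
  let D : V →L[ℝ] EG := mfderiv 𝓘(ℝ, V) IG Φ x
  let D' : EG →L[ℝ] V := mfderiv IG 𝓘(ℝ, V) Ψ (Φ x)
  have e1 : HasMFDerivAt 𝓘(ℝ, V) IG Φ x D := (h1.mdifferentiableAt (by simp)).hasMFDerivAt
  have e2 : HasMFDerivAt IG 𝓘(ℝ, V) Ψ (Φ x) D' := (h2.mdifferentiableAt (by simp)).hasMFDerivAt
  have e3 : HasMFDerivAt 𝓘(ℝ, V) 𝓘(ℝ, V) (fun v => Ψ (Φ v)) x (D'.comp D) :=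
    HasMFDerivAt.comp x (g := Ψ) (f := Φ) e2 e1
  have e4 : HasMFDerivAt 𝓘(ℝ, V) 𝓘(ℝ, V) (fun v => Ψ (Φ v)) x (ContinuousLinearMap.id ℝ V) :=
    (hasMFDerivAt_id x).congr_of_eventuallyEq h3
  have hxx : Ψ (Φ x) = x := h3.self_of_nhds
  have e5 : HasMFDerivAt 𝓘(ℝ, V) IG Φ (Ψ (Φ x)) D := by rw [hxx]; exact e1
  have e6 : HasMFDerivAt IG IG (fun g => Φ (Ψ g)) (Φ x) (D.comp D') :=
    HasMFDerivAt.comp (Φ x) (g := Φ) (f := Ψ) e5 e2
  have e7 : HasMFDerivAt IG IG (fun g => Φ (Ψ g)) (Φ x) (ContinuousLinearMap.id ℝ EG) :=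
    (hasMFDerivAt_id (Φ x)).congr_of_eventuallyEq h4
  have e8 : D'.comp D = ContinuousLinearMap.id ℝ V := hasMFDerivAt_unique e3 e4
  have e9 : D.comp D' = ContinuousLinearMap.id ℝ EG := hasMFDerivAt_unique e6 e7
  exact ContinuousLinearMap.IsInvertible.of_inverse (f := D) (g := D') e9 e8

theorem LocalChart.mpullback_eq (h : LocalChart IG Φ Ψ) : ∀ᶠ x in 𝓝 (0 : V), ∀ v : V,
    mpullback 𝓘(ℝ, V) IG Φ
      (mulInvariantVectorField (I := IG) (chartD (V := V) IG Φ v)) x =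
      chartX (V := V) Φ Ψ x v := by
  filter_upwards [h.X_eq, h.invertible] with x h1 h2 v
  rw [mpullback_apply, ← h1 v]
  exact h2.inverse_apply_self _

variable [FiniteDimensional ℝ EG]

/-- The bracket of the Lie algebra in terms of the vector fields in the chart. -/
theorem LocalChart.bracket (h : LocalChart IG Φ Ψ) [CompleteSpace V] (ξ η ζ : V)
    (hbr : ⁅chartD (V := V) IG Φ ξ, chartD (V := V) IG Φ η⁆ = chartD (V := V) IG Φ ζ) :
    ∀ᶠ x in 𝓝 (0 : V), fderiv ℝ (fun x => chartX Φ Ψ x η) x (chartX Φ Ψ x ξ) -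
      fderiv ℝ (fun x => chartX Φ Ψ x ξ) x (chartX Φ Ψ x η) = chartX Φ Ψ x ζ := by
  have : CompleteSpace EG := FiniteDimensional.complete ℝ EG
  filter_upwards [h.mpullback_eq.eventually_nhds, h.smooth] with x h1 h2
  set v : GroupLieAlgebra IG G := chartD (V := V) IG Φ ξ
  set w : GroupLieAlgebra IG G := chartD (V := V) IG Φ η
  have e1 := mpullback_mlieBracket (I := 𝓘(ℝ, V)) (I' := IG) (f := Φ) (x₀ := x) (n := ∞)
    (V := mulInvariantVectorField v) (W := mulInvariantVectorField w)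
    (mdifferentiableAt_mulInvariantVectorField _) (mdifferentiableAt_mulInvariantVectorField _)
    h2 (by
      rw [minSmoothness_of_isRCLikeNormedField]
      exact (inferInstance : ENat.LEInfty (2 : ℕ∞ω)).out)
  rw [← mulInvariantVector_mlieBracket] at e1
  have hbr' : mlieBracket IG (mulInvariantVectorField v) (mulInvariantVectorField w) (1 : G) =
    chartD (V := V) IG Φ ζ := hbr
  rw [hbr', h1.self_of_nhds ζ] at e1
  have e2 : mlieBracket 𝓘(ℝ, V) (mpullback 𝓘(ℝ, V) IG Φ (mulInvariantVectorField v))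
      (mpullback 𝓘(ℝ, V) IG Φ (mulInvariantVectorField w)) x =
      mlieBracket 𝓘(ℝ, V) (fun x => chartX (V := V) Φ Ψ x ξ) (fun x => chartX (V := V) Φ Ψ x η) x := by
    apply Filter.EventuallyEq.mlieBracket_vectorField_eq
    · filter_upwards [h1] with y hy
      exact hy ξ
    · filter_upwards [h1] with y hy
      exact hy η
  rw [e2] at e1
  have e3 := congrFun (mlieBracketWithin_eq_lieBracketWithin (𝕜 := ℝ)
    (V := fun x : V => (chartX (V := V) Φ Ψ x ξ : TangentSpace 𝓘(ℝ, V) x))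
    (W := fun x : V => (chartX (V := V) Φ Ψ x η : TangentSpace 𝓘(ℝ, V) x)) (s := univ)) x
  have e4 := congrFun (lieBracketWithin_univ (𝕜 := ℝ)
    (V := fun x : V => chartX (V := V) Φ Ψ x ξ) (W := fun x : V => chartX (V := V) Φ Ψ x η)) x
  exact ((e1.trans e3).trans e4).symm

end LocalChart

end Pool.Agent.MP_602746_gt
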