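import Mathlib
import Pool.Agent.MP_602746_gt.Chart

open scoped Manifold ContDiff Topology
open Set Filter VectorField

noncomputable section

namespace Pool.Agent.MP_602746_gt

variable {EG : Type*} [NormedAddCommGroup EG] [NormedSpace ℝ EG] {HG : Type*} [TopologicalSpace HG]
  {IG : ModelWithCorners ℝ EG HG} {G : Type*} [TopologicalSpace G] [ChartedSpace HG G] [Group G]
  {F : Type*} [NormedAddCommGroup F] [NormedSpace ℝ F]
  {W : Type*} [NormedAddCommGroup W] [NormedSpace ℝ W]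

variable (IG) in
/-- A chart of `G` near `1` adapted to a local action `a` on the first factor. -/
structure AdaptedChart (Φ : F × W → G) (Ψ : G → F × W) (a : G × F → F) : Prop where
  chart : LocalChart IG Φ Ψ
  action : IsLocalAction IG a 0
  adapted : ∀ᶠ z in 𝓝 ((1 : G), (0 : F × W)), (Ψ (z.1 * Φ z.2)).1 = a (z.1, z.2.1)

/-- The multiplication on the second factor. -/
def subMul (Φ : F × W → G) (Ψ : G → F × W) : W × W → W :=
  fun p => (Ψ (Φ (0, p.1) * Φ (0, p.2))).2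

/-- The function used to define the invariant form. -/
def subΛ (Φ : F × W → G) (Ψ : G → F × W) (lam : W →L[ℝ] ℝ) : W × W → ℝ :=
  fun p => lam (Ψ ((Φ (0, p.1))⁻¹ * Φ (0, p.2))).2

variable {Φ : F × W → G} {Ψ : G → F × W} {a : G × F → F}

omit [NormedSpace ℝ F] [NormedSpace ℝ W] in
theorem tendsto_inr : Tendsto (fun w : W => ((0 : F), w)) (𝓝 0) (𝓝 (0 : F × W)) := by
  have : ContinuousAt (fun w : W => ((0 : F), w)) 0 := by fun_prop
  exact this.tendsto

variable [LieGroup IG ∞ G]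

namespace AdaptedChart

/-- The product of two elements of the subgroup. -/
theorem sub_mul (h : AdaptedChart IG Φ Ψ a) : ∀ᶠ p in 𝓝 (0 : W × W),
    Ψ (Φ (0, p.1) * Φ (0, p.2)) = (0, subMul Φ Ψ p) := by
  have c1 : Tendsto (fun p : W × W => (Φ ((0 : F), p.1), ((0 : F), p.2))) (𝓝 0)
      (𝓝 ((1 : G), (0 : F × W))) := by
    have e1 : Tendsto (fun p : W × W => Φ ((0 : F), p.1)) (𝓝 0) (𝓝 1) := by
      refine (h.chart.tendsto.comp tendsto_inr).comp ?_
      exact (continuous_fst.tendsto (0 : W × W))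
    have e2 : Tendsto (fun p : W × W => ((0 : F), p.2)) (𝓝 0) (𝓝 (0 : F × W)) :=
      tendsto_inr.comp (continuous_snd.tendsto (0 : W × W))
    have e3 := e1.prodMk e2
    rwa [← nhds_prod_eq] at e3
  have c2 : Tendsto (fun p : W × W => (Φ ((0 : F), p.1), (0 : F × W))) (𝓝 0)
      (𝓝 ((1 : G), (0 : F × W))) := by
    have e1 : Tendsto (fun p : W × W => Φ ((0 : F), p.1)) (𝓝 0) (𝓝 1) := by
      refine (h.chart.tendsto.comp tendsto_inr).comp ?_
      exact (continuous_fst.tendsto (0 : W × W))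
    have e3 := e1.prodMk (tendsto_const_nhds (x := (0 : F × W)))
    rwa [← nhds_prod_eq] at e3
  have c3 : Tendsto (fun p : W × W => ((0 : F), p.1)) (𝓝 0) (𝓝 (0 : F × W)) :=
    tendsto_inr.comp (continuous_fst.tendsto (0 : W × W))
  filter_upwards [c1.eventually h.adapted, c2.eventually h.adapted,
    c3.eventually h.chart.left_inv] with p h1 h2 h3
  refine Prod.ext ?_ rfl
  simp only [h.chart.zero, mul_one, h3, Prod.fst_zero] at h2
  exact h1.trans h2.symm

theorem sub_mul' (h : AdaptedChart IG Φ Ψ a) : ∀ᶠ p in 𝓝 (0 : W × W),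
    Φ (0, subMul Φ Ψ p) = Φ (0, p.1) * Φ (0, p.2) := by
  have c1 : Tendsto (fun p : W × W => (((0 : F), p.1), ((0 : F), p.2))) (𝓝 0)
      (𝓝 (0 : (F × W) × (F × W))) := by
    have : ContinuousAt (fun p : W × W => (((0 : F), p.1), ((0 : F), p.2))) 0 := by fun_prop
    exact this.tendsto
  filter_upwards [h.sub_mul, (c1.eventually (h.chart.tendsto_mul.eventually h.chart.right_inv))]
    with p h1 h2
  rw [← h1]
  exact h2

theorem tendsto_subMul (h : AdaptedChart IG Φ Ψ a) : Tendsto (subMul Φ Ψ) (𝓝 0) (𝓝 0) := by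
  have c1 : Tendsto (fun p : W × W => (((0 : F), p.1), ((0 : F), p.2))) (𝓝 0)
      (𝓝 (0 : (F × W) × (F × W))) := by
    have : ContinuousAt (fun p : W × W => (((0 : F), p.1), ((0 : F), p.2))) 0 := by fun_prop
    exact this.tendsto
  have c2 := (h.chart.tendsto_inv.comp (h.chart.tendsto_mul.comp c1))
  exact (continuous_snd.tendsto (0 : F × W)).comp c2

theorem smN_subMul (h : AdaptedChart IG Φ Ψ a) : SmN (subMul Φ Ψ) 0 := by
  have h1 : SmN (fun p : W × W => (((0 : F), p.1), ((0 : F), p.2))) 0 :=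
    Eventually.of_forall fun p => by fun_prop
  rw [← sm_iff_smN] at h1 ⊢
  have h2 := h.chart.smooth_mul
  rw [← sm_iff_smN] at h2
  exact (h2.comp h1 rfl).snd_space

theorem smN_subΛ (h : AdaptedChart IG Φ Ψ a) (lam : W →L[ℝ] ℝ) : SmN (subΛ Φ Ψ lam) 0 := by
  rw [← sm_iff_smN]
  have h1 : Sm 𝓘(ℝ, W × W) 𝓘(ℝ, F × W) (fun p : W × W => ((0 : F), p.1)) 0 :=
    Sm.of (contDiff_const.prodMk contDiff_fst).contMDiff
  have h2 : Sm 𝓘(ℝ, W × W) 𝓘(ℝ, F × W) (fun p : W × W => ((0 : F), p.2)) 0 :=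
    Sm.of (contDiff_const.prodMk contDiff_snd).contMDiff
  have h3 : Sm 𝓘(ℝ, W × W) IG (fun p : W × W => (Φ (0, p.1))⁻¹ * Φ (0, p.2)) 0 :=
    (h.chart.smooth.comp h1 rfl).inv.mul (h.chart.smooth.comp h2 rfl)
  have h0 : (Φ ((0 : F), (0 : W × W).1))⁻¹ * Φ ((0 : F), (0 : W × W).2) = 1 := by
    simp
  have h4 := (h.chart.smooth_inv.comp h3 h0).snd_space
  exact Sm.comp (g := lam) (Sm.of lam.contDiff.contMDiff) h4 rfl

/-- The left invariant vector fields of the subgroup, in the chart. -/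
theorem chartX_sub (h : AdaptedChart IG Φ Ψ a) : ∀ᶠ w in 𝓝 (0 : W), ∀ v : W,
    chartX Φ Ψ (0, w) (0, v) = (0, fderiv ℝ (subMul Φ Ψ) (w, 0) (0, v)) := by
  have cl : Tendsto (fun w : W => (w, (0 : W))) (𝓝 0) (𝓝 (0 : W × W)) := by
    have : ContinuousAt (fun w : W => (w, (0 : W))) 0 := by fun_prop
    exact this.tendsto
  have cl2 : Tendsto (fun w : W => (((0 : F), w), (0 : F × W))) (𝓝 0)
      (𝓝 (0 : (F × W) × (F × W))) := by
    have : ContinuousAt (fun w : W => (((0 : F), w), (0 : F × W))) 0 := by fun_prop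
    exact this.tendsto
  let j : W × W →L[ℝ] (F × W) × (F × W) :=
    ((ContinuousLinearMap.inr ℝ F W).comp (ContinuousLinearMap.fst ℝ W W)).prod
      ((ContinuousLinearMap.inr ℝ F W).comp (ContinuousLinearMap.snd ℝ W W))
  filter_upwards [cl.eventually h.smN_subMul, cl2.eventually h.chart.smooth_mul,
    cl.eventually h.sub_mul.eventually_nhds] with w h1 h2 h3 v
  have e1 : HasFDerivAt (chartMul Φ Ψ) (fderiv ℝ (chartMul Φ Ψ) ((0, w), 0)) (j (w, 0)) :=
    (h2.differentiableAt (by simp)).hasFDerivAt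
  have e2 : HasFDerivAt (fun p : W × W => chartMul Φ Ψ (j p))
      ((fderiv ℝ (chartMul Φ Ψ) ((0, w), 0)).comp j) (w, 0) :=
    HasFDerivAt.comp (w, (0 : W)) (g := chartMul Φ Ψ) (f := j) e1 j.hasFDerivAt
  have e3 : HasFDerivAt (fun p : W × W => ((0 : F), subMul Φ Ψ p))
      ((0 : W × W →L[ℝ] F).prod (fderiv ℝ (subMul Φ Ψ) (w, 0))) (w, 0) :=
    (hasFDerivAt_const (0 : F) _).prodMk (h1.differentiableAt (by simp)).hasFDerivAt
  have e4 : HasFDerivAt (fun p : W × W => chartMul Φ Ψ (j p))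
      ((0 : W × W →L[ℝ] F).prod (fderiv ℝ (subMul Φ Ψ) (w, 0))) (w, 0) := by
    refine e3.congr_of_eventuallyEq ?_
    filter_upwards [h3] with p hp
    exact hp
  have e5 := DFunLike.congr_fun (e2.unique e4) ((0 : W), v)
  exact e5

variable [FiniteDimensional ℝ EG] [FiniteDimensional ℝ F] [FiniteDimensional ℝ W]

theorem sub_bracket (h : AdaptedChart IG Φ Ψ a) (v v' u : W)
    (hbr : ⁅chartD (V := F × W) IG Φ (0, v), chartD (V := F × W) IG Φ (0, v')⁆ =
      chartD (V := F × W) IG Φ (0, u)) :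
    ∀ᶠ w in 𝓝 (0 : W),
      fderiv ℝ (fun w => fderiv ℝ (subMul Φ Ψ) (w, 0) (0, v')) w
        (fderiv ℝ (subMul Φ Ψ) (w, 0) (0, v)) -
      fderiv ℝ (fun w => fderiv ℝ (subMul Φ Ψ) (w, 0) (0, v)) w
        (fderiv ℝ (subMul Φ Ψ) (w, 0) (0, v')) =
      fderiv ℝ (subMul Φ Ψ) (w, 0) (0, u) := by
  have : CompleteSpace (F × W) := FiniteDimensional.complete ℝ _
  have cl : Tendsto (fun w : W => (w, (0 : W))) (𝓝 0) (𝓝 (0 : W × W)) := by
    have : ContinuousAt (fun w : W => (w, (0 : W))) 0 := by fun_prop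
    exact this.tendsto
  have cl2 : Tendsto (fun x : F × W => (x, (0 : F × W))) (𝓝 0)
      (𝓝 (0 : (F × W) × (F × W))) := by
    have : ContinuousAt (fun x : F × W => (x, (0 : F × W))) 0 := by fun_prop
    exact this.tendsto
  -- smoothness of the vector fields
  have hXs : ∀ ξ : F × W, SmN (fun x => chartX Φ Ψ x ξ) 0 := by
    intro ξ
    filter_upwards [cl2.eventually h.chart.smooth_mul] with x hx
    have h2 : ContDiffAt ℝ ∞ (fderiv ℝ (chartMul Φ Ψ)) (x, 0) := hx.fderiv_right (m := ∞) (by simp)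
    have h3 : ContDiffAt ℝ ∞ (fun x => fderiv ℝ (chartMul Φ Ψ) (x, 0)) x :=
      ContDiffAt.comp x (g := fderiv ℝ (chartMul Φ Ψ)) (f := fun x : F × W => (x, (0 : F × W))) h2
        (contDiffAt_id.prodMk contDiffAt_const)
    exact h3.clm_apply contDiffAt_const
  have hYs : ∀ x : W, SmN (fun w => fderiv ℝ (subMul Φ Ψ) (w, 0) (0, x)) 0 := by
    intro x
    filter_upwards [cl.eventually h.smN_subMul] with w hw
    have h2 : ContDiffAt ℝ ∞ (fderiv ℝ (subMul Φ Ψ)) (w, 0) := hw.fderiv_right (m := ∞) (by simp)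
    have h3 : ContDiffAt ℝ ∞ (fun w => fderiv ℝ (subMul Φ Ψ) (w, 0)) w :=
      ContDiffAt.comp w (g := fderiv ℝ (subMul Φ Ψ)) (f := fun w : W => (w, (0 : W))) h2
        (contDiffAt_id.prodMk contDiffAt_const)
    exact h3.clm_apply contDiffAt_const
  filter_upwards [tendsto_inr.eventually (h.chart.bracket (0, v) (0, v') (0, u) hbr),
    h.chartX_sub.eventually_nhds, tendsto_inr.eventually (hXs (0, v)),
    tendsto_inr.eventually (hXs (0, v')), hYs v, hYs v'] with w h1 h2 h3 h4 h5 h6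
  have key : ∀ x t : W, ContDiffAt ℝ ∞ (fun y : F × W => chartX Φ Ψ y (0, x)) (0, w) →
      ContDiffAt ℝ ∞ (fun w => fderiv ℝ (subMul Φ Ψ) (w, 0) (0, x)) w →
      fderiv ℝ (fun y => chartX Φ Ψ y (0, x)) (0, w) (0, t) =
        (0, fderiv ℝ (fun w => fderiv ℝ (subMul Φ Ψ) (w, 0) (0, x)) w t) := by
    intro x t hx hy
    have e1 : HasFDerivAt (fun w : W => chartX Φ Ψ ((0 : F), w) ((0 : F), x))
        ((fderiv ℝ (fun y => chartX Φ Ψ y (0, x)) (0, w)).comp (ContinuousLinearMap.inr ℝ F W)) w :=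
      HasFDerivAt.comp w (g := fun y : F × W => chartX Φ Ψ y (0, x)) (f := fun w : W => ((0 : F), w))
        (hx.differentiableAt (by simp)).hasFDerivAt (hasFDerivAt_prodMk_right (0 : F) w)
    have e2 : HasFDerivAt (fun w : W => ((0 : F), fderiv ℝ (subMul Φ Ψ) (w, 0) (0, x)))
        ((0 : W →L[ℝ] F).prod
          (fderiv ℝ (fun w => fderiv ℝ (subMul Φ Ψ) (w, 0) (0, x)) w)) w :=
      (hasFDerivAt_const (0 : F) _).prodMk (hy.differentiableAt (by simp)).hasFDerivAt
    have e3 : HasFDerivAt (fun w : W => chartX Φ Ψ ((0 : F), w) ((0 : F), x))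
        ((0 : W →L[ℝ] F).prod
          (fderiv ℝ (fun w => fderiv ℝ (subMul Φ Ψ) (w, 0) (0, x)) w)) w := by
      refine e2.congr_of_eventuallyEq ?_
      filter_upwards [h2] with y hy
      exact hy x
    have e4 := DFunLike.congr_fun (e1.unique e3) t
    exact e4
  rw [h2.self_of_nhds v, h2.self_of_nhds v', h2.self_of_nhds u, key v' _ h4 h6,
    key v _ h3 h5] at h1
  have := congrArg Prod.snd h1
  exact this

end AdaptedChart

end Pool.Agent.MP_602746_gt
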