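import Mathlib
import Pool.Agent.MP_602746_gt.Adapted

open scoped Manifold ContDiff Topology
open Set Filter VectorField

noncomputable section

namespace Pool.Agent.MP_602746_gt

variable {EG : Type*} [NormedAddCommGroup EG] [NormedSpace ℝ EG] {HG : Type*} [TopologicalSpace HG]
  {IG : ModelWithCorners ℝ EG HG} {G : Type*} [TopologicalSpace G] [ChartedSpace HG G] [Group G]
  {F : Type*} [NormedAddCommGroup F] [NormedSpace ℝ F]
  {W : Type*} [NormedAddCommGroup W] [NormedSpace ℝ W]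
  {Φ : F × W → G} {Ψ : G → F × W} {a : G × F → F}
  [LieGroup IG ∞ G]

namespace AdaptedChart

theorem exists_chi [FiniteDimensional ℝ EG] [FiniteDimensional ℝ F] [FiniteDimensional ℝ W]
    (h : AdaptedChart IG Φ Ψ a) (lam : W →L[ℝ] ℝ)
    (hlam : ∀ v v' : W, ∃ u : W, lam u = 0 ∧
      ⁅chartD (V := F × W) IG Φ (0, v), chartD (V := F × W) IG Φ (0, v')⁆ =
        chartD (V := F × W) IG Φ (0, u)) :
    ∃ χ : W → ℝ, χ 0 = 0 ∧ SmN χ 0 ∧ HasFDerivAt χ lam 0 ∧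
      ∀ᶠ p in 𝓝 (0 : W × W), χ (subMul Φ Ψ p) = χ p.1 + χ p.2 := by
  have hleft : ∀ᶠ w in 𝓝 (0 : W), Ψ (Φ (0, w)) = (0, w) :=
    tendsto_inr.eventually h.chart.left_inv
  have h00 : Φ ((0 : F), (0 : W)) = 1 := h.chart.zero
  refine exists_localHom (subMul Φ Ψ) (subΛ Φ Ψ lam) lam h.smN_subMul (h.smN_subΛ lam)
    ?_ ?_ ?_ ?_ ?_ ?_
  · filter_upwards [hleft] with w hw
    show (Ψ (Φ (0, w) * Φ ((0 : F), (0 : W)))).2 = w
    rw [h00, mul_one, hw]
  · filter_upwards [hleft] with w hw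
    show (Ψ (Φ ((0 : F), (0 : W)) * Φ (0, w))).2 = w
    rw [h00, one_mul, hw]
  · filter_upwards [hleft] with w hw
    show lam (Ψ ((Φ ((0 : F), (0 : W)))⁻¹ * Φ (0, w))).2 = lam w
    rw [h00, inv_one, one_mul, hw]
  · have c2 : Tendsto (fun p : W × W => p.2) (𝓝 0) (𝓝 (0 : W)) :=
      continuous_snd.tendsto (0 : W × W)
    filter_upwards [h.sub_mul', c2.eventually hleft] with p h1 h2
    show lam (Ψ ((Φ (0, p.1))⁻¹ * Φ (0, subMul Φ Ψ p))).2 = lam p.2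
    rw [h1, inv_mul_cancel_left, h2]
  · have c1 : Tendsto (fun p : W × (W × W) => (p.1, p.2.1)) (𝓝 0) (𝓝 (0 : W × W)) := by
      have : ContinuousAt (fun p : W × (W × W) => (p.1, p.2.1)) 0 := by fun_prop
      exact this.tendsto
    have c2 : Tendsto (fun p : W × (W × W) => (p.1, p.2.2)) (𝓝 0) (𝓝 (0 : W × W)) := by
      have : ContinuousAt (fun p : W × (W × W) => (p.1, p.2.2)) 0 := by fun_prop
      exact this.tendsto
    filter_upwards [c1.eventually h.sub_mul', c2.eventually h.sub_mul'] with p h1 h2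
    show lam (Ψ ((Φ (0, subMul Φ Ψ (p.1, p.2.1)))⁻¹ * Φ (0, subMul Φ Ψ (p.1, p.2.2)))).2 =
      lam (Ψ ((Φ (0, p.2.1))⁻¹ * Φ (0, p.2.2))).2
    rw [h1, h2]
    congr 3
    group
  · intro v v'
    obtain ⟨u, hu, hbr⟩ := hlam v v'
    exact ⟨u, hu, h.sub_bracket v v' u hbr⟩

/-- The component of a point along the subgroup. -/
def along (Φ : F × W → G) (Ψ : G → F × W) : F × W → W :=
  fun x => (Ψ ((Φ (x.1, 0))⁻¹ * Φ x)).2

theorem tendsto_fst0 : Tendsto (fun x : F × W => ((x.1, 0) : F × W)) (𝓝 0) (𝓝 (0 : F × W)) := by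
  have : ContinuousAt (fun x : F × W => ((x.1, 0) : F × W)) 0 := by fun_prop
  exact this.tendsto

theorem tendsto_quot (h : AdaptedChart IG Φ Ψ a) :
    Tendsto (fun x : F × W => (Φ (x.1, 0))⁻¹ * Φ x) (𝓝 0) (𝓝 1) := by
  have := topologicalGroup_of_lieGroup IG ∞ (G := G)
  have h1 := (h.chart.tendsto.comp tendsto_fst0).inv.mul h.chart.tendsto
  simpa using h1

theorem along_eq (h : AdaptedChart IG Φ Ψ a) : ∀ᶠ x in 𝓝 (0 : F × W),
    Ψ ((Φ (x.1, 0))⁻¹ * Φ x) = (0, along Φ Ψ x) := by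
  have := topologicalGroup_of_lieGroup IG ∞ (G := G)
  have c0 : Tendsto (fun x : F × W => (Φ (x.1, 0))⁻¹) (𝓝 0) (𝓝 1) := by
    simpa using (h.chart.tendsto.comp (tendsto_fst0 (F := F) (W := W))).inv
  have c1 : Tendsto (fun x : F × W => ((Φ (x.1, 0))⁻¹, x)) (𝓝 0) (𝓝 ((1 : G), (0 : F × W))) := by
    have := c0.prodMk tendsto_id
    rwa [← nhds_prod_eq] at this
  have c2 : Tendsto (fun x : F × W => ((Φ (x.1, 0))⁻¹, ((x.1, 0) : F × W))) (𝓝 0)
      (𝓝 ((1 : G), (0 : F × W))) := by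
    have := c0.prodMk (tendsto_fst0 (F := F) (W := W))
    rwa [← nhds_prod_eq] at this
  filter_upwards [c1.eventually h.adapted, c2.eventually h.adapted] with x h1 h2
  refine Prod.ext ?_ rfl
  simp only [inv_mul_cancel, h.chart.one, Prod.fst_zero] at h2
  exact h1.trans h2.symm

theorem along_eq' (h : AdaptedChart IG Φ Ψ a) : ∀ᶠ x in 𝓝 (0 : F × W),
    Φ (0, along Φ Ψ x) = (Φ (x.1, 0))⁻¹ * Φ x := by
  filter_upwards [h.along_eq, h.tendsto_quot.eventually h.chart.right_inv] with x h1 h2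
  rw [← h1, h2]

theorem tendsto_along (h : AdaptedChart IG Φ Ψ a) : Tendsto (along Φ Ψ) (𝓝 0) (𝓝 0) := by
  have c2 := h.chart.tendsto_inv.comp h.tendsto_quot
  exact (continuous_snd.tendsto (0 : F × W)).comp c2

theorem smN_along (h : AdaptedChart IG Φ Ψ a) : SmN (along Φ Ψ) 0 := by
  rw [← sm_iff_smN]
  have h1 : Sm 𝓘(ℝ, F × W) 𝓘(ℝ, F × W) (fun x : F × W => ((x.1, 0) : F × W)) 0 :=
    Sm.of (contDiff_fst.prodMk contDiff_const).contMDiff
  have h3 : Sm 𝓘(ℝ, F × W) IG (fun x : F × W => (Φ (x.1, 0))⁻¹ * Φ x) 0 :=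
    (h.chart.smooth.comp h1 rfl).inv.mul h.chart.smooth
  have h0 : (Φ ((0 : F × W).1, (0 : W)))⁻¹ * Φ (0 : F × W) = 1 := by
    show (Φ (0 : F × W))⁻¹ * Φ (0 : F × W) = 1
    simp
  exact (h.chart.smooth_inv.comp h3 h0).snd_space

/-- The data needed for one step of the induction. -/
theorem exists_zeta [FiniteDimensional ℝ EG] [FiniteDimensional ℝ F] [FiniteDimensional ℝ W]
    (h : AdaptedChart IG Φ Ψ a) (lam : W →L[ℝ] ℝ)
    (hlam : ∀ v v' : W, ∃ u : W, lam u = 0 ∧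
      ⁅chartD (V := F × W) IG Φ (0, v), chartD (V := F × W) IG Φ (0, v')⁆ =
        chartD (V := F × W) IG Φ (0, u)) :
    ∃ (ζ : F × W → ℝ) (c : G × F → ℝ), ζ 0 = 0 ∧ SmN ζ 0 ∧
      HasFDerivAt ζ (lam.comp (ContinuousLinearMap.snd ℝ F W)) 0 ∧
      IsActionCocycle IG a c 0 ∧
      ∀ᶠ z in 𝓝 ((1 : G), (0 : F × W)), ζ (Ψ (z.1 * Φ z.2)) = ζ z.2 + c (z.1, z.2.1) := by
  have := topologicalGroup_of_lieGroup IG ∞ (G := G)
  obtain ⟨χ, hχ0, hχs, hχd, hχm⟩ := h.exists_chi lam hlam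
  have h00 : Φ ((0 : F), (0 : W)) = 1 := h.chart.zero
  have halong0 : along Φ Ψ 0 = 0 := by
    show (Ψ ((Φ ((0 : F), (0 : W)))⁻¹ * Φ (0 : F × W))).2 = 0
    have : Φ (0 : F × W) = 1 := h.chart.zero
    rw [h00, this, inv_one, one_mul, h.chart.one]
    rfl
  let ζ : F × W → ℝ := fun x => χ (along Φ Ψ x)
  have hζs : SmN ζ 0 := by
    have h1 := h.smN_along
    rw [← sm_iff_smN] at h1 hχs ⊢
    exact hχs.comp h1 halong0
  have hζ0 : ∀ f : F, ζ (f, 0) = 0 := by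
    intro f
    have : along Φ Ψ (f, 0) = 0 := by
      show (Ψ ((Φ (f, 0))⁻¹ * Φ (f, 0))).2 = 0
      rw [inv_mul_cancel, h.chart.one]
      rfl
    show χ (along Φ Ψ (f, 0)) = 0
    rw [this, hχ0]
  have hζw : ∀ᶠ w in 𝓝 (0 : W), ζ (0, w) = χ w := by
    filter_upwards [tendsto_inr.eventually h.chart.left_inv] with w hw
    have : along Φ Ψ (0, w) = w := by
      show (Ψ ((Φ ((0 : F), (0 : W)))⁻¹ * Φ (0, w))).2 = w
      rw [h00, inv_one, one_mul, hw]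
    show χ (along Φ Ψ (0, w)) = χ w
    rw [this]
  -- the basic identity
  have c1 : Tendsto (fun z : G × (F × W) => z.2) (𝓝 ((1 : G), (0 : F × W))) (𝓝 0) :=
    continuous_snd.tendsto _
  have c2 : Tendsto (fun z : G × (F × W) => (z.1, ((z.2.1, 0) : F × W)))
      (𝓝 ((1 : G), (0 : F × W))) (𝓝 ((1 : G), (0 : F × W))) := by
    have : ContinuousAt (fun z : G × (F × W) => (z.1, ((z.2.1, 0) : F × W)))
      ((1 : G), (0 : F × W)) := by fun_prop
    exact this.tendsto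
  have c3 : Tendsto (fun z : G × (F × W) => Ψ (z.1 * Φ z.2)) (𝓝 ((1 : G), (0 : F × W))) (𝓝 0) :=
    h.chart.tendsto_inv.comp h.chart.tendsto_act
  have c4 := c3.comp c2
  have c5 : Tendsto (fun z : G × (F × W) =>
      (along Φ Ψ (Ψ (z.1 * Φ (z.2.1, 0))), along Φ Ψ z.2)) (𝓝 ((1 : G), (0 : F × W)))
      (𝓝 (0 : W × W)) := by
    have := (h.tendsto_along.comp c4).prodMk (h.tendsto_along.comp c1)
    rw [← nhds_prod_eq] at this
    exact this
  have key : ∀ᶠ z in 𝓝 ((1 : G), (0 : F × W)),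
      ζ (Ψ (z.1 * Φ z.2)) = ζ z.2 + ζ (Ψ (z.1 * Φ (z.2.1, 0))) := by
    filter_upwards [h.adapted, c2.eventually h.adapted, c1.eventually h.along_eq',
      c4.eventually h.along_eq', h.chart.tendsto_act.eventually h.chart.right_inv,
      (h.chart.tendsto_act.comp c2).eventually h.chart.right_inv, c5.eventually hχm]
      with z h1 h2 h3 h4 h5 h6 h7
    simp only [Function.comp_apply] at h2 h4 h6 h7
    have h8 : (Ψ (z.1 * Φ z.2)).1 = (Ψ (z.1 * Φ (z.2.1, 0))).1 := by rw [h1, h2]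
    have h9 : along Φ Ψ (Ψ (z.1 * Φ z.2)) =
        subMul Φ Ψ (along Φ Ψ (Ψ (z.1 * Φ (z.2.1, 0))), along Φ Ψ z.2) := by
      show (Ψ ((Φ ((Ψ (z.1 * Φ z.2)).1, 0))⁻¹ * Φ (Ψ (z.1 * Φ z.2)))).2 =
        (Ψ (Φ (0, along Φ Ψ (Ψ (z.1 * Φ (z.2.1, 0)))) * Φ (0, along Φ Ψ z.2))).2
      rw [h4, h3, h5, h6, h8]
      congr 2
      group
    show χ (along Φ Ψ (Ψ (z.1 * Φ z.2))) = χ (along Φ Ψ z.2) +
      χ (along Φ Ψ (Ψ (z.1 * Φ (z.2.1, 0))))
    rw [h9, h7, add_comm]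
  refine ⟨ζ, fun q => ζ (Ψ (q.1 * Φ (q.2, 0))), hζ0 0, hζs, ?_, ⟨?_, ?_⟩, key⟩
  · -- the differential
    have e1 : HasFDerivAt ζ (fderiv ℝ ζ 0) 0 :=
      (hζs.self_of_nhds.differentiableAt (by simp)).hasFDerivAt
    have e2 : HasFDerivAt (fun f : F => ζ (f, 0))
        ((fderiv ℝ ζ 0).comp (ContinuousLinearMap.inl ℝ F W)) 0 :=
      HasFDerivAt.comp (0 : F) (g := ζ) (f := fun f : F => (f, (0 : W))) e1
        (hasFDerivAt_prodMk_left (0 : F) (0 : W))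
    have e3 : HasFDerivAt (fun f : F => ζ (f, 0)) (0 : F →L[ℝ] ℝ) 0 :=
      (hasFDerivAt_const (0 : ℝ) (0 : F)).congr_of_eventuallyEq
        (Eventually.of_forall fun f => hζ0 f)
    have e4 : HasFDerivAt (fun w : W => ζ (0, w))
        ((fderiv ℝ ζ 0).comp (ContinuousLinearMap.inr ℝ F W)) 0 :=
      HasFDerivAt.comp (0 : W) (g := ζ) (f := fun w : W => ((0 : F), w)) e1
        (hasFDerivAt_prodMk_right (0 : F) (0 : W))
    have e5 : HasFDerivAt (fun w : W => ζ (0, w)) lam 0 := hχd.congr_of_eventuallyEq hζw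
    refine e1.congr_fderiv ?_
    refine ContinuousLinearMap.ext fun x => ?_
    have h1 := DFunLike.congr_fun (e2.unique e3) x.1
    have h2 := DFunLike.congr_fun (e4.unique e5) x.2
    have h3 : fderiv ℝ ζ 0 (x.1, 0) = 0 := h1
    have h4 : fderiv ℝ ζ 0 (0, x.2) = lam x.2 := h2
    have h5 : x = (x.1, 0) + (0, x.2) := by simp
    show fderiv ℝ ζ 0 x = lam x.2
    rw [h5, map_add, h3, h4]
    simp
  · -- smoothness of the cocycle
    have s1 : Sm (IG.prod 𝓘(ℝ, F)) IG (fun q : G × F => q.1) ((1 : G), (0 : F)) :=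
      Sm.of contMDiff_fst
    have s2 : Sm (IG.prod 𝓘(ℝ, F)) 𝓘(ℝ, F) (fun q : G × F => q.2) ((1 : G), (0 : F)) :=
      Sm.of contMDiff_snd
    have s3 : Sm (IG.prod 𝓘(ℝ, F)) 𝓘(ℝ, F × W) (fun q : G × F => (q.2, (0 : W)))
        ((1 : G), (0 : F)) := s2.prodMk_space Sm.const
    have s4 : Sm (IG.prod 𝓘(ℝ, F)) IG (fun q : G × F => q.1 * Φ (q.2, 0)) ((1 : G), (0 : F)) :=
      s1.mul (h.chart.smooth.comp s3 rfl)
    have s5 := h.chart.smooth_inv.comp s4 (by simp [h00])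
    have s6 := hζs
    rw [← sm_iff_smN] at s6
    refine s6.comp s5 ?_
    show Ψ (1 * Φ ((0 : F), (0 : W))) = 0
    rw [h00, one_mul, h.chart.one]
  · -- cocycle identity
    have d1 : Tendsto (fun q : (G × G) × F => (q.1.2, ((q.2, 0) : F × W)))
        (𝓝 (((1 : G), (1 : G)), (0 : F))) (𝓝 ((1 : G), (0 : F × W))) := by
      have : ContinuousAt (fun q : (G × G) × F => (q.1.2, ((q.2, 0) : F × W)))
        (((1 : G), (1 : G)), (0 : F)) := by fun_prop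
      exact this.tendsto
    have d2 : Tendsto (fun q : (G × G) × F => (q.1.1, Ψ (q.1.2 * Φ (q.2, 0))))
        (𝓝 (((1 : G), (1 : G)), (0 : F))) (𝓝 ((1 : G), (0 : F × W))) := by
      have e1 : ContinuousAt (fun q : (G × G) × F => q.1.1) (((1 : G), (1 : G)), (0 : F)) := by
        fun_prop
      have e2 := e1.tendsto.prodMk (c3.comp d1)
      rw [← nhds_prod_eq] at e2
      exact e2
    filter_upwards [d2.eventually key, d1.eventually h.adapted,
      (h.chart.tendsto_act.comp d1).eventually h.chart.right_inv] with q h1 h2 h3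
    simp only [Function.comp_apply] at h1 h2 h3
    show ζ (Ψ ((q.1.1 * q.1.2) * Φ (q.2, 0))) = ζ (Ψ (q.1.2 * Φ (q.2, 0))) +
      ζ (Ψ (q.1.1 * Φ (a (q.1.2, q.2), 0)))
    rw [mul_assoc, ← h3, h1, h3, h2]

end AdaptedChart

end Pool.Agent.MP_602746_gt
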