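import Mathlib
import Pool.Agent.MP_602746_gt.Zeta

open scoped Manifold ContDiff Topology
open Set Filter VectorField

noncomputable section

namespace Pool.Agent.MP_602746_gt

variable {EG : Type*} [NormedAddCommGroup EG] [NormedSpace ℝ EG] [FiniteDimensional ℝ EG]
  {HG : Type*} [TopologicalSpace HG]
  {IG : ModelWithCorners ℝ EG HG} {G : Type*} [TopologicalSpace G] [ChartedSpace HG G] [Group G]
  [LieGroup IG ∞ G]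

instance completeEG : CompleteSpace EG := FiniteDimensional.complete ℝ EG

/-- A linear functional on the subalgebra which vanishes on the brackets. -/
theorem exists_functional {W : Type*} [NormedAddCommGroup W] [NormedSpace ℝ W]
    [FiniteDimensional ℝ W] [Nontrivial W] (D : W →L[ℝ] GroupLieAlgebra IG G)
    (hD : Function.Injective D) (𝔰 : LieSubalgebra ℝ (GroupLieAlgebra IG G))
    [LieAlgebra.IsSolvable 𝔰] (h𝔰 : ∀ x, x ∈ 𝔰 ↔ ∃ w : W, D w = x) :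
    ∃ lam : W →L[ℝ] ℝ, (∃ w₀, lam w₀ = 1) ∧
      ∀ v v' : W, ∃ u : W, lam u = 0 ∧ ⁅D v, D v'⁆ = D u := by
  have hmem : ∀ w, D w ∈ 𝔰 := fun w => (h𝔰 _).2 ⟨w, rfl⟩
  have hnt : Nontrivial 𝔰 := by
    obtain ⟨x, y, hxy⟩ := exists_pair_ne W
    exact ⟨⟨⟨D x, hmem x⟩, ⟨D y, hmem y⟩, fun h => hxy (hD (congrArg Subtype.val h))⟩⟩
  have hlt : LieAlgebra.derivedSeries ℝ 𝔰 1 < ⊤ := LieAlgebra.derivedSeries_lt_top_of_solvable ℝ 𝔰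
  have hlt' : (LieAlgebra.derivedSeries ℝ 𝔰 1).toSubmodule < ⊤ := by
    rw [lt_top_iff_ne_top] at hlt ⊢
    intro h
    apply hlt
    rw [← LieSubmodule.toSubmodule_inj]
    simpa using h
  obtain ⟨f, hf0, hf⟩ := Submodule.exists_le_ker_of_lt_top _ hlt'
  have hfbr : ∀ x y : 𝔰, f ⁅x, y⁆ = 0 := by
    intro x y
    have : ⁅x, y⁆ ∈ LieAlgebra.derivedSeries ℝ 𝔰 1 := by
      show ⁅x, y⁆ ∈ ⁅(⊤ : LieIdeal ℝ 𝔰), (⊤ : LieIdeal ℝ 𝔰)⁆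
      exact LieSubmodule.lie_mem_lie trivial trivial
    exact hf this
  let D' : W →ₗ[ℝ] 𝔰 := (D : W →ₗ[ℝ] GroupLieAlgebra IG G).codRestrict 𝔰.toSubmodule hmem
  let lam₀ : W →ₗ[ℝ] ℝ := f ∘ₗ D'
  have hlam₀ : ∀ w, lam₀ w = f ⟨D w, hmem w⟩ := fun w => rfl
  obtain ⟨x, hx⟩ : ∃ x, f x ≠ 0 := by
    by_contra hcon
    push Not at hcon
    exact hf0 (LinearMap.ext hcon)
  obtain ⟨w₁, hw₁⟩ := (h𝔰 x.1).1 x.2
  have hw₁' : lam₀ w₁ ≠ 0 := by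
    rw [hlam₀]
    have : (⟨D w₁, hmem w₁⟩ : 𝔰) = x := Subtype.ext hw₁
    rw [this]; exact hx
  refine ⟨LinearMap.toContinuousLinearMap lam₀, ⟨(lam₀ w₁)⁻¹ • w₁, ?_⟩, ?_⟩
  · simp [hw₁']
  · intro v v'
    have h1 : ⁅D v, D v'⁆ ∈ 𝔰 := 𝔰.lie_mem (hmem v) (hmem v')
    obtain ⟨u, hu⟩ := (h𝔰 _).1 h1
    refine ⟨u, ?_, hu.symm⟩
    show lam₀ u = 0
    rw [hlam₀]
    have : (⟨D u, hmem u⟩ : 𝔰) = ⁅(⟨D v, hmem v⟩ : 𝔰), (⟨D v', hmem v'⟩ : 𝔰)⁆ := by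
      apply Subtype.ext
      show D u = ⁅D v, D v'⁆
      exact hu
    rw [this, hfbr]

/-- The kernel of the functional is a solvable subalgebra. -/
theorem exists_subalgebra {W : Type*} [NormedAddCommGroup W] [NormedSpace ℝ W]
    (D : W →L[ℝ] GroupLieAlgebra IG G) (𝔰 : LieSubalgebra ℝ (GroupLieAlgebra IG G))
    [LieAlgebra.IsSolvable 𝔰] (h𝔰 : ∀ x, x ∈ 𝔰 ↔ ∃ w : W, D w = x) (lam : W →L[ℝ] ℝ)
    (hlam : ∀ v v' : W, ∃ u : W, lam u = 0 ∧ ⁅D v, D v'⁆ = D u) :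
    ∃ 𝔰' : LieSubalgebra ℝ (GroupLieAlgebra IG G), LieAlgebra.IsSolvable 𝔰' ∧
      ∀ x, x ∈ 𝔰' ↔ ∃ w : W, lam w = 0 ∧ D w = x := by
  let 𝔰' : LieSubalgebra ℝ (GroupLieAlgebra IG G) :=
    { Submodule.map (D : W →ₗ[ℝ] GroupLieAlgebra IG G) (LinearMap.ker (lam : W →ₗ[ℝ] ℝ)) with
      lie_mem' := by
        rintro x y ⟨v, -, rfl⟩ ⟨v', -, rfl⟩
        obtain ⟨u, hu, hbr⟩ := hlam v v'
        exact ⟨u, hu, hbr.symm⟩ }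
  have hiff : ∀ x, x ∈ 𝔰' ↔ ∃ w : W, lam w = 0 ∧ D w = x := fun x => Iff.rfl
  refine ⟨𝔰', ?_, hiff⟩
  have hle : 𝔰' ≤ 𝔰 := by
    intro x hx
    obtain ⟨w, -, hw⟩ := (hiff x).1 hx
    exact (h𝔰 x).2 ⟨w, hw⟩
  exact (LieSubalgebra.inclusion_injective hle).lieAlgebra_isSolvable

end Pool.Agent.MP_602746_gt
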