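import Mathlib
import Pool.Agent.MP_602746_gt.Adapted
import Pool.Agent.MP_602746_gt.Functional

open scoped Manifold ContDiff Topology
open Set Filter

noncomputable section

namespace Pool.Agent.MP_602746_gt

variable {EG : Type*} [NormedAddCommGroup EG] [NormedSpace ℝ EG]
  {HG : Type*} [TopologicalSpace HG]
  (IG : ModelWithCorners ℝ EG HG) {G : Type*} [TopologicalSpace G] [ChartedSpace HG G] [Group G]

/-- The adjoint representation of a Lie group on its tangent space at `1`: the derivative at `1` of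
the conjugation by `g`. -/
def adj (g : G) : EG →L[ℝ] EG := mfderiv IG IG (fun h : G => g * h * g⁻¹) (1 : G)

variable {IG} [LieGroup IG ∞ G]

theorem hasMFDerivAt_conj (g : G) :
    HasMFDerivAt IG IG (fun h : G => g * h * g⁻¹) (1 : G) (adj IG g : EG →L[ℝ] EG) := by
  have h1 : ContMDiff IG IG ∞ (fun h : G => g * h * g⁻¹) :=
    (contMDiff_const.mul contMDiff_id).mul contMDiff_const
  exact ((h1 1).mdifferentiableAt (by simp)).hasMFDerivAt

theorem adj_one : adj IG (1 : G) = ContinuousLinearMap.id ℝ EG := by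
  have h1 := hasMFDerivAt_conj (IG := IG) (1 : G)
  have h2 : HasMFDerivAt IG IG (fun h : G => (1 : G) * h * 1⁻¹) (1 : G)
      (ContinuousLinearMap.id ℝ EG) := by
    refine (hasMFDerivAt_id (1 : G)).congr_of_eventuallyEq (Eventually.of_forall fun h => ?_)
    simp
  exact hasMFDerivAt_unique h1 h2

theorem adj_mul (g h : G) : adj IG (g * h) = (adj IG g).comp (adj IG h) := by
  have h1 := hasMFDerivAt_conj (IG := IG) (g * h)
  have h2 : HasMFDerivAt IG IG (fun k : G => g * k * g⁻¹) (h * 1 * h⁻¹)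
      (adj IG g : EG →L[ℝ] EG) := by
    have e : h * 1 * h⁻¹ = 1 := by group
    rw [e]; exact hasMFDerivAt_conj g
  have h3 : HasMFDerivAt IG IG (fun k : G => g * (h * k * h⁻¹) * g⁻¹) (1 : G)
      ((adj IG g).comp (adj IG h) : EG →L[ℝ] EG) :=
    HasMFDerivAt.comp (1 : G) (g := fun k : G => g * k * g⁻¹) (f := fun k : G => h * k * h⁻¹)
      h2 (hasMFDerivAt_conj h)
  have h4 : HasMFDerivAt IG IG (fun k : G => g * h * k * (g * h)⁻¹) (1 : G)
      ((adj IG g).comp (adj IG h) : EG →L[ℝ] EG) := by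
    refine h3.congr_of_eventuallyEq (Eventually.of_forall fun k => ?_)
    show g * h * k * (g * h)⁻¹ = g * (h * k * h⁻¹) * g⁻¹
    group
  exact hasMFDerivAt_unique h1 h4

theorem contMDiff_adj : ContMDiff IG 𝓘(ℝ, EG →L[ℝ] EG) ∞ (fun g : G => adj IG g) := by
  intro g₀
  have hf : ContMDiff (IG.prod IG) IG ∞ (Function.uncurry (fun g h : G => g * h * g⁻¹)) :=
    (contMDiff_fst.mul contMDiff_snd).mul contMDiff_fst.inv
  have h := ContMDiffAt.mfderiv (x₀ := g₀) (m := ∞) (n := ∞) (fun g h : G => g * h * g⁻¹)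
    (fun _ : G => (1 : G)) (hf (g₀, 1)) contMDiffAt_const (by simp)
  refine h.congr_of_eventuallyEq (Eventually.of_forall fun g => ?_)
  have key : ∀ γ : G → G, γ = (fun _ => (1 : G)) →
      inTangentCoordinates IG IG (fun _ : G => (1 : G)) γ (fun g : G => adj IG g) g₀ g =
        adj IG g := by
    rintro _ rfl
    have e := inTangentCoordinates_eq (I := IG) (I' := IG) (fun _ : G => (1 : G))
      (fun _ : G => (1 : G)) (fun g : G => adj IG g) (x₀ := g₀) (x := g)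
      (mem_chart_source HG (1 : G)) (mem_chart_source HG (1 : G))
    rw [e]
    refine ContinuousLinearMap.ext fun v => ?_
    show (tangentBundleCore IG G).coordChange _ _ (1 : G) (adj IG g
      ((tangentBundleCore IG G).coordChange _ _ (1 : G) v)) = adj IG g v
    rw [(tangentBundleCore IG G).coordChange_self _ _ (mem_chart_source HG (1 : G)),
      (tangentBundleCore IG G).coordChange_self _ _ (mem_chart_source HG (1 : G))]
  exact (key _ (by funext g; group)).symm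

theorem contMDiff_adj_apply :
    ContMDiff (IG.prod 𝓘(ℝ, EG)) 𝓘(ℝ, EG) ∞ (fun z : G × EG => adj IG z.1 z.2) :=
  (contMDiff_adj.comp contMDiff_fst).clm_apply contMDiff_snd

variable (IG G) in
/-- The adjoint action as an action on `EG`. -/
abbrev adjMulAction : MulAction G EG where
  smul g v := adj IG g v
  one_smul v := by
    show adj IG (1 : G) v = v
    rw [adj_one]; rfl
  mul_smul g h v := by
    show adj IG (g * h) v = adj IG g (adj IG h v)
    rw [adj_mul]; rfl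

omit [LieGroup IG ∞ G] in
/-- The differential of a chart at the origin as an equivalence. -/
theorem LocalChart.exists_D {V : Type*} [NormedAddCommGroup V] [NormedSpace ℝ V]
    {Φ : V → G} {Ψ : G → V} (h : LocalChart IG Φ Ψ) :
    ∃ D : V ≃L[ℝ] EG, ∀ v : V, (chartD (V := V) IG Φ v : EG) = D v := by
  obtain ⟨D₁, hD₁⟩ := h.invertible.self_of_nhds
  let D : V ≃L[ℝ] EG := D₁
  exact ⟨D, fun v => (DFunLike.congr_fun hD₁ v).symm⟩

variable [FiniteDimensional ℝ EG]

/-- The derivative at `1` of the adjoint representation is the bracket. -/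
theorem mfderiv_adj {V : Type*} [NormedAddCommGroup V] [NormedSpace ℝ V] [FiniteDimensional ℝ V]
    {Φ : V → G} {Ψ : G → V} (h : LocalChart IG Φ Ψ) (ξ x : GroupLieAlgebra IG G) :
    (mfderiv IG 𝓘(ℝ, EG) (fun g : G => adj IG g x) (1 : G) ξ : EG) = ⁅ξ, x⁆ := by
  have : CompleteSpace V := FiniteDimensional.complete ℝ V
  have := topologicalGroup_of_lieGroup IG ∞ (G := G)
  -- the differential of the chart
  obtain ⟨D, hD'⟩ := h.exists_D
  have hΦd : HasMFDerivAt 𝓘(ℝ, V) IG Φ 0 (D : V →L[ℝ] EG) := by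
    have h1 := h.hasMFDerivAt_zero
    have e : (chartD (V := V) IG Φ : V →L[ℝ] EG) = (D : V →L[ℝ] EG) :=
      ContinuousLinearMap.ext hD'
    rw [← e]
    exact h1
  let S : EG →L[ℝ] V := mfderiv IG 𝓘(ℝ, V) Ψ (1 : G)
  have hS : HasMFDerivAt IG 𝓘(ℝ, V) Ψ (1 : G) S :=
    (h.smooth_inv.self_of_nhds.mdifferentiableAt (by simp)).hasMFDerivAt
  have hSD : S = (D.symm : EG →L[ℝ] V) := by
    have h1 : HasMFDerivAt IG 𝓘(ℝ, V) Ψ (Φ 0) S := by rw [h.zero]; exact hS
    have h2 : HasMFDerivAt 𝓘(ℝ, V) 𝓘(ℝ, V) (fun v => Ψ (Φ v)) 0 (S.comp (D : V →L[ℝ] EG)) :=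
      HasMFDerivAt.comp (0 : V) (g := Ψ) (f := Φ) h1 hΦd
    have h3 : HasMFDerivAt 𝓘(ℝ, V) 𝓘(ℝ, V) (fun v => Ψ (Φ v)) 0 (ContinuousLinearMap.id ℝ V) :=
      (hasMFDerivAt_id (0 : V)).congr_of_eventuallyEq h.left_inv
    have h4 := hasMFDerivAt_unique h2 h3
    refine ContinuousLinearMap.ext fun y => ?_
    have h5 := DFunLike.congr_fun h4 (D.symm y)
    have h6 : S (D (D.symm y)) = D.symm y := h5
    rw [D.apply_symm_apply] at h6
    exact h6
  -- coordinates of `ξ`, `x`, `⁅ξ, x⁆`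
  obtain ⟨ξ', hξ'⟩ : ∃ ξ' : V, D ξ' = ξ := ⟨D.symm ξ, D.apply_symm_apply _⟩
  obtain ⟨η, hη⟩ : ∃ η : V, D η = x := ⟨D.symm x, D.apply_symm_apply _⟩
  obtain ⟨ζ, hζ⟩ : ∃ ζ : V, D ζ = (⁅ξ, x⁆ : GroupLieAlgebra IG G) :=
    ⟨D.symm (⁅ξ, x⁆ : GroupLieAlgebra IG G), D.apply_symm_apply _⟩
  have hbr : ⁅chartD (V := V) IG Φ ξ', chartD (V := V) IG Φ η⁆ = chartD (V := V) IG Φ ζ := by
    have e1 : chartD (V := V) IG Φ ξ' = ξ := (hD' ξ').trans hξ'
    have e2 : chartD (V := V) IG Φ η = x := (hD' η).trans hη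
    have e3 : chartD (V := V) IG Φ ζ = ⁅ξ, x⁆ := (hD' ζ).trans hζ
    rw [e1, e2, e3]
  have hbracket := (h.bracket ξ' η ζ hbr).self_of_nhds
  -- the local multiplication
  let μ : V × V → V := chartMul Φ Ψ
  have hμs : SmN μ 0 := h.smooth_mul
  have hμ0 : ∀ᶠ y in 𝓝 (0 : V), μ (0, y) = y := by
    filter_upwards [h.left_inv] with y hy
    show Ψ (Φ 0 * Φ y) = y
    rw [h.zero, one_mul, hy]
  have hμ0' : ∀ᶠ y in 𝓝 (0 : V), μ (y, 0) = y := by
    filter_upwards [h.left_inv] with y hy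
    show Ψ (Φ y * Φ 0) = y
    rw [h.zero, mul_one, hy]
  let F : V × V → (V × V →L[ℝ] V) := fderiv ℝ μ
  have hFs : ContDiffAt ℝ ∞ F 0 := hμs.self_of_nhds.fderiv_right (m := ∞) (by simp)
  let F' : V × V →L[ℝ] (V × V →L[ℝ] V) := fderiv ℝ F 0
  have hF' : HasFDerivAt F F' 0 := (hFs.differentiableAt (by simp)).hasFDerivAt
  have hμd : HasFDerivAt μ (F 0) 0 := (hμs.self_of_nhds.differentiableAt (by simp)).hasFDerivAt
  have hF0l : ∀ u : V, F 0 (u, 0) = u := by
    intro u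
    have e1 : HasFDerivAt (fun y : V => μ (y, 0)) ((F 0).comp (ContinuousLinearMap.inl ℝ V V)) 0 :=
      HasFDerivAt.comp (0 : V) (g := μ) (f := fun y : V => (y, (0 : V))) hμd
        (hasFDerivAt_prodMk_left (0 : V) (0 : V))
    have e2 : HasFDerivAt (fun y : V => μ (y, 0)) (ContinuousLinearMap.id ℝ V) 0 :=
      (hasFDerivAt_id (0 : V)).congr_of_eventuallyEq hμ0'
    exact DFunLike.congr_fun (e1.unique e2) u
  have hF0r : ∀ u : V, F 0 (0, u) = u := by
    intro u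
    have e1 : HasFDerivAt (fun y : V => μ (0, y)) ((F 0).comp (ContinuousLinearMap.inr ℝ V V)) 0 :=
      HasFDerivAt.comp (0 : V) (g := μ) (f := fun y : V => ((0 : V), y)) hμd
        (hasFDerivAt_prodMk_right (0 : V) (0 : V))
    have e2 : HasFDerivAt (fun y : V => μ (0, y)) (ContinuousLinearMap.id ℝ V) 0 :=
      (hasFDerivAt_id (0 : V)).congr_of_eventuallyEq hμ0
    exact DFunLike.congr_fun (e1.unique e2) u
  -- derivative of `x ↦ F (x, 0) (0, u)`
  have hX : ∀ u : V, HasFDerivAt (fun y : V => F (y, 0) (0, u))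
      (((ContinuousLinearMap.apply ℝ V ((0 : V), u)).comp F').comp
        (ContinuousLinearMap.inl ℝ V V)) 0 := by
    intro u
    have e1 : HasFDerivAt (fun y : V => F (y, 0)) (F'.comp (ContinuousLinearMap.inl ℝ V V)) 0 :=
      HasFDerivAt.comp (0 : V) (g := F) (f := fun y : V => (y, (0 : V))) hF'
        (hasFDerivAt_prodMk_left (0 : V) (0 : V))
    exact (ContinuousLinearMap.apply ℝ V ((0 : V), u)).hasFDerivAt.comp (0 : V) e1
  have hbr2 : F' (ξ', 0) (0, η) - F' (η, 0) (0, ξ') = ζ := by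
    have e1 : fderiv ℝ (fun y : V => chartX Φ Ψ y η) 0 (chartX Φ Ψ 0 ξ') = F' (ξ', 0) (0, η) := by
      have c1 : chartX Φ Ψ 0 ξ' = ξ' := hF0r ξ'
      rw [c1]
      have c2 : fderiv ℝ (fun y : V => chartX Φ Ψ y η) 0 = _ := (hX η).fderiv
      rw [c2]
      rfl
    have e2 : fderiv ℝ (fun y : V => chartX Φ Ψ y ξ') 0 (chartX Φ Ψ 0 η) = F' (η, 0) (0, ξ') := by
      have c1 : chartX Φ Ψ 0 η = η := hF0r η
      rw [c1]
      have c2 : fderiv ℝ (fun y : V => chartX Φ Ψ y ξ') 0 = _ := (hX ξ').fderiv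
      rw [c2]
      rfl
    have e3 : chartX Φ Ψ 0 ζ = ζ := hF0r ζ
    rw [e1, e2, e3] at hbracket
    exact hbracket
  have hsymm : F' (0, ξ') (η, 0) = F' (η, 0) (0, ξ') := by
    have hs : IsSymmSndFDerivAt ℝ μ 0 := by
      refine (hμs.self_of_nhds).isSymmSndFDerivAt ?_
      rw [minSmoothness_of_isRCLikeNormedField]
      exact (inferInstance : ENat.LEInfty (2 : ℕ∞ω)).out
    exact hs (0, ξ') (η, 0)
  -- the adjoint representation in the chart
  let a : V → V := fun v => D.symm (adj IG (Φ v) (D η))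
  have hadjΦ : ContDiffAt ℝ ∞ (fun v : V => adj IG (Φ v)) 0 := by
    rw [← contMDiffAt_iff_contDiffAt]
    exact ContMDiffAt.comp (0 : V) (g := fun g : G => adj IG g) (f := Φ)
      (contMDiff_adj.contMDiffAt) h.smooth.self_of_nhds
  have has : ContDiffAt ℝ ∞ a 0 := by
    have e1 : ContDiffAt ℝ ∞ (fun v : V => adj IG (Φ v) (D η)) 0 :=
      hadjΦ.clm_apply contDiffAt_const
    exact ContDiffAt.comp (0 : V) (g := D.symm) (f := fun v : V => adj IG (Φ v) (D η))
      D.symm.contDiff.contDiffAt e1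
  have had : HasFDerivAt a (fderiv ℝ a 0) 0 := (has.differentiableAt (by simp)).hasFDerivAt
  have ha0 : a 0 = η := by
    show D.symm (adj IG (Φ 0) (D η)) = η
    rw [h.zero, adj_one]
    exact D.symm_apply_apply η
  -- the identity `F (0, v) (a v, 0) = F (v, 0) (0, η)`
  have hid : ∀ᶠ v in 𝓝 (0 : V), F (0, v) (a v, 0) = F (v, 0) (0, η) := by
    have cr : Tendsto (fun v : V => ((0 : V), v)) (𝓝 0) (𝓝 (0 : V × V)) := by
      have : ContinuousAt (fun v : V => ((0 : V), v)) 0 := by fun_prop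
      exact this.tendsto
    have cl : Tendsto (fun v : V => (v, (0 : V))) (𝓝 0) (𝓝 (0 : V × V)) := by
      have : ContinuousAt (fun v : V => (v, (0 : V))) 0 := by fun_prop
      exact this.tendsto
    filter_upwards [cr.eventually hμs, cl.eventually hμs, h.left_inv] with v h1 h2 h3
    -- the curve `c v y`
    let c : V → V := fun y => Ψ (Φ v * Φ y * (Φ v)⁻¹)
    have hcd : HasFDerivAt c ((D.symm : EG →L[ℝ] V).comp ((adj IG (Φ v)).comp
        (D : V →L[ℝ] EG))) 0 := by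
      have e1 : HasMFDerivAt IG IG (fun k : G => Φ v * k * (Φ v)⁻¹) (Φ 0)
          (adj IG (Φ v) : EG →L[ℝ] EG) := by
        rw [h.zero]; exact hasMFDerivAt_conj (Φ v)
      have e2 : HasMFDerivAt 𝓘(ℝ, V) IG (fun y : V => Φ v * Φ y * (Φ v)⁻¹) 0
          ((adj IG (Φ v)).comp (D : V →L[ℝ] EG)) :=
        HasMFDerivAt.comp (0 : V) (g := fun k : G => Φ v * k * (Φ v)⁻¹) (f := Φ) e1 hΦd
      have e3 : HasMFDerivAt IG 𝓘(ℝ, V) Ψ (Φ v * Φ 0 * (Φ v)⁻¹) (D.symm : EG →L[ℝ] V) := by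
        have e : Φ v * Φ 0 * (Φ v)⁻¹ = 1 := by rw [h.zero]; group
        rw [e, ← hSD]; exact hS
      exact hasMFDerivAt_iff_hasFDerivAt.1
        (HasMFDerivAt.comp (0 : V) (g := Ψ) (f := fun y : V => Φ v * Φ y * (Φ v)⁻¹) e3 e2)
    have hc0 : c 0 = 0 := by
      show Ψ (Φ v * Φ 0 * (Φ v)⁻¹) = 0
      rw [h.zero, mul_one, mul_inv_cancel, h.one]
    have hconjt : Tendsto (fun y : V => Φ v * Φ y * (Φ v)⁻¹) (𝓝 0) (𝓝 1) := by
      have e1 := (tendsto_const_nhds (x := Φ v) (f := 𝓝 (0 : V))).mul h.tendsto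
      have e2 := e1.mul (tendsto_const_nhds (x := (Φ v)⁻¹) (f := 𝓝 (0 : V)))
      rwa [mul_one, mul_inv_cancel] at e2
    have hident : ∀ᶠ y in 𝓝 (0 : V), μ (c y, v) = μ (v, y) := by
      filter_upwards [hconjt.eventually h.right_inv] with y hy
      show Ψ (Φ (Ψ (Φ v * Φ y * (Φ v)⁻¹)) * Φ v) = Ψ (Φ v * Φ y)
      rw [hy, inv_mul_cancel_right]
    have d1 : HasFDerivAt μ (F (0, v)) (c 0, v) := by
      rw [hc0]; exact (h1.differentiableAt (by simp)).hasFDerivAt
    have d2 : HasFDerivAt (fun y : V => μ (c y, v)) ((F (0, v)).comp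
        (((D.symm : EG →L[ℝ] V).comp ((adj IG (Φ v)).comp (D : V →L[ℝ] EG))).prod
          (0 : V →L[ℝ] V))) 0 :=
      HasFDerivAt.comp (0 : V) (g := μ) (f := fun y : V => (c y, v)) d1
        (hcd.prodMk (hasFDerivAt_const v (0 : V)))
    have d3 : HasFDerivAt μ (F (v, 0)) (v, 0) := (h2.differentiableAt (by simp)).hasFDerivAt
    have d4 : HasFDerivAt (fun y : V => μ (v, y)) ((F (v, 0)).comp
        (ContinuousLinearMap.inr ℝ V V)) 0 :=
      HasFDerivAt.comp (0 : V) (g := μ) (f := fun y : V => (v, y)) d3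
        (hasFDerivAt_prodMk_right v (0 : V))
    have d5 := (d2.congr_of_eventuallyEq (hident.mono fun y hy => hy.symm)).unique d4
    exact DFunLike.congr_fun d5 η
  -- differentiate the identity
  have hDa : fderiv ℝ a 0 ξ' = ζ := by
    have e1 : HasFDerivAt (fun v : V => F (0, v)) (F'.comp (ContinuousLinearMap.inr ℝ V V)) 0 :=
      HasFDerivAt.comp (0 : V) (g := F) (f := fun v : V => ((0 : V), v)) hF'
        (hasFDerivAt_prodMk_right (0 : V) (0 : V))
    have e2 : HasFDerivAt (fun v : V => (a v, (0 : V)))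
        ((fderiv ℝ a 0).prod (0 : V →L[ℝ] V)) 0 := had.prodMk (hasFDerivAt_const (0 : V) (0 : V))
    have e3 := e1.clm_apply e2
    have e4 := (e3.congr_of_eventuallyEq (hid.mono fun v hv => hv.symm)).unique (hX η)
    have e5 := DFunLike.congr_fun e4 ξ'
    have e6 : F (0, 0) (fderiv ℝ a 0 ξ', 0) + F' (0, ξ') (a 0, 0) = F' (ξ', 0) (0, η) := e5
    have e7 : F ((0 : V), (0 : V)) (fderiv ℝ a 0 ξ', 0) = fderiv ℝ a 0 ξ' := hF0l _
    rw [e7, ha0, hsymm] at e6
    rw [← hbr2]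
    exact eq_sub_of_add_eq e6
  -- conclusion
  have m1 : HasMFDerivAt IG 𝓘(ℝ, EG) (fun g : G => adj IG g x) (1 : G)
      (mfderiv IG 𝓘(ℝ, EG) (fun g : G => adj IG g x) (1 : G)) := by
    have e : ContMDiff IG 𝓘(ℝ, EG) ∞ (fun g : G => adj IG g x) :=
      contMDiff_adj.clm_apply contMDiff_const
    exact ((e 1).mdifferentiableAt (by simp)).hasMFDerivAt
  let L : EG →L[ℝ] EG := mfderiv IG 𝓘(ℝ, EG) (fun g : G => adj IG g x) (1 : G)
  have m2 : HasMFDerivAt IG 𝓘(ℝ, EG) (fun g : G => adj IG g x) (Φ 0) L := by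
    rw [h.zero]; exact m1
  have m3 : HasMFDerivAt 𝓘(ℝ, V) 𝓘(ℝ, EG) (fun v : V => adj IG (Φ v) x) 0
      (L.comp (D : V →L[ℝ] EG)) :=
    HasMFDerivAt.comp (0 : V) (g := fun g : G => adj IG g x) (f := Φ) m2 hΦd
  have m4 : HasFDerivAt (fun v : V => adj IG (Φ v) x) (L.comp (D : V →L[ℝ] EG)) 0 :=
    hasMFDerivAt_iff_hasFDerivAt.1 m3
  have m5 : HasFDerivAt (fun v : V => adj IG (Φ v) x)
      ((D : V →L[ℝ] EG).comp (fderiv ℝ a 0)) 0 := by
    have e1 := (D : V →L[ℝ] EG).hasFDerivAt.comp (0 : V) had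
    refine e1.congr_of_eventuallyEq (Eventually.of_forall fun v => ?_)
    show adj IG (Φ v) x = D (D.symm (adj IG (Φ v) (D η)))
    rw [D.apply_symm_apply, hη]
  have m6 := DFunLike.congr_fun (m4.unique m5) ξ'
  have m7 : L (D ξ') = D (fderiv ℝ a 0 ξ') := m6
  rw [hDa, hζ, hξ'] at m7
  exact m7

end Pool.Agent.MP_602746_gt
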