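import Mathlib
import Pool.Agent.MP_602746_gt.OneStep
import Pool.Agent.MP_602746_gt.Chart

open scoped Manifold ContDiff Topology
open Set Filter

noncomputable section

namespace Pool.Agent.MP_602746_gt

variable {EG : Type*} [NormedAddCommGroup EG] [NormedSpace ℝ EG] {HG : Type*} [TopologicalSpace HG]
  {IG : ModelWithCorners ℝ EG HG} {G : Type*} [TopologicalSpace G] [ChartedSpace HG G] [Group G]
  {V : Type*} [NormedAddCommGroup V] [NormedSpace ℝ V]
  {U : Type*} [NormedAddCommGroup U] [NormedSpace ℝ U]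
  {N : Type*} [NormedAddCommGroup N] [NormedSpace ℝ N]

omit [NormedSpace ℝ V] in
theorem tendsto_pair_one (p : V) : Tendsto (fun v : V => ((1 : G), v)) (𝓝 p) (𝓝 ((1 : G), p)) := by
  have : ContinuousAt (fun v : V => ((1 : G), v)) p := by fun_prop
  exact this.tendsto

/-- A local action near a point is a local action near all nearby points. -/
theorem IsLocalAction.near {a : G × V → V} {p : V} (ha : IsLocalAction IG a p) :
    ∀ᶠ q in 𝓝 p, IsLocalAction IG a q := by
  have h3 : Tendsto (fun v : V => (((1 : G), (1 : G)), v)) (𝓝 p) (𝓝 (((1 : G), (1 : G)), p)) := by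
    have : ContinuousAt (fun v : V => (((1 : G), (1 : G)), v)) p := by fun_prop
    exact this.tendsto
  filter_upwards [(tendsto_pair_one (G := G) p).eventually ha.smooth.eventually_nhds,
    ha.one.eventually_nhds, h3.eventually ha.mul.eventually_nhds] with q e1 e2 e3
  exact ⟨e1, e2, e3⟩

/-- `a` preserves the second coordinate near `(1, p)`. -/
def Inv2 (a : G × (U × N) → U × N) (p : U × N) : Prop :=
  ∀ᶠ z in 𝓝 ((1 : G), p), (a z).2 = z.2.2

omit [NormedSpace ℝ U] [NormedSpace ℝ N] in
theorem Inv2.near {a : G × (U × N) → U × N} {p : U × N} (h : Inv2 a p) :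
    ∀ᶠ q in 𝓝 p, Inv2 a q :=
  (tendsto_pair_one (G := G) p).eventually (Filter.Eventually.eventually_nhds h)

/-- The local action with the second coordinate replaced by `f` of it. -/
def cutAct (a : G × (U × N) → U × N) (f : N → N) : G × (U × N) → U × N :=
  fun z => ((a (z.1, (z.2.1, f z.2.2))).1, z.2.2)

theorem cutAct_local {a : G × (U × N) → U × N} {f : N → N} {u : U} {n : N}
    (ha : IsLocalAction IG a (u, f n)) (hinv : Inv2 a (u, f n)) (hf : SmN f n) :
    IsLocalAction IG (cutAct a f) (u, n) := by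
  have hfc : ContinuousAt f n := hf.self_of_nhds.continuousAt
  have hf2 : ContinuousAt (fun v : U × N => (v.1, f v.2)) (u, n) :=
    continuousAt_fst.prodMk (ContinuousAt.comp (g := f) (f := fun v : U × N => v.2) hfc
      continuousAt_snd)
  have c1 : Tendsto (fun z : G × (U × N) => (z.1, (z.2.1, f z.2.2))) (𝓝 ((1 : G), (u, n)))
      (𝓝 ((1 : G), (u, f n))) := by
    have : ContinuousAt (fun z : G × (U × N) => (z.1, (z.2.1, f z.2.2))) ((1 : G), (u, n)) :=
      continuousAt_fst.prodMk (ContinuousAt.comp (g := fun v : U × N => (v.1, f v.2))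
        (f := fun z : G × (U × N) => z.2) hf2 continuousAt_snd)
    exact this.tendsto
  have c2 : Tendsto (fun z : (G × G) × (U × N) => (z.1, (z.2.1, f z.2.2)))
      (𝓝 (((1 : G), (1 : G)), (u, n))) (𝓝 (((1 : G), (1 : G)), (u, f n))) := by
    have : ContinuousAt (fun z : (G × G) × (U × N) => (z.1, (z.2.1, f z.2.2)))
        (((1 : G), (1 : G)), (u, n)) :=
      continuousAt_fst.prodMk (ContinuousAt.comp (g := fun v : U × N => (v.1, f v.2))
        (f := fun z : (G × G) × (U × N) => z.2) hf2 continuousAt_snd)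
    exact this.tendsto
  have c3 : Tendsto (fun z : (G × G) × (U × N) => (z.1.2, z.2))
      (𝓝 (((1 : G), (1 : G)), (u, n))) (𝓝 ((1 : G), (u, n))) := by
    have : ContinuousAt (fun z : (G × G) × (U × N) => (z.1.2, z.2))
        (((1 : G), (1 : G)), (u, n)) := by fun_prop
    exact this.tendsto
  have c4 : Tendsto (fun z : G × (U × N) => z.2.2) (𝓝 ((1 : G), (u, n))) (𝓝 n) := by
    have : ContinuousAt (fun z : G × (U × N) => z.2.2) ((1 : G), (u, n)) := by fun_prop
    exact this.tendsto
  refine ⟨?_, ?_, ?_⟩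
  · filter_upwards [c1.eventually ha.smooth, c4.eventually hf] with z h1 h2
    have p1 : ContMDiffAt (IG.prod 𝓘(ℝ, U × N)) 𝓘(ℝ, U) ∞ (fun z : G × (U × N) => z.2.1) z :=
      (contDiff_fst (𝕜 := ℝ) (n := ∞) (E := U) (F := N)).contMDiff.contMDiffAt.comp z
        contMDiffAt_snd
    have p2 : ContMDiffAt (IG.prod 𝓘(ℝ, U × N)) 𝓘(ℝ, N) ∞ (fun z : G × (U × N) => z.2.2) z :=
      (contDiff_snd (𝕜 := ℝ) (n := ∞) (E := U) (F := N)).contMDiff.contMDiffAt.comp z
        contMDiffAt_snd
    have p3 : ContMDiffAt (IG.prod 𝓘(ℝ, U × N)) 𝓘(ℝ, N) ∞ (fun z : G × (U × N) => f z.2.2) z :=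
      ContMDiffAt.comp z (g := f) (f := fun z : G × (U × N) => z.2.2) h2.contMDiffAt p2
    have p4 : ContMDiffAt (IG.prod 𝓘(ℝ, U × N)) (IG.prod 𝓘(ℝ, U × N)) ∞
        (fun z : G × (U × N) => (z.1, (z.2.1, f z.2.2))) z :=
      contMDiffAt_fst.prodMk (p1.prodMk_space p3)
    have p5 : ContMDiffAt (IG.prod 𝓘(ℝ, U × N)) 𝓘(ℝ, U × N) ∞
        (fun z : G × (U × N) => a (z.1, (z.2.1, f z.2.2))) z :=
      ContMDiffAt.comp z (g := a) (f := fun z : G × (U × N) => (z.1, (z.2.1, f z.2.2))) h1 p4
    have p6 : ContMDiffAt (IG.prod 𝓘(ℝ, U × N)) 𝓘(ℝ, U) ∞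
        (fun z : G × (U × N) => (a (z.1, (z.2.1, f z.2.2))).1) z :=
      ContMDiffAt.comp z (g := fun v : U × N => v.1)
        (f := fun z : G × (U × N) => a (z.1, (z.2.1, f z.2.2)))
        (contDiff_fst (𝕜 := ℝ) (n := ∞) (E := U) (F := N)).contMDiff.contMDiffAt p5
    exact p6.prodMk_space p2
  · filter_upwards [hf2.eventually ha.one] with v h1
    show ((a (1, (v.1, f v.2))).1, v.2) = v
    rw [h1]
  · filter_upwards [c2.eventually ha.mul, (c1.comp c3).eventually hinv] with z h1 h2
    show ((a (z.1.1 * z.1.2, (z.2.1, f z.2.2))).1, z.2.2) =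
      ((a (z.1.1, ((a (z.1.2, (z.2.1, f z.2.2))).1, f z.2.2))).1, z.2.2)
    have h3 : ((a (z.1.2, (z.2.1, f z.2.2))).1, f z.2.2) = a (z.1.2, (z.2.1, f z.2.2)) :=
      Prod.ext rfl h2.symm
    rw [h3]
    have h4 : a (z.1.1 * z.1.2, (z.2.1, f z.2.2)) = a (z.1.1, a (z.1.2, (z.2.1, f z.2.2))) := h1
    rw [h4]

/-- The local action on a leaf. -/
def fstAct (a : G × (U × N) → U × N) (n : N) : G × U → U := fun z => (a (z.1, (z.2, n))).1

theorem fstAct_local {a : G × (U × N) → U × N} {u : U} {n : N}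
    (ha : IsLocalAction IG a (u, n)) (hinv : Inv2 a (u, n)) :
    IsLocalAction IG (fstAct a n) u := by
  have c1 : Tendsto (fun z : G × U => (z.1, (z.2, n))) (𝓝 ((1 : G), u))
      (𝓝 ((1 : G), (u, n))) := by
    have : ContinuousAt (fun z : G × U => (z.1, (z.2, n))) ((1 : G), u) := by fun_prop
    exact this.tendsto
  have c2 : Tendsto (fun z : (G × G) × U => (z.1, (z.2, n)))
      (𝓝 (((1 : G), (1 : G)), u)) (𝓝 (((1 : G), (1 : G)), (u, n))) := by
    have : ContinuousAt (fun z : (G × G) × U => (z.1, (z.2, n)))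
        (((1 : G), (1 : G)), u) := by fun_prop
    exact this.tendsto
  have c3 : Tendsto (fun z : (G × G) × U => (z.1.2, (z.2, n)))
      (𝓝 (((1 : G), (1 : G)), u)) (𝓝 ((1 : G), (u, n))) := by
    have : ContinuousAt (fun z : (G × G) × U => (z.1.2, (z.2, n)))
        (((1 : G), (1 : G)), u) := by fun_prop
    exact this.tendsto
  have c4 : Tendsto (fun v : U => (v, n)) (𝓝 u) (𝓝 (u, n)) := by
    have : ContinuousAt (fun v : U => (v, n)) u := by fun_prop
    exact this.tendsto
  refine ⟨?_, ?_, ?_⟩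
  · filter_upwards [c1.eventually ha.smooth] with z h1
    have p4 : ContMDiffAt (IG.prod 𝓘(ℝ, U)) (IG.prod 𝓘(ℝ, U × N)) ∞
        (fun z : G × U => (z.1, (z.2, n))) z :=
      contMDiffAt_fst.prodMk (contMDiffAt_snd.prodMk_space contMDiffAt_const)
    have p5 : ContMDiffAt (IG.prod 𝓘(ℝ, U)) 𝓘(ℝ, U × N) ∞
        (fun z : G × U => a (z.1, (z.2, n))) z :=
      ContMDiffAt.comp z (g := a) (f := fun z : G × U => (z.1, (z.2, n))) h1 p4
    exact ContMDiffAt.comp z (g := fun v : U × N => v.1)
        (f := fun z : G × U => a (z.1, (z.2, n)))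
        (contDiff_fst (𝕜 := ℝ) (n := ∞) (E := U) (F := N)).contMDiff.contMDiffAt p5
  · filter_upwards [c4.eventually ha.one] with v h1
    show (a (1, (v, n))).1 = v
    rw [h1]
  · filter_upwards [c2.eventually ha.mul, c3.eventually hinv] with z h1 h2
    show (a (z.1.1 * z.1.2, (z.2, n))).1 = (a (z.1.1, ((a (z.1.2, (z.2, n))).1, n))).1
    have h3 : ((a (z.1.2, (z.2, n))).1, n) = a (z.1.2, (z.2, n)) := Prod.ext rfl h2.symm
    rw [h3]
    exact congrArg Prod.fst h1

/-- A smooth map `N → N` which is the identity near `0`, has small values and vanishes near some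
point. -/
theorem exists_cutoff [FiniteDimensional ℝ N] {r : ℝ} (hr : 0 < r) :
    ∃ (f : N → N) (n₁ : N), ContDiff ℝ ∞ f ∧ (∀ᶠ n in 𝓝 (0 : N), f n = n) ∧
      (∀ n, ‖f n‖ < r) ∧ ∀ᶠ n in 𝓝 n₁, f n = 0 := by
  rcases subsingleton_or_nontrivial N with hN | hN
  · exact ⟨fun n => n, 0, contDiff_id, Eventually.of_forall fun _ => rfl,
      fun n => by rw [Subsingleton.elim n 0, norm_zero]; exact hr,
      Eventually.of_forall fun n => Subsingleton.elim _ _⟩
  · let β : ContDiffBump (0 : N) := ⟨r / 4, r / 2, by positivity, by linarith⟩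
    obtain ⟨n₁, hn₁⟩ := NormedSpace.exists_lt_norm ℝ N r
    refine ⟨fun n => β n • n, n₁, β.contDiff.smul contDiff_id, ?_, ?_, ?_⟩
    · filter_upwards [Metric.closedBall_mem_nhds (0 : N) (show 0 < r / 4 by positivity)] with n hn
      rw [β.one_of_mem_closedBall hn, one_smul]
    · intro n
      show ‖β n • n‖ < r
      by_cases hn : ‖n‖ < r
      · rw [norm_smul, Real.norm_eq_abs, abs_of_nonneg β.nonneg]
        exact lt_of_le_of_lt (mul_le_of_le_one_left (norm_nonneg _) β.le_one) hn
      · have : β n = 0 := by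
          refine β.zero_of_le_dist ?_
          rw [dist_zero_right]
          show r / 2 ≤ ‖n‖
          linarith [not_lt.1 hn]
        rw [this, zero_smul, norm_zero]
        exact hr
    · have : ∀ᶠ n in 𝓝 n₁, r < ‖n‖ := continuous_norm.continuousAt.eventually (lt_mem_nhds hn₁)
      filter_upwards [this] with n hn
      show β n • n = 0
      have : β n = 0 := by
        refine β.zero_of_le_dist ?_
        rw [dist_zero_right]
        show r / 2 ≤ ‖n‖
        linarith
      rw [this, zero_smul]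

variable {EB : Type*} [NormedAddCommGroup EB] [NormedSpace ℝ EB] {HB : Type*} [TopologicalSpace HB]
  {IB : ModelWithCorners ℝ EB HB} {B : Type*} [TopologicalSpace B] [ChartedSpace HB B]
  [FiniteDimensional ℝ U] [FiniteDimensional ℝ N] [LieGroup IG ∞ G]

/-- A local action on `U × N` which preserves the second coordinate defines, near `0`, the same
structure up to homotopy as the product of its restriction to `U × {0}` with the trivial one. -/
theorem cut_homotopic (k : GCocycle IB B IG G) (a : G × (U × N) → U × N)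
    (ha : IsLocalAction IG a 0) (hinv : Inv2 a 0) (hU : IsLocalAction IG (fstAct a 0) 0) :
    (ofPt k a 0 ha).Homotopic ((ofPt k (fstAct a 0) 0 hU).stab N) := by
  -- a ball on which everything holds
  have c0 : Tendsto (fun n : N => ((0 : U), n)) (𝓝 0) (𝓝 (0 : U × N)) := by
    have : ContinuousAt (fun n : N => ((0 : U), n)) 0 := by fun_prop
    exact this.tendsto
  obtain ⟨r, hr, hball⟩ := Metric.eventually_nhds_iff.1
    ((c0.eventually ha.near).and (c0.eventually hinv.near))
  obtain ⟨f, n₁, hf, hf0, hfr, hf1⟩ := exists_cutoff (N := N) hr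
  have hb : ∀ n : N, IsLocalAction IG (cutAct a f) ((0 : U), n) := by
    intro n
    have h1 : dist (f n) 0 < r := by rw [dist_zero_right]; exact hfr n
    exact cutAct_local (hball h1).1 (hball h1).2 (Eventually.of_forall fun y => hf.contDiffAt)
  have hb0 : IsLocalAction IG (cutAct a f) (0 : U × N) := hb 0
  have h1 : (ofPt k a 0 ha).Homotopic (ofPt k (cutAct a f) 0 hb0) := by
    refine GammaBar.Homotopic.of_equal (ofPt_congr k ha hb0 ?_)
    have c1 : Tendsto (fun z : G × (U × N) => z.2.2) (𝓝 ((1 : G), (0 : U × N))) (𝓝 0) := by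
      have : ContinuousAt (fun z : G × (U × N) => z.2.2) ((1 : G), (0 : U × N)) := by fun_prop
      exact this.tendsto
    filter_upwards [c1.eventually hf0, hinv] with z h1 h2
    show ((a (z.1, (z.2.1, f z.2.2))).1, z.2.2) = a z
    rw [h1]
    exact Prod.ext rfl h2.symm
  have h2 : (ofPt k (cutAct a f) 0 hb0).Homotopic (ofPt k (cutAct a f) (0, n₁) (hb n₁)) := by
    refine slide' k (cutAct a f) (fun t => ((0 : U), t • n₁)) ?_ (fun t => hb (t • n₁)) ?_ ?_ _ _
    · exact contDiff_const.prodMk (contDiff_id.smul contDiff_const)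
    · simp
    · simp
  refine (h1.trans h2).trans (GammaBar.Homotopic.of_equal ?_)
  intro b
  refine ⟨fun v => (v.1, v.2 - n₁), ?_, ?_⟩
  · have hη : IsLocalDiffeomorphAt 𝓘(ℝ, U × N) 𝓘(ℝ, U × N) ∞ (fun v : U × N => (v.1, v.2 - n₁))
        ((ofPt k (cutAct a f) (0, n₁) (hb n₁)).F b (b, 0)) := by
      refine isLocalDiffeomorphAt_of_inverse (g := fun v : U × N => (v.1, v.2 + n₁)) ?_ ?_ ?_ ?_
      · exact Eventually.of_forall fun v =>
          contDiffAt_fst.prodMk (contDiffAt_snd.sub contDiffAt_const)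
      · exact contDiffAt_fst.prodMk (contDiffAt_snd.add contDiffAt_const)
      · exact Eventually.of_forall fun v => by simp
      · exact Eventually.of_forall fun v => by simp
    exact hη
  · have hlt : ∀ᶠ w in 𝓝 (b, (0 : U × N)), f (n₁ + w.2.2) = 0 := by
      have hc : ContinuousAt (fun w : B × (U × N) => n₁ + w.2.2) (b, (0 : U × N)) := by fun_prop
      have hc' : Tendsto (fun w : B × (U × N) => n₁ + w.2.2) (𝓝 (b, (0 : U × N))) (𝓝 n₁) := by
        have := hc.tendsto
        simpa using this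
      exact hc'.eventually hf1
    filter_upwards [hlt] with w hw
    show ((a (k.h b w.1, (0 + w.2.1, 0))).1, w.2.2) =
      ((a (k.h b w.1, (0 + w.2.1, f (n₁ + w.2.2)))).1, n₁ + w.2.2 - n₁)
    rw [hw]
    simp

end Pool.Agent.MP_602746_gt
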