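import Mathlib
import Pool.Agent.MP_602746_gt.Functional

open scoped Manifold ContDiff Topology
open Set Filter VectorField

noncomputable section

namespace Pool.Agent.MP_602746_gt

section Split

variable {F : Type*} [NormedAddCommGroup F] [NormedSpace ℝ F]
  {W : Type*} [NormedAddCommGroup W] [NormedSpace ℝ W]

/-- The kernel of the functional. -/
abbrev KerT (lam : W →L[ℝ] ℝ) : Type _ := (LinearMap.ker (lam : W →ₗ[ℝ] ℝ) : Submodule ℝ W)

/-- The projection to the kernel along `w₀`. -/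
def projK (lam : W →L[ℝ] ℝ) (w₀ : W) (hw₀ : lam w₀ = 1) : W →L[ℝ] KerT lam :=
  (ContinuousLinearMap.id ℝ W - (ContinuousLinearMap.toSpanSingleton ℝ w₀).comp lam).codRestrict
    (LinearMap.ker (lam : W →ₗ[ℝ] ℝ)) (fun w => by simp [hw₀])

theorem projK_coe (lam : W →L[ℝ] ℝ) (w₀ : W) (hw₀ : lam w₀ = 1) (w : W) :
    (projK lam w₀ hw₀ w : W) = w - lam w • w₀ := by
  simp [projK]

/-- The linear splitting. -/
def splitE (F : Type*) [NormedAddCommGroup F] [NormedSpace ℝ F] (lam : W →L[ℝ] ℝ) (w₀ : W)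
    (hw₀ : lam w₀ = 1) : (F × W) ≃L[ℝ] ((F × ℝ) × KerT lam) :=
  ContinuousLinearEquiv.equivOfInverse
    (((ContinuousLinearMap.fst ℝ F W).prod (lam.comp (ContinuousLinearMap.snd ℝ F W))).prod
      ((projK lam w₀ hw₀).comp (ContinuousLinearMap.snd ℝ F W)))
    (((ContinuousLinearMap.fst ℝ F ℝ).comp (ContinuousLinearMap.fst ℝ (F × ℝ) (KerT lam))).prod
      ((ContinuousLinearMap.toSpanSingleton ℝ w₀).comp
        ((ContinuousLinearMap.snd ℝ F ℝ).comp (ContinuousLinearMap.fst ℝ (F × ℝ) (KerT lam))) +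
        (LinearMap.ker (lam : W →ₗ[ℝ] ℝ)).subtypeL.comp
          (ContinuousLinearMap.snd ℝ (F × ℝ) (KerT lam))))
    (fun x => by
      refine Prod.ext rfl ?_
      show lam x.2 • w₀ + (projK lam w₀ hw₀ x.2 : W) = x.2
      rw [projK_coe]; abel)
    (fun y => by
      have hy : lam (y.2 : W) = 0 := y.2.2
      have h1 : lam (y.1.2 • w₀ + (y.2 : W)) = y.1.2 := by simp [hw₀, hy]
      refine Prod.ext (Prod.ext rfl ?_) (Subtype.ext ?_)
      · show lam (y.1.2 • w₀ + (y.2 : W)) = y.1.2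
        exact h1
      · show (projK lam w₀ hw₀ (y.1.2 • w₀ + (y.2 : W)) : W) = y.2
        rw [projK_coe, h1]; abel)

theorem splitE_apply (lam : W →L[ℝ] ℝ) (w₀ : W) (hw₀ : lam w₀ = 1) (x : F × W) :
    splitE F lam w₀ hw₀ x = ((x.1, lam x.2), projK lam w₀ hw₀ x.2) := rfl

theorem splitE_symm_apply (lam : W →L[ℝ] ℝ) (w₀ : W) (hw₀ : lam w₀ = 1)
    (y : (F × ℝ) × KerT lam) :
    (splitE F lam w₀ hw₀).symm y = (y.1.1, y.1.2 • w₀ + (y.2 : W)) := rfl

end Split

/-- Local inverses. -/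
theorem exists_local_inverse {V V' : Type*} [NormedAddCommGroup V] [NormedSpace ℝ V]
    [FiniteDimensional ℝ V] [NormedAddCommGroup V'] [NormedSpace ℝ V'] [FiniteDimensional ℝ V']
    {f : V → V'} (hf : SmN f 0) (hf0 : f 0 = 0) (A : V ≃L[ℝ] V')
    (hA : HasFDerivAt f (A : V →L[ℝ] V') 0) :
    ∃ g : V' → V, g 0 = 0 ∧ SmN g 0 ∧ HasFDerivAt g (A.symm : V' →L[ℝ] V) 0 ∧
      (∀ᶠ x in 𝓝 (0 : V), g (f x) = x) ∧ ∀ᶠ y in 𝓝 (0 : V'), f (g y) = y := by
  have h : IsLocalDiffeomorphAt 𝓘(ℝ, V) 𝓘(ℝ, V') ∞ f 0 := by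
    refine isLocalDiffeomorphAt_of_bijective hf ?_
    rw [hA.fderiv]; exact A.bijective
  have h1 : ∀ᶠ x in 𝓝 (0 : V), h.localInverse (f x) = x := h.localInverse_eventuallyEq_left
  have h2 : ∀ᶠ y in 𝓝 (f 0), f (h.localInverse y) = y := h.localInverse_eventuallyEq_right
  have h3 := IsLocalDiffeomorphAt.smooth_near' h.localInverse_isLocalDiffeomorphAt
  rw [hf0] at h2 h3
  have h0 : h.localInverse 0 = 0 := by
    have := h1.self_of_nhds
    rwa [hf0] at this
  refine ⟨h.localInverse, h0, h3, ?_, h1, h2⟩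
  have hg : HasFDerivAt h.localInverse (fderiv ℝ h.localInverse 0) (f 0) := by
    rw [hf0]
    exact (h3.self_of_nhds.differentiableAt (by simp)).hasFDerivAt
  have h4 : HasFDerivAt (fun x => h.localInverse (f x))
      ((fderiv ℝ h.localInverse 0).comp (A : V →L[ℝ] V')) 0 :=
    HasFDerivAt.comp (0 : V) (g := h.localInverse) (f := f) hg hA
  have h5 : HasFDerivAt (fun x => h.localInverse (f x)) (ContinuousLinearMap.id ℝ V) 0 :=
    (hasFDerivAt_id (0 : V)).congr_of_eventuallyEq h1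
  have h6 := h4.unique h5
  have h7 : fderiv ℝ h.localInverse 0 = (A.symm : V' →L[ℝ] V) := by
    refine ContinuousLinearMap.ext fun y => ?_
    have := DFunLike.congr_fun h6 (A.symm y)
    simpa using this
  rw [h7, hf0] at hg
  exact hg

variable {EG : Type*} [NormedAddCommGroup EG] [NormedSpace ℝ EG] [FiniteDimensional ℝ EG]
  {HG : Type*} [TopologicalSpace HG]
  {IG : ModelWithCorners ℝ EG HG} {G : Type*} [TopologicalSpace G] [ChartedSpace HG G] [Group G]
  [LieGroup IG ∞ G]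

theorem LocalChart.D_injective {V : Type*} [NormedAddCommGroup V] [NormedSpace ℝ V]
    {Φ : V → G} {Ψ : G → V} (h : LocalChart IG Φ Ψ) :
    Function.Injective (chartD (V := V) IG Φ) := by
  have h1 := h.invertible.self_of_nhds
  exact h1.injective

/-- Change of chart. -/
theorem LocalChart.comp {V V' : Type*} [NormedAddCommGroup V] [NormedSpace ℝ V]
    [NormedAddCommGroup V'] [NormedSpace ℝ V']
    {Φ : V → G} {Ψ : G → V} (h : LocalChart IG Φ Ψ) {K : V → V'} {K' : V' → V}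
    (hK : SmN K 0) (hK' : SmN K' 0) (hK0 : K 0 = 0) (hK'0 : K' 0 = 0)
    (h1 : ∀ᶠ x in 𝓝 (0 : V), K' (K x) = x) (h2 : ∀ᶠ y in 𝓝 (0 : V'), K (K' y) = y) :
    LocalChart IG (fun y => Φ (K' y)) (fun g => K (Ψ g)) := by
  have hKc : Tendsto K (𝓝 0) (𝓝 0) := by
    have := hK.self_of_nhds.continuousAt.tendsto
    rwa [hK0] at this
  have hKc' : Tendsto K' (𝓝 0) (𝓝 0) := by
    have := hK'.self_of_nhds.continuousAt.tendsto
    rwa [hK'0] at this
  refine ⟨?_, ?_, ?_, ?_, ?_⟩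
  · show Φ (K' 0) = 1
    rw [hK'0, h.zero]
  · rw [← sm_iff_smN] at hK'
    exact h.smooth.comp hK' hK'0
  · rw [← sm_iff_smN] at hK
    exact hK.comp h.smooth_inv h.one
  · filter_upwards [hKc'.eventually h.left_inv, h2] with y h3 h4
    rw [h3, h4]
  · filter_upwards [h.tendsto_inv.eventually h1, h.right_inv] with g h3 h4
    rw [h3, h4]

theorem chartD_comp {V V' : Type*} [NormedAddCommGroup V] [NormedSpace ℝ V]
    [NormedAddCommGroup V'] [NormedSpace ℝ V']
    {Φ : V → G} {Ψ : G → V} (h : LocalChart IG Φ Ψ) {K' : V' → V} (hK'0 : K' 0 = 0)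
    {A : V' →L[ℝ] V} (hA : HasFDerivAt K' A 0) (v : V') :
    chartD (V := V') IG (fun y => Φ (K' y)) v = chartD (V := V) IG Φ (A v) := by
  let D : V →L[ℝ] EG := chartD (V := V) IG Φ
  have e1 : HasMFDerivAt 𝓘(ℝ, V) IG Φ (K' 0) D := by
    rw [hK'0]; exact h.hasMFDerivAt_zero
  have e2 : HasMFDerivAt 𝓘(ℝ, V') IG (fun y => Φ (K' y)) 0 (D.comp A) :=
    HasMFDerivAt.comp (0 : V') (g := Φ) (f := K') e1 hA.hasMFDerivAt
  have e3 := e2.mfderiv
  have e4 : chartD (V := V') IG (fun y => Φ (K' y)) = D.comp A := e3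
  rw [e4]
  rfl

section Step

variable {F : Type*} [NormedAddCommGroup F] [NormedSpace ℝ F] [FiniteDimensional ℝ F]
  {W : Type*} [NormedAddCommGroup W] [NormedSpace ℝ W] [FiniteDimensional ℝ W]
  {Φ : F × W → G} {Ψ : G → F × W} {a : G × F → F}

/-- The new coordinates. -/
def newK (ζ : F × W → ℝ) (lam : W →L[ℝ] ℝ) (w₀ : W) (hw₀ : lam w₀ = 1) :
    F × W → (F × ℝ) × KerT lam := fun x => ((x.1, ζ x), projK lam w₀ hw₀ x.2)

theorem AdaptedChart.step (h : AdaptedChart IG Φ Ψ a) (lam : W →L[ℝ] ℝ) (w₀ : W)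
    (hw₀ : lam w₀ = 1)
    (hlam : ∀ v v' : W, ∃ u : W, lam u = 0 ∧
      ⁅chartD (V := F × W) IG Φ (0, v), chartD (V := F × W) IG Φ (0, v')⁆ =
        chartD (V := F × W) IG Φ (0, u)) :
    ∃ (c : G × F → ℝ) (K' : (F × ℝ) × KerT lam → F × W) (Ψ' : G → (F × ℝ) × KerT lam),
      IsActionCocycle IG a c 0 ∧
      AdaptedChart IG (fun y => Φ (K' y)) Ψ' (skew a c (fun p => p.2 + p.1)) ∧
      K' 0 = 0 ∧ SmN K' 0 ∧
      HasFDerivAt K' ((splitE F lam w₀ hw₀).symm : (F × ℝ) × KerT lam →L[ℝ] F × W) 0 ∧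
      ∀ᶠ z in 𝓝 ((1 : G), (0 : (F × ℝ) × KerT lam)),
        K' (chartAct (fun y => Φ (K' y)) Ψ' z) = chartAct Φ Ψ (z.1, K' z.2) := by
  obtain ⟨ζ, c, hζ0, hζs, hζd, hc, hζ⟩ := h.exists_zeta lam hlam
  let K : F × W → (F × ℝ) × KerT lam := newK ζ lam w₀ hw₀
  have hK0 : K 0 = 0 := by
    show ((((0 : F × W).1), ζ 0), projK lam w₀ hw₀ (0 : F × W).2) = 0
    rw [hζ0]
    simp
  have hKs : SmN K 0 := by
    filter_upwards [hζs] with x hx
    exact (contDiffAt_fst.prodMk hx).prodMk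
      ((projK lam w₀ hw₀).contDiff.contDiffAt.comp x contDiffAt_snd)
  have hKd : HasFDerivAt K ((splitE F lam w₀ hw₀ : (F × W) ≃L[ℝ] ((F × ℝ) × KerT lam)) :
      F × W →L[ℝ] (F × ℝ) × KerT lam) 0 := by
    have e1 : HasFDerivAt K ((((ContinuousLinearMap.fst ℝ F W).prod
        (lam.comp (ContinuousLinearMap.snd ℝ F W))).prod
        ((projK lam w₀ hw₀).comp (ContinuousLinearMap.snd ℝ F W)))) 0 :=
      (hasFDerivAt_fst.prodMk hζd).prodMk
        ((projK lam w₀ hw₀).hasFDerivAt.comp (0 : F × W) hasFDerivAt_snd)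
    exact e1
  obtain ⟨K', hK'0, hK's, hK'd, hleft, hright⟩ :=
    exists_local_inverse hKs hK0 (splitE F lam w₀ hw₀) hKd
  have hKc' : Tendsto K' (𝓝 0) (𝓝 0) := by
    have := hK's.self_of_nhds.continuousAt.tendsto
    rwa [hK'0] at this
  have hchart : LocalChart IG (fun y => Φ (K' y)) (fun g => K (Ψ g)) :=
    h.chart.comp hKs hK's hK0 hK'0 hleft hright
  have c1 : Tendsto (fun z : G × ((F × ℝ) × KerT lam) => (z.1, K' z.2))
      (𝓝 ((1 : G), (0 : (F × ℝ) × KerT lam))) (𝓝 ((1 : G), (0 : F × W))) := by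
    have e : Tendsto (fun z : G × ((F × ℝ) × KerT lam) => z.1)
        (𝓝 ((1 : G), (0 : (F × ℝ) × KerT lam))) (𝓝 1) := continuous_fst.tendsto _
    have e' : Tendsto (fun z : G × ((F × ℝ) × KerT lam) => K' z.2)
        (𝓝 ((1 : G), (0 : (F × ℝ) × KerT lam))) (𝓝 0) := hKc'.comp (continuous_snd.tendsto _)
    have e'' := e.prodMk e'
    rw [← nhds_prod_eq] at e''
    exact e''
  have c2 : Tendsto (fun z : G × ((F × ℝ) × KerT lam) => z.2)
      (𝓝 ((1 : G), (0 : (F × ℝ) × KerT lam))) (𝓝 0) := continuous_snd.tendsto _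
  refine ⟨c, K', fun g => K (Ψ g), hc, ⟨hchart, ?_, ?_⟩, hK'0, hK's, hK'd, ?_⟩
  · exact h.action.skew hc (isLocalFlow_translation 0)
  · filter_upwards [c1.eventually h.adapted, c1.eventually hζ, c2.eventually hright]
      with z h1 h2 h3
    have h4 : z.2.1 = ((K' z.2).1, ζ (K' z.2)) := by
      conv_lhs => rw [← h3]
      rfl
    show ((Ψ (z.1 * Φ (K' z.2))).1, ζ (Ψ (z.1 * Φ (K' z.2)))) =
      (a (z.1, z.2.1.1), z.2.1.2 + c (z.1, z.2.1.1))
    rw [h4]
    exact Prod.ext h1 h2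
  · have c3 : Tendsto (fun z : G × ((F × ℝ) × KerT lam) => Ψ (z.1 * Φ (K' z.2)))
        (𝓝 ((1 : G), (0 : (F × ℝ) × KerT lam))) (𝓝 0) :=
      h.chart.tendsto_inv.comp (h.chart.tendsto_act.comp c1)
    filter_upwards [c3.eventually hleft] with z h1
    exact h1

end Step

section Main

variable {EB : Type*} [NormedAddCommGroup EB] [NormedSpace ℝ EB] {HB : Type*} [TopologicalSpace HB]
  {IB : ModelWithCorners ℝ EB HB} {B : Type*} [TopologicalSpace B] [ChartedSpace HB B]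

universe u₁ u₂

theorem main_induction (k : GCocycle IB B IG G) (n : ℕ) :
    ∀ (F : Type u₁) [NormedAddCommGroup F] [NormedSpace ℝ F] [FiniteDimensional ℝ F]
      (W : Type u₂) [NormedAddCommGroup W] [NormedSpace ℝ W] [FiniteDimensional ℝ W]
      (Φ : F × W → G) (Ψ : G → F × W) (a : G × F → F) (h : AdaptedChart IG Φ Ψ a)
      (𝔰 : LieSubalgebra ℝ (GroupLieAlgebra IG G)) (_ : LieAlgebra.IsSolvable 𝔰)
      (_ : ∀ x, x ∈ 𝔰 ↔ ∃ w : W, chartD (V := F × W) IG Φ (0, w) = x)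
      (_ : Module.finrank ℝ W = n),
      (ofPt k (chartAct Φ Ψ) 0 h.chart.isLocalAction).Homotopic
        ((ofPt k a 0 h.action).stab W) := by
  induction n with
  | zero =>
    intro F _ _ _ W _ _ _ Φ Ψ a h 𝔰 _ h𝔰 hn
    have hsub : Subsingleton W := Module.finrank_zero_iff.1 hn
    refine GammaBar.Homotopic.of_equal fun b => SameLeaves.of_eventuallyEq ?_
    filter_upwards [(tendsto_cocycle k b (0 : F × W)).eventually h.adapted] with w hw
    refine Prod.ext ?_ (Subsingleton.elim _ _)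
    exact hw.symm
  | succ n ih =>
    intro F _ _ _ W _ _ _ Φ Ψ a h 𝔰 hsol h𝔰 hn
    have hnt : Nontrivial W := Module.nontrivial_of_finrank_pos (R := ℝ) (by omega)
    let D : W →L[ℝ] GroupLieAlgebra IG G :=
      (chartD (V := F × W) IG Φ).comp (ContinuousLinearMap.inr ℝ F W)
    have hDinj : Function.Injective D := by
      intro x y hxy
      have := h.chart.D_injective hxy
      exact (Prod.ext_iff.1 this).2
    obtain ⟨lam, ⟨w₀, hw₀⟩, hlam⟩ := exists_functional D hDinj 𝔰 h𝔰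
    obtain ⟨𝔰', hsol', h𝔰'⟩ := exists_subalgebra D 𝔰 h𝔰 lam hlam
    obtain ⟨c, K', Ψ', hc, hnew, hK'0, hK's, hK'd, hconj⟩ := h.step lam w₀ hw₀ hlam
    have hfin : Module.finrank ℝ (KerT lam) = n := by
      have e1 := (splitE F lam w₀ hw₀).toLinearEquiv.finrank_eq
      rw [Module.finrank_prod, Module.finrank_prod, Module.finrank_prod, Module.finrank_self,
        hn] at e1
      omega
    have hmem : ∀ x, x ∈ 𝔰' ↔ ∃ w : KerT lam,
        chartD (V := (F × ℝ) × KerT lam) IG (fun y => Φ (K' y)) (0, w) = x := by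
      intro x
      have e1 : ∀ w : KerT lam,
          chartD (V := (F × ℝ) × KerT lam) IG (fun y => Φ (K' y)) (0, w) = D (w : W) := by
        intro w
        rw [chartD_comp h.chart hK'0 hK'd]
        show chartD (V := F × W) IG Φ ((splitE F lam w₀ hw₀).symm (0, w)) =
          chartD (V := F × W) IG Φ (0, (w : W))
        rw [splitE_symm_apply]
        simp
      rw [h𝔰']
      constructor
      · rintro ⟨w, hw, rfl⟩
        exact ⟨⟨w, hw⟩, e1 _⟩
      · rintro ⟨w, rfl⟩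
        exact ⟨w, w.2, (e1 w).symm⟩
    have h1 := ih (F × ℝ) (KerT lam) (fun y => Φ (K' y)) Ψ' (skew a c (fun p => p.2 + p.1)) hnew
      𝔰' hsol' hmem hfin
    have h2 : ((ofPt k (skew a c (fun p => p.2 + p.1)) 0 hnew.action).stab (KerT lam)).Homotopic
        (((ofPt k a 0 h.action).stab ℝ).stab (KerT lam)) :=
      (one_step k h.action hc hnew.action).stab
    have h3 : (ofPt k (chartAct (fun y => Φ (K' y)) Ψ') 0 hnew.chart.isLocalAction).Homotopic
        ((ofPt k (chartAct Φ Ψ) 0 h.chart.isLocalAction).lin (splitE F lam w₀ hw₀).symm) :=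
      ofPt_conj k h.chart.isLocalAction hnew.chart.isLocalAction K' hK'0 hK's _ hK'd hconj
    have h4 := (h3.symm.trans (h1.trans h2)).lin (splitE F lam w₀ hw₀)
    refine (GammaBar.Homotopic.trans (GammaBar.Homotopic.of_equal ?_) h4).trans
      (GammaBar.Homotopic.of_equal ?_)
    · intro b
      refine SameLeaves.of_eventuallyEq (Eventually.of_forall fun w => ?_)
      rw [GammaBar.lin_F, GammaBar.lin_F]
      simp
    · intro b
      refine SameLeaves.of_eventuallyEq (Eventually.of_forall fun w => ?_)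
      rw [GammaBar.lin_F]
      show ((ofPt k a 0 h.action).F b (w.1, w.2.1), w.2.2) =
        (splitE F lam w₀ hw₀).symm (((ofPt k a 0 h.action).F b (w.1, w.2.1), lam w.2.2),
          projK lam w₀ hw₀ w.2.2)
      rw [splitE_symm_apply]
      refine Prod.ext rfl ?_
      show w.2.2 = lam w.2.2 • w₀ + (projK lam w₀ hw₀ w.2.2 : W)
      rw [projK_coe]; abel

end Main

end Pool.Agent.MP_602746_gt
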