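import Mathlib
import Pool.Agent.MP_602746_gt.Induct

open scoped Manifold ContDiff Topology
open Set Filter VectorField

noncomputable section

namespace Pool.Agent.MP_602746_gt

section PD

variable {E₁ : Type*} [NormedAddCommGroup E₁] [NormedSpace ℝ E₁] {H₁ : Type*} [TopologicalSpace H₁]
  {I₁ : ModelWithCorners ℝ E₁ H₁} {M₁ : Type*} [TopologicalSpace M₁] [ChartedSpace H₁ M₁]
  {V : Type*} [NormedAddCommGroup V] [NormedSpace ℝ V]

theorem PD.sm (ψ : PartialDiffeomorph 𝓘(ℝ, V) I₁ V M₁ ∞) {v : V} (hv : v ∈ ψ.source) :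
    Sm 𝓘(ℝ, V) I₁ ψ v := by
  filter_upwards [ψ.open_source.mem_nhds hv] with y hy
  exact (ψ.contMDiffOn_toFun y hy).contMDiffAt (ψ.open_source.mem_nhds hy)

theorem PD.sm_symm (ψ : PartialDiffeomorph 𝓘(ℝ, V) I₁ V M₁ ∞) {x : M₁} (hx : x ∈ ψ.target) :
    Sm I₁ 𝓘(ℝ, V) ψ.symm x := by
  filter_upwards [ψ.open_target.mem_nhds hx] with y hy
  exact (ψ.contMDiffOn_invFun y hy).contMDiffAt (ψ.open_target.mem_nhds hy)

theorem PD.left (ψ : PartialDiffeomorph 𝓘(ℝ, V) I₁ V M₁ ∞) {v : V} (hv : v ∈ ψ.source) :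
    ψ.symm (ψ v) = v := ψ.left_inv hv

theorem PD.right (ψ : PartialDiffeomorph 𝓘(ℝ, V) I₁ V M₁ ∞) {x : M₁} (hx : x ∈ ψ.target) :
    ψ (ψ.symm x) = x := ψ.right_inv hx

theorem PD.mem (ψ : PartialDiffeomorph 𝓘(ℝ, V) I₁ V M₁ ∞) {v : V} (hv : v ∈ ψ.source) :
    ψ v ∈ ψ.target := ψ.map_source hv

end PD

variable {EG : Type*} [NormedAddCommGroup EG] [NormedSpace ℝ EG] [FiniteDimensional ℝ EG]
  {HG : Type*} [TopologicalSpace HG]
  {IG : ModelWithCorners ℝ EG HG} {G : Type*} [TopologicalSpace G] [ChartedSpace HG G] [Group G]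
  [LieGroup IG ∞ G]
  {EX : Type*} [NormedAddCommGroup EX] [NormedSpace ℝ EX] {HX : Type*} [TopologicalSpace HX]
  {IX : ModelWithCorners ℝ EX HX} {X : Type*} [TopologicalSpace X] [ChartedSpace HX X]
  [MulAction G X] [ContMDiffSMul IG IX ∞ G X]

theorem localChart_of_pd {V : Type*} [NormedAddCommGroup V] [NormedSpace ℝ V]
    (ψ : PartialDiffeomorph 𝓘(ℝ, V) IG V G ∞) (h0 : (0 : V) ∈ ψ.source) (h1 : ψ 0 = 1) :
    LocalChart IG ψ ψ.symm := by
  have hmem : (1 : G) ∈ ψ.target := by rw [← h1]; exact PD.mem ψ h0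
  refine ⟨h1, PD.sm ψ h0, PD.sm_symm ψ hmem, ?_, ?_⟩
  · filter_upwards [ψ.open_source.mem_nhds h0] with v hv
    exact PD.left ψ hv
  · filter_upwards [ψ.open_target.mem_nhds hmem] with g hg
    exact PD.right ψ hg

variable {U : Type*} [NormedAddCommGroup U] [NormedSpace ℝ U] [FiniteDimensional ℝ U]
  {W : Type*} [NormedAddCommGroup W] [NormedSpace ℝ W] [FiniteDimensional ℝ W]

/-- The data of the theorem give, after a change of coordinates with trivial linear part, an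
adapted chart. -/
theorem exists_adapted (x₀ : X)
    (ψX : PartialDiffeomorph 𝓘(ℝ, U) IX U X ∞) (hX : (0 : U) ∈ ψX.source) (hx₀ : ψX 0 = x₀)
    (ψG : PartialDiffeomorph 𝓘(ℝ, U × W) IG (U × W) G ∞) (hG : (0 : U × W) ∈ ψG.source)
    (h1 : ψG 0 = 1) (o' : EG →L[ℝ] EX)
    (ho : HasMFDerivAt IG IX (fun g : G => g • x₀) (1 : G) o')
    (DX : U →L[ℝ] EX) (hDX : HasMFDerivAt 𝓘(ℝ, U) IX ψX 0 DX)
    (hA : ∀ v : U × W, o' (chartD (V := U × W) IG ψG v) = DX v.1) :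
    ∃ (q q' : U × W → U × W), q 0 = 0 ∧ q' 0 = 0 ∧ SmN q 0 ∧ SmN q' 0 ∧
      HasFDerivAt q (ContinuousLinearMap.id ℝ (U × W)) 0 ∧
      HasFDerivAt q' (ContinuousLinearMap.id ℝ (U × W)) 0 ∧
      (∀ᶠ x in 𝓝 (0 : U × W), q' (q x) = x) ∧ (∀ᶠ x in 𝓝 (0 : U × W), q (q' x) = x) ∧
      AdaptedChart IG (fun y => ψG (q' y)) (fun g => q (ψG.symm g))
        (fun z : G × U => ψX.symm (z.1 • ψX z.2)) := by
  have := topologicalGroup_of_lieGroup IG ∞ (G := G)
  have := ContMDiffSMul.continuousSMul (G := G) (M := X) (I := IG) (I' := IX) ∞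
  have hchart := localChart_of_pd ψG hG h1
  have hmemX : x₀ ∈ ψX.target := by rw [← hx₀]; exact PD.mem ψX hX
  let q : U × W → U × W := fun v => (ψX.symm (ψG v • x₀), v.2)
  have hq0 : q 0 = 0 := by
    show (ψX.symm (ψG 0 • x₀), (0 : U × W).2) = 0
    rw [h1, one_smul, ← hx₀, PD.left ψX hX]
    rfl
  have hact : Sm 𝓘(ℝ, U × W) IX (fun v : U × W => ψG v • x₀) 0 := by
    have e1 : Sm (IG.prod IX) IX (fun p : G × X => p.1 • p.2) (ψG 0, x₀) := Sm.of contMDiff_smul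
    exact e1.comp ((PD.sm ψG hG).prodMk Sm.const) rfl
  have hact0 : ψG 0 • x₀ = x₀ := by rw [h1, one_smul]
  have hqs : SmN q 0 := by
    rw [← sm_iff_smN]
    have e2 : Sm 𝓘(ℝ, U × W) 𝓘(ℝ, U) (fun v : U × W => ψX.symm (ψG v • x₀)) 0 :=
      (PD.sm_symm ψX hmemX).comp hact hact0
    exact e2.prodMk_space (Sm.of contDiff_snd.contMDiff)
  -- the differential of `q`
  have hqd : HasFDerivAt q (ContinuousLinearMap.id ℝ (U × W)) 0 := by
    let D : U × W →L[ℝ] EG := chartD (V := U × W) IG ψG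
    have e1 : HasMFDerivAt 𝓘(ℝ, U × W) IG ψG 0 D := hchart.hasMFDerivAt_zero
    have e2 : HasMFDerivAt IG IX (fun g : G => g • x₀) (ψG 0) o' := by
      rw [h1]; exact ho
    have e3 : HasMFDerivAt 𝓘(ℝ, U × W) IX (fun v => ψG v • x₀) 0 (o'.comp D) :=
      HasMFDerivAt.comp (0 : U × W) (g := fun g : G => g • x₀) (f := ψG) e2 e1
    -- the inverse of `ψX`
    have e4 : MDifferentiableAt IX 𝓘(ℝ, U) ψX.symm x₀ :=
      (PD.sm_symm ψX hmemX).self_of_nhds.mdifferentiableAt (by simp)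
    let S : EX →L[ℝ] U := mfderiv IX 𝓘(ℝ, U) ψX.symm x₀
    have e5 : HasMFDerivAt IX 𝓘(ℝ, U) ψX.symm x₀ S := e4.hasMFDerivAt
    have e6 : HasMFDerivAt IX 𝓘(ℝ, U) ψX.symm (ψX 0) S := by rw [hx₀]; exact e5
    have e7 : HasMFDerivAt 𝓘(ℝ, U) 𝓘(ℝ, U) (fun u => ψX.symm (ψX u)) 0 (S.comp DX) :=
      HasMFDerivAt.comp (0 : U) (g := ψX.symm) (f := ψX) e6 hDX
    have e8 : HasMFDerivAt 𝓘(ℝ, U) 𝓘(ℝ, U) (fun u => ψX.symm (ψX u)) 0
        (ContinuousLinearMap.id ℝ U) := by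
      refine (hasMFDerivAt_id (0 : U)).congr_of_eventuallyEq ?_
      filter_upwards [ψX.open_source.mem_nhds hX] with u hu
      exact PD.left ψX hu
    have e9 : S.comp DX = ContinuousLinearMap.id ℝ U := hasMFDerivAt_unique e7 e8
    have e10 : HasMFDerivAt IX 𝓘(ℝ, U) ψX.symm (ψG 0 • x₀) S := by rw [hact0]; exact e5
    have e11 : HasMFDerivAt 𝓘(ℝ, U × W) 𝓘(ℝ, U) (fun v => ψX.symm (ψG v • x₀)) 0
        (S.comp (o'.comp D)) :=
      HasMFDerivAt.comp (0 : U × W) (g := ψX.symm) (f := fun v => ψG v • x₀) e10 e3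
    have e12 : HasFDerivAt (fun v => ψX.symm (ψG v • x₀)) (S.comp (o'.comp D)) 0 :=
      hasMFDerivAt_iff_hasFDerivAt.1 e11
    have e13 : HasFDerivAt q ((S.comp (o'.comp D)).prod (ContinuousLinearMap.snd ℝ U W)) 0 :=
      e12.prodMk hasFDerivAt_snd
    refine e13.congr_fderiv ?_
    refine ContinuousLinearMap.ext fun v => Prod.ext ?_ rfl
    show S (o' (D v)) = v.1
    have e14 : o' (D v) = DX v.1 := hA v
    rw [e14]
    exact DFunLike.congr_fun e9 v.1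
  obtain ⟨q', hq'0, hq's, hq'd, hleft, hright⟩ :=
    exists_local_inverse hqs hq0 (ContinuousLinearEquiv.refl ℝ (U × W)) hqd
  refine ⟨q, q', hq0, hq'0, hqs, hq's, hqd, hq'd, hleft, hright, ⟨?_, ?_, ?_⟩⟩
  · exact hchart.comp hqs hq's hq0 hq'0 hleft hright
  · exact isLocalAction_chart ψX hX
  · -- adaptedness
    have hqc' : Tendsto q' (𝓝 0) (𝓝 0) := by
      have := hq's.self_of_nhds.continuousAt.tendsto
      rwa [hq'0] at this
    have c1 : Tendsto (fun z : G × (U × W) => z.2) (𝓝 ((1 : G), (0 : U × W))) (𝓝 0) :=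
      continuous_snd.tendsto _
    have c2 : Tendsto (fun z : G × (U × W) => z.1 * ψG (q' z.2)) (𝓝 ((1 : G), (0 : U × W)))
        (𝓝 1) := by
      have e1 : Tendsto (fun z : G × (U × W) => z.1) (𝓝 ((1 : G), (0 : U × W))) (𝓝 1) :=
        continuous_fst.tendsto _
      have e2 := e1.mul (hchart.tendsto.comp (hqc'.comp c1))
      simpa using e2
    have c3 : Tendsto (fun z : G × (U × W) => ψG (q' z.2) • x₀) (𝓝 ((1 : G), (0 : U × W)))
        (𝓝 x₀) := by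
      have e2 := (hact.continuousAt.tendsto).comp (hqc'.comp c1)
      rw [hact0] at e2
      exact e2
    filter_upwards [c1.eventually hright, c2.eventually hchart.right_inv,
      c3.eventually (ψX.open_target.mem_nhds hmemX)] with z h2 h3 h4
    show ψX.symm (ψG (ψG.symm (z.1 * ψG (q' z.2))) • x₀) = ψX.symm (z.1 • ψX z.2.1)
    have h5 : ψX.symm (ψG (q' z.2) • x₀) = z.2.1 := (Prod.ext_iff.1 h2).1
    rw [h3, ← h5, PD.right ψX h4, mul_smul]

section

variable {EM : Type*} [NormedAddCommGroup EM] [NormedSpace ℝ EM] {HM : Type*} [TopologicalSpace HM]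
  {IM : ModelWithCorners ℝ EM HM} {M : Type*} [TopologicalSpace M] [ChartedSpace HM M]

theorem haefliger_equal_X (𝓕 : LieStructure IM M IG G)
    (ψX : PartialDiffeomorph 𝓘(ℝ, U) IX U X ∞) (hX : (0 : U) ∈ ψX.source)
    (ha : IsLocalAction IG (fun z : G × U => ψX.symm (z.1 • ψX z.2)) 0) :
    (ofPt 𝓕.cocycle (fun z : G × U => ψX.symm (z.1 • ψX z.2)) 0 ha).Equal
      (𝓕.haefliger ψX hX) := by
  intro m
  refine SameLeaves.of_eventuallyEq (Eventually.of_forall fun w => ?_)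
  show ψX.symm (((𝓕.f (𝓕.idx m) m)⁻¹ * 𝓕.f (𝓕.idx m) w.1) • ψX w.2) =
    ψX.symm (((𝓕.f (𝓕.idx m) m)⁻¹ * 𝓕.f (𝓕.idx m) w.1) • ψX (0 + w.2))
  rw [zero_add]

theorem haefliger_equal_G {V : Type*} [NormedAddCommGroup V] [NormedSpace ℝ V]
    [FiniteDimensional ℝ V] (𝓕 : LieStructure IM M IG G)
    (ψG : PartialDiffeomorph 𝓘(ℝ, V) IG V G ∞) (hG : (0 : V) ∈ ψG.source)
    (ha : IsLocalAction IG (chartAct ψG ψG.symm) 0) :
    (ofPt 𝓕.cocycle (chartAct ψG ψG.symm) 0 ha).Equal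
      (𝓕.haefliger ψG hG) := by
  intro m
  refine SameLeaves.of_eventuallyEq (Eventually.of_forall fun w => ?_)
  show ψG.symm (((𝓕.f (𝓕.idx m) m)⁻¹ * 𝓕.f (𝓕.idx m) w.1) * ψG w.2) =
    ψG.symm (((𝓕.f (𝓕.idx m) m)⁻¹ * 𝓕.f (𝓕.idx m) w.1) * ψG (0 + w.2))
  rw [zero_add]

/-- The destabilisation theorem. -/
theorem destabilise (x₀ : X) (𝔥 : LieSubalgebra ℝ (GroupLieAlgebra IG G))
    (hsol : LieAlgebra.IsSolvable 𝔥)
    (h𝔥 : ∀ ξ : GroupLieAlgebra IG G, ξ ∈ 𝔥 ↔ mfderiv IG IX (fun g : G => g • x₀) (1 : G) ξ = 0)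
    (ψX : PartialDiffeomorph 𝓘(ℝ, U) IX U X ∞) (hX : (0 : U) ∈ ψX.source) (hx₀ : ψX 0 = x₀)
    (ψG : PartialDiffeomorph 𝓘(ℝ, U × W) IG (U × W) G ∞) (hG : (0 : U × W) ∈ ψG.source)
    (h1 : ψG 0 = 1)
    (hA : ∀ (u : U) (w : W), (mfderiv 𝓘(ℝ, U × W) IX (fun v => ψG v • x₀) 0 (u, w) : EX) =
      mfderiv 𝓘(ℝ, U) IX ψX 0 u)
    (𝓕 : LieStructure IM M IG G) :
    (𝓕.haefliger ψG hG).Homotopic ((𝓕.haefliger ψX hX).stab W) := by
  have hchart := localChart_of_pd ψG hG h1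
  -- differentials
  have hos : ContMDiffAt IG IX ∞ (fun g : G => g • x₀) (1 : G) := by
    have e1 : ContMDiff (IG.prod IX) IX ∞ (fun p : G × X => p.1 • p.2) := contMDiff_smul
    exact ContMDiffAt.comp (1 : G) (g := fun p : G × X => p.1 • p.2) (f := fun g : G => (g, x₀))
      e1.contMDiffAt (contMDiffAt_id.prodMk contMDiffAt_const)
  let o' : EG →L[ℝ] EX := mfderiv IG IX (fun g : G => g • x₀) (1 : G)
  have ho : HasMFDerivAt IG IX (fun g : G => g • x₀) (1 : G) o' :=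
    (hos.mdifferentiableAt (by simp)).hasMFDerivAt
  let DX : U →L[ℝ] EX := mfderiv 𝓘(ℝ, U) IX ψX 0
  have hDX : HasMFDerivAt 𝓘(ℝ, U) IX ψX 0 DX :=
    ((PD.sm ψX hX).self_of_nhds.mdifferentiableAt (by simp)).hasMFDerivAt
  let D : U × W →L[ℝ] EG := chartD (V := U × W) IG ψG
  have hcomp : HasMFDerivAt 𝓘(ℝ, U × W) IX (fun v => ψG v • x₀) 0 (o'.comp D) := by
    have e2 : HasMFDerivAt IG IX (fun g : G => g • x₀) (ψG 0) o' := by
      rw [h1]; exact ho
    exact HasMFDerivAt.comp (0 : U × W) (g := fun g : G => g • x₀) (f := ψG) e2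
      hchart.hasMFDerivAt_zero
  have hA' : ∀ v : U × W, o' (chartD (V := U × W) IG ψG v) = DX v.1 := by
    intro v
    have e1 := hA v.1 v.2
    rw [hcomp.mfderiv] at e1
    exact e1
  obtain ⟨q, q', hq0, hq'0, hqs, hq's, hqd, hq'd, hleft, hright, hadapt⟩ :=
    exists_adapted x₀ ψX hX hx₀ ψG hG h1 o' ho DX hDX hA'
  -- `DX` is injective
  have hDXinj : Function.Injective DX := by
    have hmemX : ψX 0 ∈ ψX.target := PD.mem ψX hX
    let S : EX →L[ℝ] U := mfderiv IX 𝓘(ℝ, U) ψX.symm (ψX 0)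
    have e6 : HasMFDerivAt IX 𝓘(ℝ, U) ψX.symm (ψX 0) S :=
      ((PD.sm_symm ψX hmemX).self_of_nhds.mdifferentiableAt (by simp)).hasMFDerivAt
    have e7 : HasMFDerivAt 𝓘(ℝ, U) 𝓘(ℝ, U) (fun u => ψX.symm (ψX u)) 0 (S.comp DX) :=
      HasMFDerivAt.comp (0 : U) (g := ψX.symm) (f := ψX) e6 hDX
    have e8 : HasMFDerivAt 𝓘(ℝ, U) 𝓘(ℝ, U) (fun u => ψX.symm (ψX u)) 0
        (ContinuousLinearMap.id ℝ U) := by
      refine (hasMFDerivAt_id (0 : U)).congr_of_eventuallyEq ?_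
      filter_upwards [ψX.open_source.mem_nhds hX] with u hu
      exact PD.left ψX hu
    have e9 : S.comp DX = ContinuousLinearMap.id ℝ U := hasMFDerivAt_unique e7 e8
    intro u v huv
    have h2 := DFunLike.congr_fun e9 u
    have h3 := DFunLike.congr_fun e9 v
    have h2' : S (DX u) = u := h2
    have h3' : S (DX v) = v := h3
    rw [← h2', ← h3', huv]
  -- `𝔥` is the image of `W`
  have hDsurj : Function.Surjective (chartD (V := U × W) IG ψG) :=
    hchart.invertible.self_of_nhds.surjective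
  have hchartD : ∀ v : U × W, chartD (V := U × W) IG (fun y => ψG (q' y)) v =
      chartD (V := U × W) IG ψG v := by
    intro v
    rw [chartD_comp hchart hq'0 hq'd]
    rfl
  have hmem : ∀ x, x ∈ 𝔥 ↔ ∃ w : W, chartD (V := U × W) IG (fun y => ψG (q' y)) (0, w) = x := by
    intro x
    rw [h𝔥]
    constructor
    · intro hx
      obtain ⟨v, rfl⟩ := hDsurj x
      have e1 : DX v.1 = 0 := by
        rw [← hA' v]; exact hx
      have e2 : v.1 = 0 := hDXinj (e1.trans (map_zero DX).symm)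
      refine ⟨v.2, ?_⟩
      rw [hchartD]
      congr 1
      exact Prod.ext e2.symm rfl
    · rintro ⟨w, rfl⟩
      rw [hchartD]
      have := hA' (0, w)
      rw [map_zero] at this
      exact this
  have hmain := main_induction 𝓕.cocycle (Module.finrank ℝ W) U W _ _ _ hadapt 𝔥 hsol hmem rfl
  -- comparison of `ψG` with the adapted chart
  have hconj : (ofPt 𝓕.cocycle (chartAct ψG ψG.symm) 0 hchart.isLocalAction).Homotopic
      ((ofPt 𝓕.cocycle (chartAct (fun y => ψG (q' y)) (fun g => q (ψG.symm g))) 0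
        hadapt.chart.isLocalAction).lin (ContinuousLinearEquiv.refl ℝ (U × W))) := by
    refine ofPt_conj 𝓕.cocycle hadapt.chart.isLocalAction hchart.isLocalAction q hq0 hqs _ hqd ?_
    have c1 : Tendsto (fun z : G × (U × W) => z.2) (𝓝 ((1 : G), (0 : U × W))) (𝓝 0) :=
      continuous_snd.tendsto _
    filter_upwards [c1.eventually hleft] with z hz
    show q (ψG.symm (z.1 * ψG z.2)) = q (ψG.symm (z.1 * ψG (q' (q z.2))))
    rw [hz]
  have e1 : (𝓕.haefliger ψG hG).Homotopic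
      (ofPt 𝓕.cocycle (chartAct ψG ψG.symm) 0 hchart.isLocalAction) :=
    GammaBar.Homotopic.of_equal (haefliger_equal_G 𝓕 ψG hG hchart.isLocalAction).symm
  have e2 : ((ofPt 𝓕.cocycle (chartAct (fun y => ψG (q' y)) (fun g => q (ψG.symm g))) 0
        hadapt.chart.isLocalAction).lin (ContinuousLinearEquiv.refl ℝ (U × W))).Homotopic
      (ofPt 𝓕.cocycle (chartAct (fun y => ψG (q' y)) (fun g => q (ψG.symm g))) 0
        hadapt.chart.isLocalAction) :=
    GammaBar.Homotopic.of_equal fun b => SameLeaves.refl _ _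
  have e3 : ((ofPt 𝓕.cocycle (fun z : G × U => ψX.symm (z.1 • ψX z.2)) 0
      hadapt.action).stab W).Homotopic ((𝓕.haefliger ψX hX).stab W) :=
    (GammaBar.Homotopic.of_equal (haefliger_equal_X 𝓕 ψX hX hadapt.action)).stab
  exact (((e1.trans hconj).trans e2).trans hmain).trans e3

end

end Pool.Agent.MP_602746_gt
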