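import Mathlib
import Pool.Agent.MP_602746_gt.Final
import Pool.Agent.MP_602746_gt.Cut

open scoped Manifold ContDiff Topology
open Set Filter

noncomputable section

namespace Pool.Agent.MP_602746_gt

variable {EG : Type*} [NormedAddCommGroup EG] [NormedSpace ℝ EG] {HG : Type*} [TopologicalSpace HG]
  (IG : ModelWithCorners ℝ EG HG) (G : Type*) [TopologicalSpace G] [ChartedSpace HG G] [Group G]
  {E : Type*} [NormedAddCommGroup E] [NormedSpace ℝ E]
  [MulAction G E]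

/-- The infinitesimal action at the point `x`: the derivative at `1` of the orbit map. -/
def infAct (x : E) : EG →L[ℝ] E := mfderiv IG 𝓘(ℝ, E) (fun g : G => g • x) 1

variable {IG G} [LieGroup IG ∞ G] [ContMDiffSMul IG 𝓘(ℝ, E) ∞ G E]

variable (IG) in
theorem sm_smul (p : G × E) : Sm (IG.prod 𝓘(ℝ, E)) 𝓘(ℝ, E) (fun p : G × E => p.1 • p.2) p :=
  Sm.of contMDiff_smul

variable (G) in
theorem hasMFDerivAt_orbit (x : E) :
    HasMFDerivAt IG 𝓘(ℝ, E) (fun g : G => g • x) (1 : G) (infAct IG G x : EG →L[ℝ] E) := by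
  have e1 : Sm IG 𝓘(ℝ, E) (fun g : G => g • x) (1 : G) :=
    (sm_smul IG ((1 : G), x)).comp ((Sm.of contMDiff_id).prodMk Sm.const) rfl
  exact (e1.self_of_nhds.mdifferentiableAt (by simp)).hasMFDerivAt

variable (IG) in
theorem isLocalAction_smul (x : E) : IsLocalAction IG (fun z : G × E => z.1 • z.2) x :=
  ⟨sm_smul IG _, Eventually.of_forall fun v => one_smul G v,
    Eventually.of_forall fun _ => mul_smul _ _ _⟩

/-- The derivative of `p ↦ c p • y` takes values in the tangent space of the orbit. -/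
theorem mem_range_infAct {P : Type*} [NormedAddCommGroup P] [NormedSpace ℝ P] {c : P → G} {p₀ : P}
    (hc : MDifferentiableAt 𝓘(ℝ, P) IG c p₀) (y : E) {L : P →L[ℝ] E}
    (hL : HasFDerivAt (fun p => c p • y) L p₀) (v : P) :
    ∃ ξ : EG, infAct IG G (c p₀ • y) ξ = L v := by
  let C : P →L[ℝ] EG := mfderiv 𝓘(ℝ, P) IG c p₀
  have hC : HasMFDerivAt 𝓘(ℝ, P) IG c p₀ C := hc.hasMFDerivAt
  let R : EG →L[ℝ] EG := mfderiv IG IG (fun g : G => g * (c p₀)⁻¹) (c p₀)
  have hR : HasMFDerivAt IG IG (fun g : G => g * (c p₀)⁻¹) (c p₀) R :=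
    ((contMDiff_mul_right (I := IG) (n := ∞) (a := (c p₀)⁻¹)).contMDiffAt.mdifferentiableAt
      (by simp)).hasMFDerivAt
  have e1 : HasMFDerivAt 𝓘(ℝ, P) IG (fun p => c p * (c p₀)⁻¹) p₀ (R.comp C) :=
    HasMFDerivAt.comp p₀ (g := fun g : G => g * (c p₀)⁻¹) (f := c) hR hC
  have e2 : HasMFDerivAt IG 𝓘(ℝ, E) (fun g : G => g • (c p₀ • y)) (c p₀ * (c p₀)⁻¹)
      (infAct IG G (c p₀ • y) : EG →L[ℝ] E) := by
    rw [mul_inv_cancel]
    exact hasMFDerivAt_orbit G (c p₀ • y)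
  have e3 : HasMFDerivAt 𝓘(ℝ, P) 𝓘(ℝ, E) (fun p => (c p * (c p₀)⁻¹) • (c p₀ • y)) p₀
      ((infAct IG G (c p₀ • y)).comp (R.comp C)) :=
    HasMFDerivAt.comp p₀ (g := fun g : G => g • (c p₀ • y)) (f := fun p => c p * (c p₀)⁻¹) e2 e1
  have e4 : (fun p => (c p * (c p₀)⁻¹) • (c p₀ • y)) = fun p => c p • y := by
    funext p
    rw [smul_smul, inv_mul_cancel_right]
  rw [e4] at e3
  have e3' : HasFDerivAt (fun p => c p • y) ((infAct IG G (c p₀ • y)).comp (R.comp C)) p₀ :=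
    hasMFDerivAt_iff_hasFDerivAt.1 e3
  have e5 := e3'.unique hL
  exact ⟨R (C v), by rw [← e5]; rfl⟩

variable [FiniteDimensional ℝ EG] [FiniteDimensional ℝ E]
  {U : Type*} [NormedAddCommGroup U] [NormedSpace ℝ U] [FiniteDimensional ℝ U]
  {W : Type*} [NormedAddCommGroup W] [NormedSpace ℝ W] [FiniteDimensional ℝ W]
  {N : Type*} [NormedAddCommGroup N] [NormedSpace ℝ N] [FiniteDimensional ℝ N]

omit [FiniteDimensional ℝ EG] [FiniteDimensional ℝ W] in
/-- Local coordinates `Θ : U × N → E` near a point `x₀` at which the dimension of the orbits is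
maximal: the orbits near `x₀` are contained in the sets `N = const`. -/
theorem exists_slice (x₀ : E)
    (hmax : ∀ᶠ x in 𝓝 x₀, Module.finrank ℝ (LinearMap.range (infAct IG G x : EG →ₗ[ℝ] E)) ≤
      Module.finrank ℝ (LinearMap.range (infAct IG G x₀ : EG →ₗ[ℝ] E)))
    {Φ : U × W → G} {Ψ : G → U × W} (hΦ : LocalChart IG Φ Ψ) (LE : (U × N) ≃L[ℝ] E)
    (hLE : ∀ u : U, LE (u, 0) = infAct IG G x₀ (chartD (V := U × W) IG Φ (u, 0)))
    (hW : ∀ w : W, infAct IG G x₀ (chartD (V := U × W) IG Φ (0, w)) = 0) :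
    ∃ (Θ : U × N → E) (Θ' : E → U × N), Θ 0 = x₀ ∧ Θ' x₀ = 0 ∧ SmN Θ 0 ∧ SmN Θ' x₀ ∧
      HasFDerivAt Θ (LE : U × N →L[ℝ] E) 0 ∧
      HasFDerivAt Θ' (LE.symm : E →L[ℝ] U × N) x₀ ∧ (∀ᶠ v in 𝓝 (0 : U × N), Θ' (Θ v) = v) ∧
      (∀ᶠ y in 𝓝 x₀, Θ (Θ' y) = y) ∧ (∀ u : U, Θ (u, 0) = Φ (u, 0) • x₀) ∧
      ∀ᶠ z in 𝓝 ((1 : G), x₀), (Θ' (z.1 • z.2)).2 = (Θ' z.2).2 := by
  have := ContMDiffSMul.continuousSMul (G := G) (M := E) (I := IG) (I' := 𝓘(ℝ, E)) ∞
  let Θ : U × N → E := fun v => Φ (v.1, 0) • (x₀ + LE (0, v.2))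
  have hΘ0 : Θ 0 = x₀ := by
    show Φ ((0 : U × N).1, 0) • (x₀ + LE (0, (0 : U × N).2)) = x₀
    have h1 : (((0 : U × N).1, 0) : U × W) = 0 := rfl
    have h2 : ((0, (0 : U × N).2) : U × N) = 0 := rfl
    rw [h1, h2, hΦ.zero, map_zero, add_zero, one_smul]
  have hΘu : ∀ u : U, Θ (u, 0) = Φ (u, 0) • x₀ := by
    intro u
    show Φ (u, 0) • (x₀ + LE (0, 0)) = Φ (u, 0) • x₀
    have h2 : ((0, 0) : U × N) = 0 := rfl
    rw [h2, map_zero, add_zero]
  have hΘs : SmN Θ 0 := by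
    rw [← sm_iff_smN]
    have h1 : Sm 𝓘(ℝ, U × N) 𝓘(ℝ, U × W) (fun v : U × N => (v.1, (0 : W))) 0 :=
      Sm.of (contDiff_fst.prodMk contDiff_const).contMDiff
    have h2 : Sm 𝓘(ℝ, U × N) 𝓘(ℝ, E) (fun v : U × N => x₀ + LE (0, v.2)) 0 :=
      Sm.of (contDiff_const.add
        (LE.contDiff.comp (contDiff_const.prodMk contDiff_snd))).contMDiff
    exact (sm_smul IG _).comp ((hΦ.smooth.comp h1 rfl).prodMk h2) rfl
  have hcont : ContinuousAt Θ 0 := hΘs.self_of_nhds.continuousAt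
  have hΘt : Tendsto Θ (𝓝 0) (𝓝 x₀) := by
    have := hcont.tendsto
    rwa [hΘ0] at this
  -- the derivative at `0`
  have hΘd : HasFDerivAt Θ (LE : U × N →L[ℝ] E) 0 := by
    have hD : HasFDerivAt Θ (fderiv ℝ Θ 0) 0 :=
      (hΘs.self_of_nhds.differentiableAt (by simp)).hasFDerivAt
    refine hD.congr_fderiv (ContinuousLinearMap.ext fun v => ?_)
    -- the first partial derivative
    have a1 : HasFDerivAt (fun u : U => Θ (u, 0))
        ((fderiv ℝ Θ 0).comp (ContinuousLinearMap.inl ℝ U N)) 0 :=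
      HasFDerivAt.comp (0 : U) (g := Θ) (f := fun u : U => (u, (0 : N))) hD
        (hasFDerivAt_prodMk_left (0 : U) (0 : N))
    have a2 : HasMFDerivAt 𝓘(ℝ, U) IG (fun u : U => Φ (u, 0)) 0
        ((chartD (V := U × W) IG Φ : U × W →L[ℝ] EG).comp (ContinuousLinearMap.inl ℝ U W)) :=
      HasMFDerivAt.comp (0 : U) (g := Φ) (f := fun u : U => (u, (0 : W))) hΦ.hasMFDerivAt_zero
        (hasFDerivAt_prodMk_left (0 : U) (0 : W)).hasMFDerivAt
    have a3 : HasMFDerivAt IG 𝓘(ℝ, E) (fun g : G => g • x₀) (Φ ((0 : U), (0 : W)))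
        (infAct IG G x₀ : EG →L[ℝ] E) := by
      have h1 : (((0 : U), (0 : W)) : U × W) = 0 := rfl
      rw [h1, hΦ.zero]
      exact hasMFDerivAt_orbit G x₀
    have a4 : HasMFDerivAt 𝓘(ℝ, U) 𝓘(ℝ, E) (fun u : U => Φ (u, 0) • x₀) 0
        ((infAct IG G x₀).comp ((chartD (V := U × W) IG Φ : U × W →L[ℝ] EG).comp
          (ContinuousLinearMap.inl ℝ U W))) :=
      HasMFDerivAt.comp (0 : U) (g := fun g : G => g • x₀) (f := fun u : U => Φ (u, 0)) a3 a2
    have a5 : HasFDerivAt (fun u : U => Θ (u, 0))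
        ((infAct IG G x₀).comp ((chartD (V := U × W) IG Φ : U × W →L[ℝ] EG).comp
          (ContinuousLinearMap.inl ℝ U W))) 0 := by
      have := hasMFDerivAt_iff_hasFDerivAt.1 a4
      refine this.congr_of_eventuallyEq (Eventually.of_forall fun u => hΘu u)
    have a6 := DFunLike.congr_fun (a1.unique a5) v.1
    -- the second partial derivative
    have b1 : HasFDerivAt (fun n : N => Θ (0, n))
        ((fderiv ℝ Θ 0).comp (ContinuousLinearMap.inr ℝ U N)) 0 :=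
      HasFDerivAt.comp (0 : N) (g := Θ) (f := fun n : N => ((0 : U), n)) hD
        (hasFDerivAt_prodMk_right (0 : U) (0 : N))
    have b2 : HasFDerivAt (fun n : N => x₀ + LE ((0 : U), n))
        ((LE : U × N →L[ℝ] E).comp (ContinuousLinearMap.inr ℝ U N)) 0 :=
      (HasFDerivAt.comp (0 : N) (g := LE) (f := fun n : N => ((0 : U), n)) LE.hasFDerivAt
        (hasFDerivAt_prodMk_right (0 : U) (0 : N))).const_add x₀
    have b3 : HasFDerivAt (fun n : N => Θ (0, n))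
        ((LE : U × N →L[ℝ] E).comp (ContinuousLinearMap.inr ℝ U N)) 0 := by
      refine b2.congr_of_eventuallyEq (Eventually.of_forall fun n => ?_)
      show Φ ((0 : U), (0 : W)) • (x₀ + LE ((0 : U), n)) = x₀ + LE ((0 : U), n)
      have h1 : (((0 : U), (0 : W)) : U × W) = 0 := rfl
      rw [h1, hΦ.zero, one_smul]
    have b4 := DFunLike.congr_fun (b1.unique b3) v.2
    have e1 : v = (v.1, 0) + (0, v.2) := by simp
    have a6' : fderiv ℝ Θ 0 (v.1, 0) = LE (v.1, 0) := by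
      rw [hLE]
      exact a6
    have b4' : fderiv ℝ Θ 0 (0, v.2) = LE (0, v.2) := b4
    conv_lhs => rw [e1, map_add, a6', b4', ← map_add, ← e1]
    rfl
  -- the local inverse
  obtain ⟨Γ, hΓ0, hΓs, hΓd, hleft, hright⟩ := exists_local_inverse (f := fun v => Θ v - x₀)
    (by filter_upwards [hΘs] with v hv using hv.sub contDiffAt_const)
    (by show Θ 0 - x₀ = 0; rw [hΘ0, sub_self]) LE (hΘd.sub_const x₀)
  let Θ' : E → U × N := fun y => Γ (y - x₀)
  have hsub : Tendsto (fun y : E => y - x₀) (𝓝 x₀) (𝓝 0) := by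
    have h1 : ContinuousAt (fun y : E => y - x₀) x₀ := by fun_prop
    simpa using h1.tendsto
  have hΘ'0 : Θ' x₀ = 0 := by show Γ (x₀ - x₀) = 0; rw [sub_self, hΓ0]
  have hΘ's : SmN Θ' x₀ := by
    filter_upwards [hsub.eventually hΓs] with y hy
    exact ContDiffAt.comp y (g := Γ) (f := fun y : E => y - x₀) hy
      (contDiffAt_id.sub contDiffAt_const)
  have hΘ'd : HasFDerivAt Θ' (LE.symm : E →L[ℝ] U × N) x₀ := by
    have h1 : HasFDerivAt Γ (LE.symm : E →L[ℝ] U × N) (x₀ - x₀) := by rw [sub_self]; exact hΓd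
    have h2 : HasFDerivAt (fun y : E => y - x₀) (ContinuousLinearMap.id ℝ E) x₀ :=
      (hasFDerivAt_id x₀).sub_const x₀
    have h3 := HasFDerivAt.comp x₀ (g := Γ) (f := fun y : E => y - x₀) h1 h2
    rwa [ContinuousLinearMap.comp_id] at h3
  have hleft' : ∀ᶠ v in 𝓝 (0 : U × N), Θ' (Θ v) = v := hleft
  have hright' : ∀ᶠ y in 𝓝 x₀, Θ (Θ' y) = y := by
    filter_upwards [hsub.eventually hright] with y hy
    have hy' : Θ (Γ (y - x₀)) - x₀ = y - x₀ := hy
    exact sub_left_injective hy'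
  have hΘ't : Tendsto Θ' (𝓝 x₀) (𝓝 0) := by
    have := hΘ's.self_of_nhds.continuousAt.tendsto
    rwa [hΘ'0] at this
  -- the rank at `x₀`
  have hrank : Module.finrank ℝ (LinearMap.range (infAct IG G x₀ : EG →ₗ[ℝ] E)) ≤
      Module.finrank ℝ U := by
    have hDsurj : Function.Surjective (chartD (V := U × W) IG Φ) :=
      hΦ.invertible.self_of_nhds.surjective
    have hle : LinearMap.range (infAct IG G x₀ : EG →ₗ[ℝ] E) ≤
        LinearMap.range ((LE : U × N →ₗ[ℝ] E) ∘ₗ LinearMap.inl ℝ U N) := by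
      rintro _ ⟨ξ, rfl⟩
      obtain ⟨v, rfl⟩ := hDsurj ξ
      refine ⟨v.1, ?_⟩
      show LE (v.1, 0) = infAct IG G x₀ (chartD (V := U × W) IG Φ v)
      have e1 : v = (v.1, 0) + (0, v.2) := by simp
      rw [hLE]
      conv_rhs => rw [e1, map_add]
      have e2 : infAct IG G x₀ (chartD (V := U × W) IG Φ (v.1, 0) +
          chartD (V := U × W) IG Φ (0, v.2)) =
          infAct IG G x₀ (chartD (V := U × W) IG Φ (v.1, 0)) +
            infAct IG G x₀ (chartD (V := U × W) IG Φ (0, v.2)) :=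
        map_add (infAct IG G x₀) _ _
      rw [e2, hW, add_zero]
    exact (Submodule.finrank_mono hle).trans (LinearMap.finrank_range_le _)
  -- the second component is infinitesimally invariant
  have hP1 : ∀ᶠ v in 𝓝 (0 : U × N), ∀ ξ : EG,
      fderiv ℝ (fun y => (Θ' y).2) (Θ v) (infAct IG G (Θ v) ξ) = 0 := by
    have c1 : Tendsto (fun v : U × N => (v.1, (0 : W))) (𝓝 0) (𝓝 0) := by
      have : ContinuousAt (fun v : U × N => (v.1, (0 : W))) 0 := by fun_prop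
      exact this.tendsto
    filter_upwards [hΘs, hleft'.eventually_nhds, hΘt.eventually hΘ's, hΘt.eventually hmax,
      c1.eventually hΦ.smooth] with v h1 h2 h3 h4 h5 ξ
    have d1 : HasFDerivAt Θ (fderiv ℝ Θ v) v := (h1.differentiableAt (by simp)).hasFDerivAt
    have d2 : HasFDerivAt Θ' (fderiv ℝ Θ' (Θ v)) (Θ v) :=
      (h3.differentiableAt (by simp)).hasFDerivAt
    have d3 : (fderiv ℝ Θ' (Θ v)).comp (fderiv ℝ Θ v) = ContinuousLinearMap.id ℝ (U × N) :=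
      (HasFDerivAt.comp v (g := Θ') (f := Θ) d2 d1).unique
        ((hasFDerivAt_id v).congr_of_eventuallyEq h2)
    -- the partial derivative
    let L : U →L[ℝ] E := (fderiv ℝ Θ v).comp (ContinuousLinearMap.inl ℝ U N)
    have hLd : HasFDerivAt (fun u : U => Φ (u, 0) • (x₀ + LE (0, v.2))) L v.1 :=
      HasFDerivAt.comp v.1 (g := Θ) (f := fun u : U => (u, v.2)) d1
        (hasFDerivAt_prodMk_left v.1 v.2)
    have hc : MDifferentiableAt 𝓘(ℝ, U) IG (fun u : U => Φ (u, 0)) v.1 := by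
      have h6 : MDifferentiableAt 𝓘(ℝ, U × W) IG Φ (v.1, 0) := h5.mdifferentiableAt (by simp)
      exact MDifferentiableAt.comp v.1 (g := Φ) (f := fun u : U => (u, (0 : W))) h6
        (hasFDerivAt_prodMk_left v.1 (0 : W)).differentiableAt.mdifferentiableAt
    have hLinj : Function.Injective L := by
      intro u u' huu
      have e1 := congrArg (fderiv ℝ Θ' (Θ v)) huu
      have e2 := DFunLike.congr_fun d3 (u, 0)
      have e3 := DFunLike.congr_fun d3 (u', 0)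
      have e4 : ((u, 0) : U × N) = (u', 0) := by
        calc ((u, 0) : U × N) = (fderiv ℝ Θ' (Θ v)) (L u) := e2.symm
          _ = (fderiv ℝ Θ' (Θ v)) (L u') := e1
          _ = (u', 0) := e3
      exact (Prod.ext_iff.1 e4).1
    have hle : LinearMap.range (L : U →ₗ[ℝ] E) ≤
        LinearMap.range (infAct IG G (Θ v) : EG →ₗ[ℝ] E) := by
      rintro _ ⟨u, rfl⟩
      obtain ⟨ξ, hξ⟩ := mem_range_infAct (IG := IG) hc (x₀ + LE (0, v.2)) hLd u
      exact ⟨ξ, hξ⟩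
    have heq : LinearMap.range (L : U →ₗ[ℝ] E) =
        LinearMap.range (infAct IG G (Θ v) : EG →ₗ[ℝ] E) := by
      refine Submodule.eq_of_le_of_finrank_le hle ?_
      rw [LinearMap.finrank_range_of_inj hLinj]
      exact h4.trans hrank
    have hmem : infAct IG G (Θ v) ξ ∈ LinearMap.range (L : U →ₗ[ℝ] E) := by
      rw [heq]
      exact ⟨ξ, rfl⟩
    obtain ⟨u, hu⟩ := hmem
    have hu' : fderiv ℝ Θ v (u, 0) = infAct IG G (Θ v) ξ := hu
    have d4 : HasFDerivAt (fun y => (Θ' y).2)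
        ((ContinuousLinearMap.snd ℝ U N).comp (fderiv ℝ Θ' (Θ v))) (Θ v) :=
      HasFDerivAt.comp (Θ v) (g := fun p : U × N => p.2) (f := Θ') hasFDerivAt_snd d2
    rw [d4.fderiv, ← hu']
    have e2 := DFunLike.congr_fun d3 (u, 0)
    show ((fderiv ℝ Θ' (Θ v)) (fderiv ℝ Θ v (u, 0))).2 = 0
    have e5 : (fderiv ℝ Θ' (Θ v)) (fderiv ℝ Θ v (u, 0)) = (u, 0) := e2
    rw [e5]
  have hP1' : ∀ᶠ y in 𝓝 x₀, ∀ ξ : EG,
      fderiv ℝ (fun y => (Θ' y).2) y (infAct IG G y ξ) = 0 := by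
    filter_upwards [hΘ't.eventually hP1, hright'] with y h1 h2
    rwa [h2] at h1
  refine ⟨Θ, Θ', hΘ0, hΘ'0, hΘs, hΘ's, hΘd, hΘ'd, hleft', hright', hΘu, ?_⟩
  -- invariance
  have hact : Tendsto (fun q : (U × W) × E => Φ q.1 • q.2) (𝓝 ((0 : U × W), x₀)) (𝓝 x₀) := by
    have h1 : Tendsto (fun q : (U × W) × E => Φ q.1) (𝓝 ((0 : U × W), x₀)) (𝓝 1) :=
      hΦ.tendsto.comp (continuous_fst.tendsto _)
    have h2 : Tendsto (fun q : (U × W) × E => q.2) (𝓝 ((0 : U × W), x₀)) (𝓝 x₀) :=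
      continuous_snd.tendsto _
    have h3 := h1.smul h2
    rwa [one_smul] at h3
  have hgood : ∀ᶠ q in 𝓝 ((0 : U × W), x₀),
      HasFDerivAt (fun p : U × W => (Θ' (Φ p • q.2)).2) (0 : U × W →L[ℝ] N) q.1 := by
    have c1 : Tendsto (fun q : (U × W) × E => q.1) (𝓝 ((0 : U × W), x₀)) (𝓝 0) :=
      continuous_fst.tendsto _
    filter_upwards [hact.eventually hP1', hact.eventually hΘ's, c1.eventually hΦ.smooth]
      with q h1 h2 h3
    have m1 : Sm IG 𝓘(ℝ, E) (fun g : G => g • q.2) (Φ q.1) :=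
      (sm_smul IG (Φ q.1, q.2)).comp ((Sm.of contMDiff_id).prodMk Sm.const) rfl
    have m2 : ContMDiffAt 𝓘(ℝ, U × W) 𝓘(ℝ, E) ∞ (fun p : U × W => Φ p • q.2) q.1 :=
      ContMDiffAt.comp q.1 (g := fun g : G => g • q.2) (f := Φ) m1.self_of_nhds h3
    have m3 : HasFDerivAt (fun p : U × W => Φ p • q.2)
        (fderiv ℝ (fun p : U × W => Φ p • q.2) q.1) q.1 :=
      ((contMDiffAt_iff_contDiffAt.1 m2).differentiableAt (by simp)).hasFDerivAt
    have m4 : HasFDerivAt (fun y => (Θ' y).2) (fderiv ℝ (fun y => (Θ' y).2) (Φ q.1 • q.2))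
        (Φ q.1 • q.2) :=
      ((contDiffAt_snd.comp (Φ q.1 • q.2) h2).differentiableAt (by simp)).hasFDerivAt
    have m5 := HasFDerivAt.comp q.1 (g := fun y => (Θ' y).2) (f := fun p : U × W => Φ p • q.2)
      m4 m3
    refine m5.congr_fderiv (ContinuousLinearMap.ext fun p => ?_)
    obtain ⟨ξ, hξ⟩ := mem_range_infAct (IG := IG) (h3.mdifferentiableAt (by simp)) q.2 m3 p
    show fderiv ℝ (fun y => (Θ' y).2) (Φ q.1 • q.2)
      (fderiv ℝ (fun p : U × W => Φ p • q.2) q.1 p) = 0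
    rw [← hξ]
    exact h1 ξ
  rw [nhds_prod_eq] at hgood
  obtain ⟨S, hS, T, hT, hST⟩ := Filter.eventually_prod_iff.1 hgood
  obtain ⟨r, hr, hball⟩ := Metric.eventually_nhds_iff_ball.1 hS
  have c1 : Tendsto (fun z : G × E => Ψ z.1) (𝓝 ((1 : G), x₀)) (𝓝 0) :=
    hΦ.tendsto_inv.comp (continuous_fst.tendsto _)
  have c2 : Tendsto (fun z : G × E => z.2) (𝓝 ((1 : G), x₀)) (𝓝 x₀) := continuous_snd.tendsto _
  have c3 : Tendsto (fun z : G × E => z.1) (𝓝 ((1 : G), x₀)) (𝓝 1) := continuous_fst.tendsto _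
  filter_upwards [c1.eventually (Metric.ball_mem_nhds (0 : U × W) hr), c2.eventually hT,
    c3.eventually hΦ.right_inv] with z h1 h2 h3
  have hd : ∀ p ∈ Metric.ball (0 : U × W) r,
      HasFDerivAt (fun p : U × W => (Θ' (Φ p • z.2)).2) (0 : U × W →L[ℝ] N) p := fun p hp =>
    hST (hball p hp) h2
  have hconst := IsOpen.is_const_of_fderiv_eq_zero (𝕜 := ℝ) Metric.isOpen_ball
    (convex_ball (0 : U × W) r).isPreconnected
    (fun p hp => (hd p hp).differentiableAt.differentiableWithinAt)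
    (fun p hp => (hd p hp).fderiv) h1 (Metric.mem_ball_self hr)
  have hconst' : (Θ' (Φ (Ψ z.1) • z.2)).2 = (Θ' (Φ 0 • z.2)).2 := hconst
  rw [h3, hΦ.zero, one_smul] at hconst'
  exact hconst'

end Pool.Agent.MP_602746_gt
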