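import Mathlib
import Pool.Agent.MP_602746_gt.Orbit

open scoped Manifold ContDiff Topology
open Set Filter

noncomputable section

namespace Pool.Agent.MP_602746_gt

section LinLemmas

variable {EB : Type*} [NormedAddCommGroup EB] [NormedSpace ℝ EB] {HB : Type*} [TopologicalSpace HB]
  {IB : ModelWithCorners ℝ EB HB} {B : Type*} [TopologicalSpace B] [ChartedSpace HB B]
  {V : Type*} [NormedAddCommGroup V] [NormedSpace ℝ V]
  {V' : Type*} [NormedAddCommGroup V'] [NormedSpace ℝ V']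
  {V'' : Type*} [NormedAddCommGroup V''] [NormedSpace ℝ V'']

theorem GammaBar.lin_lin (σ : GammaBar IB B V) (A : V' ≃L[ℝ] V) (A' : V'' ≃L[ℝ] V') :
    ((σ.lin A).lin A').Equal (σ.lin (A'.trans A)) := fun _ => SameLeaves.refl _ _

theorem GammaBar.lin_symm (σ : GammaBar IB B V) (A : V' ≃L[ℝ] V) :
    ((σ.lin A).lin A.symm).Equal σ := by
  intro b
  refine SameLeaves.of_eventuallyEq (Eventually.of_forall fun w => ?_)
  rw [GammaBar.lin_F, GammaBar.lin_F]
  simp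

theorem GammaBar.trivial_lin (A : V' ≃L[ℝ] V) :
    ((GammaBar.trivial IB B V).lin A).Equal (GammaBar.trivial IB B V') := by
  intro b
  refine SameLeaves.of_eventuallyEq (Eventually.of_forall fun w => ?_)
  rw [GammaBar.lin_F]
  exact (A.symm_apply_apply w.2).symm

/-- Homotopy triviality does not depend on a constant linear change of the trivialisation. -/
theorem GammaBar.homotopic_trivial_iff {σ : GammaBar IB B V'} {τ : GammaBar IB B V}
    (A : V' ≃L[ℝ] V) (h : σ.Homotopic (τ.lin A)) :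
    σ.Homotopic (GammaBar.trivial IB B V') ↔ τ.Homotopic (GammaBar.trivial IB B V) := by
  constructor
  · intro h1
    have h2 : (τ.lin A).Homotopic (GammaBar.trivial IB B V') := h.symm.trans h1
    have h3 := h2.lin A.symm
    exact ((GammaBar.Homotopic.of_equal (GammaBar.lin_symm τ A).symm).trans h3).trans
      (GammaBar.Homotopic.of_equal (GammaBar.trivial_lin A.symm))
  · intro h1
    exact (h.trans (h1.lin A)).trans (GammaBar.Homotopic.of_equal (GammaBar.trivial_lin A))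

variable [FiniteDimensional ℝ V] [FiniteDimensional ℝ V']
  {W : Type*} [NormedAddCommGroup W] [NormedSpace ℝ W] [FiniteDimensional ℝ W]
  {W' : Type*} [NormedAddCommGroup W'] [NormedSpace ℝ W'] [FiniteDimensional ℝ W']
  {N : Type*} [NormedAddCommGroup N] [NormedSpace ℝ N] [FiniteDimensional ℝ N]

theorem GammaBar.lin_stab (σ : GammaBar IB B V) (A : V' ≃L[ℝ] V) :
    ((σ.lin A).stab W).Equal ((σ.stab W).lin (A.prodCongr (ContinuousLinearEquiv.refl ℝ W))) :=
  fun _ => SameLeaves.refl _ _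

/-- The reassociation. -/
def splitL (V : Type*) [NormedAddCommGroup V] [NormedSpace ℝ V] (A : W ≃L[ℝ] N × W') :
    (V × W) ≃L[ℝ] (V × N) × W' :=
  ((ContinuousLinearEquiv.refl ℝ V).prodCongr A).trans
    (ContinuousLinearEquiv.prodAssoc ℝ V N W').symm

theorem GammaBar.stab_split (σ : GammaBar IB B V) (A : W ≃L[ℝ] N × W') :
    (σ.stab W).Equal (((σ.stab N).stab W').lin (splitL V A)) := by
  intro b
  refine SameLeaves.of_eventuallyEq (Eventually.of_forall fun w => ?_)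
  rw [GammaBar.lin_F]
  show (σ.F b (w.1, w.2.1), A.symm ((A w.2.2).1, (A w.2.2).2)) = (σ.F b (w.1, w.2.1), w.2.2)
  rw [Prod.mk.eta, A.symm_apply_apply]

end LinLemmas

section Core

variable {EG : Type*} [NormedAddCommGroup EG] [NormedSpace ℝ EG] [FiniteDimensional ℝ EG]
  {HG : Type*} [TopologicalSpace HG]
  {IG : ModelWithCorners ℝ EG HG} {G : Type*} [TopologicalSpace G] [ChartedSpace HG G] [Group G]
  [LieGroup IG ∞ G]
  {E : Type*} [NormedAddCommGroup E] [NormedSpace ℝ E] [FiniteDimensional ℝ E]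
  [MulAction G E] [ContMDiffSMul IG 𝓘(ℝ, E) ∞ G E]
  {EB : Type*} [NormedAddCommGroup EB] [NormedSpace ℝ EB] {HB : Type*} [TopologicalSpace HB]
  {IB : ModelWithCorners ℝ EB HB} {B : Type*} [TopologicalSpace B] [ChartedSpace HB B]
  {V : Type*} [NormedAddCommGroup V] [NormedSpace ℝ V] [FiniteDimensional ℝ V]
  {W' : Type*} [NormedAddCommGroup W'] [NormedSpace ℝ W'] [FiniteDimensional ℝ W']

/-- The linear splitting of `E`. -/
theorem exists_LE {EG E : Type*} [NormedAddCommGroup EG] [NormedSpace ℝ EG]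
    [FiniteDimensional ℝ EG] [NormedAddCommGroup E] [NormedSpace ℝ E] [FiniteDimensional ℝ E]
    (ρ : EG →L[ℝ] E) (C : Submodule ℝ EG) (hC : IsCompl (LinearMap.ker (ρ : EG →ₗ[ℝ] E)) C)
    (N : Submodule ℝ E) (hN : IsCompl (LinearMap.range (ρ : EG →ₗ[ℝ] E)) N) :
    ∃ LE : (C × N) ≃L[ℝ] E, ∀ x : C × N, LE x = ρ x.1 + x.2 := by
  let l : (C × N) →ₗ[ℝ] E := ((ρ : EG →ₗ[ℝ] E) ∘ₗ C.subtype).coprod N.subtype
  have hl : ∀ x, l x = ρ x.1 + x.2 := fun x => rfl
  have hinj : Function.Injective l := by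
    rw [← LinearMap.ker_eq_bot, LinearMap.ker_eq_bot']
    intro x hx
    rw [hl] at hx
    have h1 : ρ (x.1 : EG) ∈ LinearMap.range (ρ : EG →ₗ[ℝ] E) := ⟨_, rfl⟩
    have h2 : ρ (x.1 : EG) = -(x.2 : E) := eq_neg_of_add_eq_zero_left hx
    have h3 : ρ (x.1 : EG) ∈ N := by rw [h2]; exact N.neg_mem x.2.2
    have h4 : ρ (x.1 : EG) = 0 := by
      have := hN.disjoint.le_bot ⟨h1, h3⟩
      exact (Submodule.mem_bot ℝ).1 this
    have h5 : (x.1 : EG) = 0 := by
      have := hC.disjoint.le_bot ⟨h4, x.1.2⟩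
      exact (Submodule.mem_bot ℝ).1 this
    have h6 : (x.2 : E) = 0 := by
      rw [h4, zero_add] at hx
      exact hx
    exact Prod.ext (Subtype.ext h5) (Subtype.ext h6)
  have hsurj : Function.Surjective l := by
    intro y
    have h1 : y ∈ LinearMap.range (ρ : EG →ₗ[ℝ] E) ⊔ N := by
      rw [hN.sup_eq_top]; trivial
    obtain ⟨_, ⟨ξ, rfl⟩, n, hn, rfl⟩ := Submodule.mem_sup.1 h1
    have h2 : ξ ∈ LinearMap.ker (ρ : EG →ₗ[ℝ] E) ⊔ C := by
      rw [hC.sup_eq_top]; trivial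
    obtain ⟨κ, hκ, c, hc, rfl⟩ := Submodule.mem_sup.1 h2
    refine ⟨(⟨c, hc⟩, ⟨n, hn⟩), ?_⟩
    have hκ' : ρ κ = 0 := hκ
    show ρ c + n = ρ (κ + c) + n
    rw [map_add, hκ', zero_add]
  exact ⟨(LinearEquiv.ofBijective l ⟨hinj, hsurj⟩).toContinuousLinearEquiv, fun x => rfl⟩

/-- The main step: near a point where the dimension of the orbits is maximal and the isotropy
algebra is solvable, the structure defined by an action on a vector space and the one of the group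
acting on itself are stabilisations of the same structure. -/
theorem core_pre (k : GCocycle IB B IG G) (x₀ : E)
    (hmax : ∀ᶠ x in 𝓝 x₀, Module.finrank ℝ (LinearMap.range (infAct IG G x : EG →ₗ[ℝ] E)) ≤
      Module.finrank ℝ (LinearMap.range (infAct IG G x₀ : EG →ₗ[ℝ] E)))
    (𝔥 : LieSubalgebra ℝ (GroupLieAlgebra IG G)) (hsol : LieAlgebra.IsSolvable 𝔥)
    (h𝔥 : ∀ ξ : GroupLieAlgebra IG G, ξ ∈ 𝔥 ↔ infAct IG G x₀ ξ = 0)
    {Φ₀ : V → G} {Ψ₀ : G → V} (h₀ : LocalChart IG Φ₀ Ψ₀) :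
    ∃ (C K : Submodule ℝ EG) (N : Submodule ℝ E) (σ : GammaBar IB B C) (A₁ : V ≃L[ℝ] C × K)
      (A₂ : E ≃L[ℝ] C × N), Module.finrank ℝ EG = Module.finrank ℝ C + Module.finrank ℝ K ∧
      (ofPt k (chartAct Φ₀ Ψ₀) 0 h₀.isLocalAction).Homotopic ((σ.stab K).lin A₁) ∧
      (ofPt k (fun z : G × E => z.1 • z.2) x₀ (isLocalAction_smul IG x₀)).Homotopic
        ((σ.stab N).lin A₂) := by
  have := topologicalGroup_of_lieGroup IG ∞ (G := G)
  have := ContMDiffSMul.continuousSMul (G := G) (M := E) (I := IG) (I' := 𝓘(ℝ, E)) ∞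
  let ρ : EG →L[ℝ] E := infAct IG G x₀
  let K : Submodule ℝ EG := LinearMap.ker (ρ : EG →ₗ[ℝ] E)
  obtain ⟨C, hC⟩ := K.exists_isCompl
  obtain ⟨N, hN⟩ := (LinearMap.range (ρ : EG →ₗ[ℝ] E)).exists_isCompl
  obtain ⟨LE, hLE⟩ := exists_LE ρ C hC N hN
  let e1 : (C × K) ≃L[ℝ] EG := (Submodule.prodEquivOfIsCompl C K hC.symm).toContinuousLinearEquiv
  have he1 : ∀ v : C × K, e1 v = v.1 + v.2 := fun v => rfl
  obtain ⟨D₀, hD₀⟩ := h₀.invertible.self_of_nhds
  have hD₀' : ∀ v : V, chartD (V := V) IG Φ₀ v = D₀ v := fun v => by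
    exact (DFunLike.congr_fun hD₀ v).symm
  let A₀ : (C × K) ≃L[ℝ] V := e1.trans D₀.symm
  have hΦ : LocalChart IG (fun y : C × K => Φ₀ (A₀ y)) (fun g => A₀.symm (Ψ₀ g)) :=
    h₀.comp (K := A₀.symm) (K' := A₀)
      (Eventually.of_forall fun y => A₀.symm.contDiff.contDiffAt)
      (Eventually.of_forall fun y => A₀.contDiff.contDiffAt) (map_zero _) (map_zero _)
      (Eventually.of_forall fun x => A₀.apply_symm_apply x)
      (Eventually.of_forall fun x => A₀.symm_apply_apply x)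
  have hΦD : ∀ v : C × K, (chartD (V := C × K) IG (fun y : C × K => Φ₀ (A₀ y)) v : EG) =
      (v.1.1 + v.2.1 : EG) := by
    intro v
    rw [chartD_comp h₀ (map_zero A₀) A₀.hasFDerivAt]
    have h1 : (chartD (V := V) IG Φ₀ (A₀ v) : EG) = D₀ (A₀ v) := hD₀' (A₀ v)
    have h2 : D₀ (A₀ v) = e1 v := D₀.apply_symm_apply _
    exact (h1.trans h2).trans (he1 v)
  have hLE' : ∀ u : C, LE (u, 0) =
      infAct IG G x₀ (chartD (V := C × K) IG (fun y : C × K => Φ₀ (A₀ y)) (u, 0)) := by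
    intro u
    have h1 : (chartD (V := C × K) IG (fun y : C × K => Φ₀ (A₀ y)) (u, 0) : EG) = (u.1 : EG) := by
      rw [hΦD]; simp
    rw [hLE]
    show ρ u + ((0 : N) : E) = ρ (chartD (V := C × K) IG (fun y : C × K => Φ₀ (A₀ y)) (u, 0) : EG)
    rw [h1]; simp
  have hW : ∀ w : K,
      infAct IG G x₀ (chartD (V := C × K) IG (fun y : C × K => Φ₀ (A₀ y)) (0, w)) = 0 := by
    intro w
    have h1 : (chartD (V := C × K) IG (fun y : C × K => Φ₀ (A₀ y)) (0, w) : EG) = (w.1 : EG) := by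
      rw [hΦD]; simp
    show ρ (chartD (V := C × K) IG (fun y : C × K => Φ₀ (A₀ y)) (0, w) : EG) = 0
    rw [h1]
    exact w.2
  obtain ⟨Θ, Θ', hΘ0, hΘ'0, hΘs, hΘ's, hΘd, hΘ'd, hleft, hright, hΘu, hinv⟩ :=
    exists_slice x₀ hmax hΦ LE hLE' hW
  have hΘt : Tendsto Θ (𝓝 0) (𝓝 x₀) := by
    have := hΘs.self_of_nhds.continuousAt.tendsto
    rwa [hΘ0] at this
  -- the action in the coordinates
  let a : G × (C × N) → C × N := fun z => Θ' (z.1 • Θ z.2)
  have hactt : Tendsto (fun z : G × (C × N) => (z.1, Θ z.2)) (𝓝 ((1 : G), (0 : C × N)))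
      (𝓝 ((1 : G), x₀)) := by
    have h1 : Tendsto (fun z : G × (C × N) => z.1) (𝓝 ((1 : G), (0 : C × N))) (𝓝 1) :=
      continuous_fst.tendsto _
    have h2 : Tendsto (fun z : G × (C × N) => Θ z.2) (𝓝 ((1 : G), (0 : C × N))) (𝓝 x₀) :=
      hΘt.comp (continuous_snd.tendsto _)
    have h3 := h1.prodMk h2
    rwa [← nhds_prod_eq] at h3
  have hsm : Tendsto (fun z : G × E => z.1 • z.2) (𝓝 ((1 : G), x₀)) (𝓝 x₀) := by
    have : ContinuousAt (fun z : G × E => z.1 • z.2) ((1 : G), x₀) := by fun_prop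
    have h := this.tendsto
    rwa [one_smul] at h
  have ha : IsLocalAction IG a 0 := by
    refine ⟨?_, ?_, ?_⟩
    · have h1 : Sm (IG.prod 𝓘(ℝ, C × N)) IG (fun z : G × (C × N) => z.1) ((1 : G), (0 : C × N)) :=
        Sm.of contMDiff_fst
      have h2 : Sm (IG.prod 𝓘(ℝ, C × N)) 𝓘(ℝ, C × N) (fun z : G × (C × N) => z.2)
          ((1 : G), (0 : C × N)) := Sm.of contMDiff_snd
      have h3 : Sm 𝓘(ℝ, C × N) 𝓘(ℝ, E) Θ 0 := sm_iff_smN.2 hΘs
      have h4 : Sm 𝓘(ℝ, E) 𝓘(ℝ, C × N) Θ' x₀ := sm_iff_smN.2 hΘ's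
      have h5 : Sm (IG.prod 𝓘(ℝ, C × N)) 𝓘(ℝ, E) (fun z : G × (C × N) => z.1 • Θ z.2)
          ((1 : G), (0 : C × N)) := (sm_smul IG _).comp (h1.prodMk (h3.comp h2 rfl)) rfl
      exact h4.comp h5 (by rw [hΘ0, one_smul])
    · filter_upwards [hleft] with v hv
      show Θ' ((1 : G) • Θ v) = v
      rw [one_smul, hv]
    · have c1 : Tendsto (fun z : (G × G) × (C × N) => (z.1.2, z.2))
          (𝓝 (((1 : G), (1 : G)), (0 : C × N))) (𝓝 ((1 : G), (0 : C × N))) := by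
        have : ContinuousAt (fun z : (G × G) × (C × N) => (z.1.2, z.2))
          (((1 : G), (1 : G)), (0 : C × N)) := by fun_prop
        exact this.tendsto
      filter_upwards [(hsm.comp (hactt.comp c1)).eventually hright] with z hz
      have hz' : Θ (Θ' (z.1.2 • Θ z.2)) = z.1.2 • Θ z.2 := hz
      show Θ' ((z.1.1 * z.1.2) • Θ z.2) = Θ' (z.1.1 • Θ (Θ' (z.1.2 • Θ z.2)))
      rw [hz', mul_smul]
  have hainv : Inv2 a 0 := by
    have c1 : Tendsto (fun z : G × (C × N) => z.2) (𝓝 ((1 : G), (0 : C × N))) (𝓝 0) :=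
      continuous_snd.tendsto _
    filter_upwards [hactt.eventually hinv, c1.eventually hleft] with z h1 h2
    show (Θ' (z.1 • Θ z.2)).2 = z.2.2
    have h1' : (Θ' (z.1 • Θ z.2)).2 = (Θ' (Θ z.2)).2 := h1
    rw [h1', h2]
  have hconj : (ofPt k a 0 ha).Homotopic
      ((ofPt k (fun z : G × E => z.1 • z.2) x₀ (isLocalAction_smul IG x₀)).lin LE) := by
    refine ofPt_conj k (isLocalAction_smul IG x₀) ha Θ hΘ0 hΘs LE hΘd ?_
    filter_upwards [(hsm.comp hactt).eventually hright] with z hz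
    exact hz
  have haU : IsLocalAction IG (fstAct a 0) 0 := fstAct_local (u := 0) (n := 0) ha hainv
  have hcut := cut_homotopic k a ha hainv haU
  -- the adapted chart
  let Φ : C × K → G := fun y => Φ₀ (A₀ y)
  let Ψ : G → C × K := fun g => A₀.symm (Ψ₀ g)
  have hΦ' : LocalChart IG Φ Ψ := hΦ
  let q : C × K → C × K := fun v => ((Θ' (Φ v • x₀)).1, v.2)
  have hact0 : Φ 0 • x₀ = x₀ := by rw [hΦ'.zero, one_smul]
  have hactS : Sm 𝓘(ℝ, C × K) 𝓘(ℝ, E) (fun v : C × K => Φ v • x₀) 0 :=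
    (sm_smul IG _).comp (hΦ'.smooth.prodMk Sm.const) rfl
  have hq0 : q 0 = 0 := by
    show ((Θ' (Φ 0 • x₀)).1, (0 : C × K).2) = 0
    rw [hact0, hΘ'0]; rfl
  have hqs : SmN q 0 := by
    rw [← sm_iff_smN]
    have h4 : Sm 𝓘(ℝ, E) 𝓘(ℝ, C × N) Θ' x₀ := sm_iff_smN.2 hΘ's
    exact ((h4.comp hactS hact0).fst_space).prodMk_space (Sm.of contDiff_snd.contMDiff)
  have hqd : HasFDerivAt q (ContinuousLinearMap.id ℝ (C × K)) 0 := by
    let D : C × K →L[ℝ] EG := chartD (V := C × K) IG Φ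
    have m1 : HasMFDerivAt 𝓘(ℝ, C × K) IG Φ 0 D := hΦ'.hasMFDerivAt_zero
    have m2 : HasMFDerivAt IG 𝓘(ℝ, E) (fun g : G => g • x₀) (Φ 0) ρ := by
      rw [hΦ'.zero]; exact hasMFDerivAt_orbit G x₀
    have m3 : HasMFDerivAt 𝓘(ℝ, C × K) 𝓘(ℝ, E) (fun v => Φ v • x₀) 0 (ρ.comp D) :=
      HasMFDerivAt.comp (0 : C × K) (g := fun g : G => g • x₀) (f := Φ) m2 m1
    have m4 : HasFDerivAt (fun v => Φ v • x₀) (ρ.comp D) 0 := hasMFDerivAt_iff_hasFDerivAt.1 m3
    have m5 : HasFDerivAt Θ' (LE.symm : E →L[ℝ] C × N) (Φ 0 • x₀) := by rw [hact0]; exact hΘ'd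
    have m6 : HasFDerivAt (fun v => Θ' (Φ v • x₀)) ((LE.symm : E →L[ℝ] C × N).comp (ρ.comp D)) 0 :=
      HasFDerivAt.comp (0 : C × K) (g := Θ') (f := fun v => Φ v • x₀) m5 m4
    have m7 : HasFDerivAt q (((ContinuousLinearMap.fst ℝ C N).comp
        ((LE.symm : E →L[ℝ] C × N).comp (ρ.comp D))).prod (ContinuousLinearMap.snd ℝ C K)) 0 := by
      refine HasFDerivAt.prodMk ?_ hasFDerivAt_snd
      exact HasFDerivAt.comp (0 : C × K) (g := fun p : C × N => p.1)
        (f := fun v => Θ' (Φ v • x₀)) hasFDerivAt_fst m6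
    refine m7.congr_fderiv (ContinuousLinearMap.ext fun v => Prod.ext ?_ rfl)
    show (LE.symm (ρ (D v))).1 = v.1
    have h1 : ρ (D v) = LE (v.1, 0) := by
      have h2 : D v = v.1.1 + v.2.1 := hΦD v
      have h3 : ρ (v.2 : EG) = 0 := v.2.2
      rw [h2, map_add, h3, hLE]; simp
    rw [h1, LE.symm_apply_apply]
  obtain ⟨q', hq'0, hq's, hq'd, hqleft, hqright⟩ :=
    exists_local_inverse hqs hq0 (ContinuousLinearEquiv.refl ℝ (C × K)) hqd
  have hqc' : Tendsto q' (𝓝 0) (𝓝 0) := by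
    have := hq's.self_of_nhds.continuousAt.tendsto
    rwa [hq'0] at this
  -- `Φ v • x₀` lies in the leaf `n = 0`
  have hleaf : ∀ᶠ v in 𝓝 (0 : C × K), (Θ' (Φ v • x₀)).2 = 0 := by
    have c1 : Tendsto (fun v : C × K => (Φ v, x₀)) (𝓝 0) (𝓝 ((1 : G), x₀)) := by
      have h3 := hΦ'.tendsto.prodMk (tendsto_const_nhds (x := x₀) (f := 𝓝 (0 : C × K)))
      rwa [← nhds_prod_eq] at h3
    filter_upwards [c1.eventually hinv] with v hv
    have hv' : (Θ' (Φ v • x₀)).2 = (Θ' x₀).2 := hv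
    rw [hv', hΘ'0]; rfl
  have hactT : Tendsto (fun v : C × K => Φ v • x₀) (𝓝 0) (𝓝 x₀) := by
    have := hactS.continuousAt.tendsto
    rwa [hact0] at this
  have hadapt : AdaptedChart IG (fun y => Φ (q' y)) (fun g => q (Ψ g)) (fstAct a 0) := by
    refine ⟨hΦ'.comp hqs hq's hq0 hq'0 hqleft hqright, haU, ?_⟩
    have c1 : Tendsto (fun z : G × (C × K) => z.2) (𝓝 ((1 : G), (0 : C × K))) (𝓝 0) :=
      continuous_snd.tendsto _
    have c2 : Tendsto (fun z : G × (C × K) => z.1 * Φ (q' z.2)) (𝓝 ((1 : G), (0 : C × K)))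
        (𝓝 1) := by
      have h1 : Tendsto (fun z : G × (C × K) => z.1) (𝓝 ((1 : G), (0 : C × K))) (𝓝 1) :=
        continuous_fst.tendsto _
      have h2 := h1.mul (hΦ'.tendsto.comp (hqc'.comp c1))
      simpa using h2
    filter_upwards [c1.eventually hqright, c2.eventually hΦ'.right_inv,
      (hqc'.comp c1).eventually hleaf, (hactT.comp (hqc'.comp c1)).eventually hright]
      with z h1 h2 h3 h4
    show (Θ' (Φ (Ψ (z.1 * Φ (q' z.2))) • x₀)).1 = (Θ' (z.1 • Θ (z.2.1, 0))).1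
    rw [h2, mul_smul]
    have h5 : (Θ' (Φ (q' z.2) • x₀)).1 = z.2.1 := (Prod.ext_iff.1 h1).1
    have h6 : Θ' (Φ (q' z.2) • x₀) = (z.2.1, 0) := Prod.ext h5 h3
    have h7 : Θ (Θ' (Φ (q' z.2) • x₀)) = Φ (q' z.2) • x₀ := h4
    rw [← h7, h6]
  -- the subalgebra
  have hmem : ∀ x, x ∈ 𝔥 ↔ ∃ w : K, chartD (V := C × K) IG (fun y => Φ (q' y)) (0, w) = x := by
    have h1 : ∀ w : K, (chartD (V := C × K) IG (fun y => Φ (q' y)) (0, w) : EG) = (w.1 : EG) := by
      intro w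
      rw [chartD_comp hΦ' hq'0 hq'd]
      have h2 : (chartD (V := C × K) IG Φ ((0 : C), w) : EG) = (w.1 : EG) := by
        have := hΦD ((0 : C), w)
        rw [show (chartD (V := C × K) IG Φ ((0 : C), w) : EG) = _ from this]
        simp
      exact h2
    intro x
    rw [h𝔥]
    constructor
    · intro hx
      exact ⟨⟨x, hx⟩, h1 _⟩
    · rintro ⟨w, rfl⟩
      have h2 := h1 w
      show ρ (chartD (V := C × K) IG (fun y => Φ (q' y)) (0, w) : EG) = 0
      rw [h2]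
      exact w.2
  have hmain := main_induction k (Module.finrank ℝ K) C K _ _ _ hadapt 𝔥 hsol hmem rfl
  -- comparison of the charts
  have hcmp : (ofPt k (chartAct Φ₀ Ψ₀) 0 h₀.isLocalAction).Homotopic
      ((ofPt k (chartAct (fun y => Φ (q' y)) (fun g => q (Ψ g))) 0
        hadapt.chart.isLocalAction).lin A₀.symm) := by
    refine ofPt_conj k hadapt.chart.isLocalAction h₀.isLocalAction (fun v => q (A₀.symm v)) ?_ ?_
      A₀.symm ?_ ?_
    · show q (A₀.symm 0) = 0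
      rw [map_zero, hq0]
    · have c1 : Tendsto (fun v : V => A₀.symm v) (𝓝 0) (𝓝 0) := by
        have := A₀.symm.continuous.tendsto 0
        rwa [map_zero] at this
      filter_upwards [c1.eventually hqs] with v hv
      exact ContDiffAt.comp v (g := q) (f := fun v => A₀.symm v) hv A₀.symm.contDiff.contDiffAt
    · have h1 : HasFDerivAt q (ContinuousLinearMap.id ℝ (C × K)) (A₀.symm 0) := by
        rw [map_zero]; exact hqd
      have h2 := HasFDerivAt.comp (0 : V) (g := q) (f := fun v => A₀.symm v) h1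
        A₀.symm.hasFDerivAt
      rwa [ContinuousLinearMap.id_comp] at h2
    · have c1 : Tendsto (fun z : G × V => A₀.symm z.2) (𝓝 ((1 : G), (0 : V))) (𝓝 0) := by
        have h1 := A₀.symm.continuous.tendsto 0
        rw [map_zero] at h1
        exact h1.comp (continuous_snd.tendsto _)
      filter_upwards [c1.eventually hqleft] with z hz
      show q (A₀.symm (Ψ₀ (z.1 * Φ₀ z.2))) =
        q (A₀.symm (Ψ₀ (z.1 * Φ₀ (A₀ (q' (q (A₀.symm z.2)))))))
      rw [hz, A₀.apply_symm_apply]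
  let τ := ofPt k (fun z : G × E => z.1 • z.2) x₀ (isLocalAction_smul IG x₀)
  refine ⟨C, K, N, ofPt k (fstAct a 0) 0 haU, A₀.symm, LE.symm, ?_, ?_, ?_⟩
  · have h1 := e1.toLinearEquiv.finrank_eq
    rw [Module.finrank_prod] at h1
    exact h1.symm
  · exact hcmp.trans (hmain.lin A₀.symm)
  · have s1 : (τ.lin LE).Homotopic ((ofPt k (fstAct a 0) 0 haU).stab N) :=
      hconj.symm.trans hcut
    exact (GammaBar.Homotopic.of_equal (GammaBar.lin_symm τ LE).symm).trans (s1.lin LE.symm)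

/-- Near a point where the dimension of the orbits is maximal and the isotropy algebra is solvable,
the structure defined by an action on a vector space is, after stabilisation, the one of the group
acting on itself. -/
theorem core (k : GCocycle IB B IG G) (x₀ : E)
    (hmax : ∀ᶠ x in 𝓝 x₀, Module.finrank ℝ (LinearMap.range (infAct IG G x : EG →ₗ[ℝ] E)) ≤
      Module.finrank ℝ (LinearMap.range (infAct IG G x₀ : EG →ₗ[ℝ] E)))
    (𝔥 : LieSubalgebra ℝ (GroupLieAlgebra IG G)) (hsol : LieAlgebra.IsSolvable 𝔥)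
    (h𝔥 : ∀ ξ : GroupLieAlgebra IG G, ξ ∈ 𝔥 ↔ infAct IG G x₀ ξ = 0)
    {Φ₀ : V → G} {Ψ₀ : G → V} (h₀ : LocalChart IG Φ₀ Ψ₀)
    (hdim : Module.finrank ℝ E + Module.finrank ℝ W' = Module.finrank ℝ EG) :
    ∃ A : V ≃L[ℝ] E × W', (ofPt k (chartAct Φ₀ Ψ₀) 0 h₀.isLocalAction).Homotopic
      (((ofPt k (fun z : G × E => z.1 • z.2) x₀ (isLocalAction_smul IG x₀)).stab W').lin A) := by
  obtain ⟨C, K, N, σ, A₁, A₂, h1, h2, h3⟩ := core_pre k x₀ hmax 𝔥 hsol h𝔥 h₀
  have hfin : Module.finrank ℝ K = Module.finrank ℝ (N × W') := by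
    have h4 := A₂.toLinearEquiv.finrank_eq
    rw [Module.finrank_prod] at h4 ⊢
    omega
  let S : K ≃L[ℝ] N × W' := ContinuousLinearEquiv.ofFinrankEq hfin
  let τ := ofPt k (fun z : G × E => z.1 • z.2) x₀ (isLocalAction_smul IG x₀)
  have s1 : (σ.stab K).Homotopic (((σ.stab N).stab W').lin (splitL C S)) :=
    GammaBar.Homotopic.of_equal (GammaBar.stab_split _ S)
  have s0 : (σ.stab N).Homotopic (τ.lin A₂.symm) :=
    ((h3.lin A₂.symm).trans (GammaBar.Homotopic.of_equal (GammaBar.lin_symm _ A₂))).symm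
  have s2 : ((σ.stab N).stab W').Homotopic
      ((τ.stab W').lin (A₂.symm.prodCongr (ContinuousLinearEquiv.refl ℝ W'))) :=
    (s0.stab (W := W')).trans (GammaBar.Homotopic.of_equal (GammaBar.lin_stab τ A₂.symm))
  have s3 : (σ.stab K).Homotopic ((τ.stab W').lin
      ((splitL C S).trans (A₂.symm.prodCongr (ContinuousLinearEquiv.refl ℝ W')))) :=
    (s1.trans (s2.lin (splitL C S))).trans (GammaBar.Homotopic.of_equal (GammaBar.lin_lin _ _ _))
  exact ⟨_, (h2.trans (s3.lin A₁)).trans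
    (GammaBar.Homotopic.of_equal (GammaBar.lin_lin _ _ _))⟩

/-- The same if the dimension of the group is smaller than that of the vector space. -/
theorem core' (k : GCocycle IB B IG G) (x₀ : E)
    (hmax : ∀ᶠ x in 𝓝 x₀, Module.finrank ℝ (LinearMap.range (infAct IG G x : EG →ₗ[ℝ] E)) ≤
      Module.finrank ℝ (LinearMap.range (infAct IG G x₀ : EG →ₗ[ℝ] E)))
    (𝔥 : LieSubalgebra ℝ (GroupLieAlgebra IG G)) (hsol : LieAlgebra.IsSolvable 𝔥)
    (h𝔥 : ∀ ξ : GroupLieAlgebra IG G, ξ ∈ 𝔥 ↔ infAct IG G x₀ ξ = 0)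
    {Φ₀ : V → G} {Ψ₀ : G → V} (h₀ : LocalChart IG Φ₀ Ψ₀)
    (hdim : Module.finrank ℝ EG + Module.finrank ℝ W' = Module.finrank ℝ E) :
    ∃ A : E ≃L[ℝ] V × W',
      (ofPt k (fun z : G × E => z.1 • z.2) x₀ (isLocalAction_smul IG x₀)).Homotopic
        (((ofPt k (chartAct Φ₀ Ψ₀) 0 h₀.isLocalAction).stab W').lin A) := by
  obtain ⟨C, K, N, σ, A₁, A₂, h1, h2, h3⟩ := core_pre k x₀ hmax 𝔥 hsol h𝔥 h₀
  have hfin : Module.finrank ℝ N = Module.finrank ℝ (K × W') := by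
    have h4 := A₂.toLinearEquiv.finrank_eq
    rw [Module.finrank_prod] at h4 ⊢
    omega
  let S : N ≃L[ℝ] K × W' := ContinuousLinearEquiv.ofFinrankEq hfin
  let τ := ofPt k (chartAct Φ₀ Ψ₀) 0 h₀.isLocalAction
  have s1 : (σ.stab N).Homotopic (((σ.stab K).stab W').lin (splitL C S)) :=
    GammaBar.Homotopic.of_equal (GammaBar.stab_split _ S)
  have s0 : (σ.stab K).Homotopic (τ.lin A₁.symm) :=
    ((h2.lin A₁.symm).trans (GammaBar.Homotopic.of_equal (GammaBar.lin_symm _ A₁))).symm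
  have s2 : ((σ.stab K).stab W').Homotopic
      ((τ.stab W').lin (A₁.symm.prodCongr (ContinuousLinearEquiv.refl ℝ W'))) :=
    (s0.stab (W := W')).trans (GammaBar.Homotopic.of_equal (GammaBar.lin_stab τ A₁.symm))
  have s3 : (σ.stab N).Homotopic ((τ.stab W').lin
      ((splitL C S).trans (A₁.symm.prodCongr (ContinuousLinearEquiv.refl ℝ W')))) :=
    (s1.trans (s2.lin (splitL C S))).trans (GammaBar.Homotopic.of_equal (GammaBar.lin_lin _ _ _))
  exact ⟨_, (h3.trans (s3.lin A₂)).trans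
    (GammaBar.Homotopic.of_equal (GammaBar.lin_lin _ _ _))⟩

end Core

end Pool.Agent.MP_602746_gt
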