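import Mathlib
import Pool.Agent.MP_602746_gt.Gen

open scoped Manifold ContDiff Topology
open Set Filter

noncomputable section

namespace Pool.Agent.MP_602746_gt

variable {EG : Type*} [NormedAddCommGroup EG] [NormedSpace ℝ EG] [FiniteDimensional ℝ EG]
  {HG : Type*} [TopologicalSpace HG]
  {IG : ModelWithCorners ℝ EG HG} {G : Type*} [TopologicalSpace G] [ChartedSpace HG G] [Group G]
  [LieGroup IG ∞ G]
  {E : Type*} [NormedAddCommGroup E] [NormedSpace ℝ E] [FiniteDimensional ℝ E]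
  [MulAction G E] [ContMDiffSMul IG 𝓘(ℝ, E) ∞ G E]
  {EB : Type*} [NormedAddCommGroup EB] [NormedSpace ℝ EB] {HB : Type*} [TopologicalSpace HB]
  {IB : ModelWithCorners ℝ EB HB} {B : Type*} [TopologicalSpace B] [ChartedSpace HB B]
  {V : Type*} [NormedAddCommGroup V] [NormedSpace ℝ V] [FiniteDimensional ℝ V]
  {W' : Type*} [NormedAddCommGroup W'] [NormedSpace ℝ W'] [FiniteDimensional ℝ W']

/-- A point of an open set at which the dimension of the orbits is maximal. -/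
theorem exists_max_point (O : Set E) (hO : IsOpen O) (hne : O.Nonempty) :
    ∃ x₀ ∈ O, ∀ᶠ x in 𝓝 x₀,
      Module.finrank ℝ (LinearMap.range (infAct IG G x : EG →ₗ[ℝ] E)) ≤
        Module.finrank ℝ (LinearMap.range (infAct IG G x₀ : EG →ₗ[ℝ] E)) := by
  let S : Set ℕ := {n | ∃ x ∈ O, Module.finrank ℝ
    (LinearMap.range (infAct IG G x : EG →ₗ[ℝ] E)) = n}
  have hS : S.Nonempty := by
    obtain ⟨x, hx⟩ := hne
    exact ⟨_, x, hx, rfl⟩
  have hb : BddAbove S := by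
    refine ⟨Module.finrank ℝ E, ?_⟩
    rintro n ⟨x, -, rfl⟩
    exact Submodule.finrank_le _
  obtain ⟨x₀, hx₀, hn⟩ := Nat.sSup_mem hS hb
  refine ⟨x₀, hx₀, ?_⟩
  filter_upwards [hO.mem_nhds hx₀] with x hx
  rw [hn]
  exact le_csSup hb ⟨x, hx, rfl⟩

/-- The structures defined by an action near any two points of a vector space are homotopic. -/
theorem slide_points (k : GCocycle IB B IG G) (x y : E) :
    (ofPt k (fun z : G × E => z.1 • z.2) x (isLocalAction_smul IG x)).Homotopic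
      (ofPt k (fun z : G × E => z.1 • z.2) y (isLocalAction_smul IG y)) := by
  refine slide' k (fun z : G × E => z.1 • z.2) (fun t => x + t • (y - x)) ?_
    (fun t => isLocalAction_smul IG _) ?_ ?_ _ _
  · exact contDiff_const.add (contDiff_id.smul contDiff_const)
  · simp
  · simp

/-- If the isotropy algebras at the points of a nonempty open set are solvable, then the structure
defined by the action near any point is, after stabilisation, that of the group acting on itself. -/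
theorem gen_points (k : GCocycle IB B IG G) (O : Set E) (hO : IsOpen O) (hne : O.Nonempty)
    (hsol : ∀ x ∈ O, ∃ 𝔥 : LieSubalgebra ℝ (GroupLieAlgebra IG G), LieAlgebra.IsSolvable 𝔥 ∧
      ∀ ξ : GroupLieAlgebra IG G, ξ ∈ 𝔥 ↔ infAct IG G x ξ = 0)
    {Φ₀ : V → G} {Ψ₀ : G → V} (h₀ : LocalChart IG Φ₀ Ψ₀)
    (hdim : Module.finrank ℝ E + Module.finrank ℝ W' = Module.finrank ℝ EG) (x : E) :
    ∃ A : V ≃L[ℝ] E × W', (ofPt k (chartAct Φ₀ Ψ₀) 0 h₀.isLocalAction).Homotopic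
      (((ofPt k (fun z : G × E => z.1 • z.2) x (isLocalAction_smul IG x)).stab W').lin A) := by
  obtain ⟨x₀, hx₀, hmax⟩ := exists_max_point (IG := IG) (G := G) O hO hne
  obtain ⟨𝔥, h1, h2⟩ := hsol x₀ hx₀
  obtain ⟨A, hA⟩ := core k x₀ hmax 𝔥 h1 h2 h₀ hdim
  exact ⟨A, hA.trans (((slide_points k x₀ x).stab (W := W')).lin A)⟩

variable {EM : Type*} [NormedAddCommGroup EM] [NormedSpace ℝ EM] {HM : Type*} [TopologicalSpace HM]
  {IM : ModelWithCorners ℝ EM HM} {M : Type*} [TopologicalSpace M] [ChartedSpace HM M]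
  {V' : Type*} [NormedAddCommGroup V'] [NormedSpace ℝ V'] [FiniteDimensional ℝ V']

/-- The derivative of a local parametrisation at `0`, as an equivalence. -/
theorem exists_deriv_equiv (ψ : PartialDiffeomorph 𝓘(ℝ, V') 𝓘(ℝ, E) V' E ∞)
    (h0 : (0 : V') ∈ ψ.source) : ∃ A : V' ≃L[ℝ] E, HasFDerivAt ψ (A : V' →L[ℝ] E) 0 := by
  have h1 : IsLocalDiffeomorphAt 𝓘(ℝ, V') 𝓘(ℝ, E) ∞ ψ 0 := ⟨ψ, h0, fun _ _ => rfl⟩
  have h2 := IsLocalDiffeomorphAt.bijective_fderiv' h1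
  have h3 : HasFDerivAt ψ (fderiv ℝ ψ 0) 0 :=
    ((IsLocalDiffeomorphAt.smooth_near' h1).self_of_nhds.differentiableAt (by simp)).hasFDerivAt
  refine ⟨ContinuousLinearEquiv.ofBijective (fderiv ℝ ψ 0) (LinearMap.ker_eq_bot.2 h2.1)
    (LinearMap.range_eq_top.2 h2.2), ?_⟩
  exact h3

/-- The structure defined by a local parametrisation and by its base point. -/
theorem haefliger_base (𝓕 : LieStructure IM M IG G)
    (ψX : PartialDiffeomorph 𝓘(ℝ, V') 𝓘(ℝ, E) V' E ∞) (hX : (0 : V') ∈ ψX.source) :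
    ∃ A : V' ≃L[ℝ] E, (𝓕.haefliger ψX hX).Homotopic
      ((ofPt 𝓕.cocycle (fun z : G × E => z.1 • z.2) (ψX 0) (isLocalAction_smul IG _)).lin A) := by
  obtain ⟨A, hA⟩ := exists_deriv_equiv ψX hX
  refine ⟨A, ?_⟩
  have hloc : IsLocalAction IG (fun z : G × V' => ψX.symm (z.1 • ψX z.2)) 0 :=
    isLocalAction_chart ψX hX
  refine (GammaBar.Homotopic.of_equal (haefliger_equal_X 𝓕 ψX hX hloc).symm).trans ?_
  have := ContMDiffSMul.continuousSMul (G := G) (M := E) (I := IG) (I' := 𝓘(ℝ, E)) ∞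
  refine ofPt_conj 𝓕.cocycle (isLocalAction_smul IG (ψX 0)) hloc ψX rfl
    (sm_iff_smN.1 (PD.sm ψX hX)) A hA ?_
  have c1 : Tendsto (fun z : G × V' => z.1 • ψX z.2) (𝓝 ((1 : G), (0 : V'))) (𝓝 (ψX 0)) := by
    have h1 : Tendsto (fun z : G × V' => z.1) (𝓝 ((1 : G), (0 : V'))) (𝓝 1) :=
      continuous_fst.tendsto _
    have h2 : Tendsto (fun z : G × V' => ψX z.2) (𝓝 ((1 : G), (0 : V'))) (𝓝 (ψX 0)) :=
      (PD.sm ψX hX).continuousAt.tendsto.comp (continuous_snd.tendsto _)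
    have h3 := h1.smul h2
    rwa [one_smul] at h3
  filter_upwards [c1.eventually (ψX.open_target.mem_nhds (PD.mem ψX hX))] with z hz
  exact PD.right ψX hz

/-- The theorem on actions on vector spaces. -/
theorem gen_main (𝓕 : LieStructure IM M IG G) (O : Set E) (hO : IsOpen O) (hne : O.Nonempty)
    (hsol : ∀ x ∈ O, ∃ 𝔥 : LieSubalgebra ℝ (GroupLieAlgebra IG G), LieAlgebra.IsSolvable 𝔥 ∧
      ∀ ξ : GroupLieAlgebra IG G, ξ ∈ 𝔥 ↔
        mfderiv IG 𝓘(ℝ, E) (fun g : G => g • x) (1 : G) ξ = 0)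
    (hdim : Module.finrank ℝ E + Module.finrank ℝ W' = Module.finrank ℝ EG)
    (ψG : PartialDiffeomorph 𝓘(ℝ, V) IG V G ∞) (hG : (0 : V) ∈ ψG.source) (h1 : ψG 0 = 1)
    (ψX : PartialDiffeomorph 𝓘(ℝ, V') 𝓘(ℝ, E) V' E ∞) (hX : (0 : V') ∈ ψX.source) :
    ∃ A : V ≃L[ℝ] V' × W',
      (𝓕.haefliger ψG hG).Homotopic (((𝓕.haefliger ψX hX).stab W').lin A) := by
  have hchart := localChart_of_pd ψG hG h1
  obtain ⟨A, hA⟩ := gen_points (W' := W') 𝓕.cocycle O hO hne hsol hchart hdim (ψX 0)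
  obtain ⟨A', hA'⟩ := haefliger_base 𝓕 ψX hX
  have e1 : (𝓕.haefliger ψG hG).Homotopic
      (ofPt 𝓕.cocycle (chartAct ψG ψG.symm) 0 hchart.isLocalAction) :=
    GammaBar.Homotopic.of_equal (haefliger_equal_G 𝓕 ψG hG hchart.isLocalAction).symm
  have e2 : (ofPt 𝓕.cocycle (fun z : G × E => z.1 • z.2) (ψX 0)
      (isLocalAction_smul IG _)).Homotopic ((𝓕.haefliger ψX hX).lin A'.symm) :=
    (GammaBar.Homotopic.of_equal (GammaBar.lin_symm _ A').symm).trans (hA'.symm.lin A'.symm)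
  have e3 := ((e2.stab (W := W')).trans
    (GammaBar.Homotopic.of_equal (GammaBar.lin_stab _ A'.symm))).lin A
  exact ⟨_, ((e1.trans hA).trans e3).trans
    (GammaBar.Homotopic.of_equal (GammaBar.lin_lin _ _ _))⟩

end Pool.Agent.MP_602746_gt
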