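import Mathlib

noncomputable section

namespace Pool.Agent.MP_602746_gt

open LieAlgebra LieSubalgebra Module Cardinal

/-- The Engel subalgebra of a regular element is nilpotent. -/
theorem isNilpotent_engel_of_isRegular {L : Type*} [LieRing L] [LieAlgebra ℝ L]
    [Module.Finite ℝ L] {x : L} (hx : IsRegular ℝ x) : LieRing.IsNilpotent (engel ℝ x) := by
  have h : (finrank ℝ L : Cardinal) ≤ #ℝ :=
    natCast_le_aleph0.trans <| Cardinal.infinite_iff.mp inferInstance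
  apply isNilpotent_of_forall_le_engel
  intro y hy
  set Ex : {engel ℝ z | z ∈ engel ℝ x} := ⟨engel ℝ x, x, self_mem_engel _ _, rfl⟩
  suffices IsBot Ex from @this ⟨engel ℝ y, y, hy, rfl⟩
  apply engel_isBot_of_isMin h (engel ℝ x) Ex le_rfl
  rintro ⟨_, y, hy, rfl⟩ hyx
  suffices finrank ℝ (engel ℝ x) ≤ finrank ℝ (engel ℝ y) by
    suffices engel ℝ y = engel ℝ x from this.ge
    apply LieSubalgebra.toSubmodule_injective
    exact Submodule.eq_of_le_of_finrank_le hyx this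
  rw [(isRegular_iff_finrank_engel_eq_rank ℝ x).mp hx]
  apply rank_le_finrank_engel

/-- The centraliser of a regular element is a solvable subalgebra. -/
theorem exists_solvable_centralizer {L : Type*} [LieRing L] [LieAlgebra ℝ L]
    [Module.Finite ℝ L] {x : L} (hx : IsRegular ℝ x) :
    ∃ 𝔥 : LieSubalgebra ℝ L, LieAlgebra.IsSolvable 𝔥 ∧ ∀ ξ : L, ξ ∈ 𝔥 ↔ ⁅ξ, x⁆ = 0 := by
  let 𝔥 : LieSubalgebra ℝ L :=
    { carrier := {ξ | ⁅ξ, x⁆ = 0}
      add_mem' := fun {a b} ha hb => by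
        have ha' : ⁅a, x⁆ = 0 := ha
        have hb' : ⁅b, x⁆ = 0 := hb
        show ⁅a + b, x⁆ = 0
        rw [add_lie, ha', hb', add_zero]
      zero_mem' := zero_lie x
      smul_mem' := fun c a ha => by
        have ha' : ⁅a, x⁆ = 0 := ha
        show ⁅c • a, x⁆ = 0
        rw [smul_lie, ha', smul_zero]
      lie_mem' := fun {a b} ha hb => by
        have ha' : ⁅a, x⁆ = 0 := ha
        have hb' : ⁅b, x⁆ = 0 := hb
        show ⁅⁅a, b⁆, x⁆ = 0
        rw [lie_lie, ha', hb', lie_zero, lie_zero, sub_zero] }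
  have hmem : ∀ ξ, ξ ∈ 𝔥 ↔ ⁅ξ, x⁆ = 0 := fun ξ => Iff.rfl
  refine ⟨𝔥, ?_, hmem⟩
  have hle : 𝔥 ≤ engel ℝ x := by
    intro ξ hξ
    rw [mem_engel_iff]
    refine ⟨1, ?_⟩
    rw [pow_one, ad_apply, ← lie_skew, (hmem ξ).1 hξ, neg_zero]
  have hn := isNilpotent_engel_of_isRegular hx
  have hs : LieAlgebra.IsSolvable (engel ℝ x) := inferInstance
  exact (LieSubalgebra.inclusion_injective hle).lieAlgebra_isSolvable

/-- Regularity is the nonvanishing of a polynomial in the coordinates. -/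
theorem exists_regular_poly {L : Type*} [LieRing L] [LieAlgebra ℝ L] [Module.Finite ℝ L] :
    ∃ (ι : Type) (_ : Fintype ι) (b : L →ₗ[ℝ] (ι → ℝ)) (P : MvPolynomial ι ℝ),
      ∀ x : L, IsRegular ℝ x ↔ MvPolynomial.eval (b x) P ≠ 0 := by
  classical
  let b := Module.finBasis ℝ L
  obtain ⟨P, hP⟩ : ∃ P : MvPolynomial (Fin (finrank ℝ L)) ℝ,
      ∀ x : L, IsRegular ℝ x ↔ MvPolynomial.eval (b.repr x) P ≠ 0 :=
    ⟨_, fun x => LieAlgebra.isRegular_iff_coeff_polyCharpoly_rank_ne_zero ℝ b x⟩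
  exact ⟨_, inferInstance, (b.equivFun : L →ₗ[ℝ] (Fin (finrank ℝ L) → ℝ)), P, hP⟩

end Pool.Agent.MP_602746_gt
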