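import Mathlib
import Pool.Agent.MP_602746_gt.GenMain
import Pool.Agent.MP_602746_gt.AdRep
import Pool.Agent.MP_602746_gt.Regular

open scoped Manifold ContDiff Topology
open Set Filter

noncomputable section

namespace Pool.Agent.MP_602746_gt

section StabZero

variable {EB : Type*} [NormedAddCommGroup EB] [NormedSpace ℝ EB] {HB : Type*} [TopologicalSpace HB]
  {IB : ModelWithCorners ℝ EB HB} {B : Type*} [TopologicalSpace B] [ChartedSpace HB B]
  {V : Type*} [NormedAddCommGroup V] [NormedSpace ℝ V] [FiniteDimensional ℝ V]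
  {W : Type*} [NormedAddCommGroup W] [NormedSpace ℝ W] [FiniteDimensional ℝ W]

variable (V W) in
/-- The projection of `V × W` to `V` if `W = 0`. -/
def fstE [Subsingleton W] : (V × W) ≃L[ℝ] V :=
  ContinuousLinearEquiv.equivOfInverse (ContinuousLinearMap.fst ℝ V W)
    (ContinuousLinearMap.inl ℝ V W) (fun _ => Prod.ext rfl (Subsingleton.elim _ _)) (fun _ => rfl)

theorem GammaBar.stab_zero [Subsingleton W] (τ : GammaBar IB B V) :
    (τ.stab W).Equal (τ.lin (fstE V W)) := by
  intro b
  refine SameLeaves.of_eventuallyEq (Eventually.of_forall fun w => ?_)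
  exact Prod.ext rfl (Subsingleton.elim _ _)

end StabZero

variable {EG : Type*} [NormedAddCommGroup EG] [NormedSpace ℝ EG] [FiniteDimensional ℝ EG]
  {HG : Type*} [TopologicalSpace HG]
  {IG : ModelWithCorners ℝ EG HG} {G : Type*} [TopologicalSpace G] [ChartedSpace HG G] [Group G]
  [LieGroup IG ∞ G]
  {EM : Type*} [NormedAddCommGroup EM] [NormedSpace ℝ EM] {HM : Type*} [TopologicalSpace HM]
  {IM : ModelWithCorners ℝ EM HM} {M : Type*} [TopologicalSpace M] [ChartedSpace HM M]

omit [FiniteDimensional ℝ EG] in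
theorem isLocalAction_adj (x : EG) :
    IsLocalAction IG (fun z : G × EG => adj IG z.1 z.2) x := by
  refine ⟨Eventually.of_forall fun z => contMDiff_adj_apply z,
    Eventually.of_forall fun v => ?_, Eventually.of_forall fun z => ?_⟩
  · show adj IG (1 : G) v = v
    rw [adj_one]; rfl
  · show adj IG (z.1.1 * z.1.2) z.2 = adj IG z.1.1 (adj IG z.1.2 z.2)
    rw [adj_mul]; rfl

/-- The Haefliger structure, with trivialised normal bundle `M × 𝔤`, defined by the flat vector
bundle with fibre the Lie algebra `𝔤` of `G` associated with the structure `𝓕` and the adjoint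
representation, along its zero section: near `(m, 0)`, its leaves are the level sets of
`(m', v) ↦ Ad (f i m') v`. -/
def LieStructure.adjoint (𝓕 : LieStructure IM M IG G) : GammaBar IM M EG where
  F m := fun w => adj IG ((𝓕.f (𝓕.idx m) m)⁻¹ * 𝓕.f (𝓕.idx m) w.1) w.2
  smooth m := by
    have h := (GammaBar.ofAction 𝓕.cocycle (fun z : G × EG => adj IG z.1 z.2)
      (fun _ => (0 : EG)) contMDiff_const (fun _ => isLocalAction_adj 0)).smooth m
    simpa [GammaBar.ofAction, LieStructure.cocycle] using h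
  transverse m := by
    have h := (GammaBar.ofAction 𝓕.cocycle (fun z : G × EG => adj IG z.1 z.2)
      (fun _ => (0 : EG)) contMDiff_const (fun _ => isLocalAction_adj 0)).transverse m
    simpa [GammaBar.ofAction, LieStructure.cocycle] using h
  coherent m := by
    have h := (GammaBar.ofAction 𝓕.cocycle (fun z : G × EG => adj IG z.1 z.2)
      (fun _ => (0 : EG)) contMDiff_const (fun _ => isLocalAction_adj 0)).coherent m
    simpa [GammaBar.ofAction, LieStructure.cocycle] using h

instance finite_groupLieAlgebra : Module.Finite ℝ (GroupLieAlgebra IG G) :=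
  inferInstanceAs (Module.Finite ℝ EG)

instance free_groupLieAlgebra : Module.Free ℝ (GroupLieAlgebra IG G) :=
  inferInstanceAs (Module.Free ℝ EG)

variable (IG G) in
/-- The regular elements of the Lie algebra. -/
def regSet : Set EG := {x | LieAlgebra.IsRegular ℝ (show GroupLieAlgebra IG G from x)}

theorem isOpen_regSet : IsOpen (regSet IG G) := by
  obtain ⟨ι, _, b, P, hP⟩ := exists_regular_poly (L := GroupLieAlgebra IG G)
  let l : EG →ₗ[ℝ] (ι → ℝ) :=
    { toFun := fun x => b (show GroupLieAlgebra IG G from x)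
      map_add' := fun x y => map_add b (show GroupLieAlgebra IG G from x) _
      map_smul' := fun c x => map_smul b c (show GroupLieAlgebra IG G from x) }
  have h1 : regSet IG G = {x : EG | MvPolynomial.eval (l x) P ≠ 0} := by
    ext x
    exact hP x
  rw [h1]
  have hl : Continuous l := l.continuous_of_finiteDimensional
  have h2 : Continuous (fun x : EG => MvPolynomial.eval (l x) P) :=
    (MvPolynomial.continuous_eval P).comp hl
  exact isOpen_ne_fun h2 continuous_const

theorem nonempty_regSet : (regSet IG G).Nonempty := by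
  obtain ⟨x, hx⟩ := LieAlgebra.exists_isRegular ℝ (GroupLieAlgebra IG G)
  exact ⟨x, hx⟩

/-- Every structure modelled on a Lie group is homotopic to the one given by the zero section of the
associated flat adjoint bundle, up to a constant linear change of the trivialisation. -/
theorem adjoint_main {V : Type*} [NormedAddCommGroup V] [NormedSpace ℝ V] [FiniteDimensional ℝ V]
    (𝓕 : LieStructure IM M IG G)
    (ψG : PartialDiffeomorph 𝓘(ℝ, V) IG V G ∞) (hG : (0 : V) ∈ ψG.source) (h1 : ψG 0 = 1) :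
    ∃ A : V ≃L[ℝ] EG, (𝓕.haefliger ψG hG).Homotopic (𝓕.adjoint.lin A) := by
  let _ : MulAction G EG := adjMulAction IG G
  have : ContMDiffSMul IG 𝓘(ℝ, EG) ∞ G EG := ⟨contMDiff_adj_apply⟩
  have hchart := localChart_of_pd ψG hG h1
  have hsol : ∀ x ∈ regSet IG G, ∃ 𝔥 : LieSubalgebra ℝ (GroupLieAlgebra IG G),
      LieAlgebra.IsSolvable 𝔥 ∧ ∀ ξ : GroupLieAlgebra IG G, ξ ∈ 𝔥 ↔ infAct IG G x ξ = 0 := by
    intro x hx
    obtain ⟨𝔥, h2, h3⟩ := exists_solvable_centralizer (L := GroupLieAlgebra IG G) hx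
    refine ⟨𝔥, h2, fun ξ => ?_⟩
    rw [h3 ξ]
    have h4 : (infAct IG G x ξ : EG) = (⁅ξ, (show GroupLieAlgebra IG G from x)⁆ :
      GroupLieAlgebra IG G) := mfderiv_adj hchart ξ x
    rw [h4]
    exact Iff.rfl
  have hdim : Module.finrank ℝ EG + Module.finrank ℝ (Fin 0 → ℝ) = Module.finrank ℝ EG := by
    simp
  obtain ⟨A, hA⟩ := gen_points (W' := Fin 0 → ℝ) 𝓕.cocycle (regSet IG G) isOpen_regSet
    nonempty_regSet hsol hchart hdim (0 : EG)
  have e1 : (𝓕.haefliger ψG hG).Homotopic
      (ofPt 𝓕.cocycle (chartAct ψG ψG.symm) 0 hchart.isLocalAction) :=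
    GammaBar.Homotopic.of_equal (haefliger_equal_G 𝓕 ψG hG hchart.isLocalAction).symm
  have e2 : (ofPt 𝓕.cocycle (fun z : G × EG => z.1 • z.2) 0
      (isLocalAction_smul IG (0 : EG))).Equal 𝓕.adjoint := by
    intro m
    refine SameLeaves.of_eventuallyEq (Eventually.of_forall fun w => ?_)
    show adj IG ((𝓕.f (𝓕.idx m) m)⁻¹ * 𝓕.f (𝓕.idx m) w.1) w.2 =
      adj IG ((𝓕.f (𝓕.idx m) m)⁻¹ * 𝓕.f (𝓕.idx m) w.1) (0 + w.2)
    rw [zero_add]
  have e3 : ((ofPt 𝓕.cocycle (fun z : G × EG => z.1 • z.2) 0
      (isLocalAction_smul IG (0 : EG))).stab (Fin 0 → ℝ)).Homotopic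
        (𝓕.adjoint.lin (fstE EG (Fin 0 → ℝ))) :=
    (GammaBar.Homotopic.of_equal (GammaBar.stab_zero _)).trans
      (GammaBar.Homotopic.of_equal (e2.lin _))
  exact ⟨_, ((e1.trans hA).trans (e3.lin A)).trans
    (GammaBar.Homotopic.of_equal (GammaBar.lin_lin _ _ _))⟩

end Pool.Agent.MP_602746_gt
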