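import Mathlib
import Pool.Agent.MP_602746_gt.Defs

open scoped Manifold ContDiff Topology
open Set Filter

noncomputable section

namespace Pool.Agent.MP_602746_gt

universe u

section LieFamily

variable {EM : Type*} [NormedAddCommGroup EM] [NormedSpace ℝ EM] {HM : Type*} [TopologicalSpace HM]
  (IM : ModelWithCorners ℝ EM HM) (M : Type*) [TopologicalSpace M] [ChartedSpace HM M]
  {EG : Type*} [NormedAddCommGroup EG] [NormedSpace ℝ EG] {HG : Type*} [TopologicalSpace HG]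
  (IG : ModelWithCorners ℝ EG HG) (G : Type*) [TopologicalSpace G] [ChartedSpace HG G] [Group G]

/-- A smooth family, with parameter `t : ℝ`, of Haefliger structures on `M` transversely modelled on
the Lie group `G` acting on itself by left translations: an open cover `U i` of `M × ℝ` with smooth
maps `f i : U i → G` such that, on overlaps, the maps `f i (·, t)` and `f j (·, t)` differ by
(locally) constant left translations, which may depend on `t`. -/
structure LieFamily where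
  ι : Type u
  U : ι → Set (M × ℝ)
  isOpen_U : ∀ i, IsOpen (U i)
  cover : ∀ p, ∃ i, p ∈ U i
  f : ι → M × ℝ → G
  smooth : ∀ i, ContMDiffOn (IM.prod 𝓘(ℝ, ℝ)) IG ∞ (f i) (U i)
  transition : ∀ i j, ∀ p ∈ U i ∩ U j, ∃ g : ℝ → G, ∀ᶠ p' in 𝓝 p, f i p' = g p'.2 * f j p'

variable {IM M IG G}

/-- The member of the family with parameter `t`. -/
def LieFamily.slice (𝓕 : LieFamily.{u} IM M IG G) (t : ℝ) : LieStructure.{u} IM M IG G where
  ι := 𝓕.ι
  U i := {m | (m, t) ∈ 𝓕.U i}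
  isOpen_U i := (𝓕.isOpen_U i).preimage (by fun_prop : Continuous fun m : M => (m, t))
  cover m := 𝓕.cover (m, t)
  f i := fun m => 𝓕.f i (m, t)
  smooth i := by
    have h1 : ContMDiffOn IM (IM.prod 𝓘(ℝ, ℝ)) ∞ (fun m : M => (m, t)) {m | (m, t) ∈ 𝓕.U i} :=
      (contMDiff_id.prodMk contMDiff_const).contMDiffOn
    exact ContMDiffOn.comp (𝓕.smooth i) h1 (fun m hm => hm)
  transition i j m hm := by
    obtain ⟨g, hg⟩ := 𝓕.transition i j (m, t) hm
    refine ⟨g t, ?_⟩
    have hc : ContinuousAt (fun m : M => (m, t)) m := by fun_prop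
    exact hc.eventually hg

/-- An index `i` with `p ∈ U i`. -/
def LieFamily.idx (𝓕 : LieFamily IM M IG G) (p : M × ℝ) : 𝓕.ι := (𝓕.cover p).choose

theorem LieFamily.mem_idx (𝓕 : LieFamily IM M IG G) (p : M × ℝ) : p ∈ 𝓕.U (𝓕.idx p) :=
  (𝓕.cover p).choose_spec

theorem LieFamily.smooth_near (𝓕 : LieFamily IM M IG G) {i : 𝓕.ι} {p : M × ℝ} (hp : p ∈ 𝓕.U i) :
    ∀ᶠ p' in 𝓝 p, ContMDiffAt (IM.prod 𝓘(ℝ, ℝ)) IG ∞ (𝓕.f i) p' := by
  filter_upwards [(𝓕.isOpen_U i).mem_nhds hp] with p' hp'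
  exact (𝓕.smooth i p' hp').contMDiffAt ((𝓕.isOpen_U i).mem_nhds hp')

end LieFamily

section GFam

variable {EB : Type*} [NormedAddCommGroup EB] [NormedSpace ℝ EB] {HB : Type*} [TopologicalSpace HB]
  (IB : ModelWithCorners ℝ EB HB) (B : Type*) [TopologicalSpace B] [ChartedSpace HB B]
  {EG : Type*} [NormedAddCommGroup EG] [NormedSpace ℝ EG] {HG : Type*} [TopologicalSpace HG]
  (IG : ModelWithCorners ℝ EG HG) (G : Type*) [TopologicalSpace G] [ChartedSpace HG G] [Group G]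

/-- Families of germs of maps `h p : B × ℝ → G` at `p`, normalised along `{p.1} × ℝ`, which differ
by left translations depending on the second variable. -/
structure GFam where
  h : B × ℝ → B × ℝ → G
  smooth : ∀ p, ∀ᶠ p' in 𝓝 p, ContMDiffAt (IB.prod 𝓘(ℝ, ℝ)) IG ∞ (h p) p'
  self : ∀ p, ∀ᶠ t in 𝓝 p.2, h p (p.1, t) = 1
  coh : ∀ p, ∀ᶠ p₁ in 𝓝 p, ∀ᶠ p' in 𝓝 p₁, h p p' = h p (p₁.1, p'.2) * h p₁ p'

variable {IB B IG G}

theorem tendsto_fst_snd {B : Type*} [TopologicalSpace B] (p : B × ℝ) :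
    Tendsto (fun p' : B × ℝ => (p.1, p'.2)) (𝓝 p) (𝓝 p) := by
  have : ContinuousAt (fun p' : B × ℝ => (p.1, p'.2)) p := by fun_prop
  exact this.tendsto

/-- The family of germs defined by a family of structures. -/
def LieFamily.gfam [LieGroup IG ∞ G] (𝓕 : LieFamily.{u} IB B IG G) : GFam IB B IG G where
  h p := fun p' => (𝓕.f (𝓕.idx p) (p.1, p'.2))⁻¹ * 𝓕.f (𝓕.idx p) p'
  smooth p := by
    filter_upwards [𝓕.smooth_near (𝓕.mem_idx p),
      (tendsto_fst_snd p).eventually (𝓕.smooth_near (𝓕.mem_idx p))] with p' h1 h2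
    have h3 : ContMDiffAt (IB.prod 𝓘(ℝ, ℝ)) (IB.prod 𝓘(ℝ, ℝ)) ∞
        (fun p' : B × ℝ => (p.1, p'.2)) p' := contMDiffAt_const.prodMk contMDiffAt_snd
    have h4 : ContMDiffAt (IB.prod 𝓘(ℝ, ℝ)) IG ∞
        (fun p' : B × ℝ => 𝓕.f (𝓕.idx p) (p.1, p'.2)) p' :=
      ContMDiffAt.comp p' (g := 𝓕.f (𝓕.idx p)) (f := fun p' : B × ℝ => (p.1, p'.2)) h2 h3
    exact h4.inv.mul h1
  self p := Eventually.of_forall fun t => inv_mul_cancel _
  coh p := by
    filter_upwards [(𝓕.isOpen_U (𝓕.idx p)).mem_nhds (𝓕.mem_idx p)] with p₁ hp₁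
    obtain ⟨g, hg⟩ := 𝓕.transition (𝓕.idx p) (𝓕.idx p₁) p₁ ⟨hp₁, 𝓕.mem_idx p₁⟩
    filter_upwards [hg, (tendsto_fst_snd p₁).eventually hg] with p' h1 h2
    rw [h1, h2]
    group

/-- The member of a family of germs with parameter `t`. -/
def GFam.slice (c : GFam IB B IG G) (t : ℝ) : GCocycle IB B IG G where
  h b := fun b' => c.h (b, t) (b', t)
  smooth b := by
    have hc : ContinuousAt (fun b' : B => (b', t)) b := by fun_prop
    filter_upwards [hc.eventually (c.smooth (b, t))] with b' hb'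
    exact ContMDiffAt.comp b' (g := c.h (b, t)) (f := fun b' : B => (b', t)) hb'
      (contMDiffAt_id.prodMk contMDiffAt_const)
  self b := (c.self (b, t)).self_of_nhds
  coh b := by
    have hc : ContinuousAt (fun b' : B => (b', t)) b := by fun_prop
    filter_upwards [hc.eventually (c.coh (b, t))] with b₁ hb₁
    have hc₁ : ContinuousAt (fun b' : B => (b', t)) b₁ := by fun_prop
    exact hc₁.eventually hb₁

/-- Change of the parameter. -/
def GFam.reparam (c : GFam IB B IG G) (χ : ℝ → ℝ) (hχ : ContDiff ℝ ∞ χ) : GFam IB B IG G where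
  h p := fun p' => c.h (p.1, χ p.2) (p'.1, χ p'.2)
  smooth p := by
    have hc : Continuous (fun p' : B × ℝ => (p'.1, χ p'.2)) :=
      continuous_fst.prodMk (hχ.continuous.comp continuous_snd)
    filter_upwards [(hc.continuousAt (x := p)).eventually (c.smooth (p.1, χ p.2))] with p' hp'
    have h3 : ContMDiffAt (IB.prod 𝓘(ℝ, ℝ)) (IB.prod 𝓘(ℝ, ℝ)) ∞
        (fun p' : B × ℝ => (p'.1, χ p'.2)) p' :=
      contMDiffAt_fst.prodMk (hχ.contMDiff.contMDiffAt.comp p' contMDiffAt_snd)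
    exact ContMDiffAt.comp p' (g := c.h (p.1, χ p.2)) (f := fun p' : B × ℝ => (p'.1, χ p'.2)) hp' h3
  self p := (hχ.continuous.continuousAt (x := p.2)).eventually (c.self (p.1, χ p.2))
  coh p := by
    have hc : Continuous (fun p' : B × ℝ => (p'.1, χ p'.2)) :=
      continuous_fst.prodMk (hχ.continuous.comp continuous_snd)
    filter_upwards [(hc.continuousAt (x := p)).eventually (c.coh (p.1, χ p.2))] with p₁ hp₁
    exact (hc.continuousAt (x := p₁)).eventually hp₁

/-- Pull-back of a family to the cylinder. -/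
def GFam.cyl (c : GFam IB B IG G) : GFam (IB.prod 𝓘(ℝ, ℝ)) (B × ℝ) IG G where
  h p := fun p' => c.h (p.1.1, p.2) (p'.1.1, p'.2)
  smooth p := by
    have hc : Continuous (fun p' : (B × ℝ) × ℝ => (p'.1.1, p'.2)) := by fun_prop
    filter_upwards [(hc.continuousAt (x := p)).eventually (c.smooth (p.1.1, p.2))] with p' hp'
    have h3 : ContMDiffAt ((IB.prod 𝓘(ℝ, ℝ)).prod 𝓘(ℝ, ℝ)) (IB.prod 𝓘(ℝ, ℝ)) ∞
        (fun p' : (B × ℝ) × ℝ => (p'.1.1, p'.2)) p' :=
      (contMDiffAt_fst.comp p' contMDiffAt_fst).prodMk contMDiffAt_snd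
    exact ContMDiffAt.comp p' (g := c.h (p.1.1, p.2))
      (f := fun p' : (B × ℝ) × ℝ => (p'.1.1, p'.2)) hp' h3
  self p := c.self (p.1.1, p.2)
  coh p := by
    have hc : Continuous (fun p' : (B × ℝ) × ℝ => (p'.1.1, p'.2)) := by fun_prop
    filter_upwards [(hc.continuousAt (x := p)).eventually (c.coh (p.1.1, p.2))] with p₁ hp₁
    exact (hc.continuousAt (x := p₁)).eventually hp₁

end GFam

end Pool.Agent.MP_602746_gt
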