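import Mathlib
import Pool.Agent.MP_602746_gt.FamDefs
import Pool.Agent.MP_602746_gt.Chart

open scoped Manifold ContDiff Topology
open Set Filter

noncomputable section

namespace Pool.Agent.MP_602746_gt

section Triangular

variable {V : Type*} [NormedAddCommGroup V] [NormedSpace ℝ V] [FiniteDimensional ℝ V]

/-- A map of the form `(v, t) ↦ (q (v, t), t)` is a local diffeomorphism if `v ↦ q (v, t₀)` is. -/
theorem isLocalDiffeomorphAt_triangular {q : V × ℝ → V} {v₀ : V} {t₀ : ℝ}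
    (hq : ∀ᶠ z in 𝓝 (v₀, t₀), ContDiffAt ℝ ∞ q z)
    (hb : Function.Bijective (fderiv ℝ (fun v => q (v, t₀)) v₀)) :
    IsLocalDiffeomorphAt 𝓘(ℝ, V × ℝ) 𝓘(ℝ, V × ℝ) ∞ (fun z : V × ℝ => (q z, z.2)) (v₀, t₀) := by
  refine isLocalDiffeomorphAt_of_bijective ?_ ?_
  · filter_upwards [hq] with z hz
    exact hz.prodMk contDiffAt_snd
  · have h1 : HasFDerivAt q (fderiv ℝ q (v₀, t₀)) (v₀, t₀) :=
      (hq.self_of_nhds.differentiableAt (by simp)).hasFDerivAt
    have h2 : HasFDerivAt (fun v => q (v, t₀))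
        ((fderiv ℝ q (v₀, t₀)).comp (ContinuousLinearMap.inl ℝ V ℝ)) v₀ :=
      HasFDerivAt.comp v₀ (g := q) (f := fun v : V => (v, t₀)) h1 (hasFDerivAt_prodMk_left v₀ t₀)
    rw [h2.fderiv] at hb
    have h3 : HasFDerivAt (fun z : V × ℝ => (q z, z.2))
        ((fderiv ℝ q (v₀, t₀)).prod (ContinuousLinearMap.snd ℝ V ℝ)) (v₀, t₀) :=
      h1.prodMk hasFDerivAt_snd
    rw [h3.fderiv]
    have hdec : ∀ (v : V) (t : ℝ), fderiv ℝ q (v₀, t₀) (v, t) =
        fderiv ℝ q (v₀, t₀) (v, 0) + fderiv ℝ q (v₀, t₀) (0, t) := by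
      intro v t
      rw [← map_add]
      simp
    constructor
    · rintro ⟨v, t⟩ ⟨v', t'⟩ h
      have h4 : t = t' := congrArg Prod.snd h
      have h5 : fderiv ℝ q (v₀, t₀) (v, t) = fderiv ℝ q (v₀, t₀) (v', t') := congrArg Prod.fst h
      rw [hdec, hdec v' t', h4, add_left_inj] at h5
      have h6 : v = v' := hb.1 h5
      rw [h6, h4]
    · rintro ⟨w, t⟩
      obtain ⟨v, hv⟩ := hb.2 (w - fderiv ℝ q (v₀, t₀) (0, t))
      refine ⟨(v, t), Prod.ext ?_ rfl⟩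
      show fderiv ℝ q (v₀, t₀) (v, t) = w
      have hv' : fderiv ℝ q (v₀, t₀) (v, 0) = w - fderiv ℝ q (v₀, t₀) (0, t) := hv
      rw [hdec, hv']
      abel

end Triangular

section FamBar

variable {EB : Type*} [NormedAddCommGroup EB] [NormedSpace ℝ EB] {HB : Type*} [TopologicalSpace HB]
  {IB : ModelWithCorners ℝ EB HB} {B : Type*} [TopologicalSpace B] [ChartedSpace HB B]
  {EG : Type*} [NormedAddCommGroup EG] [NormedSpace ℝ EG] {HG : Type*} [TopologicalSpace HG]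
  {IG : ModelWithCorners ℝ EG HG} {G : Type*} [TopologicalSpace G] [ChartedSpace HG G] [Group G]
  {V : Type*} [NormedAddCommGroup V] [NormedSpace ℝ V]

/-- The first integral. -/
def famF (c : GFam IB B IG G) (a : G × V → V) (s : B → ℝ) (b : B) : B × (V × ℝ) → V × ℝ :=
  fun w => (a (c.h (b, s b) (w.1, s w.1 + w.2.2), w.2.1), s w.1 + w.2.2)

theorem GFam.h_self (c : GFam IB B IG G) (p : B × ℝ) : c.h p p = 1 := (c.self p).self_of_nhds

theorem GFam.tendsto_h (c : GFam IB B IG G) (p : B × ℝ) : Tendsto (c.h p) (𝓝 p) (𝓝 1) := by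
  have := (c.smooth p).self_of_nhds.continuousAt.tendsto
  rwa [c.h_self] at this

omit [NormedSpace ℝ V] in
theorem tendsto_sec {s : B → ℝ} (hs : Continuous s) (b : B) :
    Tendsto (fun w : B × (V × ℝ) => (w.1, s w.1 + w.2.2)) (𝓝 (b, (0 : V × ℝ)))
      (𝓝 (b, s b)) := by
  have : ContinuousAt (fun w : B × (V × ℝ) => (w.1, s w.1 + w.2.2)) (b, (0 : V × ℝ)) := by fun_prop
  simpa using this.tendsto

omit [NormedSpace ℝ V] in
theorem tendsto_famarg (c : GFam IB B IG G) {s : B → ℝ} (hs : Continuous s) (b : B) :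
    Tendsto (fun w : B × (V × ℝ) => (c.h (b, s b) (w.1, s w.1 + w.2.2), w.2.1))
      (𝓝 (b, (0 : V × ℝ))) (𝓝 ((1 : G), (0 : V))) := by
  have h1 := (c.tendsto_h (b, s b)).comp (tendsto_sec (V := V) hs b)
  have h2 : ContinuousAt (fun w : B × (V × ℝ) => w.2.1) (b, (0 : V × ℝ)) := by fun_prop
  have h3 := h1.prodMk h2.tendsto
  rwa [← nhds_prod_eq] at h3

theorem sm_famF [LieGroup IG ∞ G] (c : GFam IB B IG G) {a : G × V → V}
    (ha : IsLocalAction IG a 0) {s : B → ℝ} (hs : ContMDiff IB 𝓘(ℝ, ℝ) ∞ s) (b : B) :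
    Sm (IB.prod 𝓘(ℝ, V × ℝ)) 𝓘(ℝ, V × ℝ) (famF c a s b) (b, (0 : V × ℝ)) := by
  have hf : Sm (IB.prod 𝓘(ℝ, V × ℝ)) IB (fun w : B × (V × ℝ) => w.1) (b, (0 : V × ℝ)) :=
    Sm.of contMDiff_fst
  have hsec : Sm (IB.prod 𝓘(ℝ, V × ℝ)) 𝓘(ℝ, V × ℝ) (fun w : B × (V × ℝ) => w.2)
    (b, (0 : V × ℝ)) := Sm.of contMDiff_snd
  have h1 : Sm (IB.prod 𝓘(ℝ, V × ℝ)) 𝓘(ℝ, ℝ) (fun w : B × (V × ℝ) => s w.1) (b, (0 : V × ℝ)) :=
    Sm.comp (g := s) (Sm.of hs) hf rfl
  have h2 : Sm (IB.prod 𝓘(ℝ, V × ℝ)) 𝓘(ℝ, ℝ) (fun w : B × (V × ℝ) => s w.1 + w.2.2)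
      (b, (0 : V × ℝ)) := by
    filter_upwards [h1, hsec.snd_space] with w h3 h4
    exact h3.add h4
  have h3 : Sm (IB.prod 𝓘(ℝ, V × ℝ)) IG
      (fun w : B × (V × ℝ) => c.h (b, s b) (w.1, s w.1 + w.2.2)) (b, (0 : V × ℝ)) :=
    Sm.comp (g := c.h (b, s b)) (c.smooth (b, s b)) (hf.prodMk h2) (by simp)
  have h4 : Sm (IB.prod 𝓘(ℝ, V × ℝ)) 𝓘(ℝ, V)
      (fun w : B × (V × ℝ) => a (c.h (b, s b) (w.1, s w.1 + w.2.2), w.2.1)) (b, (0 : V × ℝ)) :=
    Sm.comp (g := a) ha.smooth (h3.prodMk hsec.fst_space) (by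
      simp [c.h_self])
  exact h4.prodMk_space h2

variable [FiniteDimensional ℝ V] [LieGroup IG ∞ G]

/-- The Haefliger structure of codimension `dim V + 1` defined by a family of structures and a
section of `B × ℝ → B`. -/
def famBar (c : GFam IB B IG G) (a : G × V → V) (ha : IsLocalAction IG a 0) (s : B → ℝ)
    (hs : ContMDiff IB 𝓘(ℝ, ℝ) ∞ s) : GammaBar IB B (V × ℝ) where
  F b := famF c a s b
  smooth b := sm_famF c ha hs b
  transverse b := by
    have h1 : ∀ᶠ z in 𝓝 (0 : V × ℝ), famF c a s b (b, z) = (z.1, s b + z.2) := by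
      have hc : ContinuousAt (fun z : V × ℝ => s b + z.2) 0 := by fun_prop
      have hc' : Tendsto (fun z : V × ℝ => s b + z.2) (𝓝 0) (𝓝 (s b)) := by
        simpa using hc.tendsto
      have hc1 : Tendsto (fun z : V × ℝ => z.1) (𝓝 0) (𝓝 0) := continuous_fst.tendsto _
      filter_upwards [hc'.eventually (c.self (b, s b)), hc1.eventually ha.one] with z h2 h3
      show (a (c.h (b, s b) (b, s b + z.2), z.1), s b + z.2) = (z.1, s b + z.2)
      have h2' : c.h (b, s b) (b, s b + z.2) = 1 := h2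
      rw [h2', h3]
    have h2 : HasFDerivAt (fun z : V × ℝ => (z.1, s b + z.2)) (ContinuousLinearMap.id ℝ (V × ℝ))
        0 := by
      have h3 : HasFDerivAt (fun z : V × ℝ => (z.1, s b + z.2))
          ((ContinuousLinearMap.fst ℝ V ℝ).prod (ContinuousLinearMap.snd ℝ V ℝ)) 0 :=
        hasFDerivAt_fst.prodMk (hasFDerivAt_snd.const_add (s b))
      simpa using h3
    have h3 : HasFDerivAt (fun z : V × ℝ => famF c a s b (b, z))
        (ContinuousLinearMap.id ℝ (V × ℝ)) 0 := h2.congr_of_eventuallyEq h1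
    rw [h3.fderiv]
    exact Function.bijective_id
  coherent b := by
    have htop := topologicalGroup_of_lieGroup IG ∞ (G := G)
    have hsc : Continuous s := hs.continuous
    set p : B × ℝ := (b, s b) with hp
    have hb1 : Tendsto (fun b₁ : B => (b₁, s b₁)) (𝓝 b) (𝓝 p) := by
      have : ContinuousAt (fun b₁ : B => (b₁, s b₁)) b := by fun_prop
      exact this.tendsto
    have hc : Tendsto (fun b₁ : B => (c.h p (b₁, s b₁), (0 : V))) (𝓝 b)
        (𝓝 ((1 : G), (0 : V))) := by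
      have h1 := ((c.tendsto_h p).comp hb1).prodMk (tendsto_const_nhds (x := (0 : V)))
      rwa [← nhds_prod_eq] at h1
    have hc2 : Tendsto (fun b₁ : B => ((c.h p (b₁, s b₁), (1 : G)), (0 : V))) (𝓝 b)
        (𝓝 (((1 : G), (1 : G)), (0 : V))) := by
      have h1 := (((c.tendsto_h p).comp hb1).prodMk (tendsto_const_nhds (x := (1 : G)))).prodMk
        (tendsto_const_nhds (x := (0 : V)))
      rwa [← nhds_prod_eq, ← nhds_prod_eq] at h1
    filter_upwards [hc.eventually ha.localDiffeo, hb1.eventually (c.coh p),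
      hc2.eventually ha.mul.eventually_nhds, hc.eventually ha.smooth.eventually_nhds,
      hb1.eventually (c.smooth p).eventually_nhds] with b₁ h1 h2 h3 h4 h5
    -- the comparison map
    have hq : ∀ᶠ z in 𝓝 ((0 : V), s b₁),
        ContDiffAt ℝ ∞ (fun z : V × ℝ => a (c.h p (b₁, z.2), z.1)) z := by
      have e1 : Sm 𝓘(ℝ, V × ℝ) (IB.prod 𝓘(ℝ, ℝ)) (fun z : V × ℝ => (b₁, z.2)) ((0 : V), s b₁) :=
        (Sm.const (c := b₁)).prodMk (Sm.of contDiff_snd.contMDiff)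
      have e2 : Sm 𝓘(ℝ, V × ℝ) IG (fun z : V × ℝ => c.h p (b₁, z.2)) ((0 : V), s b₁) :=
        Sm.comp (g := c.h p) (y := (b₁, s b₁)) h5 e1 rfl
      have e3 : Sm 𝓘(ℝ, V × ℝ) 𝓘(ℝ, V) (fun z : V × ℝ => a (c.h p (b₁, z.2), z.1))
          ((0 : V), s b₁) :=
        Sm.comp (g := a) (y := (c.h p (b₁, s b₁), (0 : V))) h4
          (e2.prodMk (Sm.of contDiff_fst.contMDiff)) rfl
      rw [sm_iff_smN] at e3
      exact e3
    have hη : IsLocalDiffeomorphAt 𝓘(ℝ, V × ℝ) 𝓘(ℝ, V × ℝ) ∞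
        (fun z : V × ℝ => (a (c.h p (b₁, z.2), z.1), z.2)) ((0 : V), s b₁) :=
      isLocalDiffeomorphAt_triangular hq (IsLocalDiffeomorphAt.bijective_fderiv' h1)
    have hF1 : famF c a s b₁ (b₁, (0 : V × ℝ)) = ((0 : V), s b₁) := by
      simp [famF, c.h_self, ha.apply_one]
    have h6 : SameLeaves (b₁, (0 : V × ℝ)) (famF c a s b₁) (famF c a s b) := by
      refine ⟨fun z : V × ℝ => (a (c.h p (b₁, z.2), z.1), z.2), ?_, ?_⟩
      · rw [hF1]; exact hη
      · have hT1 := tendsto_sec (V := V) hsc b₁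
        have hT2 : Tendsto (fun w : B × (V × ℝ) =>
            ((c.h p (b₁, s w.1 + w.2.2), c.h (b₁, s b₁) (w.1, s w.1 + w.2.2)), w.2.1))
            (𝓝 (b₁, (0 : V × ℝ))) (𝓝 ((c.h p (b₁, s b₁), (1 : G)), (0 : V))) := by
          have e1 : Tendsto (fun w : B × (V × ℝ) => c.h p (b₁, s w.1 + w.2.2))
              (𝓝 (b₁, (0 : V × ℝ))) (𝓝 (c.h p (b₁, s b₁))) :=
            (h5.self_of_nhds.continuousAt.tendsto).comp
              ((tendsto_fst_snd (b₁, s b₁)).comp hT1)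
          have e2 : Tendsto (fun w : B × (V × ℝ) => c.h (b₁, s b₁) (w.1, s w.1 + w.2.2))
              (𝓝 (b₁, (0 : V × ℝ))) (𝓝 1) := (c.tendsto_h (b₁, s b₁)).comp hT1
          have e3 : Tendsto (fun w : B × (V × ℝ) => w.2.1) (𝓝 (b₁, (0 : V × ℝ))) (𝓝 0) := by
            have : ContinuousAt (fun w : B × (V × ℝ) => w.2.1) (b₁, (0 : V × ℝ)) := by fun_prop
            exact this.tendsto
          have e4 := (e1.prodMk e2).prodMk e3
          rwa [← nhds_prod_eq, ← nhds_prod_eq] at e4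
        filter_upwards [hT1.eventually h2, hT2.eventually h3] with w h7 h8
        have h7' : c.h p (w.1, s w.1 + w.2.2) =
          c.h p (b₁, s w.1 + w.2.2) * c.h (b₁, s b₁) (w.1, s w.1 + w.2.2) := h7
        refine Prod.ext ?_ rfl
        show a (c.h p (w.1, s w.1 + w.2.2), w.2.1) = _
        rw [h7']
        exact h8
    refine h6.symm ?_
    exact (sm_famF c ha hs b₁).continuousAt

theorem famBar_F (c : GFam IB B IG G) (a : G × V → V) (ha : IsLocalAction IG a 0) (s : B → ℝ)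
    (hs : ContMDiff IB 𝓘(ℝ, ℝ) ∞ s) (b : B) (w : B × (V × ℝ)) :
    (famBar c a ha s hs).F b w = (a (c.h (b, s b) (w.1, s w.1 + w.2.2), w.2.1), s w.1 + w.2.2) :=
  rfl

end FamBar

end Pool.Agent.MP_602746_gt
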