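import Mathlib
import Pool.Agent.MP_602746_gt.FamBar

open scoped Manifold ContDiff Topology
open Set Filter

noncomputable section

namespace Pool.Agent.MP_602746_gt

/-- A smooth function which is `0` for `t ≤ 1/3` and `1` for `t ≥ 2/3`. -/
def famStep (t : ℝ) : ℝ := Real.smoothTransition (3 * t - 1)

theorem contDiff_famStep : ContDiff ℝ ∞ famStep :=
  Real.smoothTransition.contDiff.comp ((contDiff_const.mul contDiff_id).sub contDiff_const)

theorem famStep_zero {t : ℝ} (ht : t ≤ 1 / 3) : famStep t = 0 :=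
  Real.smoothTransition.zero_of_nonpos (by linarith)

theorem famStep_one {t : ℝ} (ht : 2 / 3 ≤ t) : famStep t = 1 :=
  Real.smoothTransition.one_of_one_le (by linarith)

section FamMove

variable {EB : Type*} [NormedAddCommGroup EB] [NormedSpace ℝ EB] {HB : Type*} [TopologicalSpace HB]
  {IB : ModelWithCorners ℝ EB HB} {B : Type*} [TopologicalSpace B] [ChartedSpace HB B]
  {EG : Type*} [NormedAddCommGroup EG] [NormedSpace ℝ EG] {HG : Type*} [TopologicalSpace HG]
  {IG : ModelWithCorners ℝ EG HG} {G : Type*} [TopologicalSpace G] [ChartedSpace HG G] [Group G]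
  {V : Type*} [NormedAddCommGroup V] [NormedSpace ℝ V] [FiniteDimensional ℝ V] [LieGroup IG ∞ G]

/-- The members of a family become homotopic after one stabilisation. -/
theorem fam_move (c : GFam IB B IG G) (a : G × V → V) (ha : IsLocalAction IG a 0) :
    ((ofPt (c.slice 0) a 0 ha).stab ℝ).Homotopic ((ofPt (c.slice 1) a 0 ha).stab ℝ) := by
  let c' : GFam (IB.prod 𝓘(ℝ, ℝ)) (B × ℝ) IG G := (c.reparam famStep contDiff_famStep).cyl
  refine ⟨famBar c' a ha (fun p : B × ℝ => p.2) contMDiff_snd, ?_, ?_⟩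
  · intro b
    refine SameLeaves.of_eventuallyEq ?_
    have hlt : ∀ᶠ w in 𝓝 (b, (0 : V × ℝ)), 0 + w.2.2 < 1 / 3 := by
      have hc : ContinuousAt (fun w : B × (V × ℝ) => 0 + w.2.2) (b, (0 : V × ℝ)) := by fun_prop
      exact hc.eventually (gt_mem_nhds (by norm_num))
    filter_upwards [hlt] with w hw
    show (a (c.h (b, 0) (w.1, 0), 0 + w.2.1), w.2.2) =
      (a (c.h (b, famStep 0) (w.1, famStep (0 + w.2.2)), w.2.1), 0 + w.2.2)
    rw [famStep_zero (by norm_num : (0 : ℝ) ≤ 1 / 3), famStep_zero hw.le, zero_add, zero_add]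
  · intro b
    refine ⟨fun z : V × ℝ => (z.1, z.2 - 1), ?_, ?_⟩
    · refine isLocalDiffeomorphAt_of_inverse (g := fun v : V × ℝ => (v.1, v.2 + 1)) ?_ ?_ ?_ ?_
      · exact Eventually.of_forall fun v =>
          contDiffAt_fst.prodMk (contDiffAt_snd.sub contDiffAt_const)
      · exact contDiffAt_fst.prodMk (contDiffAt_snd.add contDiffAt_const)
      · exact Eventually.of_forall fun v => by simp
      · exact Eventually.of_forall fun v => by simp
    · have hlt : ∀ᶠ w in 𝓝 (b, (0 : V × ℝ)), 2 / 3 < 1 + w.2.2 := by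
        have hc : ContinuousAt (fun w : B × (V × ℝ) => 1 + w.2.2) (b, (0 : V × ℝ)) := by fun_prop
        exact hc.eventually (lt_mem_nhds (by norm_num))
      filter_upwards [hlt] with w hw
      show (a (c.h (b, 1) (w.1, 1), 0 + w.2.1), w.2.2) =
        (a (c.h (b, famStep 1) (w.1, famStep (1 + w.2.2)), w.2.1), 1 + w.2.2 - 1)
      rw [famStep_one (by norm_num : (2 : ℝ) / 3 ≤ 1), famStep_one hw.le, zero_add,
        add_sub_cancel_left]

/-- Two cocycles which agree as germs define equal structures. -/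
theorem ofPt_congr_cocycle {k k' : GCocycle IB B IG G} {a : G × V → V} {p : V}
    (ha : IsLocalAction IG a p) (h : ∀ b, ∀ᶠ b' in 𝓝 b, k'.h b b' = k.h b b') :
    (ofPt k a p ha).Equal (ofPt k' a p ha) := by
  intro b
  refine SameLeaves.of_eventuallyEq ?_
  have hf : Tendsto (fun w : B × V => w.1) (𝓝 (b, (0 : V))) (𝓝 b) := continuousAt_fst
  filter_upwards [hf.eventually (h b)] with w hw
  rw [ofPt_F, ofPt_F, hw]

end FamMove

section Slice

variable {EM : Type*} [NormedAddCommGroup EM] [NormedSpace ℝ EM] {HM : Type*} [TopologicalSpace HM]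
  {IM : ModelWithCorners ℝ EM HM} {M : Type*} [TopologicalSpace M] [ChartedSpace HM M]
  {EG : Type*} [NormedAddCommGroup EG] [NormedSpace ℝ EG] {HG : Type*} [TopologicalSpace HG]
  {IG : ModelWithCorners ℝ EG HG} {G : Type*} [TopologicalSpace G] [ChartedSpace HG G] [Group G]
  [LieGroup IG ∞ G]

/-- The cocycle of a member of the family is the member of the family of cocycles. -/
theorem LieFamily.slice_cocycle (𝓕 : LieFamily IM M IG G) (t : ℝ) (m : M) :
    ∀ᶠ m' in 𝓝 m, (𝓕.slice t).cocycle.h m m' = (𝓕.gfam.slice t).h m m' := by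
  obtain ⟨g, hg⟩ := 𝓕.transition ((𝓕.slice t).idx m) (𝓕.idx (m, t)) (m, t)
    ⟨(𝓕.slice t).mem_idx m, 𝓕.mem_idx (m, t)⟩
  have hc : ContinuousAt (fun m : M => (m, t)) m := by fun_prop
  filter_upwards [hc.eventually hg] with m' hm'
  have h1 : 𝓕.f ((𝓕.slice t).idx m) (m, t) = g t * 𝓕.f (𝓕.idx (m, t)) (m, t) := hg.self_of_nhds
  have h2 : 𝓕.f ((𝓕.slice t).idx m) (m', t) = g t * 𝓕.f (𝓕.idx (m, t)) (m', t) := hm'
  show (𝓕.f ((𝓕.slice t).idx m) (m, t))⁻¹ * 𝓕.f ((𝓕.slice t).idx m) (m', t) =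
    (𝓕.f (𝓕.idx (m, t)) (m, t))⁻¹ * 𝓕.f (𝓕.idx (m, t)) (m', t)
  rw [h1, h2]
  group

end Slice

end Pool.Agent.MP_602746_gt
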