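import Mathlib
import Pool.Agent.MP_602746_gt.LocalHom

open scoped ContDiff Topology
open Set Filter

noncomputable section

namespace Pool.Agent.MP_602746_gt

section

variable {V : Type*} [NormedAddCommGroup V] [NormedSpace ℝ V]

/-- The left invariant vector field. -/
def opX (μ : V × V → V) (v₀ : V) (x : V) : V := fderiv ℝ μ (x, 0) (0, v₀)

omit [NormedSpace ℝ V] in
theorem tendsto_pair_zero : Tendsto (fun x : V => (x, (0 : V))) (𝓝 0) (𝓝 (0 : V × V)) := by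
  have : ContinuousAt (fun x : V => (x, (0 : V))) 0 := by fun_prop
  exact this.tendsto

theorem smN_opX {μ : V × V → V} (hμ : SmN μ 0) (v₀ : V) : SmN (opX μ v₀) 0 := by
  filter_upwards [tendsto_pair_zero.eventually hμ] with x hx
  have h2 : ContDiffAt ℝ ∞ (fderiv ℝ μ) (x, 0) := hx.fderiv_right (m := ∞) (by simp)
  have h3 : ContDiffAt ℝ ∞ (fun x => fderiv ℝ μ (x, 0)) x :=
    ContDiffAt.comp x (g := fderiv ℝ μ) (f := fun x : V => (x, (0 : V))) h2
      (contDiffAt_id.prodMk contDiffAt_const)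
  exact h3.clm_apply contDiffAt_const

theorem opX_zero {μ : V × V → V} (hμ : SmN μ 0) (h0 : ∀ᶠ y in 𝓝 (0 : V), μ (0, y) = y) (v₀ : V) :
    opX μ v₀ 0 = v₀ := by
  have e1 : HasFDerivAt μ (fderiv ℝ μ (0, 0)) ((0 : V), (0 : V)) :=
    (hμ.self_of_nhds.differentiableAt (by simp)).hasFDerivAt
  have e2 : HasFDerivAt (fun y : V => μ (0, y))
      ((fderiv ℝ μ (0, 0)).comp (ContinuousLinearMap.inr ℝ V V)) 0 :=
    HasFDerivAt.comp (0 : V) (g := μ) (f := fun y : V => ((0 : V), y)) e1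
      (hasFDerivAt_prodMk_right (0 : V) (0 : V))
  have e3 : HasFDerivAt (fun y : V => μ (0, y)) (ContinuousLinearMap.id ℝ V) 0 :=
    (hasFDerivAt_id (0 : V)).congr_of_eventuallyEq h0
  have e4 := DFunLike.congr_fun (e2.unique e3) v₀
  exact e4

/-- Left invariance of the vector field. -/
theorem opX_inv {μ : V × V → V} (hμ : SmN μ 0) (h0 : ∀ᶠ x in 𝓝 (0 : V), μ (x, 0) = x)
    (hassoc : ∀ᶠ z in 𝓝 (0 : (V × V) × V), μ (μ z.1, z.2) = μ (z.1.1, μ (z.1.2, z.2))) (v₀ : V) :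
    ∀ᶠ p in 𝓝 (0 : V × V), fderiv ℝ μ p (0, opX μ v₀ p.2) = opX μ v₀ (μ p) := by
  have c0 : Tendsto (fun p : V × V => p.2) (𝓝 0) (𝓝 0) := continuous_snd.tendsto _
  have c1 : Tendsto (fun p : V × V => (p.2, (0 : V))) (𝓝 0) (𝓝 (0 : V × V)) :=
    tendsto_pair_zero.comp c0
  have hμ0 : μ 0 = 0 := h0.self_of_nhds
  have c2 : Tendsto μ (𝓝 0) (𝓝 0) := by
    have := hμ.self_of_nhds.continuousAt.tendsto
    rwa [hμ0] at this
  have c3 : Tendsto (fun p : V × V => (μ p, (0 : V))) (𝓝 0) (𝓝 (0 : V × V)) :=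
    tendsto_pair_zero.comp c2
  have c4 : Tendsto (fun p : V × V => (p, (0 : V))) (𝓝 0) (𝓝 (0 : (V × V) × V)) := by
    have : ContinuousAt (fun p : V × V => (p, (0 : V))) 0 := by fun_prop
    exact this.tendsto
  filter_upwards [hμ, c0.eventually h0, c1.eventually hμ, c3.eventually hμ,
    c4.eventually hassoc.eventually_nhds] with p h1 h2 h3 h4 h5
  -- the two sides as derivatives at `0`
  have d1 : HasFDerivAt (fun z : V => μ (p.2, z))
      ((fderiv ℝ μ (p.2, 0)).comp (ContinuousLinearMap.inr ℝ V V)) 0 :=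
    HasFDerivAt.comp (0 : V) (g := μ) (f := fun z : V => (p.2, z))
      (h3.differentiableAt (by simp)).hasFDerivAt (hasFDerivAt_prodMk_right p.2 (0 : V))
  have d2 : HasFDerivAt (fun y : V => μ (p.1, y))
      ((fderiv ℝ μ p).comp (ContinuousLinearMap.inr ℝ V V)) (μ (p.2, 0)) := by
    rw [h2]
    exact HasFDerivAt.comp p.2 (g := μ) (f := fun y : V => (p.1, y))
      (h1.differentiableAt (by simp)).hasFDerivAt (hasFDerivAt_prodMk_right p.1 p.2)
  have d3 : HasFDerivAt (fun z : V => μ (p.1, μ (p.2, z)))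
      (((fderiv ℝ μ p).comp (ContinuousLinearMap.inr ℝ V V)).comp
        ((fderiv ℝ μ (p.2, 0)).comp (ContinuousLinearMap.inr ℝ V V))) 0 :=
    HasFDerivAt.comp (0 : V) (g := fun y : V => μ (p.1, y)) (f := fun z : V => μ (p.2, z)) d2 d1
  have d4 : HasFDerivAt (fun z : V => μ (μ p, z))
      ((fderiv ℝ μ (μ p, 0)).comp (ContinuousLinearMap.inr ℝ V V)) 0 :=
    HasFDerivAt.comp (0 : V) (g := μ) (f := fun z : V => (μ p, z))
      (h4.differentiableAt (by simp)).hasFDerivAt (hasFDerivAt_prodMk_right (μ p) (0 : V))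
  have d5 : HasFDerivAt (fun z : V => μ (μ p, z))
      (((fderiv ℝ μ p).comp (ContinuousLinearMap.inr ℝ V V)).comp
        ((fderiv ℝ μ (p.2, 0)).comp (ContinuousLinearMap.inr ℝ V V))) 0 := by
    refine d3.congr_of_eventuallyEq ?_
    have hc : ContinuousAt (fun z : V => (p, z)) 0 := by fun_prop
    filter_upwards [hc.eventually h5] with z hz
    exact hz
  have d6 := DFunLike.congr_fun (d5.unique d4) v₀
  exact d6

variable [CompleteSpace V]

/-- Local one-parameter subgroups. -/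
theorem exists_oneParam {μ : V × V → V} (hμ : SmN μ 0) (h0 : ∀ᶠ x in 𝓝 (0 : V), μ (x, 0) = x)
    (h0' : ∀ᶠ y in 𝓝 (0 : V), μ (0, y) = y)
    (hassoc : ∀ᶠ z in 𝓝 (0 : (V × V) × V), μ (μ z.1, z.2) = μ (z.1.1, μ (z.1.2, z.2))) (v₀ : V) :
    ∃ γ : ℝ → V, γ 0 = 0 ∧ SmN γ 0 ∧ HasDerivAt γ v₀ 0 ∧
      ∀ᶠ p in 𝓝 (0 : ℝ × ℝ), γ (p.1 + p.2) = μ (γ p.1, γ p.2) := by
  set X := opX μ v₀ with hXdef
  have hX : SmN X 0 := smN_opX hμ v₀
  have hX1 : ContDiffAt ℝ 1 X 0 := hX.self_of_nhds.of_le (by simp)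
  obtain ⟨γ, hγ0, ε, hε, hγ⟩ :=
    hX1.exists_forall_mem_closedBall_exists_eq_forall_mem_Ioo_hasDerivAt₀ 0
  have hγ' : ∀ᶠ t in 𝓝 (0 : ℝ), HasDerivAt γ (X (γ t)) t := by
    filter_upwards [Ioo_mem_nhds (by linarith : (0 : ℝ) - ε < 0) (by linarith : (0 : ℝ) < 0 + ε)]
      with t ht
    exact hγ t ht
  have hγc : Tendsto γ (𝓝 0) (𝓝 0) := by
    have := hγ'.self_of_nhds.continuousAt.tendsto
    rwa [hγ0] at this
  have hd0 : HasDerivAt γ v₀ 0 := by
    have h1 := hγ'.self_of_nhds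
    rwa [hγ0, hXdef, opX_zero hμ h0' v₀] at h1
  refine ⟨γ, hγ0, ?_, hd0, ?_⟩
  · -- smoothness
    obtain ⟨u, hu, huo, h0u⟩ := eventually_nhds_iff.1 hX
    have hev : ∀ᶠ t in 𝓝 (0 : ℝ), HasDerivAt γ (X (γ t)) t ∧ γ t ∈ u :=
      hγ'.and (hγc.eventually (huo.mem_nhds h0u))
    obtain ⟨δ, hδ, hball⟩ := Metric.eventually_nhds_iff_ball.1 hev
    have hsub : Icc (-(δ / 2)) (δ / 2) ⊆ Metric.ball (0 : ℝ) δ := by
      intro t ht
      rw [Metric.mem_ball, Real.dist_eq, sub_zero, abs_lt]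
      constructor <;> linarith [ht.1, ht.2]
    have hsm : ContDiffOn ℝ ((⊤ : ℕ∞) : WithTop ℕ∞) γ (Icc (-(δ / 2)) (δ / 2)) := by
      refine ODE.contDiffOn_enat_Icc_of_hasDerivWithinAt (f := fun _ x => X x) (u := u) ?_ ?_ ?_
      · have hXu : ContDiffOn ℝ ((⊤ : ℕ∞) : WithTop ℕ∞) X u := fun x hx =>
          (hu x hx).contDiffWithinAt
        exact hXu.comp contDiffOn_snd (fun z hz => hz.2)
      · intro t ht
        exact (hball t (hsub ht)).1.hasDerivWithinAt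
      · intro t ht
        exact (hball t (hsub ht)).2
    filter_upwards [Ioo_mem_nhds (by linarith : -(δ / 2) < (0 : ℝ)) (by linarith : (0 : ℝ) < δ / 2)]
      with t ht
    exact hsm.contDiffAt (Icc_mem_nhds ht.1 ht.2)
  · -- additivity
    obtain ⟨K, S, hS, hlip⟩ := hX1.exists_lipschitzOnWith
    have hμ0 : μ 0 = 0 := h0.self_of_nhds
    have hμc : Tendsto μ (𝓝 0) (𝓝 0) := by
      have := hμ.self_of_nhds.continuousAt.tendsto
      rwa [hμ0] at this
    have ca : Tendsto (fun p : ℝ × ℝ => p.1 + p.2) (𝓝 0) (𝓝 0) := by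
      have : ContinuousAt (fun p : ℝ × ℝ => p.1 + p.2) 0 := by fun_prop
      simpa using this.tendsto
    have c1 : Tendsto (fun p : ℝ × ℝ => p.1) (𝓝 0) (𝓝 0) := continuous_fst.tendsto _
    have c2 : Tendsto (fun p : ℝ × ℝ => p.2) (𝓝 0) (𝓝 0) := continuous_snd.tendsto _
    have cc : Tendsto (fun p : ℝ × ℝ => (γ p.1, γ p.2)) (𝓝 0) (𝓝 (0 : V × V)) := by
      have := (hγc.comp c1).prodMk (hγc.comp c2)
      rwa [← nhds_prod_eq] at this
    have hev := ((((((ca.eventually hγ').and ((hγc.comp ca).eventually hS)).and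
      (c2.eventually hγ')).and ((hμc.comp cc).eventually hS)).and
      (cc.eventually (opX_inv hμ h0 hassoc v₀))).and (cc.eventually hμ)).and
      ((hγc.comp c1).eventually h0)
    obtain ⟨δ, hδ, hball⟩ := Metric.eventually_nhds_iff_ball.1 hev
    filter_upwards [Metric.ball_mem_nhds (0 : ℝ × ℝ) hδ] with p hp
    have hp1 : |p.1| < δ := by
      have := hp
      rw [Metric.mem_ball, dist_zero_right] at this
      exact lt_of_le_of_lt (norm_fst_le p) this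
    have hp2 : |p.2| < δ := by
      have := hp
      rw [Metric.mem_ball, dist_zero_right] at this
      exact lt_of_le_of_lt (norm_snd_le p) this
    have hmem : ∀ t ∈ Ioo (-δ) δ, (p.1, t) ∈ Metric.ball (0 : ℝ × ℝ) δ := by
      intro t ht
      rw [Metric.mem_ball, dist_zero_right, Prod.norm_def]
      exact max_lt hp1 (by rw [Real.norm_eq_abs, abs_lt]; exact ht)
    have huniq := ODE_solution_unique_of_mem_Ioo (v := fun _ x => X x) (s := fun _ => S) (K := K)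
      (f := fun t => γ (p.1 + t)) (g := fun t => μ (γ p.1, γ t)) (a := -δ) (b := δ) (t₀ := 0)
      (fun t _ => hlip) ⟨by linarith, by linarith⟩ ?_ ?_ ?_
    · exact huniq (abs_lt.1 hp2)
    · intro t ht
      obtain ⟨⟨⟨⟨⟨⟨h1, h2⟩, h3⟩, h4⟩, h5⟩, h6⟩, h7⟩ := hball _ (hmem t ht)
      exact ⟨HasDerivAt.comp_const_add p.1 t h1, h2⟩
    · intro t ht
      obtain ⟨⟨⟨⟨⟨⟨h1, h2⟩, h3⟩, h4⟩, h5⟩, h6⟩, h7⟩ := hball _ (hmem t ht)
      refine ⟨?_, h4⟩
      have e1 : HasFDerivAt (fun y : V => μ (γ p.1, y))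
          ((fderiv ℝ μ (γ p.1, γ t)).comp (ContinuousLinearMap.inr ℝ V V)) (γ t) :=
        HasFDerivAt.comp (γ t) (g := μ) (f := fun y : V => (γ p.1, y))
          (h6.differentiableAt (by simp)).hasFDerivAt (hasFDerivAt_prodMk_right (γ p.1) (γ t))
      have e2 : HasDerivAt (fun t => μ (γ p.1, γ t))
          (((fderiv ℝ μ (γ p.1, γ t)).comp (ContinuousLinearMap.inr ℝ V V)) (X (γ t))) t :=
        HasFDerivAt.comp_hasDerivAt (l := fun y : V => μ (γ p.1, y)) (f := γ) t e1 h3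
      have e3 : ((fderiv ℝ μ (γ p.1, γ t)).comp (ContinuousLinearMap.inr ℝ V V)) (X (γ t)) =
          X (μ (γ p.1, γ t)) := h5
      rwa [e3] at e2
    · obtain ⟨⟨⟨⟨⟨⟨h1, h2⟩, h3⟩, h4⟩, h5⟩, h6⟩, h7⟩ :=
        hball _ (hmem 0 ⟨by linarith, by linarith⟩)
      show γ (p.1 + 0) = μ (γ p.1, γ 0)
      have h7' : μ (γ p.1, 0) = γ p.1 := h7
      rw [add_zero, hγ0, h7']

end

end Pool.Agent.MP_602746_gt
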