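import Mathlib
import Pool.Agent.MP_602746_gt.Induct
import Pool.Agent.MP_602746_gt.OneParam

open scoped Manifold ContDiff Topology
open Set Filter

noncomputable section

namespace Pool.Agent.MP_602746_gt

variable {EG : Type*} [NormedAddCommGroup EG] [NormedSpace ℝ EG] {HG : Type*} [TopologicalSpace HG]
  {IG : ModelWithCorners ℝ EG HG} {G : Type*} [TopologicalSpace G] [ChartedSpace HG G] [Group G]

section Skew

variable {F : Type*} [NormedAddCommGroup F] [NormedSpace ℝ F]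

/-- The first component of the action on `F × {0}`. -/
def spA (A : G × (F × ℝ) → F × ℝ) : G × F → F := fun z => (A (z.1, (z.2, 0))).1

/-- The second component of the action on `F × {0}`. -/
def spC (A : G × (F × ℝ) → F × ℝ) : G × F → ℝ := fun z => (A (z.1, (z.2, 0))).2

variable {A : G × (F × ℝ) → F × ℝ}

omit [ChartedSpace HG G] [NormedSpace ℝ F] in
theorem sp_tendsto : Tendsto (fun z : G × F => (z.1, (z.2, (0 : ℝ)))) (𝓝 ((1 : G), (0 : F)))
    (𝓝 ((1 : G), (0 : F × ℝ))) := by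
  have : ContinuousAt (fun z : G × F => (z.1, (z.2, (0 : ℝ)))) ((1 : G), (0 : F)) := by fun_prop
  exact this.tendsto

/-- A local action on `F × ℝ` which commutes with the translations of the second factor is a skew
product. -/
theorem spA_local (hA : IsLocalAction IG A 0)
    (hs : ∀ᶠ z in 𝓝 ((1 : G), (0 : F × ℝ)), A z = A (z.1, (z.2.1, 0)) + (0, z.2.2)) :
    IsLocalAction IG (spA A) 0 ∧ IsActionCocycle IG (spA A) (spC A) 0 ∧
      ∀ᶠ z in 𝓝 ((1 : G), (0 : F × ℝ)), A z = skew (spA A) (spC A) (fun p => p.2 + p.1) z := by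
  have hsm : Sm (IG.prod 𝓘(ℝ, F)) 𝓘(ℝ, F × ℝ) (fun z : G × F => A (z.1, (z.2, 0)))
      ((1 : G), (0 : F)) := by
    have e1 : Sm (IG.prod 𝓘(ℝ, F)) IG (fun z : G × F => z.1) ((1 : G), (0 : F)) :=
      Sm.of contMDiff_fst
    have e2 : Sm (IG.prod 𝓘(ℝ, F)) 𝓘(ℝ, F) (fun z : G × F => z.2) ((1 : G), (0 : F)) :=
      Sm.of contMDiff_snd
    have e3 : Sm (IG.prod 𝓘(ℝ, F)) 𝓘(ℝ, F × ℝ) (fun z : G × F => (z.2, (0 : ℝ)))
      ((1 : G), (0 : F)) := e2.prodMk_space Sm.const
    exact Sm.comp (g := A) hA.smooth (e1.prodMk e3) rfl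
  have hone : ∀ᶠ u in 𝓝 (0 : F), A (1, (u, 0)) = (u, 0) := by
    have hc : ContinuousAt (fun u : F => (u, (0 : ℝ))) 0 := by fun_prop
    exact hc.eventually hA.one
  have hmul : ∀ᶠ z in 𝓝 (((1 : G), (1 : G)), (0 : F)),
      A (z.1.1 * z.1.2, (z.2, 0)) =
        A (z.1.1, (spA A (z.1.2, z.2), 0)) + (0, spC A (z.1.2, z.2)) := by
    have c1 : Tendsto (fun z : (G × G) × F => (z.1, (z.2, (0 : ℝ))))
        (𝓝 (((1 : G), (1 : G)), (0 : F))) (𝓝 (((1 : G), (1 : G)), (0 : F × ℝ))) := by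
      have : ContinuousAt (fun z : (G × G) × F => (z.1, (z.2, (0 : ℝ))))
        (((1 : G), (1 : G)), (0 : F)) := by fun_prop
      exact this.tendsto
    have c2 : Tendsto (fun z : (G × G) × F => (z.1.2, (z.2, (0 : ℝ))))
        (𝓝 (((1 : G), (1 : G)), (0 : F))) (𝓝 ((1 : G), (0 : F × ℝ))) := by
      have : ContinuousAt (fun z : (G × G) × F => (z.1.2, (z.2, (0 : ℝ))))
        (((1 : G), (1 : G)), (0 : F)) := by fun_prop
      exact this.tendsto
    have c3 : Tendsto (fun z : (G × G) × F => (z.1.1, A (z.1.2, (z.2, (0 : ℝ)))))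
        (𝓝 (((1 : G), (1 : G)), (0 : F))) (𝓝 ((1 : G), (0 : F × ℝ))) := by
      have e1 : Tendsto (fun z : (G × G) × F => z.1.1)
          (𝓝 (((1 : G), (1 : G)), (0 : F))) (𝓝 (1 : G)) := by
        have : ContinuousAt (fun z : (G × G) × F => z.1.1) (((1 : G), (1 : G)), (0 : F)) := by
          fun_prop
        exact this.tendsto
      have e2 : Tendsto A (𝓝 ((1 : G), (0 : F × ℝ))) (𝓝 0) := by
        have := hA.continuousAt.tendsto
        rwa [hA.apply_one] at this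
      have e3 := e1.prodMk (e2.comp c2)
      rw [← nhds_prod_eq] at e3
      exact e3
    filter_upwards [c1.eventually hA.mul, c3.eventually hs] with z h1 h2
    have h1' : A (z.1.1 * z.1.2, (z.2, 0)) = A (z.1.1, A (z.1.2, (z.2, 0))) := h1
    rw [h1', h2]
    rfl
  refine ⟨⟨?_, ?_, ?_⟩, ⟨?_, ?_⟩, ?_⟩
  · exact hsm.fst_space
  · filter_upwards [hone] with u hu
    show (A (1, (u, 0))).1 = u
    rw [hu]
  · filter_upwards [hmul] with z hz
    show (A (z.1.1 * z.1.2, (z.2, 0))).1 = (A (z.1.1, (spA A (z.1.2, z.2), 0))).1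
    rw [hz]
    simp
  · exact hsm.snd_space
  · filter_upwards [hmul] with z hz
    show (A (z.1.1 * z.1.2, (z.2, 0))).2 =
      spC A (z.1.2, z.2) + (A (z.1.1, (spA A (z.1.2, z.2), 0))).2
    rw [hz]
    simp [add_comm]
  · filter_upwards [hs] with z hz
    rw [hz]
    refine Prod.ext ?_ ?_
    · show (A (z.1, (z.2.1, 0))).1 + 0 = (A (z.1, (z.2.1, 0))).1
      rw [add_zero]
    · show (A (z.1, (z.2.1, 0))).2 + z.2.2 = z.2.2 + (A (z.1, (z.2.1, 0))).2
      rw [add_comm]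

end Skew

end Pool.Agent.MP_602746_gt
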