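import Mathlib
import Pool.Agent.MP_602746_gt.SplitAct

open scoped Manifold ContDiff Topology
open Set Filter

noncomputable section

namespace Pool.Agent.MP_602746_gt

section Linear

variable {V : Type*} [NormedAddCommGroup V] [NormedSpace ℝ V]

/-- The linear splitting of `V` as the product of the kernel of `lam` and the line of `v₀`. -/
def spE (lam : V →L[ℝ] ℝ) (v₀ : V) (hv₀ : lam v₀ = 1) : (KerT lam × ℝ) ≃L[ℝ] V :=
  ContinuousLinearEquiv.equivOfInverse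
    ((LinearMap.ker (lam : V →ₗ[ℝ] ℝ)).subtypeL.comp (ContinuousLinearMap.fst ℝ (KerT lam) ℝ) +
      (ContinuousLinearMap.toSpanSingleton ℝ v₀).comp (ContinuousLinearMap.snd ℝ (KerT lam) ℝ))
    ((projK lam v₀ hv₀).prod lam)
    (fun y => by
      have hy : lam (y.1 : V) = 0 := y.1.2
      have h1 : lam ((y.1 : V) + y.2 • v₀) = y.2 := by simp [hv₀, hy]
      refine Prod.ext (Subtype.ext ?_) ?_
      · show (projK lam v₀ hv₀ ((y.1 : V) + y.2 • v₀) : V) = y.1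
        rw [projK_coe, h1]; abel
      · show lam ((y.1 : V) + y.2 • v₀) = y.2
        exact h1)
    (fun x => by
      show (projK lam v₀ hv₀ x : V) + lam x • v₀ = x
      rw [projK_coe]; abel)

theorem spE_apply (lam : V →L[ℝ] ℝ) (v₀ : V) (hv₀ : lam v₀ = 1) (y : KerT lam × ℝ) :
    spE lam v₀ hv₀ y = (y.1 : V) + y.2 • v₀ := rfl

end Linear

variable {EG : Type*} [NormedAddCommGroup EG] [NormedSpace ℝ EG] [FiniteDimensional ℝ EG]
  {HG : Type*} [TopologicalSpace HG]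
  {IG : ModelWithCorners ℝ EG HG} {G : Type*} [TopologicalSpace G] [ChartedSpace HG G] [Group G]
  [LieGroup IG ∞ G]
  {V : Type*} [NormedAddCommGroup V] [NormedSpace ℝ V] [FiniteDimensional ℝ V]
  {Φ : V → G} {Ψ : G → V}

omit [FiniteDimensional ℝ EG] [FiniteDimensional ℝ V] in
/-- The properties of the local multiplication. -/
theorem LocalChart.mul_props (h : LocalChart IG Φ Ψ) :
    (∀ᶠ x in 𝓝 (0 : V), chartMul Φ Ψ (x, 0) = x) ∧ (∀ᶠ y in 𝓝 (0 : V), chartMul Φ Ψ (0, y) = y) ∧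
      ∀ᶠ z in 𝓝 (0 : (V × V) × V), chartMul Φ Ψ (chartMul Φ Ψ z.1, z.2) =
        chartMul Φ Ψ (z.1.1, chartMul Φ Ψ (z.1.2, z.2)) := by
  refine ⟨?_, ?_, ?_⟩
  · filter_upwards [h.left_inv] with x hx
    show Ψ (Φ x * Φ 0) = x
    rw [h.zero, mul_one, hx]
  · filter_upwards [h.left_inv] with x hx
    show Ψ (Φ 0 * Φ x) = x
    rw [h.zero, one_mul, hx]
  · have c1 : Tendsto (fun z : (V × V) × V => z.1) (𝓝 0) (𝓝 (0 : V × V)) :=
      continuous_fst.tendsto _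
    have c2 : Tendsto (fun z : (V × V) × V => (z.1.2, z.2)) (𝓝 0) (𝓝 (0 : V × V)) := by
      have : ContinuousAt (fun z : (V × V) × V => (z.1.2, z.2)) 0 := by fun_prop
      exact this.tendsto
    filter_upwards [(h.tendsto_mul.comp c1).eventually h.right_inv,
      (h.tendsto_mul.comp c2).eventually h.right_inv] with z h1 h2
    have h1' : Φ (Ψ (Φ z.1.1 * Φ z.1.2)) = Φ z.1.1 * Φ z.1.2 := h1
    have h2' : Φ (Ψ (Φ z.1.2 * Φ z.2)) = Φ z.1.2 * Φ z.2 := h2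
    show Ψ (Φ (Ψ (Φ z.1.1 * Φ z.1.2)) * Φ z.2) = Ψ (Φ z.1.1 * Φ (Ψ (Φ z.1.2 * Φ z.2)))
    rw [h1', h2', mul_assoc]

omit [FiniteDimensional ℝ EG] [FiniteDimensional ℝ V] in
theorem LocalChart.mul_deriv (h : LocalChart IG Φ Ψ) (x y : V) :
    fderiv ℝ (chartMul Φ Ψ) 0 (x, y) = x + y := by
  have e1 : HasFDerivAt (chartMul Φ Ψ) (fderiv ℝ (chartMul Φ Ψ) (0, 0)) ((0 : V), (0 : V)) :=
    (h.smooth_mul.self_of_nhds.differentiableAt (by simp)).hasFDerivAt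
  have e2 : HasFDerivAt (fun y : V => chartMul Φ Ψ (0, y))
      ((fderiv ℝ (chartMul Φ Ψ) (0, 0)).comp (ContinuousLinearMap.inr ℝ V V)) 0 :=
    HasFDerivAt.comp (0 : V) (g := chartMul Φ Ψ) (f := fun y : V => ((0 : V), y)) e1
      (hasFDerivAt_prodMk_right (0 : V) (0 : V))
  have e3 : HasFDerivAt (fun y : V => chartMul Φ Ψ (0, y)) (ContinuousLinearMap.id ℝ V) 0 :=
    (hasFDerivAt_id (0 : V)).congr_of_eventuallyEq h.mul_props.2.1
  have e4 : fderiv ℝ (chartMul Φ Ψ) 0 (0, y) = y := DFunLike.congr_fun (e2.unique e3) y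
  have f2 : HasFDerivAt (fun y : V => chartMul Φ Ψ (y, 0))
      ((fderiv ℝ (chartMul Φ Ψ) (0, 0)).comp (ContinuousLinearMap.inl ℝ V V)) 0 :=
    HasFDerivAt.comp (0 : V) (g := chartMul Φ Ψ) (f := fun y : V => (y, (0 : V))) e1
      (hasFDerivAt_prodMk_left (0 : V) (0 : V))
  have f3 : HasFDerivAt (fun y : V => chartMul Φ Ψ (y, 0)) (ContinuousLinearMap.id ℝ V) 0 :=
    (hasFDerivAt_id (0 : V)).congr_of_eventuallyEq h.mul_props.1
  have f4 : fderiv ℝ (chartMul Φ Ψ) 0 (x, 0) = x := DFunLike.congr_fun (f2.unique f3) x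
  have e5 : ((x, y) : V × V) = (x, 0) + (0, y) := by simp
  rw [e5, map_add, e4, f4]

/-- Left translations of a Lie group are, near the identity, a skew product over a local action on a
space of dimension one less. -/
theorem LocalChart.exists_skew (h : LocalChart IG Φ Ψ) (lam : V →L[ℝ] ℝ) (v₀ : V)
    (hv₀ : lam v₀ = 1) :
    ∃ (a : G × KerT lam → KerT lam) (c : G × KerT lam → ℝ) (K' : KerT lam × ℝ → V),
      IsLocalAction IG a 0 ∧ IsActionCocycle IG a c 0 ∧ K' 0 = 0 ∧ SmN K' 0 ∧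
      HasFDerivAt K' (spE lam v₀ hv₀ : KerT lam × ℝ →L[ℝ] V) 0 ∧
      ∀ᶠ z in 𝓝 ((1 : G), (0 : KerT lam × ℝ)),
        K' (skew a c (fun p => p.2 + p.1) z) = chartAct Φ Ψ (z.1, K' z.2) := by
  have htop := topologicalGroup_of_lieGroup IG ∞ (G := G)
  have : CompleteSpace V := FiniteDimensional.complete ℝ V
  obtain ⟨hm1, hm2, hm3⟩ := h.mul_props
  obtain ⟨γ, hγ0, hγs, hγd, hγadd⟩ := exists_oneParam h.smooth_mul hm1 hm2 hm3 v₀
  have hγc : Tendsto γ (𝓝 0) (𝓝 0) := by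
    have := hγs.self_of_nhds.continuousAt.tendsto
    rwa [hγ0] at this
  -- the new coordinates
  let q : KerT lam × ℝ → V × V := fun y => ((y.1 : V), γ y.2)
  have hq0 : q 0 = 0 := by
    show (((0 : KerT lam) : V), γ 0) = 0
    rw [hγ0]; rfl
  have hqs : SmN q 0 := by
    have c2 : Tendsto (fun y : KerT lam × ℝ => y.2) (𝓝 0) (𝓝 0) := continuous_snd.tendsto _
    filter_upwards [c2.eventually hγs] with y hy
    have e1 : ContDiffAt ℝ ∞ (fun y : KerT lam × ℝ => (y.1 : V)) y :=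
      ((LinearMap.ker (lam : V →ₗ[ℝ] ℝ)).subtypeL.contDiff.contDiffAt).comp y contDiffAt_fst
    have e2 : ContDiffAt ℝ ∞ (fun y : KerT lam × ℝ => γ y.2) y :=
      ContDiffAt.comp y (g := γ) (f := fun y : KerT lam × ℝ => y.2) hy contDiffAt_snd
    exact e1.prodMk e2
  have hqc : Tendsto q (𝓝 0) (𝓝 0) := by
    have := hqs.self_of_nhds.continuousAt.tendsto
    rwa [hq0] at this
  let K' : KerT lam × ℝ → V := fun y => chartMul Φ Ψ (q y)
  have hK'0 : K' 0 = 0 := by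
    show chartMul Φ Ψ (q 0) = 0
    rw [hq0]
    exact hm1.self_of_nhds
  have hK's : SmN K' 0 := by
    have e1 := hqs
    have e2 := h.smooth_mul
    rw [← sm_iff_smN] at e1 e2 ⊢
    exact Sm.comp (g := chartMul Φ Ψ) e2 e1 hq0
  have hK'd : HasFDerivAt K' (spE lam v₀ hv₀ : KerT lam × ℝ →L[ℝ] V) 0 := by
    have e1 : HasFDerivAt (fun y : KerT lam × ℝ => (y.1 : V))
        ((LinearMap.ker (lam : V →ₗ[ℝ] ℝ)).subtypeL.comp
          (ContinuousLinearMap.fst ℝ (KerT lam) ℝ)) 0 :=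
      ((LinearMap.ker (lam : V →ₗ[ℝ] ℝ)).subtypeL.comp
          (ContinuousLinearMap.fst ℝ (KerT lam) ℝ)).hasFDerivAt
    have e2 : HasFDerivAt (fun y : KerT lam × ℝ => γ y.2)
        ((ContinuousLinearMap.toSpanSingleton ℝ v₀).comp
          (ContinuousLinearMap.snd ℝ (KerT lam) ℝ)) 0 :=
      HasFDerivAt.comp (0 : KerT lam × ℝ) (g := γ) (f := fun y : KerT lam × ℝ => y.2)
        (hγd.hasFDerivAt : HasFDerivAt γ (ContinuousLinearMap.toSpanSingleton ℝ v₀) 0)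
        hasFDerivAt_snd
    have e3 : HasFDerivAt (chartMul Φ Ψ) (fderiv ℝ (chartMul Φ Ψ) 0) (q 0) := by
      rw [hq0]
      exact (h.smooth_mul.self_of_nhds.differentiableAt (by simp)).hasFDerivAt
    have e4 : HasFDerivAt K' ((fderiv ℝ (chartMul Φ Ψ) 0).comp
        (((LinearMap.ker (lam : V →ₗ[ℝ] ℝ)).subtypeL.comp
          (ContinuousLinearMap.fst ℝ (KerT lam) ℝ)).prod
        ((ContinuousLinearMap.toSpanSingleton ℝ v₀).comp
          (ContinuousLinearMap.snd ℝ (KerT lam) ℝ)))) 0 :=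
      HasFDerivAt.comp (0 : KerT lam × ℝ) (g := chartMul Φ Ψ) (f := q) e3 (e1.prodMk e2)
    refine e4.congr_fderiv ?_
    refine ContinuousLinearMap.ext fun y => ?_
    exact h.mul_deriv (y.1 : V) (y.2 • v₀)
  obtain ⟨K, hK0, hKs, hKd, hleft, hright⟩ :=
    exists_local_inverse hK's hK'0 (spE lam v₀ hv₀) hK'd
  -- `K` is a left and right inverse of `K'`
  have hchart : LocalChart IG (fun y => Φ (K' y)) (fun g => K (Ψ g)) :=
    h.comp hKs hK's hK0 hK'0 hright hleft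
  have hK'c : Tendsto K' (𝓝 0) (𝓝 0) := by
    have := hK's.self_of_nhds.continuousAt.tendsto
    rwa [hK'0] at this
  -- the new chart is a product
  have hprod : ∀ᶠ y in 𝓝 (0 : KerT lam × ℝ), Φ (K' y) = Φ (y.1 : V) * Φ (γ y.2) :=
    (h.tendsto_mul.comp hqc).eventually h.right_inv
  have hγmul : ∀ᶠ p in 𝓝 (0 : ℝ × ℝ), Φ (γ (p.1 + p.2)) = Φ (γ p.1) * Φ (γ p.2) := by
    have c1 : Tendsto (fun p : ℝ × ℝ => (γ p.1, γ p.2)) (𝓝 0) (𝓝 (0 : V × V)) := by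
      have e1 := (hγc.comp (continuous_fst.tendsto (0 : ℝ × ℝ))).prodMk
        (hγc.comp (continuous_snd.tendsto (0 : ℝ × ℝ)))
      rwa [← nhds_prod_eq] at e1
    filter_upwards [hγadd, (h.tendsto_mul.comp c1).eventually h.right_inv] with p h1 h2
    rw [h1]
    exact h2
  -- right translations by the one-parameter subgroup
  have hright' : ∀ᶠ z in 𝓝 ((1 : G), (0 : ℝ)),
      K (Ψ (z.1 * Φ (γ z.2))) = K (Ψ z.1) + (0, z.2) := by
    have c1 : Tendsto (fun z : G × ℝ => K (Ψ z.1)) (𝓝 ((1 : G), (0 : ℝ))) (𝓝 0) :=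
      hchart.tendsto_inv.comp (continuous_fst.tendsto _)
    have c2 : Tendsto (fun z : G × ℝ => z.2) (𝓝 ((1 : G), (0 : ℝ))) (𝓝 0) :=
      continuous_snd.tendsto _
    have c3 : Tendsto (fun z : G × ℝ => ((K (Ψ z.1)).2, z.2)) (𝓝 ((1 : G), (0 : ℝ)))
        (𝓝 (0 : ℝ × ℝ)) := by
      have e1 := ((continuous_snd.tendsto (0 : KerT lam × ℝ)).comp c1).prodMk c2
      rw [← nhds_prod_eq] at e1
      exact e1
    have c4 : Tendsto (fun z : G × ℝ => ((K (Ψ z.1)).1, (K (Ψ z.1)).2 + z.2))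
        (𝓝 ((1 : G), (0 : ℝ))) (𝓝 (0 : KerT lam × ℝ)) := by
      have e1 : Tendsto (fun p : (KerT lam × ℝ) × ℝ => (p.1.1, p.1.2 + p.2)) (𝓝 0)
          (𝓝 (0 : KerT lam × ℝ)) := by
        have hc : ContinuousAt (fun p : (KerT lam × ℝ) × ℝ => (p.1.1, p.1.2 + p.2)) 0 := by fun_prop
        have h0 : ((((0 : (KerT lam × ℝ) × ℝ).1.1 : KerT lam),
            (0 : (KerT lam × ℝ) × ℝ).1.2 + (0 : (KerT lam × ℝ) × ℝ).2) : KerT lam × ℝ) = 0 :=
          Prod.ext rfl (add_zero (0 : ℝ))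
        have h1 := hc.tendsto
        rw [h0] at h1
        exact h1
      have e2 := c1.prodMk c2
      rw [← nhds_prod_eq] at e2
      exact e1.comp e2
    have c5 : Tendsto (fun z : G × ℝ => z.1) (𝓝 ((1 : G), (0 : ℝ))) (𝓝 1) :=
      continuous_fst.tendsto _
    filter_upwards [c1.eventually hprod, c3.eventually hγmul, c4.eventually hprod,
      c4.eventually hchart.left_inv, c5.eventually hchart.right_inv] with z h1 h2 h3 h4 h5
    have h5' : Φ (K' (K (Ψ z.1))) = z.1 := h5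
    have h1' : Φ (K' (K (Ψ z.1))) = Φ ((K (Ψ z.1)).1 : V) * Φ (γ (K (Ψ z.1)).2) := h1
    have h3' : Φ (K' ((K (Ψ z.1)).1, (K (Ψ z.1)).2 + z.2)) =
      Φ ((K (Ψ z.1)).1 : V) * Φ (γ ((K (Ψ z.1)).2 + z.2)) := h3
    have h2' : Φ (γ ((K (Ψ z.1)).2 + z.2)) = Φ (γ (K (Ψ z.1)).2) * Φ (γ z.2) := h2
    have h4' : K (Ψ (Φ (K' ((K (Ψ z.1)).1, (K (Ψ z.1)).2 + z.2)))) =
      ((K (Ψ z.1)).1, (K (Ψ z.1)).2 + z.2) := h4
    have h6 : z.1 * Φ (γ z.2) = Φ (K' ((K (Ψ z.1)).1, (K (Ψ z.1)).2 + z.2)) := by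
      rw [h3', h2', ← mul_assoc, ← h1', h5']
    rw [h6, h4']
    refine Prod.ext ?_ rfl
    show (K (Ψ z.1)).1 = (K (Ψ z.1)).1 + 0
    rw [add_zero]
  -- the action in the new chart
  have hA := hchart.isLocalAction
  have hs : ∀ᶠ z in 𝓝 ((1 : G), (0 : KerT lam × ℝ)),
      chartAct (fun y => Φ (K' y)) (fun g => K (Ψ g)) z =
        chartAct (fun y => Φ (K' y)) (fun g => K (Ψ g)) (z.1, (z.2.1, 0)) + (0, z.2.2) := by
    have c1 : Tendsto (fun z : G × (KerT lam × ℝ) => z.2) (𝓝 ((1 : G), (0 : KerT lam × ℝ)))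
        (𝓝 0) := continuous_snd.tendsto _
    have c2 : Tendsto (fun z : G × (KerT lam × ℝ) => (z.2.1, (0 : ℝ)))
        (𝓝 ((1 : G), (0 : KerT lam × ℝ))) (𝓝 0) := by
      have : ContinuousAt (fun z : G × (KerT lam × ℝ) => (z.2.1, (0 : ℝ)))
        ((1 : G), (0 : KerT lam × ℝ)) := by fun_prop
      exact this.tendsto
    have c3 : Tendsto (fun z : G × (KerT lam × ℝ) => (z.1 * Φ (K' (z.2.1, (0 : ℝ))), z.2.2))
        (𝓝 ((1 : G), (0 : KerT lam × ℝ))) (𝓝 ((1 : G), (0 : ℝ))) := by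
      have e1 : Tendsto (fun z : G × (KerT lam × ℝ) => (z.1, (z.2.1, (0 : ℝ))))
          (𝓝 ((1 : G), (0 : KerT lam × ℝ))) (𝓝 ((1 : G), (0 : KerT lam × ℝ))) := by
        have : ContinuousAt (fun z : G × (KerT lam × ℝ) => (z.1, (z.2.1, (0 : ℝ))))
          ((1 : G), (0 : KerT lam × ℝ)) := by fun_prop
        exact this.tendsto
      have e2 := (hchart.tendsto_act).comp e1
      have e3 : Tendsto (fun z : G × (KerT lam × ℝ) => z.2.2) (𝓝 ((1 : G), (0 : KerT lam × ℝ)))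
          (𝓝 0) := by
        have : ContinuousAt (fun z : G × (KerT lam × ℝ) => z.2.2)
          ((1 : G), (0 : KerT lam × ℝ)) := by fun_prop
        exact this.tendsto
      have e4 := e2.prodMk e3
      rw [← nhds_prod_eq] at e4
      exact e4
    filter_upwards [c1.eventually hprod, c2.eventually hprod, c3.eventually hright']
      with z h1 h2 h3
    have h2' : Φ (K' (z.2.1, (0 : ℝ))) = Φ (z.2.1 : V) := by
      have : Φ (K' (z.2.1, (0 : ℝ))) = Φ (z.2.1 : V) * Φ (γ 0) := h2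
      rw [this, hγ0, h.zero, mul_one]
    have h3' : K (Ψ (z.1 * Φ (K' (z.2.1, (0 : ℝ))) * Φ (γ z.2.2))) =
      K (Ψ (z.1 * Φ (K' (z.2.1, (0 : ℝ))))) + (0, z.2.2) := h3
    show K (Ψ (z.1 * Φ (K' z.2))) = K (Ψ (z.1 * Φ (K' (z.2.1, (0 : ℝ))))) + (0, z.2.2)
    rw [← h3', h1, h2', mul_assoc]
  obtain ⟨h1, h2, h3⟩ := spA_local hA hs
  refine ⟨_, _, K', h1, h2, hK'0, hK's, hK'd, ?_⟩
  have c1 : Tendsto (fun z : G × (KerT lam × ℝ) => (z.1, K' z.2))
      (𝓝 ((1 : G), (0 : KerT lam × ℝ))) (𝓝 ((1 : G), (0 : V))) := by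
    have e1 : Tendsto (fun z : G × (KerT lam × ℝ) => z.1) (𝓝 ((1 : G), (0 : KerT lam × ℝ)))
        (𝓝 1) := continuous_fst.tendsto _
    have e2 : Tendsto (fun z : G × (KerT lam × ℝ) => K' z.2) (𝓝 ((1 : G), (0 : KerT lam × ℝ)))
        (𝓝 0) := hK'c.comp (continuous_snd.tendsto _)
    have e3 := e1.prodMk e2
    rwa [← nhds_prod_eq] at e3
  have c2 : Tendsto (fun z : G × (KerT lam × ℝ) => chartAct Φ Ψ (z.1, K' z.2))
      (𝓝 ((1 : G), (0 : KerT lam × ℝ))) (𝓝 0) :=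
    h.tendsto_inv.comp (h.tendsto_act.comp c1)
  filter_upwards [h3, c2.eventually hright] with z h4 h5
  rw [← h4]
  exact h5

end Pool.Agent.MP_602746_gt
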