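import Mathlib
import Pool.Agent.MP_602746_gt.FamMove
import Pool.Agent.MP_602746_gt.SplitChart
import Pool.Agent.MP_602746_gt.Final

open scoped Manifold ContDiff Topology
open Set Filter

noncomputable section

namespace Pool.Agent.MP_602746_gt

section Chart

variable {EG : Type*} [NormedAddCommGroup EG] [NormedSpace ℝ EG] [FiniteDimensional ℝ EG]
  {HG : Type*} [TopologicalSpace HG]
  {IG : ModelWithCorners ℝ EG HG} {G : Type*} [TopologicalSpace G] [ChartedSpace HG G] [Group G]
  [LieGroup IG ∞ G]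
  {V : Type*} [NormedAddCommGroup V] [NormedSpace ℝ V] [FiniteDimensional ℝ V]
  {Φ : V → G} {Ψ : G → V}
  {EB : Type*} [NormedAddCommGroup EB] [NormedSpace ℝ EB] {HB : Type*} [TopologicalSpace HB]
  {IB : ModelWithCorners ℝ EB HB} {B : Type*} [TopologicalSpace B] [ChartedSpace HB B]

omit [FiniteDimensional ℝ V] in
theorem GammaBar.lin_symm_equal {V' : Type*} [NormedAddCommGroup V'] [NormedSpace ℝ V']
    (σ : GammaBar IB B V) (A : V' ≃L[ℝ] V) : ((σ.lin A).lin A.symm).Equal σ := by
  intro b
  refine SameLeaves.of_eventuallyEq (Eventually.of_forall fun w => ?_)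
  rw [GammaBar.lin_F, GammaBar.lin_F]
  simp

/-- The members of a family of structures modelled on a Lie group of positive dimension, acting on
itself by left translations, are homotopic. -/
theorem fam_chart [Nontrivial V] (c : GFam IB B IG G) (h : LocalChart IG Φ Ψ) :
    (ofPt (c.slice 0) (chartAct Φ Ψ) 0 h.isLocalAction).Homotopic
      (ofPt (c.slice 1) (chartAct Φ Ψ) 0 h.isLocalAction) := by
  obtain ⟨v₀, hv₀⟩ := exists_ne (0 : V)
  obtain ⟨lam, hlam⟩ := SeparatingDual.exists_eq_one (R := ℝ) hv₀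
  obtain ⟨a, k, K', ha, hk, hK'0, hK's, hK'd, hconj⟩ := h.exists_skew lam v₀ hlam
  have hsk : IsLocalAction IG (skew a k (fun p => p.2 + p.1)) (0 : KerT lam × ℝ) :=
    ha.skew hk (isLocalFlow_translation 0)
  have e1 : ∀ u : GCocycle IB B IG G, ((ofPt u (chartAct Φ Ψ) 0 h.isLocalAction).lin
      (spE lam v₀ hlam)).Homotopic ((ofPt u a 0 ha).stab ℝ) := by
    intro u
    have e2 : (ofPt u (skew a k (fun p => p.2 + p.1)) 0 hsk).Homotopic
        ((ofPt u (chartAct Φ Ψ) 0 h.isLocalAction).lin (spE lam v₀ hlam)) :=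
      ofPt_conj u h.isLocalAction hsk K' hK'0 hK's _ hK'd hconj
    exact e2.symm.trans (one_step u ha hk hsk)
  have e3 := ((e1 (c.slice 0)).trans ((fam_move c a ha).trans (e1 (c.slice 1)).symm)).lin
    (spE lam v₀ hlam).symm
  exact (GammaBar.Homotopic.of_equal (GammaBar.lin_symm_equal _ _).symm).trans
    (e3.trans (GammaBar.Homotopic.of_equal (GammaBar.lin_symm_equal _ _)))

end Chart

section Final

variable {EG : Type*} [NormedAddCommGroup EG] [NormedSpace ℝ EG] [FiniteDimensional ℝ EG]
  {HG : Type*} [TopologicalSpace HG]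
  {IG : ModelWithCorners ℝ EG HG} {G : Type*} [TopologicalSpace G] [ChartedSpace HG G] [Group G]
  [LieGroup IG ∞ G]
  {V : Type*} [NormedAddCommGroup V] [NormedSpace ℝ V]
  {EM : Type*} [NormedAddCommGroup EM] [NormedSpace ℝ EM] {HM : Type*} [TopologicalSpace HM]
  {IM : ModelWithCorners ℝ EM HM} {M : Type*} [TopologicalSpace M] [ChartedSpace HM M]

theorem GammaBar.equal_of_subsingleton [Subsingleton V] (σ τ : GammaBar IM M V) : σ.Equal τ :=
  fun _ => ⟨fun v => v, isLocalDiffeomorphAt_id _,
    Eventually.of_forall fun _ => Subsingleton.elim _ _⟩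

variable [FiniteDimensional ℝ V]

/-- Structures transversely modelled on a Lie group which can be deformed into one another are
homotopic. -/
theorem family_homotopic (𝓕 : LieFamily IM M IG G)
    (ψ : PartialDiffeomorph 𝓘(ℝ, V) IG V G ∞) (h0 : (0 : V) ∈ ψ.source) (h1 : ψ 0 = 1) :
    ((𝓕.slice 0).haefliger ψ h0).Homotopic ((𝓕.slice 1).haefliger ψ h0) := by
  rcases subsingleton_or_nontrivial V with hV | hV
  · exact GammaBar.Homotopic.of_equal (GammaBar.equal_of_subsingleton _ _)
  · have h := localChart_of_pd ψ h0 h1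
    have e1 : ∀ t, ((𝓕.slice t).haefliger ψ h0).Homotopic
        (ofPt (𝓕.gfam.slice t) (chartAct ψ ψ.symm) 0 h.isLocalAction) := by
      intro t
      refine GammaBar.Homotopic.of_equal
        ((haefliger_equal_G (𝓕.slice t) ψ h0 h.isLocalAction).symm.trans ?_)
      refine ofPt_congr_cocycle h.isLocalAction fun m => ?_
      filter_upwards [𝓕.slice_cocycle t m] with m' hm'
      exact hm'.symm
    exact (e1 0).trans ((fam_chart 𝓕.gfam h).trans (e1 1).symm)

end Final

end Pool.Agent.MP_602746_gt
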