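import Mathlib
import Pool.Agent.MP_602746_gt.FamMain

open scoped Manifold ContDiff Topology
open Set Filter

noncomputable section

namespace Pool.Agent.MP_602746_gt

universe u v

section Induced

variable {EM : Type*} [NormedAddCommGroup EM] [NormedSpace ℝ EM] {HM : Type*} [TopologicalSpace HM]
  {IM : ModelWithCorners ℝ EM HM} {M : Type*} [TopologicalSpace M] [ChartedSpace HM M]
  {EG : Type*} [NormedAddCommGroup EG] [NormedSpace ℝ EG] {HG : Type*} [TopologicalSpace HG]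
  {IG : ModelWithCorners ℝ EG HG} {G : Type*} [TopologicalSpace G] [ChartedSpace HG G] [Group G]
  {EH : Type*} [NormedAddCommGroup EH] [NormedSpace ℝ EH] {HH : Type*} [TopologicalSpace HH]
  {IH : ModelWithCorners ℝ EH HH} {H : Type*} [TopologicalSpace H] [ChartedSpace HH H] [Group H]

/-- The structure modelled on `G` induced by a structure modelled on `H` and a smooth homomorphism
`j : H → G`: its local maps are the maps `j ∘ f i`. -/
def LieStructure.map (𝓔 : LieStructure.{u} IM M IH H) (j : H →* G) (hj : ContMDiff IH IG ∞ j) :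
    LieStructure.{u} IM M IG G where
  ι := 𝓔.ι
  U := 𝓔.U
  isOpen_U := 𝓔.isOpen_U
  cover := 𝓔.cover
  f i := fun m => j (𝓔.f i m)
  smooth i := hj.comp_contMDiffOn (𝓔.smooth i)
  transition i i' m hm := by
    obtain ⟨h, hh⟩ := 𝓔.transition i i' m hm
    exact ⟨j h, hh.mono fun m' hm' => by rw [hm', map_mul]⟩

/-- Two structures modelled on `G` agree: their local maps differ by (locally) constant left
translations. -/
def LieStructure.Agrees (𝓐 : LieStructure.{u} IM M IG G) (𝓑 : LieStructure.{v} IM M IG G) : Prop :=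
  ∀ (i : 𝓐.ι) (k : 𝓑.ι), ∀ m ∈ 𝓐.U i ∩ 𝓑.U k, ∃ g : G, ∀ᶠ m' in 𝓝 m, 𝓐.f i m' = g * 𝓑.f k m'

theorem LieStructure.Agrees.cocycle [LieGroup IG ∞ G] {𝓐 : LieStructure.{u} IM M IG G}
    {𝓑 : LieStructure.{v} IM M IG G} (h : 𝓐.Agrees 𝓑) (m : M) :
    ∀ᶠ m' in 𝓝 m, 𝓐.cocycle.h m m' = 𝓑.cocycle.h m m' := by
  obtain ⟨g, hg⟩ := h (𝓐.idx m) (𝓑.idx m) m ⟨𝓐.mem_idx m, 𝓑.mem_idx m⟩
  filter_upwards [hg] with m' hm'
  show (𝓐.f (𝓐.idx m) m)⁻¹ * 𝓐.f (𝓐.idx m) m' = (𝓑.f (𝓑.idx m) m)⁻¹ * 𝓑.f (𝓑.idx m) m'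
  rw [hg.self_of_nhds, hm']
  group

end Induced

section Action

variable {EG : Type*} [NormedAddCommGroup EG] [NormedSpace ℝ EG] {HG : Type*} [TopologicalSpace HG]
  {IG : ModelWithCorners ℝ EG HG} {G : Type*} [TopologicalSpace G] [ChartedSpace HG G] [Group G]
  {EH : Type*} [NormedAddCommGroup EH] [NormedSpace ℝ EH] {HH : Type*} [TopologicalSpace HH]
  {IH : ModelWithCorners ℝ EH HH} {H : Type*} [TopologicalSpace H] [ChartedSpace HH H] [Group H]
  {V : Type*} [NormedAddCommGroup V] [NormedSpace ℝ V]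
  {W : Type*} [NormedAddCommGroup W] [NormedSpace ℝ W]

/-- Restriction of a local action along a homomorphism. -/
theorem IsLocalAction.comap {a : G × V → V} {p : V} (ha : IsLocalAction IG a p) (j : H →* G)
    (hj : ContMDiff IH IG ∞ j) : IsLocalAction IH (fun z : H × V => a (j z.1, z.2)) p := by
  have hjc : Continuous j := hj.continuous
  refine ⟨?_, ?_, ?_⟩
  · have e1 : Sm (IH.prod 𝓘(ℝ, V)) IH (fun z : H × V => z.1) ((1 : H), p) := Sm.of contMDiff_fst
    have e2 : Sm (IH.prod 𝓘(ℝ, V)) 𝓘(ℝ, V) (fun z : H × V => z.2) ((1 : H), p) :=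
      Sm.of contMDiff_snd
    have e3 : Sm (IH.prod 𝓘(ℝ, V)) IG (fun z : H × V => j z.1) ((1 : H), p) :=
      Sm.comp (g := j) (Sm.of hj) e1 rfl
    exact Sm.comp (g := a) ha.smooth (e3.prodMk e2) (by simp)
  · filter_upwards [ha.one] with v hv
    rw [map_one, hv]
  · have hc : Tendsto (fun z : (H × H) × V => ((j z.1.1, j z.1.2), z.2))
        (𝓝 (((1 : H), (1 : H)), p)) (𝓝 (((1 : G), (1 : G)), p)) := by
      have : ContinuousAt (fun z : (H × H) × V => ((j z.1.1, j z.1.2), z.2))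
        (((1 : H), (1 : H)), p) := by fun_prop
      simpa using this.tendsto
    filter_upwards [hc.eventually ha.mul] with z hz
    rw [map_mul]
    exact hz

/-- The product of a local action and the trivial action. -/
theorem IsLocalAction.prodTrivial {b : H × V → V} (hb : IsLocalAction IH b 0) :
    IsLocalAction IH (fun z : H × (V × W) => (b (z.1, z.2.1), z.2.2)) (0 : V × W) := by
  have e1 : Sm (IH.prod 𝓘(ℝ, V × W)) IH (fun z : H × (V × W) => z.1) ((1 : H), (0 : V × W)) :=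
    Sm.of contMDiff_fst
  have e2 : Sm (IH.prod 𝓘(ℝ, V × W)) 𝓘(ℝ, V × W) (fun z : H × (V × W) => z.2)
    ((1 : H), (0 : V × W)) := Sm.of contMDiff_snd
  refine ⟨?_, ?_, ?_⟩
  · have e3 : Sm (IH.prod 𝓘(ℝ, V × W)) 𝓘(ℝ, V) (fun z : H × (V × W) => b (z.1, z.2.1))
        ((1 : H), (0 : V × W)) := Sm.comp (g := b) hb.smooth (e1.prodMk e2.fst_space) rfl
    exact e3.prodMk_space e2.snd_space
  · have hc : Tendsto (fun z : V × W => z.1) (𝓝 0) (𝓝 0) := continuous_fst.tendsto _
    filter_upwards [hc.eventually hb.one] with z hz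
    rw [hz]
  · have hc : Tendsto (fun z : (H × H) × (V × W) => (z.1, z.2.1))
        (𝓝 (((1 : H), (1 : H)), (0 : V × W))) (𝓝 (((1 : H), (1 : H)), (0 : V))) := by
      have : ContinuousAt (fun z : (H × H) × (V × W) => (z.1, z.2.1))
        (((1 : H), (1 : H)), (0 : V × W)) := by fun_prop
      exact this.tendsto
    filter_upwards [hc.eventually hb.mul] with z hz
    have hz' : b (z.1.1 * z.1.2, z.2.1) = b (z.1.1, b (z.1.2, z.2.1)) := hz
    rw [hz']

end Action

section Linear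

variable {V : Type*} [NormedAddCommGroup V] [NormedSpace ℝ V] [FiniteDimensional ℝ V]
  {V' : Type*} [NormedAddCommGroup V'] [NormedSpace ℝ V'] [FiniteDimensional ℝ V']

/-- An injective linear map splits. -/
theorem exists_complement (D : V' →L[ℝ] V) (hD : Function.Injective D) :
    ∃ (K : Submodule ℝ V) (A : (V' × K) ≃L[ℝ] V), ∀ z : V' × K, A z = D z.1 + (z.2 : V) := by
  obtain ⟨K, hK⟩ := Submodule.exists_isCompl (LinearMap.range (D : V' →ₗ[ℝ] V))
  let L : (V' × K) →ₗ[ℝ] V :=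
    (D : V' →ₗ[ℝ] V) ∘ₗ LinearMap.fst ℝ V' K + K.subtype ∘ₗ LinearMap.snd ℝ V' K
  have hL : ∀ z : V' × K, L z = D z.1 + (z.2 : V) := fun z => rfl
  have hbij : Function.Bijective L := by
    constructor
    · rw [← LinearMap.ker_eq_bot, LinearMap.ker_eq_bot']
      intro z hz
      rw [hL] at hz
      have h1 : D z.1 = -(z.2 : V) := eq_neg_of_add_eq_zero_left hz
      have h2 : D z.1 ∈ K := by rw [h1]; exact K.neg_mem z.2.2
      have h3 : D z.1 ∈ LinearMap.range (D : V' →ₗ[ℝ] V) := ⟨z.1, rfl⟩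
      have h4 : D z.1 = 0 := Submodule.disjoint_def.1 hK.disjoint _ h3 h2
      have h5 : z.1 = 0 := hD (h4.trans (map_zero D).symm)
      rw [h4] at hz
      refine Prod.ext h5 (Subtype.ext ?_)
      simpa using hz
    · intro v
      have h1 : v ∈ LinearMap.range (D : V' →ₗ[ℝ] V) ⊔ K := by
        rw [hK.sup_eq_top]; exact Submodule.mem_top
      obtain ⟨x, ⟨y, rfl⟩, k, hk, rfl⟩ := Submodule.mem_sup.1 h1
      exact ⟨(y, ⟨k, hk⟩), rfl⟩
  exact ⟨K, (LinearEquiv.ofBijective L hbij).toContinuousLinearEquiv, fun z => rfl⟩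

end Linear

end Pool.Agent.MP_602746_gt
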