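import Mathlib
import Pool.Agent.MP_602746_gt.FamInduce

open scoped Manifold ContDiff Topology
open Set Filter

noncomputable section

namespace Pool.Agent.MP_602746_gt

section Solvable

variable {EH : Type*} [NormedAddCommGroup EH] [NormedSpace ℝ EH] [FiniteDimensional ℝ EH]
  {HH : Type*} [TopologicalSpace HH]
  {IH : ModelWithCorners ℝ EH HH} {H : Type*} [TopologicalSpace H] [ChartedSpace HH H] [Group H]
  [LieGroup IH ∞ H]
  {V' : Type*} [NormedAddCommGroup V'] [NormedSpace ℝ V'] [FiniteDimensional ℝ V']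
  {EB : Type*} [NormedAddCommGroup EB] [NormedSpace ℝ EB] {HB : Type*} [TopologicalSpace HB]
  {IB : ModelWithCorners ℝ EB HB} {B : Type*} [TopologicalSpace B] [ChartedSpace HB B]

/-- The product with a point. -/
def punitE (V' : Type*) [NormedAddCommGroup V'] [NormedSpace ℝ V'] : V' ≃L[ℝ] (PUnit.{1} × V') :=
  ContinuousLinearEquiv.equivOfInverse
    ((0 : V' →L[ℝ] PUnit.{1}).prod (ContinuousLinearMap.id ℝ V'))
    (ContinuousLinearMap.snd ℝ PUnit.{1} V') (fun _ => rfl) (fun _ => rfl)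

omit [FiniteDimensional ℝ EH] [LieGroup IH ∞ H] [FiniteDimensional ℝ V'] in
theorem LocalChart.punit {Φ : V' → H} {Ψ : H → V'} (h : LocalChart IH Φ Ψ) :
    LocalChart IH (fun z : PUnit.{1} × V' => Φ z.2) (fun g => (PUnit.unit, Ψ g)) := by
  have hc : Tendsto (fun z : PUnit.{1} × V' => z.2) (𝓝 0) (𝓝 0) := continuous_snd.tendsto _
  refine ⟨h.zero, ?_, ?_, ?_, ?_⟩
  · exact Sm.comp (g := Φ) h.smooth (Sm.of contDiff_snd.contMDiff) rfl
  · exact (Sm.const (c := PUnit.unit)).prodMk_space h.smooth_inv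
  · filter_upwards [hc.eventually h.left_inv] with z hz
    exact Prod.ext rfl hz
  · exact h.right_inv

/-- Structures modelled on a Lie group with solvable Lie algebra are homotopically trivial. -/
theorem ofPt_solvable (hs : LieAlgebra.IsSolvable (GroupLieAlgebra IH H))
    (k : GCocycle IB B IH H) {Φ : V' → H} {Ψ : H → V'} (h : LocalChart IH Φ Ψ) :
    (ofPt k (chartAct Φ Ψ) 0 h.isLocalAction).Homotopic (GammaBar.trivial IB B V') := by
  have hs' : LieAlgebra.IsSolvable (⊤ : LieSubalgebra ℝ (GroupLieAlgebra IH H)) := inferInstance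
  have hchart := h.punit
  have hact : IsLocalAction IH (fun _ : H × PUnit.{1} => PUnit.unit) 0 :=
    ⟨Sm.const, Eventually.of_forall fun _ => rfl, Eventually.of_forall fun _ => rfl⟩
  have hadapt : AdaptedChart IH (fun z : PUnit.{1} × V' => Φ z.2) (fun g => (PUnit.unit, Ψ g))
      (fun _ : H × PUnit.{1} => PUnit.unit) :=
    ⟨hchart, hact, Eventually.of_forall fun _ => rfl⟩
  have hsurj : Function.Surjective
      (chartD (V := PUnit.{1} × V') IH (fun z : PUnit.{1} × V' => Φ z.2)) :=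
    hchart.invertible.self_of_nhds.surjective
  have hmem : ∀ x, x ∈ (⊤ : LieSubalgebra ℝ (GroupLieAlgebra IH H)) ↔ ∃ w : V',
      chartD (V := PUnit.{1} × V') IH (fun z : PUnit.{1} × V' => Φ z.2) (0, w) = x := by
    intro x
    refine ⟨fun _ => ?_, fun _ => LieSubalgebra.mem_top x⟩
    obtain ⟨z, hz⟩ := hsurj x
    exact ⟨z.2, hz⟩
  have key := (main_induction k (Module.finrank ℝ V') PUnit.{1} V' _ _ _ hadapt ⊤ hs' hmem rfl).lin
    (punitE V')
  refine (GammaBar.Homotopic.of_equal ?_).trans (key.trans (GammaBar.Homotopic.of_equal ?_))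
  · intro b
    exact SameLeaves.refl _ _
  · intro b
    exact SameLeaves.refl _ _

end Solvable

section Induce

variable {EG : Type*} [NormedAddCommGroup EG] [NormedSpace ℝ EG] [FiniteDimensional ℝ EG]
  {HG : Type*} [TopologicalSpace HG]
  {IG : ModelWithCorners ℝ EG HG} {G : Type*} [TopologicalSpace G] [ChartedSpace HG G] [Group G]
  [LieGroup IG ∞ G]
  {V : Type*} [NormedAddCommGroup V] [NormedSpace ℝ V] [FiniteDimensional ℝ V]
  {Φ : V → G} {Ψ : G → V}
  {EH : Type*} [NormedAddCommGroup EH] [NormedSpace ℝ EH] [FiniteDimensional ℝ EH]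
  {HH : Type*} [TopologicalSpace HH]
  {IH : ModelWithCorners ℝ EH HH} {H : Type*} [TopologicalSpace H] [ChartedSpace HH H] [Group H]
  [LieGroup IH ∞ H]
  {V' : Type*} [NormedAddCommGroup V'] [NormedSpace ℝ V'] [FiniteDimensional ℝ V']
  {ΦH : V' → H} {ΨH : H → V'}
  {EB : Type*} [NormedAddCommGroup EB] [NormedSpace ℝ EB] {HB : Type*} [TopologicalSpace HB]
  {IB : ModelWithCorners ℝ EB HB} {B : Type*} [TopologicalSpace B] [ChartedSpace HB B]

omit [FiniteDimensional ℝ EG] [LieGroup IG ∞ G] [FiniteDimensional ℝ V]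
  [FiniteDimensional ℝ V'] in
/-- A homomorphism with injective differential is, in charts, an immersion at the origin. -/
theorem exists_immersion (hH : LocalChart IH ΦH ΨH) (hG : LocalChart IG Φ Ψ) (j : H →* G)
    (hj : ContMDiff IH IG ∞ j) (hinj : Function.Injective (mfderiv IH IG j 1)) :
    SmN (fun x => Ψ (j (ΦH x))) 0 ∧ Ψ (j (ΦH 0)) = 0 ∧
    ∃ D : V' →L[ℝ] V, Function.Injective D ∧ HasFDerivAt (fun x => Ψ (j (ΦH x))) D 0 := by
  have h0 : Ψ (j (ΦH 0)) = 0 := by rw [hH.zero, map_one, hG.one]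
  have hsm : SmN (fun x => Ψ (j (ΦH x))) 0 := by
    rw [← sm_iff_smN]
    have e1 : Sm 𝓘(ℝ, V') IG (fun x => j (ΦH x)) 0 := Sm.comp (g := j) (Sm.of hj) hH.smooth rfl
    exact Sm.comp (g := Ψ) hG.smooth_inv e1 (by rw [hH.zero, map_one])
  refine ⟨hsm, h0, ?_⟩
  let D1 : V' →L[ℝ] EH := chartD (V := V') IH ΦH
  let J : EH →L[ℝ] EG := mfderiv IH IG j 1
  let S : EG →L[ℝ] V := mfderiv IG 𝓘(ℝ, V) Ψ 1
  let P : V →L[ℝ] EG := chartD (V := V) IG Φ
  have e1 : HasMFDerivAt 𝓘(ℝ, V') IH ΦH 0 D1 := hH.hasMFDerivAt_zero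
  have e2 : HasMFDerivAt IH IG j (ΦH 0) J := by
    rw [hH.zero]
    exact (hj.contMDiffAt.mdifferentiableAt (by simp)).hasMFDerivAt
  have e3 : HasMFDerivAt IG 𝓘(ℝ, V) Ψ 1 S :=
    (hG.smooth_inv.self_of_nhds.mdifferentiableAt (by simp)).hasMFDerivAt
  have e4 : HasMFDerivAt IG 𝓘(ℝ, V) Ψ (j (ΦH 0)) S := by
    rw [hH.zero, map_one]; exact e3
  have e5 : HasMFDerivAt 𝓘(ℝ, V') IG (fun x => j (ΦH x)) 0 (J.comp D1) :=
    HasMFDerivAt.comp (0 : V') (g := j) (f := ΦH) e2 e1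
  have e6 : HasMFDerivAt 𝓘(ℝ, V') 𝓘(ℝ, V) (fun x => Ψ (j (ΦH x))) 0 (S.comp (J.comp D1)) :=
    HasMFDerivAt.comp (0 : V') (g := Ψ) (f := fun x => j (ΦH x)) e4 e5
  have e7 : HasFDerivAt (fun x => Ψ (j (ΦH x))) (S.comp (J.comp D1)) 0 :=
    hasMFDerivAt_iff_hasFDerivAt.1 e6
  refine ⟨_, ?_, e7⟩
  -- `S` is injective
  have e8 : HasMFDerivAt 𝓘(ℝ, V) IG Φ (Ψ 1) P := by
    rw [hG.one]; exact hG.hasMFDerivAt_zero
  have e9 : HasMFDerivAt IG IG (fun g => Φ (Ψ g)) 1 (P.comp S) :=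
    HasMFDerivAt.comp (1 : G) (g := Φ) (f := Ψ) e8 e3
  have e10 : HasMFDerivAt IG IG (fun g => Φ (Ψ g)) 1 (ContinuousLinearMap.id ℝ EG) :=
    (hasMFDerivAt_id (1 : G)).congr_of_eventuallyEq hG.right_inv
  have e11 : P.comp S = ContinuousLinearMap.id ℝ EG := hasMFDerivAt_unique e9 e10
  have hS : Function.Injective S := by
    intro x y hxy
    have h1 : P (S x) = x := DFunLike.congr_fun e11 x
    have h2 : P (S y) = y := DFunLike.congr_fun e11 y
    rw [← h1, ← h2, hxy]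
  exact hS.comp (hinj.comp hH.D_injective)

omit [FiniteDimensional ℝ EG] in
/-- The structure induced by a homomorphism with injective differential is the product of the given
one and a trivial one. -/
theorem induced (k : GCocycle IB B IH H) (hH : LocalChart IH ΦH ΨH) (hG : LocalChart IG Φ Ψ)
    (j : H →* G) (hj : ContMDiff IH IG ∞ j) (hinj : Function.Injective (mfderiv IH IG j 1)) :
    ∃ (K : Submodule ℝ V) (A : (V' × K) ≃L[ℝ] V),
      ((ofPt k (chartAct ΦH ΨH) 0 hH.isLocalAction).stab K).Homotopic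
        ((ofPt k (fun z : H × V => chartAct Φ Ψ (j z.1, z.2)) 0
          (hG.isLocalAction.comap j hj)).lin A) := by
  have htop := topologicalGroup_of_lieGroup IG ∞ (G := G)
  have htop' := topologicalGroup_of_lieGroup IH ∞ (G := H)
  have hjc : Continuous j := hj.continuous
  obtain ⟨hqs, hq0, D, hD, hqd⟩ := exists_immersion hH hG j hj hinj
  obtain ⟨K, A, hA⟩ := exists_complement D hD
  refine ⟨K, A, ?_⟩
  let q : V' × K → V × V := fun z => (Ψ (j (ΦH z.1)), (z.2 : V))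
  have hq0' : q 0 = 0 := Prod.ext hq0 rfl
  have c1 : Tendsto (fun z : V' × K => z.1) (𝓝 0) (𝓝 0) := continuous_fst.tendsto _
  have hqs' : SmN q 0 := by
    filter_upwards [c1.eventually hqs] with z hz
    have e1 : ContDiffAt ℝ ∞ (fun z : V' × K => Ψ (j (ΦH z.1))) z :=
      ContDiffAt.comp z (g := fun x => Ψ (j (ΦH x))) (f := fun z : V' × K => z.1) hz contDiffAt_fst
    have e2 : ContDiffAt ℝ ∞ (fun z : V' × K => (z.2 : V)) z :=
      (K.subtypeL.contDiff.contDiffAt).comp z contDiffAt_snd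
    exact e1.prodMk e2
  have hqc : Tendsto q (𝓝 0) (𝓝 0) := by
    have := hqs'.self_of_nhds.continuousAt.tendsto
    rwa [hq0'] at this
  let R : V' × K → V := fun z => chartMul Φ Ψ (q z)
  have hR0 : R 0 = 0 := by
    show chartMul Φ Ψ (q 0) = 0
    rw [hq0']
    exact hG.mul_props.1.self_of_nhds
  have hRs : SmN R 0 := by
    have e1 := hqs'
    have e2 := hG.smooth_mul
    rw [← sm_iff_smN] at e1 e2 ⊢
    exact Sm.comp (g := chartMul Φ Ψ) e2 e1 hq0'
  have hRd : HasFDerivAt R (A : (V' × K) →L[ℝ] V) 0 := by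
    have e1 : HasFDerivAt (fun z : V' × K => Ψ (j (ΦH z.1)))
        (D.comp (ContinuousLinearMap.fst ℝ V' K)) 0 :=
      HasFDerivAt.comp (0 : V' × K) (g := fun x => Ψ (j (ΦH x))) (f := fun z : V' × K => z.1) hqd
        hasFDerivAt_fst
    have e2 : HasFDerivAt (fun z : V' × K => (z.2 : V))
        (K.subtypeL.comp (ContinuousLinearMap.snd ℝ V' K)) 0 :=
      (K.subtypeL.comp (ContinuousLinearMap.snd ℝ V' K)).hasFDerivAt
    have e3 : HasFDerivAt (chartMul Φ Ψ) (fderiv ℝ (chartMul Φ Ψ) 0) (q 0) := by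
      rw [hq0']
      exact (hG.smooth_mul.self_of_nhds.differentiableAt (by simp)).hasFDerivAt
    have e4 : HasFDerivAt R ((fderiv ℝ (chartMul Φ Ψ) 0).comp
        ((D.comp (ContinuousLinearMap.fst ℝ V' K)).prod
          (K.subtypeL.comp (ContinuousLinearMap.snd ℝ V' K)))) 0 :=
      HasFDerivAt.comp (0 : V' × K) (g := chartMul Φ Ψ) (f := q) e3 (e1.prodMk e2)
    refine e4.congr_fderiv ?_
    refine ContinuousLinearMap.ext fun z => ?_
    have e5 : A z = D z.1 + (z.2 : V) := hA z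
    exact (hG.mul_deriv (D z.1) (z.2 : V)).trans e5.symm
  have hb := hH.isLocalAction.prodTrivial (W := K)
  -- `Φ (Ψ (j (ΦH x))) = j (ΦH x)` near the origin
  have hjH : Tendsto (fun h : H => j h) (𝓝 1) (𝓝 1) := by
    have := hjc.continuousAt (x := (1 : H)) |>.tendsto
    rwa [map_one] at this
  have hΦq : ∀ᶠ x in 𝓝 (0 : V'), Φ (Ψ (j (ΦH x))) = j (ΦH x) :=
    (hjH.comp hH.tendsto).eventually hG.right_inv
  have hΦR : ∀ᶠ z in 𝓝 (0 : V' × K), Φ (R z) = j (ΦH z.1) * Φ (z.2 : V) := by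
    filter_upwards [(hG.tendsto_mul.comp hqc).eventually hG.right_inv, c1.eventually hΦq]
      with z h1 h2
    have h1' : Φ (R z) = Φ (Ψ (j (ΦH z.1))) * Φ (z.2 : V) := h1
    rw [h1', h2]
  have hconj : ∀ᶠ z in 𝓝 ((1 : H), (0 : V' × K)),
      R (chartAct ΦH ΨH (z.1, z.2.1), z.2.2) = chartAct Φ Ψ (j z.1, R z.2) := by
    have d1 : Tendsto (fun z : H × (V' × K) => z.2) (𝓝 ((1 : H), (0 : V' × K))) (𝓝 0) :=
      continuous_snd.tendsto _
    have d2 : Tendsto (fun z : H × (V' × K) => (z.1, z.2.1)) (𝓝 ((1 : H), (0 : V' × K)))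
        (𝓝 ((1 : H), (0 : V'))) := by
      have : ContinuousAt (fun z : H × (V' × K) => (z.1, z.2.1)) ((1 : H), (0 : V' × K)) := by
        fun_prop
      exact this.tendsto
    have d3 := hH.tendsto_act.comp d2
    have d4 : Tendsto (fun z : H × (V' × K) => chartAct ΦH ΨH (z.1, z.2.1))
        (𝓝 ((1 : H), (0 : V' × K))) (𝓝 0) := hH.tendsto_inv.comp d3
    filter_upwards [d1.eventually hΦR, d3.eventually hH.right_inv, d4.eventually hΦq]
      with z h1 h2 h3
    have h2' : ΦH (chartAct ΦH ΨH (z.1, z.2.1)) = z.1 * ΦH z.2.1 := h2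
    show Ψ (Φ (Ψ (j (ΦH (chartAct ΦH ΨH (z.1, z.2.1))))) * Φ (z.2.2 : V)) =
      Ψ (j z.1 * Φ (R z.2))
    rw [h3, h2', h1, map_mul, mul_assoc]
  have key := ofPt_conj k (hG.isLocalAction.comap j hj) hb R hR0 hRs A hRd hconj
  refine (GammaBar.Homotopic.of_equal ?_).trans key
  intro b
  refine SameLeaves.of_eventuallyEq (Eventually.of_forall fun w => ?_)
  show (chartAct ΦH ΨH (k.h b w.1, (0 + w.2).1), (0 + w.2).2) =
    (chartAct ΦH ΨH (k.h b w.1, 0 + w.2.1), w.2.2)
  simp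

end Induce

section Final

variable {EG : Type*} [NormedAddCommGroup EG] [NormedSpace ℝ EG] [FiniteDimensional ℝ EG]
  {HG : Type*} [TopologicalSpace HG]
  {IG : ModelWithCorners ℝ EG HG} {G : Type*} [TopologicalSpace G] [ChartedSpace HG G] [Group G]
  [LieGroup IG ∞ G]
  {V : Type*} [NormedAddCommGroup V] [NormedSpace ℝ V] [FiniteDimensional ℝ V]
  {EH : Type*} [NormedAddCommGroup EH] [NormedSpace ℝ EH] [FiniteDimensional ℝ EH]
  {HH : Type*} [TopologicalSpace HH]
  {IH : ModelWithCorners ℝ EH HH} {H : Type*} [TopologicalSpace H] [ChartedSpace HH H] [Group H]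
  [LieGroup IH ∞ H]
  {V' : Type*} [NormedAddCommGroup V'] [NormedSpace ℝ V'] [FiniteDimensional ℝ V']
  {EM : Type*} [NormedAddCommGroup EM] [NormedSpace ℝ EM] {HM : Type*} [TopologicalSpace HM]
  {IM : ModelWithCorners ℝ EM HM} {M : Type*} [TopologicalSpace M] [ChartedSpace HM M]

/-- A structure modelled on `G` which is induced by one modelled on a Lie group with solvable Lie
algebra is homotopically trivial. -/
theorem map_trivial (hs : LieAlgebra.IsSolvable (GroupLieAlgebra IH H))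
    (j : H →* G) (hj : ContMDiff IH IG ∞ j) (hinj : Function.Injective (mfderiv IH IG j 1))
    (ψH : PartialDiffeomorph 𝓘(ℝ, V') IH V' H ∞) (hH0 : (0 : V') ∈ ψH.source) (hH1 : ψH 0 = 1)
    (ψ : PartialDiffeomorph 𝓘(ℝ, V) IG V G ∞) (h0 : (0 : V) ∈ ψ.source) (h1 : ψ 0 = 1)
    (𝓔 : LieStructure IM M IH H) :
    ((𝓔.map j hj).haefliger ψ h0).Homotopic (GammaBar.trivial IM M V) := by
  have hG := localChart_of_pd ψ h0 h1
  have hH := localChart_of_pd ψH hH0 hH1
  obtain ⟨K, A, hKA⟩ := induced 𝓔.cocycle hH hG j hj hinj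
  have e1 : ((𝓔.map j hj).haefliger ψ h0).Homotopic
      (ofPt 𝓔.cocycle (fun z : H × V => chartAct ψ ψ.symm (j z.1, z.2)) 0
        (hG.isLocalAction.comap j hj)) := by
    refine GammaBar.Homotopic.of_equal
      ((haefliger_equal_G (𝓔.map j hj) ψ h0 hG.isLocalAction).symm.trans ?_)
    intro m
    refine SameLeaves.of_eventuallyEq (Eventually.of_forall fun w => ?_)
    show chartAct ψ ψ.symm (j ((𝓔.f (𝓔.idx m) m)⁻¹ * 𝓔.f (𝓔.idx m) w.1), 0 + w.2) =
      chartAct ψ ψ.symm ((j (𝓔.f (𝓔.idx m) m))⁻¹ * j (𝓔.f (𝓔.idx m) w.1), 0 + w.2)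
    rw [map_mul, map_inv]
  have e2 := ((ofPt_solvable hs 𝓔.cocycle hH).stab (W := K)).symm.trans hKA
  have e3 := e2.symm.lin A.symm
  have e4 : (((GammaBar.trivial IM M V').stab K).lin A.symm).Homotopic
      (GammaBar.trivial IM M V) := by
    refine GammaBar.Homotopic.of_equal fun b =>
      SameLeaves.of_eventuallyEq (Eventually.of_forall fun w => ?_)
    show w.2 = A (A.symm w.2)
    simp
  exact e1.trans (((GammaBar.Homotopic.of_equal (GammaBar.lin_symm_equal _ _).symm).trans e3).trans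
    e4)

/-- A structure which can be deformed to one induced from a Lie group with solvable Lie algebra is
homotopically trivial. -/
theorem family_trivial (hs : LieAlgebra.IsSolvable (GroupLieAlgebra IH H))
    (j : H →* G) (hj : ContMDiff IH IG ∞ j) (hinj : Function.Injective (mfderiv IH IG j 1))
    (ψH : PartialDiffeomorph 𝓘(ℝ, V') IH V' H ∞) (hH0 : (0 : V') ∈ ψH.source) (hH1 : ψH 0 = 1)
    (ψ : PartialDiffeomorph 𝓘(ℝ, V) IG V G ∞) (h0 : (0 : V) ∈ ψ.source) (h1 : ψ 0 = 1)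
    (𝓕 : LieFamily IM M IG G) (𝓔 : LieStructure IM M IH H)
    (hend : (𝓕.slice 1).Agrees (𝓔.map j hj)) :
    ((𝓕.slice 0).haefliger ψ h0).Homotopic (GammaBar.trivial IM M V) := by
  have hG := localChart_of_pd ψ h0 h1
  have e1 := family_homotopic 𝓕 ψ h0 h1
  have e2 : ((𝓕.slice 1).haefliger ψ h0).Homotopic ((𝓔.map j hj).haefliger ψ h0) := by
    refine GammaBar.Homotopic.of_equal
      ((haefliger_equal_G (𝓕.slice 1) ψ h0 hG.isLocalAction).symm.trans
        (GammaBar.Equal.trans ?_ (haefliger_equal_G (𝓔.map j hj) ψ h0 hG.isLocalAction)))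
    refine ofPt_congr_cocycle hG.isLocalAction fun m => ?_
    filter_upwards [hend.cocycle m] with m' hm'
    exact hm'.symm
  exact (e1.trans e2).trans (map_trivial hs j hj hinj ψH hH0 hH1 ψ h0 h1 𝓔)

end Final

end Pool.Agent.MP_602746_gt
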