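import Mathlib
import Pool.Agent.MP_602746_gt.FamMain
import Pool.Agent.MP_602746_gt.GenMain

open scoped Manifold ContDiff Topology
open Set Filter

noncomputable section

namespace Pool.Agent.MP_602746_gt

section Coordinates

variable {V : Type*} [NormedAddCommGroup V] [NormedSpace ℝ V]

/-- Exponential polar coordinates. -/
def expK (lam : V →L[ℝ] ℝ) (v₀ : V) : KerT lam × ℝ → V :=
  fun y => Real.exp y.2 • (v₀ + (y.1 : V))

/-- Logarithmic polar coordinates. -/
def logK (lam : V →L[ℝ] ℝ) (v₀ : V) (hv₀ : lam v₀ = 1) : V → KerT lam × ℝ :=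
  fun v => (projK lam v₀ hv₀ ((lam v)⁻¹ • v), Real.log (lam v))

variable {lam : V →L[ℝ] ℝ} {v₀ : V} {hv₀ : lam v₀ = 1}

theorem expK_zero : expK lam v₀ 0 = v₀ := by
  show Real.exp 0 • (v₀ + ((0 : KerT lam) : V)) = v₀
  rw [Real.exp_zero, one_smul]
  exact add_zero v₀

theorem contDiff_expK : ContDiff ℝ ∞ (expK lam v₀) := by
  have h1 : ContDiff ℝ ∞ (fun y : KerT lam × ℝ => Real.exp y.2) :=
    Real.contDiff_exp.comp contDiff_snd
  have h2 : ContDiff ℝ ∞ (fun y : KerT lam × ℝ => (y.1 : V)) :=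
    (LinearMap.ker (lam : V →ₗ[ℝ] ℝ)).subtypeL.contDiff.comp contDiff_fst
  exact h1.smul (contDiff_const.add h2)

theorem hasFDerivAt_expK :
    HasFDerivAt (expK lam v₀) (spE lam v₀ hv₀ : KerT lam × ℝ →L[ℝ] V) 0 := by
  have h1 : HasFDerivAt (fun y : KerT lam × ℝ => Real.exp y.2)
      (Real.exp 0 • ContinuousLinearMap.snd ℝ (KerT lam) ℝ) 0 :=
    (hasFDerivAt_snd (𝕜 := ℝ) (E := KerT lam) (F := ℝ) (p := 0)).exp
  have h2 : HasFDerivAt (fun y : KerT lam × ℝ => v₀ + (y.1 : V))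
      ((LinearMap.ker (lam : V →ₗ[ℝ] ℝ)).subtypeL.comp (ContinuousLinearMap.fst ℝ (KerT lam) ℝ))
      0 :=
    (((LinearMap.ker (lam : V →ₗ[ℝ] ℝ)).subtypeL.comp
      (ContinuousLinearMap.fst ℝ (KerT lam) ℝ)).hasFDerivAt).const_add v₀
  refine (h1.smul h2).congr_fderiv (ContinuousLinearMap.ext fun y => ?_)
  show Real.exp 0 • ((y.1 : KerT lam) : V) + (Real.exp 0 • y.2) • (v₀ + ((0 : KerT lam) : V)) =
    (y.1 : V) + y.2 • v₀
  rw [Real.exp_zero, one_smul, one_smul]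
  congr 2
  exact add_zero v₀

theorem logK_expK (y : KerT lam × ℝ) : logK lam v₀ hv₀ (expK lam v₀ y) = y := by
  have hy : lam (y.1 : V) = 0 := y.1.2
  have h1 : lam (expK lam v₀ y) = Real.exp y.2 := by
    show lam (Real.exp y.2 • (v₀ + (y.1 : V))) = _
    rw [map_smul, map_add, hv₀, hy]
    simp
  refine Prod.ext (Subtype.ext ?_) ?_
  · show (projK lam v₀ hv₀ ((lam (expK lam v₀ y))⁻¹ • expK lam v₀ y) : V) = y.1
    rw [projK_coe, h1]
    have h2 : (Real.exp y.2)⁻¹ • expK lam v₀ y = v₀ + (y.1 : V) := by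
      show (Real.exp y.2)⁻¹ • (Real.exp y.2 • (v₀ + (y.1 : V))) = _
      rw [smul_smul, inv_mul_cancel₀ (Real.exp_ne_zero _), one_smul]
    rw [h2, map_add, hv₀, hy]
    simp
  · show Real.log (lam (expK lam v₀ y)) = y.2
    rw [h1, Real.log_exp]

theorem expK_logK {v : V} (hv : 0 < lam v) : expK lam v₀ (logK lam v₀ hv₀ v) = v := by
  show Real.exp (Real.log (lam v)) • (v₀ + (projK lam v₀ hv₀ ((lam v)⁻¹ • v) : V)) = v
  rw [Real.exp_log hv, projK_coe, map_smul, smul_eq_mul, inv_mul_cancel₀ hv.ne', one_smul,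
    add_sub_cancel, smul_smul, mul_inv_cancel₀ hv.ne', one_smul]

theorem logK_smul {v : V} (hv : 0 < lam v) (s : ℝ) :
    logK lam v₀ hv₀ (Real.exp s • v) = logK lam v₀ hv₀ v + (0, s) := by
  refine Prod.ext ?_ ?_
  · show projK lam v₀ hv₀ ((lam (Real.exp s • v))⁻¹ • (Real.exp s • v)) =
      projK lam v₀ hv₀ ((lam v)⁻¹ • v) + 0
    rw [add_zero, map_smul lam, smul_smul, smul_eq_mul, mul_inv_rev, mul_assoc,
      inv_mul_cancel₀ (Real.exp_ne_zero s), mul_one]
  · show Real.log (lam (Real.exp s • v)) = Real.log (lam v) + s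
    rw [map_smul, smul_eq_mul, Real.log_mul (Real.exp_ne_zero s) hv.ne', Real.log_exp, add_comm]

theorem smN_logK : SmN (logK lam v₀ hv₀) v₀ := by
  have h0 : 0 < lam v₀ := by rw [hv₀]; exact one_pos
  have hc : ∀ᶠ v in 𝓝 v₀, 0 < lam v :=
    lam.continuous.continuousAt.eventually (lt_mem_nhds h0)
  filter_upwards [hc] with v hv
  have h1 : ContDiffAt ℝ ∞ (fun v : V => lam v) v := lam.contDiff.contDiffAt
  have h2 : ContDiffAt ℝ ∞ (fun v : V => (lam v)⁻¹ • v) v := (h1.inv hv.ne').smul contDiffAt_id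
  have h3 : ContDiffAt ℝ ∞ (fun v : V => projK lam v₀ hv₀ ((lam v)⁻¹ • v)) v :=
    ((projK lam v₀ hv₀).contDiff.contDiffAt).comp v h2
  exact h3.prodMk (h1.log hv.ne')

end Coordinates

section LinearAction

variable {EG : Type*} [NormedAddCommGroup EG] [NormedSpace ℝ EG] {HG : Type*} [TopologicalSpace HG]
  {IG : ModelWithCorners ℝ EG HG} {G : Type*} [TopologicalSpace G] [ChartedSpace HG G] [Group G]
  [LieGroup IG ∞ G]
  {V : Type*} [NormedAddCommGroup V] [NormedSpace ℝ V]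
  [MulAction G V] [ContMDiffSMul IG 𝓘(ℝ, V) ∞ G V] [SMulCommClass G ℝ V]

variable (IG G) in
/-- A linear action is, near a nonzero vector, a skew product over a local action on a space of
dimension one less. -/
theorem linear_skew (lam : V →L[ℝ] ℝ) (v₀ : V) (hv₀ : lam v₀ = 1) :
    ∃ (a : G × KerT lam → KerT lam) (c : G × KerT lam → ℝ),
      IsLocalAction IG a 0 ∧ IsActionCocycle IG a c 0 ∧
      ∀ᶠ z in 𝓝 ((1 : G), (0 : KerT lam × ℝ)),
        expK lam v₀ (skew a c (fun p => p.2 + p.1) z) = z.1 • expK lam v₀ z.2 := by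
  have := ContMDiffSMul.continuousSMul (G := G) (M := V) (I := IG) (I' := 𝓘(ℝ, V)) ∞
  let A : G × (KerT lam × ℝ) → KerT lam × ℝ :=
    fun z => logK lam v₀ hv₀ (z.1 • expK lam v₀ z.2)
  have hKc : Tendsto (expK lam v₀) (𝓝 0) (𝓝 v₀) := by
    have := (contDiff_expK (lam := lam) (v₀ := v₀)).continuous.tendsto 0
    rwa [expK_zero] at this
  have h0 : 0 < lam v₀ := by rw [hv₀]; exact one_pos
  have hc : ∀ᶠ v in 𝓝 v₀, 0 < lam v :=
    lam.continuous.continuousAt.eventually (lt_mem_nhds h0)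
  have hactt : Tendsto (fun z : G × (KerT lam × ℝ) => (z.1, expK lam v₀ z.2))
      (𝓝 ((1 : G), (0 : KerT lam × ℝ))) (𝓝 ((1 : G), v₀)) := by
    have h1 : Tendsto (fun z : G × (KerT lam × ℝ) => z.1) (𝓝 ((1 : G), (0 : KerT lam × ℝ)))
      (𝓝 1) := continuous_fst.tendsto _
    have h2 : Tendsto (fun z : G × (KerT lam × ℝ) => expK lam v₀ z.2)
      (𝓝 ((1 : G), (0 : KerT lam × ℝ))) (𝓝 v₀) := hKc.comp (continuous_snd.tendsto _)
    have h3 := h1.prodMk h2
    rwa [← nhds_prod_eq] at h3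
  have hsm : Tendsto (fun z : G × V => z.1 • z.2) (𝓝 ((1 : G), v₀)) (𝓝 v₀) := by
    have : ContinuousAt (fun z : G × V => z.1 • z.2) ((1 : G), v₀) := by fun_prop
    have h := this.tendsto
    rwa [one_smul] at h
  have hpos : ∀ᶠ z in 𝓝 ((1 : G), (0 : KerT lam × ℝ)), 0 < lam (z.1 • expK lam v₀ z.2) :=
    (hsm.comp hactt).eventually hc
  have hA : IsLocalAction IG A 0 := by
    refine ⟨?_, ?_, ?_⟩
    · have h1 : Sm (IG.prod 𝓘(ℝ, KerT lam × ℝ)) IG (fun z : G × (KerT lam × ℝ) => z.1)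
          ((1 : G), (0 : KerT lam × ℝ)) := Sm.of contMDiff_fst
      have h2 : Sm (IG.prod 𝓘(ℝ, KerT lam × ℝ)) 𝓘(ℝ, KerT lam × ℝ)
          (fun z : G × (KerT lam × ℝ) => z.2) ((1 : G), (0 : KerT lam × ℝ)) := Sm.of contMDiff_snd
      have h3 : Sm 𝓘(ℝ, KerT lam × ℝ) 𝓘(ℝ, V) (expK lam v₀) 0 :=
        Sm.of (contDiff_expK (lam := lam) (v₀ := v₀)).contMDiff
      have h4 : Sm 𝓘(ℝ, V) 𝓘(ℝ, KerT lam × ℝ) (logK lam v₀ hv₀) v₀ := sm_iff_smN.2 smN_logK
      have h5 : Sm (IG.prod 𝓘(ℝ, KerT lam × ℝ)) 𝓘(ℝ, V)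
          (fun z : G × (KerT lam × ℝ) => z.1 • expK lam v₀ z.2)
          ((1 : G), (0 : KerT lam × ℝ)) := (sm_smul IG _).comp (h1.prodMk (h3.comp h2 rfl)) rfl
      exact h4.comp h5 (by rw [expK_zero, one_smul])
    · refine Eventually.of_forall fun v => ?_
      show logK lam v₀ hv₀ ((1 : G) • expK lam v₀ v) = v
      rw [one_smul, logK_expK]
    · have c1 : Tendsto (fun z : (G × G) × (KerT lam × ℝ) => (z.1.2, z.2))
          (𝓝 (((1 : G), (1 : G)), (0 : KerT lam × ℝ))) (𝓝 ((1 : G), (0 : KerT lam × ℝ))) := by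
        have : ContinuousAt (fun z : (G × G) × (KerT lam × ℝ) => (z.1.2, z.2))
          (((1 : G), (1 : G)), (0 : KerT lam × ℝ)) := by fun_prop
        exact this.tendsto
      filter_upwards [c1.eventually hpos] with z hz
      have hz' : 0 < lam (z.1.2 • expK lam v₀ z.2) := hz
      show logK lam v₀ hv₀ ((z.1.1 * z.1.2) • expK lam v₀ z.2) =
        logK lam v₀ hv₀ (z.1.1 • expK lam v₀ (logK lam v₀ hv₀ (z.1.2 • expK lam v₀ z.2)))
      rw [expK_logK hz', mul_smul]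
  have hs : ∀ᶠ z in 𝓝 ((1 : G), (0 : KerT lam × ℝ)), A z = A (z.1, (z.2.1, 0)) + (0, z.2.2) := by
    have c2 : Tendsto (fun z : G × (KerT lam × ℝ) => (z.1, (z.2.1, (0 : ℝ))))
        (𝓝 ((1 : G), (0 : KerT lam × ℝ))) (𝓝 ((1 : G), (0 : KerT lam × ℝ))) := by
      have : ContinuousAt (fun z : G × (KerT lam × ℝ) => (z.1, (z.2.1, (0 : ℝ))))
        ((1 : G), (0 : KerT lam × ℝ)) := by fun_prop
      exact this.tendsto
    filter_upwards [c2.eventually hpos] with z hz
    have hz' : 0 < lam (z.1 • expK lam v₀ (z.2.1, 0)) := hz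
    have h1 : expK lam v₀ z.2 = Real.exp z.2.2 • expK lam v₀ (z.2.1, 0) := by
      show Real.exp z.2.2 • (v₀ + (z.2.1 : V)) =
        Real.exp z.2.2 • (Real.exp 0 • (v₀ + (z.2.1 : V)))
      rw [Real.exp_zero, one_smul]
    show logK lam v₀ hv₀ (z.1 • expK lam v₀ z.2) =
      logK lam v₀ hv₀ (z.1 • expK lam v₀ (z.2.1, 0)) + (0, z.2.2)
    rw [h1, smul_comm, logK_smul hz']
  obtain ⟨h1, h2, h3⟩ := spA_local hA hs
  refine ⟨_, _, h1, h2, ?_⟩
  filter_upwards [h3, hpos] with z h4 h5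
  rw [← h4]
  exact expK_logK h5

variable {EB : Type*} [NormedAddCommGroup EB] [NormedSpace ℝ EB] {HB : Type*} [TopologicalSpace HB]
  {IB : ModelWithCorners ℝ EB HB} {B : Type*} [TopologicalSpace B] [ChartedSpace HB B]
  [FiniteDimensional ℝ V]

omit [SMulCommClass G ℝ V] in
theorem slide_smul (k : GCocycle IB B IG G) (x y : V) :
    (ofPt k (fun z : G × V => z.1 • z.2) x (isLocalAction_smul IG x)).Homotopic
      (ofPt k (fun z : G × V => z.1 • z.2) y (isLocalAction_smul IG y)) := by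
  refine slide' k (fun z : G × V => z.1 • z.2) (fun t => x + t • (y - x)) ?_
    (fun t => isLocalAction_smul IG _) ?_ ?_ _ _
  · exact contDiff_const.add (contDiff_id.smul contDiff_const)
  · simp
  · simp

/-- The structures defined by a linear action and the members of a family are homotopic. -/
theorem fam_linear (c : GFam IB B IG G) :
    (ofPt (c.slice 0) (fun z : G × V => z.1 • z.2) 0 (isLocalAction_smul IG 0)).Homotopic
      (ofPt (c.slice 1) (fun z : G × V => z.1 • z.2) 0 (isLocalAction_smul IG 0)) := by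
  rcases subsingleton_or_nontrivial V with hV | hV
  · exact GammaBar.Homotopic.of_equal (GammaBar.equal_of_subsingleton _ _)
  · obtain ⟨v₀, hv₀'⟩ := exists_ne (0 : V)
    obtain ⟨lam, hv₀⟩ := SeparatingDual.exists_eq_one (R := ℝ) hv₀'
    obtain ⟨a, k, ha, hk, hconj⟩ := linear_skew IG G lam v₀ hv₀
    have hsk : IsLocalAction IG (skew a k (fun p => p.2 + p.1)) (0 : KerT lam × ℝ) :=
      ha.skew hk (isLocalFlow_translation 0)
    have e1 : ∀ u : GCocycle IB B IG G, ((ofPt u (fun z : G × V => z.1 • z.2) 0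
        (isLocalAction_smul IG 0)).lin (spE lam v₀ hv₀)).Homotopic ((ofPt u a 0 ha).stab ℝ) := by
      intro u
      have e2 : (ofPt u (skew a k (fun p => p.2 + p.1)) 0 hsk).Homotopic
          ((ofPt u (fun z : G × V => z.1 • z.2) v₀ (isLocalAction_smul IG v₀)).lin
            (spE lam v₀ hv₀)) :=
        ofPt_conj u (isLocalAction_smul IG v₀) hsk (expK lam v₀) expK_zero
          (Eventually.of_forall fun _ => contDiff_expK.contDiffAt) _ hasFDerivAt_expK hconj
      exact (((slide_smul u 0 v₀).lin (spE lam v₀ hv₀)).trans e2.symm).trans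
        (one_step u ha hk hsk)
    have e3 := ((e1 (c.slice 0)).trans ((fam_move c a ha).trans (e1 (c.slice 1)).symm)).lin
      (spE lam v₀ hv₀).symm
    exact (GammaBar.Homotopic.of_equal (GammaBar.lin_symm_equal _ _).symm).trans
      (e3.trans (GammaBar.Homotopic.of_equal (GammaBar.lin_symm_equal _ _)))

end LinearAction

end Pool.Agent.MP_602746_gt
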