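import Mathlib
import Pool.Agent.MP_602746_gt.GenMain
import Pool.Agent.MP_602746_gt.AdRep
import Pool.Agent.MP_602746_gt.FamSolvable

open scoped Manifold ContDiff Topology
open Set Filter

noncomputable section

namespace Pool.Agent.MP_602746_gt

variable {EG : Type*} [NormedAddCommGroup EG] [NormedSpace ℝ EG] [FiniteDimensional ℝ EG]
  {HG : Type*} [TopologicalSpace HG]
  {IG : ModelWithCorners ℝ EG HG} {G : Type*} [TopologicalSpace G] [ChartedSpace HG G] [Group G]
  [LieGroup IG ∞ G]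
  {V : Type*} [NormedAddCommGroup V] [NormedSpace ℝ V] [FiniteDimensional ℝ V]

/-- The bracket in a chart, in terms of the second derivative of the multiplication. -/
theorem LocalChart.bracket_coords {Φ : V → G} {Ψ : G → V} (h : LocalChart IG Φ Ψ)
    (ξ' η ζ : V)
    (hbr : ⁅chartD (V := V) IG Φ ξ', chartD (V := V) IG Φ η⁆ = chartD (V := V) IG Φ ζ) :
    fderiv ℝ (fderiv ℝ (chartMul Φ Ψ)) 0 (0, η) (ξ', 0) -
      fderiv ℝ (fderiv ℝ (chartMul Φ Ψ)) 0 (0, ξ') (η, 0) = ζ := by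
  have : CompleteSpace V := FiniteDimensional.complete ℝ V
  have hbracket := (h.bracket ξ' η ζ hbr).self_of_nhds
  let μ : V × V → V := chartMul Φ Ψ
  have hμs : SmN μ 0 := h.smooth_mul
  have hμ0 : ∀ᶠ y in 𝓝 (0 : V), μ (0, y) = y := by
    filter_upwards [h.left_inv] with y hy
    show Ψ (Φ 0 * Φ y) = y
    rw [h.zero, one_mul, hy]
  let F : V × V → (V × V →L[ℝ] V) := fderiv ℝ μ
  have hFs : ContDiffAt ℝ ∞ F 0 := hμs.self_of_nhds.fderiv_right (m := ∞) (by simp)
  let F' : V × V →L[ℝ] (V × V →L[ℝ] V) := fderiv ℝ F 0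
  have hF' : HasFDerivAt F F' 0 := (hFs.differentiableAt (by simp)).hasFDerivAt
  have hμd : HasFDerivAt μ (F 0) 0 := (hμs.self_of_nhds.differentiableAt (by simp)).hasFDerivAt
  have hF0r : ∀ u : V, F 0 (0, u) = u := by
    intro u
    have e1 : HasFDerivAt (fun y : V => μ (0, y)) ((F 0).comp (ContinuousLinearMap.inr ℝ V V)) 0 :=
      HasFDerivAt.comp (0 : V) (g := μ) (f := fun y : V => ((0 : V), y)) hμd
        (hasFDerivAt_prodMk_right (0 : V) (0 : V))
    have e2 : HasFDerivAt (fun y : V => μ (0, y)) (ContinuousLinearMap.id ℝ V) 0 :=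
      (hasFDerivAt_id (0 : V)).congr_of_eventuallyEq hμ0
    exact DFunLike.congr_fun (e1.unique e2) u
  have hX : ∀ u : V, HasFDerivAt (fun y : V => F (y, 0) (0, u))
      (((ContinuousLinearMap.apply ℝ V ((0 : V), u)).comp F').comp
        (ContinuousLinearMap.inl ℝ V V)) 0 := by
    intro u
    have e1 : HasFDerivAt (fun y : V => F (y, 0)) (F'.comp (ContinuousLinearMap.inl ℝ V V)) 0 :=
      HasFDerivAt.comp (0 : V) (g := F) (f := fun y : V => (y, (0 : V))) hF'
        (hasFDerivAt_prodMk_left (0 : V) (0 : V))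
    exact (ContinuousLinearMap.apply ℝ V ((0 : V), u)).hasFDerivAt.comp (0 : V) e1
  have hsymm : ∀ u v : V, F' (0, u) (v, 0) = F' (v, 0) (0, u) := by
    have hs : IsSymmSndFDerivAt ℝ μ 0 := by
      refine (hμs.self_of_nhds).isSymmSndFDerivAt ?_
      rw [minSmoothness_of_isRCLikeNormedField]
      exact (inferInstance : ENat.LEInfty (2 : ℕ∞ω)).out
    exact fun u v => hs (0, u) (v, 0)
  have e1 : fderiv ℝ (fun y : V => chartX Φ Ψ y η) 0 (chartX Φ Ψ 0 ξ') = F' (ξ', 0) (0, η) := by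
    have c1 : chartX Φ Ψ 0 ξ' = ξ' := hF0r ξ'
    rw [c1]
    have c2 : fderiv ℝ (fun y : V => chartX Φ Ψ y η) 0 = _ := (hX η).fderiv
    rw [c2]
    rfl
  have e2 : fderiv ℝ (fun y : V => chartX Φ Ψ y ξ') 0 (chartX Φ Ψ 0 η) = F' (η, 0) (0, ξ') := by
    have c1 : chartX Φ Ψ 0 η = η := hF0r η
    rw [c1]
    have c2 : fderiv ℝ (fun y : V => chartX Φ Ψ y ξ') 0 = _ := (hX ξ').fderiv
    rw [c2]
    rfl
  have e3 : chartX Φ Ψ 0 ζ = ζ := hF0r ζ
  rw [e1, e2, e3, ← hsymm, ← hsymm] at hbracket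
  exact hbracket

variable {E : Type*} [NormedAddCommGroup E] [NormedSpace ℝ E]
  [MulAction G E] [ContMDiffSMul IG 𝓘(ℝ, E) ∞ G E]

/-- The isotropy algebra is closed under the bracket. -/
theorem infAct_bracket {Φ : V → G} {Ψ : G → V} (h : LocalChart IG Φ Ψ) (x₀ : E)
    (ξ η : GroupLieAlgebra IG G) (hξ : infAct IG G x₀ ξ = 0) (hη : infAct IG G x₀ η = 0) :
    infAct IG G x₀ (⁅ξ, η⁆ : GroupLieAlgebra IG G) = 0 := by
  have := topologicalGroup_of_lieGroup IG ∞ (G := G)
  have := ContMDiffSMul.continuousSMul (G := G) (M := E) (I := IG) (I' := 𝓘(ℝ, E)) ∞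
  obtain ⟨D, hD'⟩ := h.exists_D
  have hΦd : HasMFDerivAt 𝓘(ℝ, V) IG Φ 0 (D : V →L[ℝ] EG) := by
    have h1 := h.hasMFDerivAt_zero
    have e : (chartD (V := V) IG Φ : V →L[ℝ] EG) = (D : V →L[ℝ] EG) :=
      ContinuousLinearMap.ext hD'
    rw [← e]
    exact h1
  let ξ' : V := D.symm ξ
  let η' : V := D.symm η
  let ζ' : V := D.symm (⁅ξ, η⁆ : GroupLieAlgebra IG G)
  have hξ' : D ξ' = ξ := D.apply_symm_apply _
  have hη' : D η' = η := D.apply_symm_apply _
  have hζ' : D ζ' = (⁅ξ, η⁆ : GroupLieAlgebra IG G) := D.apply_symm_apply _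
  have hbr : ⁅chartD (V := V) IG Φ ξ', chartD (V := V) IG Φ η'⁆ = chartD (V := V) IG Φ ζ' := by
    have e1 : chartD (V := V) IG Φ ξ' = ξ := (hD' ξ').trans hξ'
    have e2 : chartD (V := V) IG Φ η' = η := (hD' η').trans hη'
    have e3 : chartD (V := V) IG Φ ζ' = ⁅ξ, η⁆ := (hD' ζ').trans hζ'
    rw [e1, e2, e3]
  have hcoord := h.bracket_coords ξ' η' ζ' hbr
  -- the local multiplication
  let μ : V × V → V := chartMul Φ Ψ
  have hμs : SmN μ 0 := h.smooth_mul
  have hμ0' : ∀ᶠ y in 𝓝 (0 : V), μ (y, 0) = y := by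
    filter_upwards [h.left_inv] with y hy
    show Ψ (Φ y * Φ 0) = y
    rw [h.zero, mul_one, hy]
  have hμ0 : ∀ᶠ y in 𝓝 (0 : V), μ (0, y) = y := by
    filter_upwards [h.left_inv] with y hy
    show Ψ (Φ 0 * Φ y) = y
    rw [h.zero, one_mul, hy]
  let F : V × V → (V × V →L[ℝ] V) := fderiv ℝ μ
  have hFs : ContDiffAt ℝ ∞ F 0 := hμs.self_of_nhds.fderiv_right (m := ∞) (by simp)
  let F' : V × V →L[ℝ] (V × V →L[ℝ] V) := fderiv ℝ F 0
  have hF' : HasFDerivAt F F' 0 := (hFs.differentiableAt (by simp)).hasFDerivAt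
  have hμd : HasFDerivAt μ (F 0) 0 := (hμs.self_of_nhds.differentiableAt (by simp)).hasFDerivAt
  have hF0l : ∀ u : V, F 0 (u, 0) = u := by
    intro u
    have e1 : HasFDerivAt (fun y : V => μ (y, 0)) ((F 0).comp (ContinuousLinearMap.inl ℝ V V)) 0 :=
      HasFDerivAt.comp (0 : V) (g := μ) (f := fun y : V => (y, (0 : V))) hμd
        (hasFDerivAt_prodMk_left (0 : V) (0 : V))
    have e2 : HasFDerivAt (fun y : V => μ (y, 0)) (ContinuousLinearMap.id ℝ V) 0 :=
      (hasFDerivAt_id (0 : V)).congr_of_eventuallyEq hμ0'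
    exact DFunLike.congr_fun (e1.unique e2) u
  -- the action in the chart
  let α : V × E → E := fun z => Φ z.1 • z.2
  have hαs : SmN α (0, x₀) := by
    rw [← sm_iff_smN]
    have e1 : Sm 𝓘(ℝ, V × E) IG (fun z : V × E => Φ z.1) (0, x₀) :=
      Sm.comp (g := Φ) h.smooth (Sm.of contDiff_fst.contMDiff) rfl
    have e2 : Sm 𝓘(ℝ, V × E) 𝓘(ℝ, E) (fun z : V × E => z.2) (0, x₀) :=
      Sm.of contDiff_snd.contMDiff
    exact (sm_smul IG _).comp (e1.prodMk e2) rfl
  let P : V → E := fun y => Φ y • x₀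
  have hP0 : P 0 = x₀ := by
    show Φ 0 • x₀ = x₀
    rw [h.zero, one_smul]
  have hPs : SmN P 0 := by
    have c : Tendsto (fun y : V => (y, x₀)) (𝓝 0) (𝓝 (0, x₀)) := by
      have : ContinuousAt (fun y : V => (y, x₀)) 0 := by fun_prop
      exact this.tendsto
    filter_upwards [c.eventually hαs] with y hy
    exact ContDiffAt.comp y (g := α) (f := fun y : V => (y, x₀)) hy
      (contDiffAt_id.prodMk contDiffAt_const)
  have hPd : HasFDerivAt P ((infAct IG G x₀).comp (D : V →L[ℝ] EG)) 0 := by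
    let L : EG →L[ℝ] E := infAct IG G x₀
    have e1 : HasMFDerivAt IG 𝓘(ℝ, E) (fun g : G => g • x₀) (Φ 0) L := by
      rw [h.zero]; exact hasMFDerivAt_orbit G x₀
    have e2 : HasMFDerivAt 𝓘(ℝ, V) 𝓘(ℝ, E) (fun y : V => Φ y • x₀) 0
        (L.comp (D : V →L[ℝ] EG)) :=
      HasMFDerivAt.comp (0 : V) (g := fun g : G => g • x₀) (f := Φ) e1 hΦd
    exact hasMFDerivAt_iff_hasFDerivAt.1 e2
  have hP1 : fderiv ℝ P 0 = (infAct IG G x₀).comp (D : V →L[ℝ] EG) := hPd.fderiv
  have hP1ξ : fderiv ℝ P 0 ξ' = 0 := by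
    rw [hP1]
    show infAct IG G x₀ (D ξ') = 0
    rw [hξ']
    exact hξ
  have hP1η : fderiv ℝ P 0 η' = 0 := by
    rw [hP1]
    show infAct IG G x₀ (D η') = 0
    rw [hη']
    exact hη
  let P' : V → (V →L[ℝ] E) := fderiv ℝ P
  have hP's : ContDiffAt ℝ ∞ P' 0 := hPs.self_of_nhds.fderiv_right (m := ∞) (by simp)
  let P'' : V →L[ℝ] (V →L[ℝ] E) := fderiv ℝ P' 0
  have hP'' : HasFDerivAt P' P'' 0 := (hP's.differentiableAt (by simp)).hasFDerivAt
  have hPsymm : ∀ u v : V, P'' u v = P'' v u := by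
    have hs : IsSymmSndFDerivAt ℝ P 0 := by
      refine (hPs.self_of_nhds).isSymmSndFDerivAt ?_
      rw [minSmoothness_of_isRCLikeNormedField]
      exact (inferInstance : ENat.LEInfty (2 : ℕ∞ω)).out
    exact fun u v => hs u v
  -- the fundamental vector fields
  let X : V → E → E := fun u v => fderiv ℝ α (0, v) (u, 0)
  have hXd : ∀ u : V, DifferentiableAt ℝ (X u) x₀ := by
    intro u
    have e1 : ContDiffAt ℝ ∞ (fderiv ℝ α) (0, x₀) :=
      hαs.self_of_nhds.fderiv_right (m := ∞) (by simp)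
    have e2 : DifferentiableAt ℝ (fun v : E => fderiv ℝ α ((0 : V), v)) x₀ :=
      DifferentiableAt.comp x₀ (g := fderiv ℝ α) (f := fun v : E => ((0 : V), v))
        (e1.differentiableAt (by simp)) (by fun_prop)
    exact e2.clm_apply (differentiableAt_const _)
  have hid : ∀ u : V, ∀ᶠ y in 𝓝 (0 : V), P' y (F (0, y) (u, 0)) = X u (P y) := by
    intro u
    have cr : Tendsto (fun y : V => ((0 : V), y)) (𝓝 0) (𝓝 (0 : V × V)) := by
      have : ContinuousAt (fun y : V => ((0 : V), y)) 0 := by fun_prop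
      exact this.tendsto
    have cP : Tendsto (fun y : V => ((0 : V), P y)) (𝓝 0) (𝓝 ((0 : V), x₀)) := by
      have e1 := hPs.self_of_nhds.continuousAt.tendsto
      rw [hP0] at e1
      have e2 := (tendsto_const_nhds (x := (0 : V)) (f := 𝓝 (0 : V))).prodMk e1
      rwa [← nhds_prod_eq] at e2
    filter_upwards [cr.eventually hμs, hPs, cP.eventually hαs, hμ0,
      cr.eventually (h.tendsto_mul.eventually h.right_inv).eventually_nhds] with y h1 h2 h3 h4 h5
    have hl : Tendsto (fun x : V => (x, y)) (𝓝 0) (𝓝 ((0 : V), y)) := by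
      have : ContinuousAt (fun x : V => (x, y)) 0 := by fun_prop
      exact this.tendsto
    have hident : ∀ᶠ x in 𝓝 (0 : V), P (μ (x, y)) = α (x, P y) := by
      filter_upwards [hl.eventually h5] with x hx
      show Φ (Ψ (Φ x * Φ y)) • x₀ = Φ x • Φ y • x₀
      rw [hx, mul_smul]
    have d1 : HasFDerivAt (fun x : V => μ (x, y)) ((F (0, y)).comp
        (ContinuousLinearMap.inl ℝ V V)) 0 :=
      HasFDerivAt.comp (0 : V) (g := μ) (f := fun x : V => (x, y))
        (h1.differentiableAt (by simp)).hasFDerivAt (hasFDerivAt_prodMk_left (0 : V) y)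
    have d2 : HasFDerivAt P (P' y) (μ (0, y)) := by
      rw [h4]; exact (h2.differentiableAt (by simp)).hasFDerivAt
    have d3 : HasFDerivAt (fun x : V => P (μ (x, y))) ((P' y).comp ((F (0, y)).comp
        (ContinuousLinearMap.inl ℝ V V))) 0 :=
      HasFDerivAt.comp (0 : V) (g := P) (f := fun x : V => μ (x, y)) d2 d1
    have d4 : HasFDerivAt (fun x : V => α (x, P y)) ((fderiv ℝ α (0, P y)).comp
        (ContinuousLinearMap.inl ℝ V E)) 0 :=
      HasFDerivAt.comp (0 : V) (g := α) (f := fun x : V => (x, P y))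
        (h3.differentiableAt (by simp)).hasFDerivAt (hasFDerivAt_prodMk_left (0 : V) (P y))
    have d5 := (d3.congr_of_eventuallyEq (hident.mono fun x hx => hx.symm)).unique d4
    exact DFunLike.congr_fun d5 u
  have hkey : ∀ u w : V, fderiv ℝ P 0 w = 0 → P'' w u + P' 0 (F' (0, w) (u, 0)) = 0 := by
    intro u w hw
    have e1 : HasFDerivAt (fun y : V => F (0, y)) (F'.comp (ContinuousLinearMap.inr ℝ V V)) 0 :=
      HasFDerivAt.comp (0 : V) (g := F) (f := fun y : V => ((0 : V), y)) hF'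
        (hasFDerivAt_prodMk_right (0 : V) (0 : V))
    have e2 : HasFDerivAt (fun y : V => F (0, y) (u, 0))
        ((ContinuousLinearMap.apply ℝ V (u, (0 : V))).comp
          (F'.comp (ContinuousLinearMap.inr ℝ V V))) 0 :=
      (ContinuousLinearMap.apply ℝ V (u, (0 : V))).hasFDerivAt.comp (0 : V) e1
    have e3 := hP''.clm_apply e2
    have e4 : HasFDerivAt (fun y : V => X u (P y)) ((fderiv ℝ (X u) x₀).comp (P' 0)) 0 := by
      have e5 : HasFDerivAt (X u) (fderiv ℝ (X u) x₀) (P 0) := by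
        rw [hP0]; exact (hXd u).hasFDerivAt
      exact HasFDerivAt.comp (0 : V) (g := X u) (f := P) e5
        (hPs.self_of_nhds.differentiableAt (by simp)).hasFDerivAt
    have e6 := (e3.congr_of_eventuallyEq ((hid u).mono fun y hy => hy.symm)).unique e4
    have e7 := DFunLike.congr_fun e6 w
    have e8 : P' 0 (F' (0, w) (u, 0)) + P'' w (F ((0 : V), (0 : V)) (u, 0)) =
      fderiv ℝ (X u) x₀ (P' 0 w) := e7
    have e9 : P' 0 w = 0 := hw
    have e10 : F ((0 : V), (0 : V)) (u, 0) = u := hF0l u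
    rw [e9, map_zero, e10] at e8
    rw [add_comm]
    exact e8
  have k1 := hkey ξ' η' hP1η
  have k2 := hkey η' ξ' hP1ξ
  have k3 : P' 0 ζ' = 0 := by
    have e1 : F' (0, η') (ξ', 0) - F' (0, ξ') (η', 0) = ζ' := hcoord
    rw [← e1, map_sub, eq_neg_of_add_eq_zero_right k1, eq_neg_of_add_eq_zero_right k2,
      hPsymm η' ξ']
    abel
  have k4 : P' 0 ζ' = infAct IG G x₀ (D ζ') := DFunLike.congr_fun hP1 ζ'
  rw [k4, hζ'] at k3
  exact k3

/-- The isotropy algebra as a Lie subalgebra. -/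
def isoSub {Φ : V → G} {Ψ : G → V} (h : LocalChart IG Φ Ψ) (x₀ : E) :
    LieSubalgebra ℝ (GroupLieAlgebra IG G) where
  carrier := {ξ | infAct IG G x₀ ξ = 0}
  add_mem' := fun {a b} ha hb => by
    have ha' : infAct IG G x₀ (show EG from a) = 0 := ha
    have hb' : infAct IG G x₀ (show EG from b) = 0 := hb
    show infAct IG G x₀ ((show EG from a) + (show EG from b)) = 0
    rw [map_add, ha', hb', add_zero]
  zero_mem' := map_zero (infAct IG G x₀)
  smul_mem' := fun c a ha => by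
    have ha' : infAct IG G x₀ (show EG from a) = 0 := ha
    show infAct IG G x₀ (c • (show EG from a)) = 0
    rw [map_smul, ha', smul_zero]
  lie_mem' := fun {a b} ha hb => infAct_bracket h x₀ a b ha hb

variable {EB : Type*} [NormedAddCommGroup EB] [NormedSpace ℝ EB] {HB : Type*} [TopologicalSpace HB]
  {IB : ModelWithCorners ℝ EB HB} {B : Type*} [TopologicalSpace B] [ChartedSpace HB B]
  [FiniteDimensional ℝ E]

theorem GammaBar.stab_trivial {W : Type*} [NormedAddCommGroup W] [NormedSpace ℝ W]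
    [FiniteDimensional ℝ W] :
    ((GammaBar.trivial IB B V).stab W).Equal (GammaBar.trivial IB B (V × W)) :=
  fun _ => SameLeaves.refl _ _

/-- The structures defined by actions of a Lie group with solvable Lie algebra on vector spaces
whose dimension is at least that of the group are homotopically trivial. -/
theorem solvable_action (hs : LieAlgebra.IsSolvable (GroupLieAlgebra IG G))
    (k : GCocycle IB B IG G) {Φ : V → G} {Ψ : G → V} (h : LocalChart IG Φ Ψ)
    (hdim : Module.finrank ℝ EG ≤ Module.finrank ℝ E) (x : E) :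
    (ofPt k (fun z : G × E => z.1 • z.2) x (isLocalAction_smul IG x)).Homotopic
      (GammaBar.trivial IB B E) := by
  obtain ⟨x₀, -, hmax⟩ := exists_max_point (IG := IG) (G := G) (E := E) univ isOpen_univ
    univ_nonempty
  have h1 : LieAlgebra.IsSolvable (isoSub h x₀) :=
    Function.Injective.lieAlgebra_isSolvable (f := (isoSub h x₀).incl) Subtype.val_injective
  have hdim' : Module.finrank ℝ EG +
      Module.finrank ℝ (Fin (Module.finrank ℝ E - Module.finrank ℝ EG) → ℝ) =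
        Module.finrank ℝ E := by
    rw [Module.finrank_fin_fun]; omega
  obtain ⟨A, hA⟩ := core' k x₀ hmax (isoSub h x₀) h1 (fun ξ => Iff.rfl) h hdim'
  have e1 := (((ofPt_solvable hs k h).stab
    (W := Fin (Module.finrank ℝ E - Module.finrank ℝ EG) → ℝ)).trans
      (GammaBar.Homotopic.of_equal GammaBar.stab_trivial)).lin A
  exact (((slide_points k x x₀).trans hA).trans e1).trans
    (GammaBar.Homotopic.of_equal (GammaBar.trivial_lin A))

end Pool.Agent.MP_602746_gt
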