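import Mathlib
import Pool.Agent.MP_602746_gt.FlatFam
import Pool.Agent.MP_602746_gt.AdMain
import Pool.Agent.MP_602746_gt.Iso
import Pool.Agent.MP_602746_gt.FamInduce

open scoped Manifold ContDiff Topology
open Set Filter

noncomputable section

namespace Pool.Agent.MP_602746_gt

universe u v

section Ad

variable {EG : Type*} [NormedAddCommGroup EG] [NormedSpace ℝ EG] [FiniteDimensional ℝ EG]
  {HG : Type*} [TopologicalSpace HG]
  (IG : ModelWithCorners ℝ EG HG) (G : Type*) [TopologicalSpace G] [ChartedSpace HG G] [Group G]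
  [LieGroup IG ∞ G]

/-- The adjoint representation `G → GL(EG)` of a Lie group on its tangent space `EG` at `1`: the
derivative at `1` of the conjugation by `g` is `adj IG g`. -/
def Ad : G →* (EG →L[ℝ] EG)ˣ :=
  MonoidHom.toHomUnits
    { toFun := fun g => adj IG g
      map_one' := adj_one
      map_mul' := adj_mul }

theorem Ad_val (g : G) : ((Ad IG G g : (EG →L[ℝ] EG)ˣ) : EG →L[ℝ] EG) = adj IG g := rfl

theorem contMDiff_Ad : ContMDiff IG 𝓘(ℝ, EG →L[ℝ] EG) ∞ (Ad IG G) :=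
  ContMDiff.of_comp_isOpenEmbedding Units.isOpenEmbedding_val contMDiff_adj

end Ad

section ZeroSection

variable {V : Type*} [NormedAddCommGroup V] [NormedSpace ℝ V] [FiniteDimensional ℝ V]

instance completeV : CompleteSpace V := FiniteDimensional.complete ℝ V

variable {EM : Type*} [NormedAddCommGroup EM] [NormedSpace ℝ EM] {HM : Type*} [TopologicalSpace HM]
  {IM : ModelWithCorners ℝ EM HM} {M : Type*} [TopologicalSpace M] [ChartedSpace HM M]

/-- The Haefliger structure with trivialised normal bundle `M × V` given by the zero section of the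
flat vector bundle with fibre `V` defined by a structure modelled on `GL(V)`: near `(m, 0)`, its
leaves are the level sets of `(m', v) ↦ f i m' v`. -/
def LieStructure.zeroSection (𝓔 : LieStructure.{u} IM M 𝓘(ℝ, V →L[ℝ] V) (V →L[ℝ] V)ˣ) :
    GammaBar IM M V where
  F m := fun w => (((𝓔.f (𝓔.idx m) m)⁻¹ * 𝓔.f (𝓔.idx m) w.1 : (V →L[ℝ] V)ˣ) : V →L[ℝ] V) w.2
  smooth m := by
    have h := (GammaBar.ofAction 𝓔.cocycle (fun z : (V →L[ℝ] V)ˣ × V => z.1 • z.2)
      (fun _ => (0 : V)) contMDiff_const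
      (fun _ => isLocalAction_smul 𝓘(ℝ, V →L[ℝ] V) 0)).smooth m
    simp only [GammaBar.ofAction, LieStructure.cocycle, zero_add] at h
    exact h
  transverse m := by
    have h := (GammaBar.ofAction 𝓔.cocycle (fun z : (V →L[ℝ] V)ˣ × V => z.1 • z.2)
      (fun _ => (0 : V)) contMDiff_const
      (fun _ => isLocalAction_smul 𝓘(ℝ, V →L[ℝ] V) 0)).transverse m
    simp only [GammaBar.ofAction, LieStructure.cocycle, zero_add] at h
    exact h
  coherent m := by
    have h := (GammaBar.ofAction 𝓔.cocycle (fun z : (V →L[ℝ] V)ˣ × V => z.1 • z.2)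
      (fun _ => (0 : V)) contMDiff_const
      (fun _ => isLocalAction_smul 𝓘(ℝ, V →L[ℝ] V) 0)).coherent m
    simp only [GammaBar.ofAction, LieStructure.cocycle, zero_add] at h
    exact h

theorem zeroSection_ofPt (𝓔 : LieStructure.{u} IM M 𝓘(ℝ, V →L[ℝ] V) (V →L[ℝ] V)ˣ) :
    (ofPt 𝓔.cocycle (fun z : (V →L[ℝ] V)ˣ × V => z.1 • z.2) 0
      (isLocalAction_smul 𝓘(ℝ, V →L[ℝ] V) 0)).Equal 𝓔.zeroSection := by
  intro m
  refine SameLeaves.of_eventuallyEq (Eventually.of_forall fun w => ?_)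
  show (((𝓔.f (𝓔.idx m) m)⁻¹ * 𝓔.f (𝓔.idx m) w.1 : (V →L[ℝ] V)ˣ) : V →L[ℝ] V) w.2 =
    (((𝓔.f (𝓔.idx m) m)⁻¹ * 𝓔.f (𝓔.idx m) w.1 : (V →L[ℝ] V)ˣ) : V →L[ℝ] V) (0 + w.2)
  rw [zero_add]

/-- Structures which agree have the same zero section. -/
theorem zeroSection_agrees {𝓔 : LieStructure.{u} IM M 𝓘(ℝ, V →L[ℝ] V) (V →L[ℝ] V)ˣ}
    {𝓔' : LieStructure.{v} IM M 𝓘(ℝ, V →L[ℝ] V) (V →L[ℝ] V)ˣ} (h : 𝓔.Agrees 𝓔') :
    𝓔.zeroSection.Equal 𝓔'.zeroSection := by
  refine ((zeroSection_ofPt 𝓔).symm.trans ?_).trans (zeroSection_ofPt 𝓔')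
  refine ofPt_congr_cocycle (isLocalAction_smul 𝓘(ℝ, V →L[ℝ] V) 0) fun m => ?_
  filter_upwards [h.cocycle m] with m' hm'
  exact hm'.symm

/-- The zero sections of the members of a family of flat vector bundles are homotopic. -/
theorem flat_family (𝓔 : LieFamily.{u} IM M 𝓘(ℝ, V →L[ℝ] V) (V →L[ℝ] V)ˣ) :
    (𝓔.slice 0).zeroSection.Homotopic (𝓔.slice 1).zeroSection := by
  have e1 : ∀ t, (𝓔.slice t).zeroSection.Homotopic
      (ofPt (𝓔.gfam.slice t) (fun z : (V →L[ℝ] V)ˣ × V => z.1 • z.2) 0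
        (isLocalAction_smul 𝓘(ℝ, V →L[ℝ] V) 0)) := by
    intro t
    refine GammaBar.Homotopic.of_equal ((zeroSection_ofPt (𝓔.slice t)).symm.trans ?_)
    refine ofPt_congr_cocycle (isLocalAction_smul 𝓘(ℝ, V →L[ℝ] V) 0) fun m => ?_
    filter_upwards [𝓔.slice_cocycle t m] with m' hm'
    exact hm'.symm
  exact (e1 0).trans ((fam_linear 𝓔.gfam).trans (e1 1).symm)

variable {EH : Type*} [NormedAddCommGroup EH] [NormedSpace ℝ EH] [FiniteDimensional ℝ EH]
  {HH : Type*} [TopologicalSpace HH] {IH : ModelWithCorners ℝ EH HH}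
  {H : Type*} [TopologicalSpace H] [ChartedSpace HH H] [Group H] [LieGroup IH ∞ H]

/-- The zero section of a flat vector bundle induced from a linear representation of a Lie group
with solvable Lie algebra, of dimension at most the rank, is homotopically trivial. -/
theorem zeroSection_solvable (hs : LieAlgebra.IsSolvable (GroupLieAlgebra IH H))
    {V' : Type*} [NormedAddCommGroup V'] [NormedSpace ℝ V'] [FiniteDimensional ℝ V']
    {Φ : V' → H} {Ψ : H → V'} (h : LocalChart IH Φ Ψ)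
    (hdim : Module.finrank ℝ EH ≤ Module.finrank ℝ V)
    (α : H →* (V →L[ℝ] V)ˣ) (hα : ContMDiff IH 𝓘(ℝ, V →L[ℝ] V) ∞ α)
    (𝓗 : LieStructure.{u} IM M IH H) :
    (𝓗.map α hα).zeroSection.Homotopic (GammaBar.trivial IM M V) := by
  let _ : MulAction H V := MulAction.compHom V α
  have : ContMDiffSMul IH 𝓘(ℝ, V) ∞ H V :=
    MulAction.contMDiffSMul_compHom (f := α) hα
  have e1 := solvable_action (E := V) hs 𝓗.cocycle h hdim 0
  refine (GammaBar.Homotopic.of_equal ?_).trans e1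
  intro m
  refine SameLeaves.of_eventuallyEq (Eventually.of_forall fun w => ?_)
  show ((α ((𝓗.f (𝓗.idx m) m)⁻¹ * 𝓗.f (𝓗.idx m) w.1) : (V →L[ℝ] V)ˣ) : V →L[ℝ] V) (0 + w.2) =
    (((α (𝓗.f (𝓗.idx m) m))⁻¹ * α (𝓗.f (𝓗.idx m) w.1) : (V →L[ℝ] V)ˣ) : V →L[ℝ] V) w.2
  rw [map_mul, map_inv, zero_add]

end ZeroSection

section Main

variable {EG : Type*} [NormedAddCommGroup EG] [NormedSpace ℝ EG] [FiniteDimensional ℝ EG]
  {HG : Type*} [TopologicalSpace HG]
  {IG : ModelWithCorners ℝ EG HG} {G : Type*} [TopologicalSpace G] [ChartedSpace HG G] [Group G]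
  [LieGroup IG ∞ G]
  {EM : Type*} [NormedAddCommGroup EM] [NormedSpace ℝ EM] {HM : Type*} [TopologicalSpace HM]
  {IM : ModelWithCorners ℝ EM HM} {M : Type*} [TopologicalSpace M] [ChartedSpace HM M]
  {V : Type*} [NormedAddCommGroup V] [NormedSpace ℝ V] [FiniteDimensional ℝ V]

theorem adjoint_equal (𝓕 : LieStructure.{u} IM M IG G) :
    𝓕.adjoint.Equal (𝓕.map (Ad IG G) (contMDiff_Ad IG G)).zeroSection := by
  intro m
  refine SameLeaves.of_eventuallyEq (Eventually.of_forall fun w => ?_)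
  show (((Ad IG G (𝓕.f (𝓕.idx m) m))⁻¹ * Ad IG G (𝓕.f (𝓕.idx m) w.1) : (EG →L[ℝ] EG)ˣ) :
      EG →L[ℝ] EG) w.2 = adj IG ((𝓕.f (𝓕.idx m) m)⁻¹ * 𝓕.f (𝓕.idx m) w.1) w.2
  rw [← map_inv, ← map_mul]
  rfl

/-- The homotopy class of a structure modelled on a Lie group depends, up to a constant linear
change of the trivialisation, only on the deformation class of the flat adjoint bundle. -/
theorem flat_main (𝓕 : LieStructure.{u} IM M IG G)
    (ψ : PartialDiffeomorph 𝓘(ℝ, V) IG V G ∞) (h0 : (0 : V) ∈ ψ.source) (h1 : ψ 0 = 1)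
    (𝓔 : LieFamily.{v} IM M 𝓘(ℝ, EG →L[ℝ] EG) (EG →L[ℝ] EG)ˣ)
    (h : (𝓔.slice 0).Agrees (𝓕.map (Ad IG G) (contMDiff_Ad IG G))) :
    ∃ A : V ≃L[ℝ] EG, (𝓕.haefliger ψ h0).Homotopic ((𝓔.slice 1).zeroSection.lin A) := by
  obtain ⟨A, hA⟩ := adjoint_main 𝓕 ψ h0 h1
  refine ⟨A, hA.trans (GammaBar.Homotopic.lin ?_ A)⟩
  exact (GammaBar.Homotopic.of_equal ((adjoint_equal 𝓕).trans (zeroSection_agrees h).symm)).trans
    (flat_family 𝓔)

variable {EH : Type*} [NormedAddCommGroup EH] [NormedSpace ℝ EH] [FiniteDimensional ℝ EH]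
  {HH : Type*} [TopologicalSpace HH] {IH : ModelWithCorners ℝ EH HH}
  {H : Type*} [TopologicalSpace H] [ChartedSpace HH H] [Group H] [LieGroup IH ∞ H]
  {V' : Type*} [NormedAddCommGroup V'] [NormedSpace ℝ V'] [FiniteDimensional ℝ V']

/-- If the flat adjoint bundle can be deformed, through flat vector bundles, to one induced from a
solvable group of dimension at most `dim G`, then the structure is homotopically trivial. -/
theorem flat_trivial (𝓕 : LieStructure.{u} IM M IG G)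
    (ψ : PartialDiffeomorph 𝓘(ℝ, V) IG V G ∞) (h0 : (0 : V) ∈ ψ.source) (h1 : ψ 0 = 1)
    (hs : LieAlgebra.IsSolvable (GroupLieAlgebra IH H))
    (ψH : PartialDiffeomorph 𝓘(ℝ, V') IH V' H ∞) (hH0 : (0 : V') ∈ ψH.source) (hH1 : ψH 0 = 1)
    (hdim : Module.finrank ℝ EH ≤ Module.finrank ℝ EG)
    (α : H →* (EG →L[ℝ] EG)ˣ) (hα : ContMDiff IH 𝓘(ℝ, EG →L[ℝ] EG) ∞ α)
    (𝓗 : LieStructure IM M IH H)
    (𝓔 : LieFamily.{v} IM M 𝓘(ℝ, EG →L[ℝ] EG) (EG →L[ℝ] EG)ˣ)
    (h : (𝓔.slice 0).Agrees (𝓕.map (Ad IG G) (contMDiff_Ad IG G)))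
    (h' : (𝓔.slice 1).Agrees (𝓗.map α hα)) :
    (𝓕.haefliger ψ h0).Homotopic (GammaBar.trivial IM M V) := by
  obtain ⟨A, hA⟩ := flat_main 𝓕 ψ h0 h1 𝓔 h
  have e1 : (𝓔.slice 1).zeroSection.Homotopic (GammaBar.trivial IM M EG) :=
    (GammaBar.Homotopic.of_equal (zeroSection_agrees h')).trans
      (zeroSection_solvable hs (localChart_of_pd ψH hH0 hH1) hdim α hα 𝓗)
  exact (hA.trans (e1.lin A)).trans (GammaBar.Homotopic.of_equal (GammaBar.trivial_lin A))

end Main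

end Pool.Agent.MP_602746_gt
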