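import Mathlib
import Pool.Agent.MP_602746_gt.Final

open scoped Manifold ContDiff Topology

noncomputable section

namespace Pool.Agent.MP_602746_gt

universe u v w

/-- The trivial action on a point. -/
local instance trivialAction (G : Type*) [Group G] : MulAction G PUnit.{v+1} where
  smul _ _ := PUnit.unit
  one_smul _ := rfl
  mul_smul _ _ _ := rfl

local instance {EG : Type*} [NormedAddCommGroup EG] [NormedSpace ℝ EG]
    {HG : Type*} [TopologicalSpace HG] (IG : ModelWithCorners ℝ EG HG)
    (G : Type*) [TopologicalSpace G] [ChartedSpace HG G] [Group G] :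
    ContMDiffSMul IG 𝓘(ℝ, PUnit.{v+1}) ∞ G PUnit.{v+1} where
  contMDiff_smul := contMDiff_const (c := PUnit.unit)

/-- The case in which `X` is a point: if the Lie algebra of `G` is solvable, then every structure
transversely modelled on `G`, in particular every `G`-Lie foliation, is homotopically trivial. -/
theorem solvable_case
    {EG : Type u} [NormedAddCommGroup EG] [NormedSpace ℝ EG] [FiniteDimensional ℝ EG]
    {HG : Type u} [TopologicalSpace HG] {IG : ModelWithCorners ℝ EG HG}
    {G : Type u} [TopologicalSpace G] [ChartedSpace HG G] [Group G] [LieGroup IG ∞ G]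
    (hs : LieAlgebra.IsSolvable (GroupLieAlgebra IG G))
    {W : Type v} [NormedAddCommGroup W] [NormedSpace ℝ W] [FiniteDimensional ℝ W]
    (ψG : PartialDiffeomorph 𝓘(ℝ, PUnit.{v+1} × W) IG (PUnit.{v+1} × W) G ∞)
    (hG : (0 : PUnit.{v+1} × W) ∈ ψG.source) (h1 : ψG 0 = 1)
    {EM : Type w} [NormedAddCommGroup EM] [NormedSpace ℝ EM]
    {HM : Type w} [TopologicalSpace HM] {IM : ModelWithCorners ℝ EM HM}
    {M : Type w} [TopologicalSpace M] [ChartedSpace HM M]
    (𝓕 : LieStructure IM M IG G) :
    (𝓕.haefliger ψG hG).Homotopic (GammaBar.trivial IM M (PUnit.{v+1} × W)) := by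
  have hs' : LieAlgebra.IsSolvable (⊤ : LieSubalgebra ℝ (GroupLieAlgebra IG G)) := inferInstance
  let ψX : PartialDiffeomorph 𝓘(ℝ, PUnit.{v+1}) 𝓘(ℝ, PUnit.{v+1}) PUnit.{v+1} PUnit.{v+1} ∞ :=
    { toFun := id
      invFun := id
      source := Set.univ
      target := Set.univ
      map_source' := fun _ _ => Set.mem_univ _
      map_target' := fun _ _ => Set.mem_univ _
      left_inv' := fun _ _ => rfl
      right_inv' := fun _ _ => rfl
      open_source := isOpen_univ
      open_target := isOpen_univ
      contMDiffOn_toFun := contMDiff_id.contMDiffOn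
      contMDiffOn_invFun := contMDiff_id.contMDiffOn }
  have key := destabilise (IG := IG) (G := G) (IX := 𝓘(ℝ, PUnit.{v+1})) (X := PUnit.{v+1})
    PUnit.unit (⊤ : LieSubalgebra ℝ (GroupLieAlgebra IG G)) hs'
    (fun ξ => ⟨fun _ => Subsingleton.elim (α := PUnit.{v+1}) _ _, fun _ => LieSubalgebra.mem_top ξ⟩)
    ψX (Set.mem_univ _) rfl ψG hG h1
    (fun u w => Subsingleton.elim (α := PUnit.{v+1}) _ _) 𝓕
  have heq : GammaBar.trivial IM M (PUnit.{v+1} × W) =
      (𝓕.haefliger ψX (Set.mem_univ (0 : PUnit.{v+1}))).stab W := rfl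
  rw [heq]
  exact key

end Pool.Agent.MP_602746_gt
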